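import Pool.Agent.FQU.Res
import Pool.Agent.FQ.ExpStab

/-!
# The group generated by exponentials on a stable subspace (PACKAGE FT6)

Proof. Show by `Subgroup.closure_induction` for `u ∈ expG ℂ g`: `u` and `u⁻¹` preserve `W` and there is
`u' ∈ expG ℂ (res p g)` with `(u' w : ι → ℂ) = u.mulVec w` for all `w : W` (then
`u'⁻¹ w = u⁻¹.mulVec w` follows: apply `u`). For a generator: `IsExp ℂ N (u : Matrix ι ι ℂ)`, `N ∈ g`,
`N ^ k = 0`, `u = ∑ i < k, (i !)⁻¹ • N ^ i`: `N` preserves `W`, so do its powers, so does `u`; as `u` is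
invertible and `W` is finite-dimensional `u` maps `W` bijectively onto `W`, so `u⁻¹` preserves `W`.
The unit `u'` of `End ℂ W` is `∑ i < k, (i !)⁻¹ • (rm p N) ^ i`, which is the restriction of `u`
(`rm_apply`, induction on `i` for the powers), with the inverse the restriction of `u⁻¹`;
`(rm p N) ^ k = 0`. So `u'` is a generator of `expG ℂ (res p g)`. `1`, products and inverses are clear.
Then for `x ∈ g` and `w : W`: `u x u⁻¹` preserves `W`, and both sides send `w` to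
`u.mulVec (x.mulVec (u⁻¹.mulVec w))` (`rm_apply`). -/

set_option autoImplicit false
set_option linter.unusedSectionVars false

namespace Pool.Agent.FQU

open Module
open Pool.Agent.FQ (expG IsExp)

variable {ι : Type} [Fintype ι] [DecidableEq ι]
  {g : Submodule ℂ (Matrix ι ι ℂ)} {W : Submodule ℂ (ι → ℂ)} {p : (ι → ℂ) →ₗ[ℂ] W}

private theorem rm_sum (s : Finset ℕ) (f : ℕ → Matrix ι ι ℂ) :
    rm p (∑ i ∈ s, f i) = ∑ i ∈ s, rm p (f i) := by
  unfold rm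
  rw [map_sum, map_sum]

private theorem pow_stab {N : Matrix ι ι ℂ} (hN : ∀ w ∈ W, N.mulVec w ∈ W) (i : ℕ) :
    ∀ w ∈ W, (N ^ i).mulVec w ∈ W := by
  induction i with
  | zero =>
    intro w hw
    rwa [pow_zero, Matrix.one_mulVec]
  | succ i ih =>
    intro w hw
    rw [pow_succ, ← Matrix.mulVec_mulVec]
    exact ih _ (hN w hw)

private theorem rm_pow (P : Prj g W p) {N : Matrix ι ι ℂ} (hN : ∀ w ∈ W, N.mulVec w ∈ W)
    (i : ℕ) : rm p (N ^ i) = rm p N ^ i := by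
  induction i with
  | zero => rw [pow_zero, pow_zero, rm_one P]
  | succ i ih => rw [pow_succ, pow_succ, rm_mul P (pow_stab hN i) hN, ih]

private theorem inv_stab {u : (Matrix ι ι ℂ)ˣ}
    (hu : ∀ w ∈ W, (u : Matrix ι ι ℂ).mulVec w ∈ W) :
    ∀ w ∈ W, ((u⁻¹ : (Matrix ι ι ℂ)ˣ) : Matrix ι ι ℂ).mulVec w ∈ W := by
  have hcan : ∀ v, ((u⁻¹ : (Matrix ι ι ℂ)ˣ) : Matrix ι ι ℂ).mulVec
      ((u : Matrix ι ι ℂ).mulVec v) = v := by
    intro v
    rw [Matrix.mulVec_mulVec, Units.inv_mul, Matrix.one_mulVec]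
  have hinj : Function.Injective (Matrix.toLin' (u : Matrix ι ι ℂ)) := by
    intro a b hab
    rw [Matrix.toLin'_apply, Matrix.toLin'_apply] at hab
    rw [← hcan a, hab, hcan b]
  have hle : W.map (Matrix.toLin' (u : Matrix ι ι ℂ)) ≤ W := by
    rintro _ ⟨w, hw, rfl⟩
    rw [Matrix.toLin'_apply]
    exact hu w hw
  have heq : W.map (Matrix.toLin' (u : Matrix ι ι ℂ)) = W :=
    Submodule.eq_of_le_of_finrank_eq hle
      (LinearEquiv.finrank_eq (Submodule.equivMapOfInjective _ hinj W)).symm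
  intro w hw
  rw [← heq] at hw
  obtain ⟨w', hw', rfl⟩ := hw
  rw [Matrix.toLin'_apply, hcan]
  exact hw'

private theorem exp_key (P : Prj g W p) (hW : ∀ x ∈ g, ∀ w ∈ W, x.mulVec w ∈ W)
    {u : (Matrix ι ι ℂ)ˣ} (hu : u ∈ expG ℂ g) :
    (∀ w ∈ W, (u : Matrix ι ι ℂ).mulVec w ∈ W) ∧
    (∀ w ∈ W, ((u⁻¹ : (Matrix ι ι ℂ)ˣ) : Matrix ι ι ℂ).mulVec w ∈ W) ∧
    ∃ u' : (End ℂ W)ˣ, u' ∈ expG (A := End ℂ W) ℂ (res p g) ∧
      (u' : End ℂ W) = rm p (u : Matrix ι ι ℂ) ∧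
      ((u'⁻¹ : (End ℂ W)ˣ) : End ℂ W) = rm p ((u⁻¹ : (Matrix ι ι ℂ)ˣ) : Matrix ι ι ℂ) := by
  unfold expG at hu
  induction hu using Subgroup.closure_induction with
  | mem u hu =>
    obtain ⟨N, hN, k, hk, hx⟩ := hu
    have hNW := hW N hN
    have h1 : ∀ w ∈ W, (u : Matrix ι ι ℂ).mulVec w ∈ W := by
      intro w hw
      rw [hx, Matrix.sum_mulVec]
      refine W.sum_mem fun i _ => ?_
      rw [Matrix.smul_mulVec]
      exact W.smul_mem _ (pow_stab hNW i w hw)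
    have h2 := inv_stab h1
    refine ⟨h1, h2, ⟨rm p u, rm p ((u⁻¹ : (Matrix ι ι ℂ)ˣ) : Matrix ι ι ℂ), ?_, ?_⟩, ?_,
      rfl, rfl⟩
    · rw [← rm_mul P h1 h2, Units.mul_inv, rm_one P]
    · rw [← rm_mul P h2 h1, Units.inv_mul, rm_one P]
    · refine Subgroup.subset_closure ⟨rm p N, rm_mem hN, k, ?_, ?_⟩
      · rw [← rm_pow P hNW, hk]
        unfold rm
        rw [map_zero, map_zero]
      · change rm p (u : Matrix ι ι ℂ) = _
        rw [hx, rm_sum]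
        refine Finset.sum_congr rfl fun i _ => ?_
        rw [rm_smul, rm_pow P hNW]
  | one =>
    refine ⟨fun w hw => ?_, fun w hw => ?_, 1, one_mem _, ?_, ?_⟩
    · rwa [Units.val_one, Matrix.one_mulVec]
    · rwa [inv_one, Units.val_one, Matrix.one_mulVec]
    · rw [Units.val_one, Units.val_one, rm_one P]
    · rw [inv_one, inv_one, Units.val_one, Units.val_one, rm_one P]
  | mul a b _ _ ha hb =>
    obtain ⟨a1, a2, a', a3, a4, a5⟩ := ha
    obtain ⟨b1, b2, b', b3, b4, b5⟩ := hb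
    refine ⟨fun w hw => ?_, fun w hw => ?_, a' * b', mul_mem a3 b3, ?_, ?_⟩
    · rw [Units.val_mul, ← Matrix.mulVec_mulVec]
      exact a1 _ (b1 w hw)
    · rw [mul_inv_rev, Units.val_mul, ← Matrix.mulVec_mulVec]
      exact b2 _ (a2 w hw)
    · rw [Units.val_mul, Units.val_mul, rm_mul P a1 b1, a4, b4]
    · rw [mul_inv_rev, mul_inv_rev, Units.val_mul, Units.val_mul, rm_mul P b2 a2, a5, b5]
  | inv a _ ha =>
    obtain ⟨a1, a2, a', a3, a4, a5⟩ := ha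
    refine ⟨a2, ?_, a'⁻¹, inv_mem a3, a5, ?_⟩
    · rwa [inv_inv]
    · rw [inv_inv, inv_inv, a4]

theorem exp_res (P : Prj g W p) (hW : ∀ x ∈ g, ∀ w ∈ W, x.mulVec w ∈ W) {u : (Matrix ι ι ℂ)ˣ}
    (hu : u ∈ expG ℂ g) :
    ∃ u' : (End ℂ W)ˣ, u' ∈ expG (A := End ℂ W) ℂ (res p g) ∧ ∀ x ∈ g,
      rm p ((u : Matrix ι ι ℂ) * x * ((u⁻¹ : (Matrix ι ι ℂ)ˣ) : Matrix ι ι ℂ)) =
        (u' : End ℂ W) * rm p x * ((u'⁻¹ : (End ℂ W)ˣ) : End ℂ W) := by
  obtain ⟨h1, h2, u', h3, h4, h5⟩ := exp_key P hW hu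
  refine ⟨u', h3, fun x hx => ?_⟩
  have h6 : ∀ w ∈ W, ((u : Matrix ι ι ℂ) * x).mulVec w ∈ W := fun w hw => by
    rw [← Matrix.mulVec_mulVec]
    exact h1 _ (hW x hx w hw)
  rw [rm_mul P h6 h2, rm_mul P h1 (hW x hx), h4, h5]

/-- The group generated by exponentials preserves `g`. -/
theorem exp_mem (hlie : ∀ x ∈ g, ∀ y ∈ g, x * y - y * x ∈ g) {u : (Matrix ι ι ℂ)ˣ}
    (hu : u ∈ expG ℂ g) {x : Matrix ι ι ℂ} (hx : x ∈ g) :
    (u : Matrix ι ι ℂ) * x * ((u⁻¹ : (Matrix ι ι ℂ)ˣ) : Matrix ι ι ℂ) ∈ g :=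
  FQ.conj_mem hlie hu hx

end Pool.Agent.FQU
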