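import Pool.Agent.FQU.Bas
import Pool.Agent.FQU.ExpRes
import Pool.Agent.FQU.Mv

/-!
# The lattices for the embeddings: reflections, touching (PACKAGE FT9)

Everything is obtained from the theorems for `TD` in `Pool/Agent/FQA` (`Iface.lean`, `Link.lean`) applied
to a frame `F : Frame R Φ g σ W p v` from `exists_frame M H hI σ`: `T := td M H hI F.irr F.prj : TD (res p g)
(res p (tor Φ))`, `F.hv M`, `F.nontrivial` and `F.lv M : Lv (res p (tor Φ)) v = Ls R Φ σ`.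

`lat`: `T.lat v (F.hv M)`, rewritten by `F.lv M`.

`touch_ex`: `rm p e` is an idempotent in `res p (tor Φ)` with the values `rs R Φ σ (ev Φ e)` on `v`
(`rm_apply`, `ev_apply`, `F.bas`): this is the lemma `rm_val`. It is neither `0` nor `1` because it
has the values `0` at `μ` and `1` at `ν`. `T.touch_ex` gives a root `f` of `Ls R Φ σ`, extend it to `F'` by
`exists_rts`.

`touch_cn`: `exp_res` gives `u'` with `rm p e' = u' * rm p e * u'⁻¹`; `T.touch_cn`. -/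

set_option autoImplicit false
set_option linter.unusedSectionVars false

namespace Pool.Agent.FQU

open Module
open Pool.Agent.CoprimeSig (ratM endo mem_endo Cartan)
open Pool.Agent.FQA (TD Cn)
open Pool.Agent.NumRank (Lv)
open Pool.Agent.PrimePow.CC (Rf Rt Lat)
open Pool.Agent.FQ (expG)

variable {ι : Type} [Fintype ι] [DecidableEq ι] {E : Type} [CommRing E]
  {R : E →+* Matrix ι ι ℚ} {Φ : Matrix ι ι ℚ} {σ : E →+* ℂ} {c : E → E}
  {g : Submodule ℂ (Matrix ι ι ℂ)} {ψ : Matrix ι ι ℂ} {W : Submodule ℂ (ι → ℂ)}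
  {p : (ι → ℂ) →ₗ[ℂ] W} {v : Basis (Om R Φ σ) ℂ W}

/-- The values of an idempotent of the torus on the basis of a frame. -/
theorem rm_val (F : Frame R Φ g σ W p v) (M : Mono R c Φ g ψ) {e : Matrix ι ι ℂ} (he : e ∈ tor Φ)
    (hee : e * e = e) : rm p e ∈ res p (tor Φ) ∧ rm p e * rm p e = rm p e ∧
      ∀ μ, rm p e (v μ) = (rs R Φ σ (ev Φ e) μ : ℂ) • v μ := by
  have hW : ∀ w ∈ W, e.mulVec w ∈ W := F.irr.1 e (M.le he)
  refine ⟨rm_mem he, ?_, fun μ => ?_⟩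
  · rw [← rm_mul F.prj hW hW, hee]
  · apply Subtype.ext
    rw [rm_apply F.prj hW, ev_apply he hee (F.bas μ)]
    rfl

theorem lat [Algebra ℚ E] [Module.Finite ℚ E] [IsReduced E] (M : Mono R c Φ g ψ) (H : IsFrob R Φ) (hI : Idem Φ)
    (σ : E →+* ℂ) : Lat (Ls R Φ σ) := by
  obtain ⟨W, p, v, F⟩ := exists_frame M H hI σ
  have hnt := F.nontrivial
  have T := td M H hI F.irr F.prj
  have h := T.lat v (F.hv M)
  rwa [F.lv M] at h

theorem touch_ex [Algebra ℚ E] [Module.Finite ℚ E] [IsReduced E] (M : Mono R c Φ g ψ) (H : IsFrob R Φ) (hI : Idem Φ)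
    (σ : E →+* ℂ) {e : Matrix ι ι ℂ} (he : e ∈ tor Φ) (hee : e * e = e) {μ ν : ℂ}
    (hμ : μ ∈ Om R Φ σ) (hν : ν ∈ Om R Φ σ) (h0 : ev Φ e μ = 0) (h1 : ev Φ e ν = 1) :
    ∃ F', Rts R Φ σ F' ∧ rs R Φ σ (ev Φ e) ⬝ᵥ rs R Φ σ F' ≠ 0 := by
  obtain ⟨W, p, v, F⟩ := exists_frame M H hI σ
  have hnt := F.nontrivial
  have T := td M H hI F.irr F.prj
  obtain ⟨h2, h3, h4⟩ := rm_val F M he hee
  have hne0 : rm p e ≠ 0 := by
    intro h5
    have h6 := h4 ⟨ν, hν⟩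
    rw [h5, LinearMap.zero_apply, rs_apply, h1, Rat.cast_one, one_smul] at h6
    exact v.ne_zero _ h6.symm
  have hne1 : rm p e ≠ 1 := by
    intro h5
    have h6 := h4 ⟨μ, hμ⟩
    rw [h5, Module.End.one_apply, rs_apply, h0, Rat.cast_zero, zero_smul] at h6
    exact v.ne_zero _ h6
  obtain ⟨f, hf, hf0⟩ := T.touch_ex v (F.hv M) h2 h3 hne0 hne1 h4
  rw [F.lv M] at hf
  obtain ⟨F', hF', rfl⟩ := exists_rts hf
  exact ⟨F', hF', hf0⟩

theorem touch_cn [Algebra ℚ E] [Module.Finite ℚ E] [IsReduced E] (M : Mono R c Φ g ψ) (H : IsFrob R Φ) (hI : Idem Φ)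
    (σ : E →+* ℂ) {e e' : Matrix ι ι ℂ} (he : e ∈ tor Φ) (hee : e * e = e) (he' : e' ∈ tor Φ)
    {u : (Matrix ι ι ℂ)ˣ} (hu : u ∈ expG ℂ g)
    (hue : e' = (u : Matrix ι ι ℂ) * e * ((u⁻¹ : (Matrix ι ι ℂ)ˣ) : Matrix ι ι ℂ))
    {F₁ F₂ : ℂ → ℚ} (h1 : Rts R Φ σ F₁) (h2 : rs R Φ σ (ev Φ e) ⬝ᵥ rs R Φ σ F₁ ≠ 0)
    (h3 : Rts R Φ σ F₂) (h4 : rs R Φ σ (ev Φ e') ⬝ᵥ rs R Φ σ F₂ ≠ 0) : Cns R Φ σ F₁ F₂ := by
  obtain ⟨W, p, v, F⟩ := exists_frame M H hI σ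
  have hnt := F.nontrivial
  have T := td M H hI F.irr F.prj
  have hee' : e' * e' = e' := by
    have h5 : ((u⁻¹ : (Matrix ι ι ℂ)ˣ) : Matrix ι ι ℂ) * (u : Matrix ι ι ℂ) = 1 := u.inv_mul
    calc e' * e' = (u : Matrix ι ι ℂ) * e *
          (((u⁻¹ : (Matrix ι ι ℂ)ˣ) : Matrix ι ι ℂ) * (u : Matrix ι ι ℂ)) * e *
          ((u⁻¹ : (Matrix ι ι ℂ)ˣ) : Matrix ι ι ℂ) := by rw [hue]; noncomm_ring
      _ = (u : Matrix ι ι ℂ) * (e * e) * ((u⁻¹ : (Matrix ι ι ℂ)ˣ) : Matrix ι ι ℂ) := by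
        rw [h5]; noncomm_ring
      _ = e' := by rw [hee, hue]
  obtain ⟨a1, a2, a3⟩ := rm_val F M he hee
  obtain ⟨b1, b2, b3⟩ := rm_val F M he' hee'
  obtain ⟨u', hu', hconj⟩ := exp_res F.prj F.irr.1 hu
  have h5 := hconj e (M.le he)
  rw [← hue] at h5
  have h6 := T.touch_cn v (F.hv M) a1 a2 b1 b2 hu' h5 a3 b3
    (by rw [F.lv M]; exact h1.rt) h2 (by rw [F.lv M]; exact h3.rt) h4
  rw [F.lv M] at h6
  exact h6

end Pool.Agent.FQU
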