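import Pool.Agent.FQU.Trans
import Pool.Agent.FQU.RealT

/-!
# The idempotents are balanced (PACKAGE FU6)

`sm R Φ σ F` is the sum of the values of `F` on `Om R Φ σ`; for an idempotent `e` of the torus it
is the trace of `e` on an irreducible subspace of `HS R σ`. We show that it is half of the
dimension.

Proofs.

`sm_mv`, `card_cp`: the bijection `omE` (`rs_mv`; `Equiv.sum_comp`, `Fintype.card_congr`).

`trace_rm`: `rm_val F M he hee` gives the values on the basis; `FQA.trace_dg`.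

`sm_conj`: take a frame `F` for `σ` (`exists_frame M H hI σ`); by `exp_res F.prj F.irr.1 hu` `rm p
e' = u' * rm p e * u'⁻¹`, so the traces are equal (`LinearMap.trace_mul_comm`); `trace_rm` for `e`
and for `e'` (`conj_idem`); cast to `ℚ`.

`ev_conj`: `map_eq_one_sub H he hee htr` for `τ = starRingAut` gives `e.map τ = 1 - e`. By
`ev_map` `ev Φ (e.map τ) μ = ev Φ e (τ.symm μ)`, `τ.symm μ = conj μ`; and `ev Φ (1 - e) μ = 1 - ev
Φ e μ` for an eigenvalue `μ` (apply `ev_apply` to both idempotents and an eigenvector).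

`sm_dual`: `Om R Φ (cp starRingAut σ)` is the set of the conjugates of the elements of `Om R Φ σ`
(`omE`), and `ev_conj`.

`two_sm`: `C₀` with `e = e₀`, `τ = τ₀`. First `sm R Φ (cp τ₀ σ') (ev Φ e₀) = sm R Φ σ' (ev Φ e₀)`
for all `σ'`: by `C₀.conj` and `sm_conj` `sm (cp τ₀ σ') (ev Φ e₀) = sm (cp τ₀ σ') (ev Φ (e₀.map
τ₀))`, and `ev Φ (e₀.map τ₀) = mv τ₀ (ev Φ e₀)` (`ev_map`), so it is `sm σ' (ev Φ e₀)` by `sm_mv`.
By induction the same holds for `τ₀ ^ k`. The homomorphism `cp starRingAut σ` has the same kernel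
as `σ`, so by `hcyc` it is `cp (τ₀ ^ k) σ` for some `k` (see the proof of `all_cn` in
`FQT/Trans.lean` for `τ ^ k` and `τ ^[k]`). So `sm (cp starRingAut σ) (ev Φ e₀) = sm σ (ev Φ e₀)`,
and `sm_dual` gives the claim (`htr` for `e₀`: `trace_of_mult`).

`bal_of`: for `x ∈ orbit Φ g₀ e₀`, `x = e'.map γ`, `e' = u e₀ u⁻¹ ∈ tor Φ`: `x` is an idempotent
in `tor Φ` (`map_mem_tor`, `conj_idem`), its trace is `γ (trace e₀)`, `2 * trace e₀ = card ι`, so
`2 * x.trace = card ι` (see `orbit_mem` in `Pool/Agent/FQT/Full.lean`), and `sm σ (ev Φ x) = sm σ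
(mv γ (ev Φ e')) = sm (cp γ.symm σ) (ev Φ e') = sm (cp γ.symm σ) (ev Φ e₀)` (`sm_mv`, `sm_conj`),
which is half of `card (Om R Φ (cp γ.symm σ)) = card (Om R Φ σ)`. -/

set_option autoImplicit false
set_option linter.unusedSectionVars false

namespace Pool.Agent.FQU

open Module
open Pool.Agent.CoprimeSig (ratM)
open Pool.Agent.FQ (expG)

variable {ι : Type} [Fintype ι] [DecidableEq ι] {E : Type} [CommRing E]
  {R : E →+* Matrix ι ι ℚ} {Φ : Matrix ι ι ℚ} {σ : E →+* ℂ} {c : E → E}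
  {g : Submodule ℂ (Matrix ι ι ℂ)} {ψ : Matrix ι ι ℂ} {W : Submodule ℂ (ι → ℂ)}
  {p : (ι → ℂ) →ₗ[ℂ] W} {v : Basis (Om R Φ σ) ℂ W}

/-- The sum of the values. -/
noncomputable def sm (R : E →+* Matrix ι ι ℚ) (Φ : Matrix ι ι ℚ) (σ : E →+* ℂ) (F : ℂ → ℚ) : ℚ :=
  ∑ μ : Om R Φ σ, rs R Φ σ F μ

/-- The Lie algebra of the torus is spanned by idempotents which have the multiplier one and whose
trace on the irreducible subspaces is half of the dimension. -/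
def Bal (R : E →+* Matrix ι ι ℚ) (Φ : Matrix ι ι ℚ) : Prop :=
  tor Φ ≤ Submodule.span ℂ {e : Matrix ι ι ℂ | e ∈ tor Φ ∧ e * e = e ∧
    2 * e.trace = Fintype.card ι ∧
    ∀ σ : E →+* ℂ, 2 * sm R Φ σ (ev Φ e) = Fintype.card (Om R Φ σ)}

theorem Bal.idem (hB : Bal R Φ) : Idem Φ :=
  hB.trans (Submodule.span_mono fun _ he => ⟨he.1, he.2.1⟩)

theorem sm_mv (γ : ℂ ≃+* ℂ) (F : ℂ → ℚ) : sm R Φ (cp γ σ) (mv γ F) = sm R Φ σ F := by
  unfold sm
  rw [← Equiv.sum_comp (omE R Φ γ σ)]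
  exact Finset.sum_congr rfl fun μ _ => congrFun rs_mv μ

theorem card_cp (γ : ℂ ≃+* ℂ) :
    Fintype.card (Om R Φ (cp γ σ)) = Fintype.card (Om R Φ σ) :=
  Fintype.card_congr (omE R Φ γ σ).symm

theorem trace_rm (F : Frame R Φ g σ W p v) (M : Mono R c Φ g ψ) {e : Matrix ι ι ℂ}
    (he : e ∈ tor Φ) (hee : e * e = e) :
    LinearMap.trace ℂ W (rm p e) = ((sm R Φ σ (ev Φ e) : ℚ) : ℂ) :=
  FQA.trace_dg v (rm_val F M he hee).2.2

/-- The multiplier is determined by the trace. -/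
theorem mult_of_trace [Nonempty ι] (M : Mono R c Φ g ψ) {e : Matrix ι ι ℂ} (he : e ∈ g)
    (htr : 2 * e.trace = Fintype.card ι) : e.transpose * ψ + ψ * e = ψ := by
  obtain ⟨κ, hκ⟩ := M.sim e he
  have h1 := trace_mult M.unit hκ
  rw [htr] at h1
  have h2 : ((Fintype.card ι : ℕ) : ℂ) ≠ 0 := by
    rw [Nat.cast_ne_zero]
    exact Fintype.card_ne_zero
  have h3 : κ = 1 := by
    have h4 : (κ - 1) * (Fintype.card ι : ℂ) = 0 := by linear_combination -h1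
    rcases mul_eq_zero.1 h4 with h5 | h5
    · exact sub_eq_zero.1 h5
    · exact absurd h5 h2
  rw [hκ, h3, one_smul]

theorem trace_of_mult (M : Mono R c Φ g ψ) {e : Matrix ι ι ℂ}
    (h : e.transpose * ψ + ψ * e = ψ) : 2 * e.trace = Fintype.card ι := by
  have h1 := trace_mult (κ := 1) M.unit (by rw [one_smul]; exact h)
  rwa [one_mul] at h1

theorem ev_conj (H : IsFrob R Φ) {e : Matrix ι ι ℂ} (he : e ∈ tor Φ) (hee : e * e = e)
    (htr : 2 * e.trace = Fintype.card ι) {μ : ℂ}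
    (hμ : Module.End.HasEigenvalue (Matrix.toLin' (ratM Φ)) μ) :
    ev Φ e (starRingEnd ℂ μ) = 1 - ev Φ e μ := by
  have h1 : e.map (starRingAut : ℂ ≃+* ℂ) = 1 - e :=
    map_eq_one_sub H he hee htr (τ := starRingAut) fun _ _ => rfl
  have h2 : (starRingAut : ℂ ≃+* ℂ).symm μ = starRingEnd ℂ μ := by
    apply (starRingAut : ℂ ≃+* ℂ).injective
    rw [RingEquiv.apply_symm_apply]
    exact (star_star μ).symm
  have h3 := ev_map Φ e (starRingAut : ℂ ≃+* ℂ) μ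
  rw [h2, h1] at h3
  rw [← h3]
  have h4 : (1 - e) ∈ tor Φ := by
    rw [← h1]
    exact map_mem_tor he _ H.diag
  have h5 : (1 - e) * (1 - e) = 1 - e := by
    rw [mul_sub, sub_mul, sub_mul, one_mul, mul_one, one_mul, hee, sub_self, sub_zero]
  obtain ⟨v, hv, hv0⟩ := hμ.exists_hasEigenvector
  have h6 : (ratM Φ).mulVec v = μ • v := by
    have := Module.End.mem_eigenspace_iff.1 hv
    rwa [Matrix.toLin'_apply] at this
  have h7 := ev_apply h4 h5 h6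
  have h8 := ev_apply he hee h6
  rw [Matrix.sub_mulVec, Matrix.one_mulVec, h8] at h7
  have h9 : ((1 : ℂ) - (ev Φ e μ : ℂ) - (ev Φ (1 - e) μ : ℂ)) • v = 0 := by
    rw [sub_smul, sub_smul, one_smul, h7, sub_self]
  have h10 := (smul_eq_zero.1 h9).resolve_right hv0
  have h11 : ((ev Φ (1 - e) μ : ℚ) : ℂ) = ((1 - ev Φ e μ : ℚ) : ℂ) := by
    push_cast
    linear_combination -h10
  exact_mod_cast h11

theorem sm_dual (H : IsFrob R Φ) {e : Matrix ι ι ℂ} (he : e ∈ tor Φ) (hee : e * e = e)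
    (htr : 2 * e.trace = Fintype.card ι) (σ : E →+* ℂ) :
    sm R Φ (cp starRingAut σ) (ev Φ e) + sm R Φ σ (ev Φ e) = Fintype.card (Om R Φ σ) := by
  unfold sm
  rw [← Equiv.sum_comp (omE R Φ starRingAut σ), ← Finset.sum_add_distrib]
  have h1 : ∀ μ : Om R Φ σ, rs R Φ (cp starRingAut σ) (ev Φ e) (omE R Φ starRingAut σ μ) +
      rs R Φ σ (ev Φ e) μ = 1 := by
    intro μ
    have h2 := ev_conj H he hee htr (hasEigenvalue_of_mem μ.2)
    rw [rs_apply, rs_apply, omE_apply]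
    have h3 : (starRingAut : ℂ ≃+* ℂ) (μ : ℂ) = starRingEnd ℂ μ := rfl
    rw [h3, h2]
    ring
  rw [Finset.sum_congr rfl fun μ _ => h1 μ]
  simp

variable [Algebra ℚ E] [Module.Finite ℚ E] [IsReduced E]

theorem sm_conj (M : Mono R c Φ g ψ) (H : IsFrob R Φ) (hI : Idem Φ) (σ : E →+* ℂ)
    {e e' : Matrix ι ι ℂ} (he : e ∈ tor Φ) (hee : e * e = e) (he' : e' ∈ tor Φ)
    {u : (Matrix ι ι ℂ)ˣ} (hu : u ∈ expG ℂ g)
    (hue : e' = (u : Matrix ι ι ℂ) * e * ((u⁻¹ : (Matrix ι ι ℂ)ˣ) : Matrix ι ι ℂ)) :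
    sm R Φ σ (ev Φ e') = sm R Φ σ (ev Φ e) := by
  obtain ⟨W, p, v, F⟩ := exists_frame M H hI σ
  obtain ⟨u', -, hconj⟩ := exp_res F.prj F.irr.1 hu
  have h1 := hconj e (M.le he)
  rw [← hue] at h1
  have h2 := trace_rm F M he hee
  have h3 := trace_rm F M he' (conj_idem hee hue)
  have h4 : LinearMap.trace ℂ W (rm p e') = LinearMap.trace ℂ W (rm p e) := by
    rw [h1, LinearMap.trace_mul_comm, ← mul_assoc]
    have h5 : ((u'⁻¹ : (End ℂ W)ˣ) : End ℂ W) * (u' : End ℂ W) = 1 := u'.inv_mul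
    rw [h5, one_mul]
  rw [h2, h3] at h4
  exact_mod_cast h4

private theorem bl_pow (τ : ℂ ≃+* ℂ) (k : ℕ) (z : ℂ) : (τ ^ k) z = (τ ^[k]) z := by
  induction k generalizing z with
  | zero => rfl
  | succ k ih =>
    rw [pow_succ, Function.iterate_succ_apply, ← ih]
    rfl

theorem two_sm (H : IsFrob R Φ) (hI : Idem Φ) {τ₀ : ℂ ≃+* ℂ}
    {g₀ : Submodule ℂ (Matrix ι ι ℂ)} {ψ₀ e₀ : Matrix ι ι ℂ}
    (M₀ : Mono R c Φ g₀ ψ₀) (C₀ : Coch Φ g₀ ψ₀ τ₀ e₀)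
    (σ : E →+* ℂ) (hcyc : Cyc τ₀ σ) : 2 * sm R Φ σ (ev Φ e₀) = Fintype.card (Om R Φ σ) := by
  obtain ⟨u, hu, hue⟩ := C₀.conj
  have h1 : ∀ σ' : E →+* ℂ, sm R Φ (cp τ₀ σ') (ev Φ e₀) = sm R Φ σ' (ev Φ e₀) := by
    intro σ'
    have h2 := sm_conj M₀ H hI (cp τ₀ σ') C₀.mem C₀.idem (map_mem_tor C₀.mem τ₀ H.diag) hu hue
    rw [← h2]
    have h3 : ev Φ (e₀.map τ₀) = mv τ₀ (ev Φ e₀) := funext fun μ => ev_map Φ e₀ τ₀ μ
    rw [h3, sm_mv]
  have h2 : ∀ (k : ℕ) (σ' : E →+* ℂ),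
      sm R Φ (cp (τ₀ ^ k) σ') (ev Φ e₀) = sm R Φ σ' (ev Φ e₀) := by
    intro k
    induction k with
    | zero =>
      intro σ'
      rw [pow_zero, cp_one]
    | succ k ih =>
      intro σ'
      rw [pow_succ, cp_mul, ih, h1]
  obtain ⟨k, hk⟩ := hcyc σ (cp starRingAut σ) (fun _ => Iff.rfl) fun a => by
    rw [cp_apply]
    exact map_eq_zero_iff (starRingAut : ℂ ≃+* ℂ)
      (starRingAut : ℂ ≃+* ℂ).injective
  have h3 : cp starRingAut σ = cp (τ₀ ^ k) σ := by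
    ext a
    rw [hk a, cp_apply, bl_pow]
  have h4 := sm_dual H C₀.mem C₀.idem (trace_of_mult M₀ C₀.mult) σ
  rw [h3, h2] at h4
  rw [two_mul, h4]

private theorem bl_orbit (hΦ : ⨆ μ, Module.End.eigenspace (Matrix.toLin' (ratM Φ)) μ = ⊤)
    {e x : Matrix ι ι ℂ} (hee : e * e = e) (hx : x ∈ orbit Φ g e) :
    x ∈ tor Φ ∧ x * x = x ∧ (2 * e.trace = Fintype.card ι → 2 * x.trace = Fintype.card ι) := by
  obtain ⟨e', he', ⟨u, -, hu⟩, γ, rfl⟩ := hx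
  have h1 : e' * e' = e' := conj_idem hee hu
  have hmap : ∀ A B : Matrix ι ι ℂ, (A * B).map γ = A.map γ * B.map γ := fun A B =>
    Matrix.map_mul (f := (γ : ℂ →+* ℂ))
  refine ⟨map_mem_tor he' γ hΦ, by rw [← hmap, h1], fun htr => ?_⟩
  have h2 : e'.trace = e.trace := by
    rw [hu, Matrix.trace_mul_comm, ← mul_assoc, Units.inv_mul, one_mul]
  have h3 : (e'.map γ).trace = γ e'.trace := by
    rw [Matrix.trace, Matrix.trace, map_sum]
    rfl
  rw [h3, h2]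
  have h4 := congrArg γ htr
  rw [map_mul, map_natCast] at h4
  have h5 : γ 2 = 2 := by
    have := map_natCast γ 2
    exact_mod_cast this
  rwa [h5] at h4

theorem bal_of (H : IsFrob R Φ) {τ₀ : ℂ ≃+* ℂ}
    {g₀ : Submodule ℂ (Matrix ι ι ℂ)} {ψ₀ e₀ : Matrix ι ι ℂ}
    (M₀ : Mono R c Φ g₀ ψ₀) (C₀ : Coch Φ g₀ ψ₀ τ₀ e₀)
    (hsm : ∀ σ : E →+* ℂ, 2 * sm R Φ σ (ev Φ e₀) = Fintype.card (Om R Φ σ))
    (hspan : tor Φ ≤ Submodule.span ℂ (orbit Φ g₀ e₀)) : Bal R Φ := by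
  have hI : Idem Φ := by
    refine hspan.trans (Submodule.span_mono fun x hx => ?_)
    obtain ⟨h1, h2, -⟩ := bl_orbit H.diag C₀.idem hx
    exact ⟨h1, h2⟩
  refine hspan.trans (Submodule.span_mono fun x hx => ?_)
  obtain ⟨h1, h2, h3⟩ := bl_orbit H.diag C₀.idem hx
  refine ⟨h1, h2, h3 (trace_of_mult M₀ C₀.mult), fun σ => ?_⟩
  obtain ⟨e', he', ⟨u, hu, hue⟩, γ, rfl⟩ := hx
  have h4 : ev Φ (e'.map γ) = mv γ (ev Φ e') := funext fun μ => ev_map Φ e' γ μ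
  have h5 : cp γ (cp γ.symm σ) = σ := by
    ext a
    simp [cp_apply]
  have h6 : sm R Φ σ (mv γ (ev Φ e')) = sm R Φ (cp γ.symm σ) (ev Φ e') := by
    have h7 := sm_mv (R := R) (Φ := Φ) (σ := cp γ.symm σ) γ (ev Φ e')
    rwa [h5] at h7
  have h7 : Fintype.card (Om R Φ σ) = Fintype.card (Om R Φ (cp γ.symm σ)) := by
    have h8 := card_cp (R := R) (Φ := Φ) (σ := cp γ.symm σ) γ
    rw [h5] at h8
    exact h8
  rw [h4, h6, sm_conj M₀ H hI (cp γ.symm σ) C₀.mem C₀.idem he' hu hue,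
    hsm (cp γ.symm σ), h7]

end Pool.Agent.FQU
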