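import Pool.Agent.FQU.Bal

/-!
# The trace on the irreducible subspaces (PACKAGE FU7)

`bal`: Both sides are linear in `x`: for `x ∈ g` let `κ(x) = 2 * x.trace / card ι`; by `trace_mult M.unit` the multiplier of `x` is
`κ(x)` (`ι` is not empty because `W ≠ ⊥`). So it is enough to show `2 * trace (rm p x) = κ(x) * finrank W` for `x` in a set which
spans `g`: root vectors (`mem_span_roots (cartan M H)`, see the proof of `span_idp` in `Pool/Agent/FQT/SpanG.lean`). Let `z` be a
root vector with root `α`. If `α` is zero on `tor Φ` then `z` commutes with `tor Φ`, so `z ∈ tor Φ` (`M.cent`) and it is in the span of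
the idempotents `e` from `hB`, for which `trace_rm` (with a frame `F` of `W`: `exists_basis M H hI hW P hσ`; `F.card`) gives
the claim; `Idem Φ` follows from `hB`. If `α(τ) ≠ 0` for a `τ ∈ tor Φ` then `z = α(τ)⁻¹ [τ, z]` is a commutator and both
traces are zero (`rm_mul`). -/

set_option autoImplicit false
set_option linter.unusedSectionVars false

namespace Pool.Agent.FQU

open Module
open Pool.Agent.CoprimeSig (ratM endo mem_endo Cartan IsRoot mem_span_roots)
open Pool.Agent.FQ (expG)

variable {ι : Type} [Fintype ι] [DecidableEq ι] {E : Type} [CommRing E]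
  {R : E →+* Matrix ι ι ℚ} {Φ : Matrix ι ι ℚ} {σ : E →+* ℂ} {c : E → E}
  {g : Submodule ℂ (Matrix ι ι ℂ)} {ψ : Matrix ι ι ℂ} {W : Submodule ℂ (ι → ℂ)}
  {p : (ι → ℂ) →ₗ[ℂ] W} {v : Basis (Om R Φ σ) ℂ W}

/-- **The trace on an irreducible subspace is given by the multiplier.** -/
theorem bal (M : Mono R c Φ g ψ) (H : IsFrob R Φ) (hB : Bal R Φ) (hW : Irr g W) (P : Prj g W p)
    (hσ : W ≤ HS R σ) {x : Matrix ι ι ℂ} (hx : x ∈ g) {κ : ℂ}
    (hκ : x.transpose * ψ + ψ * x = κ • ψ) :
    2 * LinearMap.trace ℂ W (rm p x) = κ * finrank ℂ W := by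
  obtain ⟨v, F⟩ := exists_basis M H hB.idem hW P hσ
  have hnt : Nontrivial W := F.nontrivial
  have hne : Nonempty ι := by
    by_contra hcon
    rw [not_nonempty_iff] at hcon
    obtain ⟨w, hw⟩ := exists_ne (0 : W)
    exact hw (Subtype.ext (funext fun i => hcon.elim i))
  have hN : ((Fintype.card ι : ℕ) : ℂ) ≠ 0 := by
    rw [Nat.cast_ne_zero]
    exact Fintype.card_ne_zero
  have hC := cartan M H
  have c0 : LinearMap.trace ℂ W (rm p (0 : Matrix ι ι ℂ)) * Fintype.card ι =
      (0 : Matrix ι ι ℂ).trace * finrank ℂ W := by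
    have h2 : rm p (0 : Matrix ι ι ℂ) = 0 := by
      unfold rm
      rw [map_zero, map_zero]
    rw [h2, map_zero, Matrix.trace_zero, zero_mul, zero_mul]
  have cadd : ∀ a b : Matrix ι ι ℂ,
      LinearMap.trace ℂ W (rm p a) * Fintype.card ι = a.trace * finrank ℂ W →
      LinearMap.trace ℂ W (rm p b) * Fintype.card ι = b.trace * finrank ℂ W →
      LinearMap.trace ℂ W (rm p (a + b)) * Fintype.card ι = (a + b).trace * finrank ℂ W := by
    intro a b ha hb
    rw [rm_add, map_add, Matrix.trace_add, add_mul, add_mul, ha, hb]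
  have csmul : ∀ (r : ℂ) (a : Matrix ι ι ℂ),
      LinearMap.trace ℂ W (rm p a) * Fintype.card ι = a.trace * finrank ℂ W →
      LinearMap.trace ℂ W (rm p (r • a)) * Fintype.card ι = (r • a).trace * finrank ℂ W := by
    intro r a ha
    rw [rm_smul, map_smul, Matrix.trace_smul, smul_eq_mul, smul_eq_mul, mul_assoc, ha, mul_assoc]
  have ctor : ∀ z ∈ tor Φ,
      LinearMap.trace ℂ W (rm p z) * Fintype.card ι = z.trace * finrank ℂ W := by
    intro z hz
    have h2 := hB hz
    clear hz
    induction h2 using Submodule.span_induction with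
    | mem e he =>
      obtain ⟨he, hee, htr, hs⟩ := he
      have h1 := trace_rm F M he hee
      have h3 : 2 * ((sm R Φ σ (ev Φ e) : ℚ) : ℂ) = finrank ℂ W := by
        rw [← F.card]
        exact_mod_cast hs σ
      rw [h1]
      linear_combination (Fintype.card ι : ℂ) / 2 * h3 - (finrank ℂ W : ℂ) / 2 * htr
    | zero => exact c0
    | add a b _ _ ha hb => exact cadd a b ha hb
    | smul r a _ ha => exact csmul r a ha
  have key : ∀ z : Matrix ι ι ℂ, (∃ α, IsRoot (endo g) (endo (tor Φ)) α (Matrix.toLin' z)) →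
      LinearMap.trace ℂ W (rm p z) * Fintype.card ι = z.trace * finrank ℂ W := by
    rintro z ⟨α, hz⟩
    have hzg : z ∈ g := mem_endo.1 hz.mem
    have hroot : ∀ x ∈ tor Φ, x * z - z * x = α (Matrix.toLin' x) • z := by
      intro x hx
      have h1 := hz.root _ (mem_endo.2 hx)
      have h2 : Matrix.toLin' (x * z - z * x) = Matrix.toLin' (α (Matrix.toLin' x) • z) := by
        rw [map_sub, map_smul, Matrix.toLin'_mul, Matrix.toLin'_mul]
        exact h1
      exact (Matrix.toLin' (R := ℂ)).injective h2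
    by_cases hα : ∃ τ ∈ tor Φ, α (Matrix.toLin' τ) ≠ 0
    · obtain ⟨τ, hτ, h0⟩ := hα
      have h1 := hroot τ hτ
      have h3 : z.trace = 0 := by
        have h4 : (τ * z - z * τ).trace = 0 := by
          rw [Matrix.trace_sub, Matrix.trace_mul_comm, sub_self]
        rw [h1, Matrix.trace_smul, smul_eq_mul] at h4
        exact (mul_eq_zero.1 h4).resolve_left h0
      have h5 : LinearMap.trace ℂ W (rm p z) = 0 := by
        have h6 : τ * z = z * τ + α (Matrix.toLin' τ) • z := by
          rw [← h1]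
          abel
        have h4 : LinearMap.trace ℂ W (rm p (τ * z)) =
            LinearMap.trace ℂ W (rm p (z * τ + α (Matrix.toLin' τ) • z)) := by rw [h6]
        rw [rm_add, map_add, rm_smul, map_smul, smul_eq_mul,
          rm_mul P (hW.1 τ (M.le hτ)) (hW.1 z hzg),
          rm_mul P (hW.1 z hzg) (hW.1 τ (M.le hτ)),
          LinearMap.trace_mul_comm ℂ (rm p τ) (rm p z)] at h4
        have h7 : α (Matrix.toLin' τ) * LinearMap.trace ℂ W (rm p z) = 0 := by
          linear_combination -h4
        exact (mul_eq_zero.1 h7).resolve_left h0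
      rw [h3, h5, zero_mul, zero_mul]
    · push Not at hα
      refine ctor z (M.cent z hzg fun y hy => ?_)
      have h1 := hroot y hy
      rw [hα y hy, zero_smul] at h1
      exact (sub_eq_zero.1 h1).symm
  have h2 : ∀ y ∈ Submodule.span ℂ {z | ∃ α, IsRoot (endo g) (endo (tor Φ)) α z},
      LinearMap.trace ℂ W (rm p (LinearMap.toMatrix' y)) * Fintype.card ι =
        (LinearMap.toMatrix' y).trace * finrank ℂ W := by
    intro y hy
    induction hy using Submodule.span_induction with
    | mem z hz =>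
      apply key
      obtain ⟨α, hα⟩ := hz
      exact ⟨α, by rwa [Matrix.toLin'_toMatrix']⟩
    | zero =>
      rw [map_zero]
      exact c0
    | add a b _ _ ha hb =>
      rw [map_add]
      exact cadd _ _ ha hb
    | smul r a _ ha =>
      rw [map_smul]
      exact csmul _ _ ha
  have h3 := h2 _ (mem_span_roots hC (mem_endo.2 hx))
  rw [LinearMap.toMatrix'_toLin'] at h3
  have h4 := trace_mult M.unit hκ
  apply mul_right_cancel₀ hN
  linear_combination 2 * h3 + (finrank ℂ W : ℂ) * h4

/-- An idempotent of multiplier one in the torus is not a scalar on the eigenspaces. -/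
theorem ns_of_mult [Algebra ℚ E] [Module.Finite ℚ E] [IsReduced E] (M : Mono R c Φ g ψ) (H : IsFrob R Φ) (hB : Bal R Φ) {e : Matrix ι ι ℂ}
    (he : e ∈ tor Φ) (hee : e * e = e) (hmul : e.transpose * ψ + ψ * e = ψ) : Ns R Φ e := by
  intro σ
  obtain ⟨W, p, v, F⟩ := exists_frame M H hB.idem σ
  have hnt : Nontrivial W := F.nontrivial
  have h1 := bal M H hB F.irr F.prj F.le (M.le he) (κ := 1) (by rw [one_smul]; exact hmul)
  rw [trace_rm F M he hee, one_mul, ← F.card] at h1
  have h2 : 2 * sm R Φ σ (ev Φ e) = Fintype.card (Om R Φ σ) := by exact_mod_cast h1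
  have hpos : 0 < Fintype.card (Om R Φ σ) := by
    rw [F.card]
    exact finrank_pos
  have hpos' : (0 : ℚ) < Fintype.card (Om R Φ σ) := by exact_mod_cast hpos
  have h0 : ¬ ∀ μ : Om R Φ σ, ev Φ e μ = 1 := by
    intro h
    have h3 : sm R Φ σ (ev Φ e) = Fintype.card (Om R Φ σ) := by
      have h4 : rs R Φ σ (ev Φ e) = fun _ => 1 := funext h
      unfold sm
      rw [h4, Finset.sum_const, nsmul_eq_mul, mul_one, Finset.card_univ]
    rw [h3] at h2
    linarith
  have h1' : ¬ ∀ μ : Om R Φ σ, ev Φ e μ = 0 := by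
    intro h
    have h3 : sm R Φ σ (ev Φ e) = 0 := by
      have h4 : rs R Φ σ (ev Φ e) = fun _ => 0 := funext h
      unfold sm
      rw [h4, Finset.sum_const_zero]
    rw [h3] at h2
    linarith
  push Not at h0 h1'
  obtain ⟨μ, hμ⟩ := h0
  obtain ⟨ν, hν⟩ := h1'
  exact ⟨μ, μ.2, ν, ν.2, (ev_or Φ e μ).resolve_right hμ, (ev_or Φ e ν).resolve_left hν⟩

end Pool.Agent.FQU
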