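import Pool.Agent.FQU.Irrs
import Pool.Agent.OddRank.TraceND

/-!
# The torus on an irreducible subspace is self-centralising (PACKAGE FT4)

Proof of `cartan`: `Cartan (endo g) (endo (tor Φ))` on the whole space. `comm`, `diag`: from
`EllSig.exists_ft Φ H.diag` (its `t` is `tor Φ` by the first property); `lie`, `nd`: `M.lie`, `M.nd`
(trace of `toLin'`: `Matrix.trace_toLin'_eq` or see `cartan` in `Pool/Agent/EllSig/Lef.lean`, private
there, which has exactly this statement for a submodule `t`: copy it with `t = tor Φ`); `le`: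
`M.le`; `cent`: `M.cent`.

Proof of `cartan_res`. `res p g` is the image of `g` under `rm p`, multiplicative on `g` (`rm_mul`).
`comm`: clear. `diag`: `W` is stable under `Φ` (`frob_mem`) and `Φ` is diagonalisable, so its
restriction to `W` is diagonalisable (`Module.End.iSup_eigenspace_restrict` or
`LinearMap.IsSemisimple.restrict`; or: choose a common eigenbasis differently, e.g. `W` is the image of
`p`, the images `p b_i` of an eigenbasis `b` of `Φ` span `W` and are eigenvectors, as `p` commutes with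
`g` and so with `tor Φ` and with `Φ`: choose a basis of `W` among them,
`Basis.ofSpan` / `exists_linearIndependent`); an eigenvector of `Φ` is an
eigenvector of all elements of `tor Φ` (`exists_scalar`). `lie`: clear.
`nd`: `OddRank.trace_nondeg (res p g) lie irr`. `le`: `M.le`.
`cent`: let `x ∈ g`, and `rm p x` commute with `rm p τ` for all `τ ∈ tor Φ`. By `CoprimeSig.mem_span_roots
(cartan M H)` (grep it) `x` is a finite sum of root vectors `z_i` with roots `α_i`. Claim: for every
`x ∈ g` which is a sum of root vectors there is a decomposition `x = x₀ + ∑ j ∈ J, z_j`, where `x₀` is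
the sum of the root vectors with a root which is zero on `tor Φ` - so `x₀` commutes with `tor Φ`, so
`x₀ ∈ tor Φ` - and the others have a root not zero on `tor Φ`; we may assume that different `z_j` have
roots which are different on `tor Φ` (add those with the same root). It suffices to show
`rm p (∑ z_j) = 0`, as then `rm p x = rm p x₀`. Choose `τ ∈ tor Φ` such that all `α_j(τ) ≠ 0`
(a vector space over an infinite field is not a finite union of proper subspaces:
`Submodule.iUnion_ne_univ_of_finite` or `Subspace.exists_...`, or an induction). Then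
`[rm τ, rm x] = ∑ α_j(τ) rm z_j = 0`, where `rm z_j` is an eigenvector (or zero) of `ad (rm τ)` with the
eigenvalue `α_j(τ) ≠ 0`. Vectors from eigenspaces with nonzero eigenvalues whose weighted sum is
zero: group by the eigenvalue `λ` (independence of eigenspaces): `λ ∑_{α_j(τ) = λ} rm z_j = 0`, so
`∑_{α_j(τ) = λ} rm z_j = 0`; sum over `λ`: `∑ rm z_j = 0`.
A slicker way: let `D` be the operator `y ↦ [rm τ, y]` on `End W` and `D' = [τ, ·]` on `End V`: by the
choice of `τ` the element `x - x₀` is in the sum of the eigenspaces of `D'` on `g` with nonzero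
eigenvalues, so there is a polynomial `q` without constant term, `q(D') (x - x₀) = x - x₀` (Lagrange
interpolation: `q(λ) = 1` at the finitely many `λ = α_j(τ)`, `q(0) = 0`). Apply `rm p`:
`rm (x - x₀) = q(D) rm (x - x₀)`, and `D rm(x - x₀) = D rm x - D rm x₀ = 0`, so `q(D) rm (x - x₀) = 0`. -/

set_option autoImplicit false
set_option linter.unusedSectionVars false

namespace Pool.Agent.FQU

open Module
open Pool.Agent.CoprimeSig (ratM endo mem_endo Cartan)
open Pool.Agent.TypeIV.MX (rst rst_apply rst_mul)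

section Abstract

variable {V : Type} [AddCommGroup V] [Module ℂ V] [FiniteDimensional ℂ V]

/-- The bracket with `τ`. -/
private def br (τ : End ℂ V) : End ℂ (End ℂ V) :=
  LinearMap.mulLeft ℂ τ - LinearMap.mulRight ℂ τ

private theorem br_apply (τ y : End ℂ V) : br τ y = τ * y - y * τ := rfl

private theorem aeval_mem {G : Submodule ℂ (End ℂ V)} {τ : End ℂ V}
    (hG : ∀ y ∈ G, br τ y ∈ G) (q : Polynomial ℂ) {y : End ℂ V} (hy : y ∈ G) :
    Polynomial.aeval (br τ) q y ∈ G := by
  have h1 : ∀ n : ℕ, ((br τ) ^ n) y ∈ G := by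
    intro n
    induction n with
    | zero => exact hy
    | succ n ih =>
      rw [pow_succ', Module.End.mul_apply]
      exact hG _ ih
  induction q using Polynomial.induction_on' with
  | add a b ha hb =>
    rw [map_add, LinearMap.add_apply]
    exact G.add_mem ha hb
  | monomial n c =>
    rw [Polynomial.aeval_monomial, Module.End.mul_apply]
    exact G.smul_mem c (h1 n)

private theorem aeval_rst {G : Submodule ℂ (End ℂ V)} {τ : End ℂ V}
    (hG : ∀ y ∈ G, br τ y ∈ G) (hτ : τ ∈ G) {W : Submodule ℂ V} {p : V →ₗ[ℂ] W}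
    (hp : ∀ w : W, p w = w) (hst : ∀ x ∈ G, ∀ w ∈ W, x w ∈ W) {X : End ℂ V} (hX : X ∈ G)
    (hc : rst p X * rst p τ = rst p τ * rst p X) (q : Polynomial ℂ) :
    rst p (Polynomial.aeval (br τ) q X) = q.eval 0 • rst p X := by
  have h0 : ∀ y ∈ G, rst p (br τ y) = rst p τ * rst p y - rst p y * rst p τ := by
    intro y hy
    rw [br_apply, map_sub, rst_mul hp (hst τ hτ) (hst y hy), rst_mul hp (hst y hy) (hst τ hτ)]
  have h1 : ∀ n : ℕ, ((br τ) ^ n) X ∈ G ∧
      rst p (((br τ) ^ n) X) = (if n = 0 then (1 : ℂ) else 0) • rst p X := by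
    intro n
    induction n with
    | zero =>
      refine ⟨hX, ?_⟩
      rw [if_pos rfl, one_smul]
      rfl
    | succ n ih =>
      rw [pow_succ', Module.End.mul_apply]
      refine ⟨hG _ ih.1, ?_⟩
      rw [h0 _ ih.1, ih.2, if_neg (Nat.succ_ne_zero n), zero_smul, mul_smul_comm, smul_mul_assoc,
        hc, sub_self]
  induction q using Polynomial.induction_on' with
  | add a b ha hb =>
    rw [map_add, LinearMap.add_apply, map_add, ha, hb, Polynomial.eval_add, add_smul]
  | monomial n c =>
    rw [Polynomial.aeval_monomial, Module.End.mul_apply, Polynomial.eval_monomial]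
    change rst p (c • ((br τ) ^ n) X) = _
    rw [map_smul, (h1 n).2, smul_smul]
    congr 2
    rcases n with _ | n
    · simp
    · simp

/-- The centraliser of the torus in a quotient comes from the torus. -/
private theorem lift_cent {G t : Submodule ℂ (End ℂ V)} (C : Cartan G t) {W : Submodule ℂ V}
    {p : V →ₗ[ℂ] W} (hp : ∀ w : W, p w = w) (hst : ∀ x ∈ G, ∀ w ∈ W, x w ∈ W) {X : End ℂ V}
    (hX : X ∈ G) (hc : ∀ τ ∈ t, rst p X * rst p τ = rst p τ * rst p X) :
    ∃ z ∈ t, rst p z = rst p X := by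
  classical
  obtain ⟨I, _, v, hv⟩ := C.diag
  let co : I → I → End ℂ V →ₗ[ℂ] ℂ := fun i j =>
    (v.coord i).comp (LinearMap.applyₗ (v j))
  have hco : ∀ i j y, co i j y = v.coord i (y (v j)) := fun i j y => rfl
  let f : I × I → Dual ℂ (End ℂ V) := fun q => co q.1 q.1 - co q.2 q.2
  have hf : ∀ q y, f q y = co q.1 q.1 y - co q.2 q.2 y := fun q y => rfl
  -- the elements of `t` are diagonal
  have hdiag : ∀ τ ∈ t, ∀ i, τ (v i) = co i i τ • v i := by
    intro τ hτ i
    obtain ⟨c, hcc⟩ := hv τ hτ i
    rw [hco, hcc, map_smul, Basis.coord_apply, Basis.repr_self, Finsupp.single_eq_same,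
      smul_eq_mul, mul_one]
  have hbr : ∀ τ ∈ t, ∀ i j y, co i j (br τ y) = f (i, j) τ * co i j y := by
    intro τ hτ i j y
    have h1 : v.coord i (τ (y (v j))) = co i i τ * v.coord i (y (v j)) := by
      conv_lhs => rw [← v.sum_repr (y (v j)), map_sum, map_sum]
      rw [Finset.sum_eq_single i]
      · rw [map_smul, map_smul, hdiag τ hτ i, map_smul, smul_eq_mul, smul_eq_mul,
          Basis.coord_apply, Basis.repr_self, Finsupp.single_eq_same, mul_one, mul_comm]
        rfl
      · intro b _ hb
        rw [map_smul, map_smul, hdiag τ hτ b, map_smul, smul_eq_mul, smul_eq_mul,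
          Basis.coord_apply, Basis.repr_self, Finsupp.single_eq_of_ne hb.symm, mul_zero, mul_zero]
      · intro h
        exact absurd (Finset.mem_univ i) h
    rw [br_apply, map_sub, hco, hco, Module.End.mul_apply, Module.End.mul_apply, h1,
      hdiag τ hτ j, map_smul, map_smul, smul_eq_mul, hf, hco i j y, sub_mul]
  -- a generic element
  obtain ⟨τ, hτ, hgen⟩ := Module.Dual.exists_forall_mem_ne_zero_of_forall_exists t
    (fun q : {q : I × I // ∃ x ∈ t, f q x ≠ 0} => f q.1) (fun q => q.2)
  let Λ : Finset ℂ := (Finset.univ.image fun q : I × I => f q τ).erase 0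
  let q0 : Polynomial ℂ := ∏ l ∈ Λ, (1 - Polynomial.C l⁻¹ * Polynomial.X)
  have hq0 : q0.eval 0 = 1 := by
    rw [Polynomial.eval_prod]
    refine Finset.prod_eq_one fun l _ => ?_
    simp
  have hq1 : ∀ q : I × I, f q τ ≠ 0 → q0.eval (f q τ) = 0 := by
    intro q hq
    rw [Polynomial.eval_prod]
    refine Finset.prod_eq_zero (Finset.mem_erase.2 ⟨hq, Finset.mem_image_of_mem _
      (Finset.mem_univ q)⟩) ?_
    simp [inv_mul_cancel₀ hq]
  have hGbr : ∀ y ∈ G, br τ y ∈ G := fun y hy => C.lie τ (C.le hτ) y hy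
  have hcoq : ∀ (q : Polynomial ℂ) i j y, co i j (Polynomial.aeval (br τ) q y) =
      q.eval (f (i, j) τ) * co i j y := by
    intro q i j y
    have h1 : ∀ n : ℕ, co i j (((br τ) ^ n) y) = f (i, j) τ ^ n * co i j y := by
      intro n
      induction n with
      | zero =>
        rw [pow_zero, pow_zero, one_mul]
        rfl
      | succ n ih =>
        rw [pow_succ', Module.End.mul_apply, hbr τ hτ, ih, pow_succ', mul_assoc]
    induction q using Polynomial.induction_on' with
    | add a b ha hb =>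
      rw [map_add, LinearMap.add_apply, map_add, ha, hb, Polynomial.eval_add, add_mul]
    | monomial n c =>
      rw [Polynomial.aeval_monomial, Module.End.mul_apply, Polynomial.eval_monomial]
      change co i j (c • ((br τ) ^ n) y) = _
      rw [map_smul, h1, smul_eq_mul, mul_assoc]
  refine ⟨Polynomial.aeval (br τ) q0 X, C.cent _ (aeval_mem hGbr q0 hX) ?_, ?_⟩
  · intro τ' hτ'
    have h1 : br τ' (Polynomial.aeval (br τ) q0 X) = 0 := by
      refine v.ext fun j => ?_
      refine v.ext_elem fun i => ?_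
      have h2 := hbr τ' hτ' i j (Polynomial.aeval (br τ) q0 X)
      rw [hcoq] at h2
      have h3 : f (i, j) τ' * (q0.eval (f (i, j) τ) * co i j X) = 0 := by
        by_cases h : f (i, j) τ' = 0
        · rw [h, zero_mul]
        · rw [hq1 _ (hgen ⟨(i, j), τ', hτ', h⟩), zero_mul, mul_zero]
      rw [h3] at h2
      rw [LinearMap.zero_apply, map_zero]
      exact h2
    rw [br_apply, sub_eq_zero] at h1
    exact h1.symm
  · rw [aeval_rst hGbr (C.le hτ) hp hst hX (hc τ hτ) q0, hq0, one_smul]

end Abstract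

variable {ι : Type} [Fintype ι] [DecidableEq ι] {E : Type} [CommRing E]
  {R : E →+* Matrix ι ι ℚ} {Φ : Matrix ι ι ℚ} {σ : E →+* ℂ} {c : E → E}
  {g : Submodule ℂ (Matrix ι ι ℂ)} {ψ : Matrix ι ι ℂ} {W U : Submodule ℂ (ι → ℂ)}
  {p : (ι → ℂ) →ₗ[ℂ] W}

private theorem tl_mul (x y : Matrix ι ι ℂ) :
    Matrix.toLin' x * Matrix.toLin' y = Matrix.toLin' (x * y) := (Matrix.toLin'_mul x y).symm

private theorem tl_inj {x y : Matrix ι ι ℂ} : Matrix.toLin' x = Matrix.toLin' y ↔ x = y :=
  (Matrix.toLin' (R := ℂ)).injective.eq_iff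

theorem cartan (M : Mono R c Φ g ψ) (H : IsFrob R Φ) : Cartan (endo g) (endo (tor Φ)) := by
  obtain ⟨t, ht, hcomm, -, v, hv⟩ := EllSig.exists_ft Φ H.diag
  have htt : t = tor Φ := Submodule.ext fun x => ht x
  rw [htt] at hcomm hv
  exact
  { comm := by
      rintro _ ⟨x, hx, rfl⟩ _ ⟨y, hy, rfl⟩
      change Matrix.toLin' x * Matrix.toLin' y = Matrix.toLin' y * Matrix.toLin' x
      rw [tl_mul, tl_mul, hcomm x hx y hy]
    diag := by
      refine ⟨ι, inferInstance, v, ?_⟩
      rintro _ ⟨x, hx, rfl⟩ i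
      exact hv x hx i
    lie := by
      rintro _ ⟨x, hx, rfl⟩ _ ⟨y, hy, rfl⟩
      change Matrix.toLin' x * Matrix.toLin' y - Matrix.toLin' y * Matrix.toLin' x ∈ endo g
      rw [tl_mul, tl_mul, ← map_sub]
      exact mem_endo.2 (M.lie x hx y hy)
    nd := by
      rintro _ ⟨x, hx, rfl⟩ h
      have h1 : x = 0 := by
        refine M.nd x hx fun y hy => ?_
        have h2 := h _ (mem_endo.2 hy)
        change LinearMap.trace ℂ _ (Matrix.toLin' x * Matrix.toLin' y) = 0 at h2
        rwa [tl_mul, Matrix.trace_toLin'_eq] at h2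
      rw [h1]
      exact map_zero _
    le := by
      rintro _ ⟨x, hx, rfl⟩
      exact ⟨x, M.le hx, rfl⟩
    cent := by
      rintro _ ⟨x, hx, rfl⟩ h
      refine mem_endo.2 (M.cent x hx fun y hy => ?_)
      have h2 := h _ (mem_endo.2 hy)
      change Matrix.toLin' x * Matrix.toLin' y = Matrix.toLin' y * Matrix.toLin' x at h2
      rwa [tl_mul, tl_mul, tl_inj] at h2 }

theorem irr_res (P : Prj g W p) (hW : Irr g W) (U : Submodule ℂ W)
    (hU : ∀ a ∈ res p g, ∀ w ∈ U, a w ∈ U) : U = ⊥ ∨ U = ⊤ := by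
  have h1 := hW.2.2 (U.map W.subtype) (Submodule.map_subtype_le _ _) (by
    rintro x hx _ ⟨u, hu, rfl⟩
    have h2 := hU _ (rm_mem hx) u hu
    have h3 := rm_apply P (hW.1 x hx) u
    exact ⟨rm p x u, h2, h3⟩)
  rcases h1 with h | h
  · left
    rw [eq_bot_iff]
    intro u hu
    have h2 : (u : ι → ℂ) ∈ U.map W.subtype := ⟨u, hu, rfl⟩
    rw [h, Submodule.mem_bot] at h2
    exact (Submodule.mem_bot ℂ).2 (Subtype.ext h2)
  · right
    rw [eq_top_iff]
    intro w _
    have h2 : (w : ι → ℂ) ∈ U.map W.subtype := by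
      rw [h]
      exact w.2
    obtain ⟨u, hu, huw⟩ := h2
    have h3 : u = w := Subtype.ext huw
    rwa [← h3]

theorem cartan_res (M : Mono R c Φ g ψ) (H : IsFrob R Φ) (hW : Irr g W) (P : Prj g W p) :
    Cartan (res p g) (res p (tor Φ)) := by
  classical
  have C := cartan M H
  have : Nontrivial W := (Submodule.nontrivial_iff_ne_bot).2 hW.2.1
  have hst : ∀ x ∈ g, ∀ w ∈ W, x.mulVec w ∈ W := hW.1
  have hst' : ∀ x ∈ endo g, ∀ w ∈ W, x w ∈ W := by
    rintro _ ⟨x, hx, rfl⟩ w hw
    change Matrix.toLin' x w ∈ W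
    rw [Matrix.toLin'_apply]
    exact hst x hx w hw
  have hlie : ∀ x ∈ res p g, ∀ y ∈ res p g, x * y - y * x ∈ res p g := by
    intro x hx y hy
    obtain ⟨a, ha, rfl⟩ := mem_res.1 hx
    obtain ⟨b, hb, rfl⟩ := mem_res.1 hy
    rw [← rm_mul P (hst a ha) (hst b hb), ← rm_mul P (hst b hb) (hst a ha), ← rm_sub]
    exact rm_mem (M.lie a ha b hb)
  exact
  { comm := by
      intro x hx y hy
      obtain ⟨a, ha, rfl⟩ := mem_res.1 hx
      obtain ⟨b, hb, rfl⟩ := mem_res.1 hy
      have h1 : a * b = b * a := by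
        have h2 := C.comm _ (mem_endo.2 ha) _ (mem_endo.2 hb)
        rwa [tl_mul, tl_mul, tl_inj] at h2
      rw [← rm_mul P (hst a (M.le ha)) (hst b (M.le hb)), h1,
        rm_mul P (hst b (M.le hb)) (hst a (M.le ha))]
    diag := by
      obtain ⟨I, _, v, hv⟩ := C.diag
      have hspan : Submodule.span ℂ (Set.range fun i => p (v i)) = ⊤ := by
        rw [eq_top_iff]
        intro w _
        have h1 : p (w : ι → ℂ) = w := P.id w
        rw [← h1, ← v.sum_repr (w : ι → ℂ), map_sum]
        refine Submodule.sum_mem _ fun i _ => ?_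
        rw [map_smul]
        exact Submodule.smul_mem _ _ (Submodule.subset_span ⟨i, rfl⟩)
      obtain ⟨b, hb, hbs, hbi⟩ := exists_linearIndependent ℂ (Set.range fun i => p (v i))
      have hbfin : b.Finite := (Set.finite_range _).subset hb
      have : Fintype b := hbfin.fintype
      refine ⟨b, inferInstance, Basis.mk hbi (by
        rw [Subtype.range_coe, hbs, hspan]), ?_⟩
      intro x hx i
      obtain ⟨a, ha, rfl⟩ := mem_res.1 hx
      rw [Basis.mk_apply]
      obtain ⟨j, hj⟩ := hb i.2
      obtain ⟨c, hc⟩ := hv _ (mem_endo.2 ha) j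
      refine ⟨c, Subtype.ext ?_⟩
      rw [rm_apply P (hst a (M.le ha)), ← hj, ← P.eq a (M.le ha), ← Matrix.toLin'_apply, hc,
        map_smul]
    lie := hlie
    nd := OddRank.trace_nondeg (res p g) hlie fun U hU => irr_res P hW U hU
    le := by
      intro x hx
      obtain ⟨a, ha, rfl⟩ := mem_res.1 hx
      exact rm_mem (M.le ha)
    cent := by
      intro x hx hcx
      obtain ⟨a, ha, rfl⟩ := mem_res.1 hx
      obtain ⟨z, hz, hz2⟩ := lift_cent C P.id hst' (mem_endo.2 ha) (fun τ hτ => by
        exact hcx _ ⟨τ, hτ, rfl⟩)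
      exact ⟨z, hz, hz2⟩ }

end Pool.Agent.FQU
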