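import Pool.Agent.FQU.Irrs

/-!
# Every homomorphism of the étale algebra `E` occurs (PACKAGE FU1)

Proof of `exists_aut_comp`. `χ` and `σ` factor through the field `F = E ⧸ ker σ` (a maximal ideal: `E` is
finite over `ℚ`, so Artinian, and `ker σ` is prime; `IsArtinianRing.isMaximal_of_isPrime` or similar), a
number field, so they are two embeddings `χ'`, `σ'` of `F` in `ℂ`. Let `ℂ_χ`, `ℂ_σ` be `ℂ` as an `F`-algebra in
the two ways. Transcendence bases of the two have the cardinality of `ℂ` (`F` is countable), so there is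
an isomorphism of `F`-algebras `ℂ_χ ≃ ℂ_σ`: `IsAlgClosed.equivOfTranscendenceBasis`, see the proof of the
analogous statement in `Pool/Agent/FQ/Index.lean` (automorphisms of `ℂ` extending embeddings), or
`Pool/Agent/IndepCM/FieldAut.lean`, `Pool/Agent/FQ/AlgFin.lean` (`exists_aut`), which can be cited or
copied. This gives `γ` with `γ (χ a) = σ a`.

Proof of `HS_ne_bot`. `E` is a reduced Artinian ring, so it is the product of the fields `E ⧸ m`
(`IsArtinianRing.equivPi`); let `ε ∈ E` be the idempotent with the components `1` at `ker σ`, `0` at the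
other maximal ideals. Then `ε ≠ 0` and `ε a = 0` for `a ∈ ker σ`, and `σ ε = 1` (as `1 - ε ∈ ker σ`).
`R ε ≠ 0` (`hR`), so `ratM (R ε) ≠ 0`. Let `V` be the space of the `w` with `ratM (R ε) w = w`; it is not
zero (`R ε` is idempotent and not zero: take a vector in the image). `V` is stable under all `ratM (R a)`
(commutativity). Let `U ≤ V` be a minimal nonzero subspace stable under all `ratM (R a)`. By Schur's lemma
(eigenspaces of `ratM (R a)` on `U` are stable under all `ratM (R b)`, `E` is commutative; see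
`exists_sig` in `Irrs.lean`) `ratM (R a)` is a scalar `χ a` on `U`, and `χ : E →+* ℂ` is a ring homomorphism
with `χ ε = 1`. For `a ∈ ker σ`: `χ a = χ (a ε) = 0`. So `ker σ ≤ ker χ`, and they are equal because `ker σ` is
maximal. Take `γ` from `exists_aut_comp`, `γ (χ a) = σ a`. Let `w ∈ U`, `w ≠ 0`. Then the vector
`γ (w_i)` is in `HS R σ` (compare `conj_mem_HS` in `Mv.lean`) and is not zero. -/

set_option autoImplicit false
set_option linter.unusedSectionVars false

namespace Pool.Agent.FQU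

open Module
open Pool.Agent.CoprimeSig (ratM)

variable {ι : Type} [Fintype ι] [DecidableEq ι] {E : Type} [CommRing E] [Algebra ℚ E]
  [Module.Finite ℚ E] [IsReduced E] {R : E →+* Matrix ι ι ℚ}

/-- Automorphisms of `ℂ` extending an automorphism of a subfield. -/
private theorem et_aut {K : Type*} [Field K] [Algebra K ℂ] (τ : K ≃+* K) {T : Type*}
    {x : T → ℂ} (hx : IsTranscendenceBasis K x) :
    ∃ σ : ℂ ≃+* ℂ, ∀ a : K, σ (algebraMap K ℂ a) = algebraMap K ℂ (τ a) := by
  let h0 : IsAlgClosure (Algebra.adjoin K (Set.range x)) ℂ :=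
    IsAlgClosed.isAlgClosure_of_transcendence_basis x hx
  let e : Algebra.adjoin K (Set.range x) ≃+* Algebra.adjoin K (Set.range x) :=
    hx.1.aevalEquiv.symm.toRingEquiv.trans
      ((MvPolynomial.mapEquiv T τ).trans hx.1.aevalEquiv.toRingEquiv)
  have he : ∀ p : MvPolynomial T K, e (hx.1.aevalEquiv p) =
      hx.1.aevalEquiv (MvPolynomial.map (τ : K →+* K) p) := by
    intro p
    change hx.1.aevalEquiv (MvPolynomial.map (τ : K →+* K)
      (hx.1.aevalEquiv.symm (hx.1.aevalEquiv p))) = _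
    rw [AlgEquiv.symm_apply_apply]
  have hσ : ∀ p : MvPolynomial T K, IsAlgClosure.equivOfEquiv ℂ ℂ e (MvPolynomial.aeval x p) =
      MvPolynomial.aeval x (MvPolynomial.map (τ : K →+* K) p) := by
    intro p
    rw [← hx.1.algebraMap_aevalEquiv, IsAlgClosure.equivOfEquiv_algebraMap, he,
      hx.1.algebraMap_aevalEquiv]
  refine ⟨IsAlgClosure.equivOfEquiv ℂ ℂ e, ?_⟩
  intro a
  have h1 := hσ (MvPolynomial.C a)
  rw [MvPolynomial.map_C, MvPolynomial.aeval_C, MvPolynomial.aeval_C] at h1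
  exact h1

/-- Two embeddings of a number field are conjugate. -/
private theorem et_extend {K : Type*} [Field K] [CharZero K] [Algebra ℚ K]
    [FiniteDimensional ℚ K] (χ φ : K →+* ℂ) : ∃ σ : ℂ ≃+* ℂ, ∀ a : K, σ (χ a) = φ a := by
  let pb := Field.powerBasisOfFiniteOfSeparable ℚ K
  let θ : K := pb.gen
  let L := algebraicClosure ℚ ℂ
  have hcl : IsAlgClosure ℚ L := algebraicClosure.isAlgClosure ℚ ℂ
  have hnorm : Normal ℚ L := IsAlgClosure.normal ℚ L
  let ι : K →ₐ[ℚ] ℂ := χ.toRatAlgHom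
  let ψ : K →ₐ[ℚ] ℂ := φ.toRatAlgHom
  have hι : ∀ a, ι a = χ a := fun a => rfl
  have hψ : ∀ a, ψ a = φ a := fun a => rfl
  have halg : ∀ a : K, IsAlgebraic ℚ a := fun a => Algebra.IsAlgebraic.isAlgebraic a
  have hmem : ∀ (χ : K →ₐ[ℚ] ℂ) (a : K), χ a ∈ L := fun χ a =>
    mem_algebraicClosure_iff.mpr ((halg a).algHom χ)
  have hroot : Polynomial.aeval (⟨ψ θ, hmem ψ θ⟩ : L) (minpoly ℚ (⟨ι θ, hmem ι θ⟩ : L)) = 0 := by
    have h1 : minpoly ℚ (⟨ι θ, hmem ι θ⟩ : L) = minpoly ℚ θ := by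
      have h2 : minpoly ℚ (ι θ) = minpoly ℚ (⟨ι θ, hmem ι θ⟩ : L) :=
        minpoly.algebraMap_eq (algebraMap L ℂ).injective (⟨ι θ, hmem ι θ⟩ : L)
      rw [← h2]
      exact minpoly.algHom_eq ι ι.injective θ
    rw [h1]
    apply (algebraMap L ℂ).injective
    rw [map_zero, ← Polynomial.aeval_algebraMap_apply]
    change Polynomial.aeval (ψ θ) (minpoly ℚ θ) = 0
    rw [Polynomial.aeval_algHom_apply, minpoly.aeval, map_zero]
  obtain ⟨τ, hτ⟩ := minpoly.exists_algEquiv_of_root' (K := ℚ) (L := L)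
    (x := (⟨ψ θ, hmem ψ θ⟩ : L)) (y := (⟨ι θ, hmem ι θ⟩ : L))
    (Algebra.IsAlgebraic.isAlgebraic _) hroot
  obtain ⟨s, hs⟩ := exists_isTranscendenceBasis L ℂ
  obtain ⟨σ, hσ⟩ := et_aut (τ : L ≃+* L) hs
  refine ⟨σ, fun a => ?_⟩
  have h1 : (σ : ℂ →+* ℂ).toRatAlgHom.comp ι = ψ := by
    refine pb.algHom_ext ?_
    have h2 := hσ (⟨ι θ, hmem ι θ⟩ : L)
    have h3 : ((τ : L ≃+* L) (⟨ι θ, hmem ι θ⟩ : L)) = (⟨ψ θ, hmem ψ θ⟩ : L) := hτ
    rw [h3] at h2
    exact h2
  have h2 := congrArg (fun f : K →ₐ[ℚ] ℂ => f a) h1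
  exact h2

private theorem et_artin (E : Type) [CommRing E] [Algebra ℚ E] [Module.Finite ℚ E] :
    IsArtinianRing E := IsArtinianRing.of_finite ℚ E

/-- Homomorphisms to `ℂ` with the same kernel are conjugate. -/
theorem exists_aut_comp (χ σ : E →+* ℂ) (h : ∀ a, χ a = 0 ↔ σ a = 0) :
    ∃ γ : ℂ ≃+* ℂ, ∀ a, γ (χ a) = σ a := by
  have hA := et_artin E
  let I : Ideal E := RingHom.ker χ
  have hI : I.IsPrime := RingHom.ker_isPrime χ
  have hM : I.IsMaximal := IsArtinianRing.isMaximal_of_isPrime I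
  have hf : Module.Finite ℚ (E ⧸ I) :=
    Module.Finite.of_surjective (Ideal.Quotient.mkₐ ℚ I).toLinearMap Ideal.Quotient.mk_surjective
  let _ : Field (E ⧸ I) := Ideal.Quotient.field I
  have hχ : ∀ a ∈ I, χ a = 0 := fun a ha => ha
  have hσ : ∀ a ∈ I, σ a = 0 := fun a ha => (h a).1 ha
  have h0 : CharZero (E ⧸ I) := algebraRat.charZero _
  obtain ⟨γ, hγ⟩ := @et_extend (E ⧸ I) _ h0 (Ideal.Quotient.algebra ℚ) hf
    (Ideal.Quotient.lift I χ hχ) (Ideal.Quotient.lift I σ hσ)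
  exact ⟨γ, fun a => hγ (Ideal.Quotient.mk I a)⟩

private theorem et_mulVec (δ : ℂ ≃+* ℂ) (A : Matrix ι ι ℂ) (v : ι → ℂ) :
    (A.map δ).mulVec (fun i => δ (v i)) = fun i => δ (A.mulVec v i) := by
  funext i
  rw [Matrix.mulVec, Matrix.mulVec, dotProduct, dotProduct, map_sum]
  exact Finset.sum_congr rfl fun j _ => by rw [Matrix.map_apply, map_mul]

private theorem et_ratM (A : Matrix ι ι ℚ) (δ : ℂ ≃+* ℂ) : (ratM A).map δ = ratM A := by
  ext i j
  simp [ratM]

private theorem et_comm (a b : E) (w : ι → ℂ) :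
    (ratM (R a)).mulVec ((ratM (R b)).mulVec w) = (ratM (R b)).mulVec ((ratM (R a)).mulVec w) := by
  have h1 : hsEnd R a (hsEnd R b w) = hsEnd R b (hsEnd R a w) := by
    rw [← Module.End.mul_apply, ← Module.End.mul_apply, ← map_mul, ← map_mul, mul_comm]
  exact h1

/-- A common eigenvector in a stable subspace. -/
private theorem et_chi {U : Submodule ℂ (ι → ℂ)}
    (hU : ∀ a, ∀ u ∈ U, (ratM (R a)).mulVec u ∈ U) (h0 : U ≠ ⊥) :
    ∃ χ : E →+* ℂ, ∃ w ∈ U, w ≠ 0 ∧ w ∈ HS R χ := by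
  let S : Set (Submodule ℂ (ι → ℂ)) :=
    {W | W ≤ U ∧ W ≠ ⊥ ∧ ∀ a, ∀ w ∈ W, (ratM (R a)).mulVec w ∈ W}
  have hS : S.Nonempty := ⟨U, le_rfl, h0, hU⟩
  obtain ⟨W, ⟨hW1, hW2, hW3⟩, hmin⟩ :=
    (wellFounded_lt (α := Submodule ℂ (ι → ℂ))).has_min S hS
  have hsc : ∀ a, ∃ c : ℂ, ∀ w ∈ W, (ratM (R a)).mulVec w = c • w := by
    intro a
    have : Nontrivial W := Submodule.nontrivial_iff_ne_bot.2 hW2
    let T : End ℂ W := (Matrix.toLin' (ratM (R a))).restrict fun w hw => by
      rw [Matrix.toLin'_apply]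
      exact hW3 a w hw
    have hT : ∀ w : W, (T w : ι → ℂ) = (ratM (R a)).mulVec w := fun w => by
      rw [LinearMap.coe_restrict_apply, Matrix.toLin'_apply]
    obtain ⟨c, hc⟩ := Module.End.exists_eigenvalue T
    refine ⟨c, fun w hw => ?_⟩
    let U' : Submodule ℂ (ι → ℂ) := (Module.End.eigenspace T c).map W.subtype
    have hU' : ∀ u, u ∈ U' ↔ u ∈ W ∧ (ratM (R a)).mulVec u = c • u := by
      intro u
      constructor
      · rintro ⟨u', hu', rfl⟩
        refine ⟨u'.2, ?_⟩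
        have h1 := Module.End.mem_eigenspace_iff.1 hu'
        rw [Submodule.subtype_apply, ← hT, h1]
        rfl
      · rintro ⟨h1, h2⟩
        refine ⟨⟨u, h1⟩, Module.End.mem_eigenspace_iff.2 (Subtype.ext ?_), rfl⟩
        rw [hT]
        exact h2
    have hst : ∀ b, ∀ u ∈ U', (ratM (R b)).mulVec u ∈ U' := by
      intro b u hu
      obtain ⟨h1, h2⟩ := (hU' u).1 hu
      refine (hU' _).2 ⟨hW3 b u h1, ?_⟩
      rw [et_comm a b u, h2, Matrix.mulVec_smul]
    have hle : U' ≤ W := fun u hu => ((hU' u).1 hu).1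
    have hne : U' ≠ ⊥ := by
      intro h
      obtain ⟨v, hv⟩ := hc.exists_hasEigenvector
      have h1 : (v : ι → ℂ) ∈ U' := ⟨v, hv.1, rfl⟩
      rw [h, Submodule.mem_bot] at h1
      exact hv.2 (Subtype.ext h1)
    have heq : U' = W := by
      by_contra hcon
      exact hmin U' ⟨hle.trans hW1, hne, hst⟩ (lt_of_le_of_ne hle hcon)
    rw [← heq] at hw
    exact ((hU' w).1 hw).2
  choose s hs using hsc
  obtain ⟨w, hw, hw0⟩ := Submodule.exists_mem_ne_zero_of_ne_bot hW2
  have key : ∀ a, hsEnd R a w = s a • w := fun a => hs a w hw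
  have heq : ∀ c d : ℂ, c • w = d • w → c = d := fun c d h => smul_left_injective ℂ hw0 h
  refine ⟨{ toFun := s, map_one' := heq _ _ ?_, map_mul' := fun a b => heq _ _ ?_,
            map_zero' := heq _ _ ?_, map_add' := fun a b => heq _ _ ?_ }, w, hW1 hw, hw0,
          fun a => hs a w hw⟩
  · rw [← key, map_one, one_smul]
    rfl
  · rw [← key, map_mul, Module.End.mul_apply, key b, map_smul, key a, smul_smul, mul_comm]
  · rw [← key, map_zero, zero_smul]
    rfl
  · rw [← key, map_add, LinearMap.add_apply, key a, key b, add_smul]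

theorem HS_ne_bot (hR : Function.Injective R) (σ : E →+* ℂ) : HS R σ ≠ ⊥ := by
  have hA := et_artin E
  let I : Ideal E := RingHom.ker σ
  have hI : I.IsPrime := RingHom.ker_isPrime σ
  have hM : I.IsMaximal := IsArtinianRing.isMaximal_of_isPrime I
  classical
  let m : MaximalSpectrum E := ⟨I, hM⟩
  obtain ⟨ε, hε⟩ : ∃ ε : E, IsArtinianRing.equivPi E ε = Pi.single m 1 :=
    ⟨(IsArtinianRing.equivPi E).symm (Pi.single m 1), AlgEquiv.apply_symm_apply _ _⟩
  have hε0 : ε ≠ 0 := by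
    intro h
    rw [h, map_zero] at hε
    have h1 := congrFun hε m
    rw [Pi.single_eq_same, Pi.zero_apply] at h1
    have : Nontrivial (E ⧸ m.asIdeal) := Ideal.Quotient.nontrivial_iff.2 hI.ne_top
    exact zero_ne_one h1
  have hεa : ∀ a ∈ I, a * ε = 0 := by
    intro a ha
    apply (IsArtinianRing.equivPi E).injective
    rw [map_mul, hε, map_zero]
    funext n
    rw [Pi.mul_apply, Pi.zero_apply]
    by_cases hn : n = m
    · have h1 : IsArtinianRing.equivPi E a m = 0 := by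
        rw [IsArtinianRing.equivPi_apply]
        exact Ideal.Quotient.eq_zero_iff_mem.2 ha
      rw [hn, h1, zero_mul]
    · rw [Pi.single_eq_of_ne hn, mul_zero]
  let U : Submodule ℂ (ι → ℂ) := LinearMap.range (Matrix.toLin' (ratM (R ε)))
  have hUmem : ∀ u ∈ U, ∃ v, (ratM (R ε)).mulVec v = u := by
    rintro u ⟨v, rfl⟩
    exact ⟨v, (Matrix.toLin'_apply _ _).symm⟩
  have hU : ∀ a, ∀ u ∈ U, (ratM (R a)).mulVec u ∈ U := by
    intro a u hu
    obtain ⟨v, rfl⟩ := hUmem u hu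
    exact ⟨(ratM (R a)).mulVec v, by rw [Matrix.toLin'_apply, et_comm]⟩
  have hU0 : U ≠ ⊥ := by
    intro h
    have h1 : Matrix.toLin' (ratM (R ε)) = 0 := LinearMap.range_eq_bot.1 h
    rw [LinearEquiv.map_eq_zero_iff] at h1
    have h2 : R ε = 0 := by
      ext i j
      have h3 := congrFun (congrFun h1 i) j
      simpa [ratM] using h3
    exact hε0 (hR (by rw [h2, map_zero]))
  obtain ⟨χ, w, hwU, hw0, hw⟩ := et_chi hU hU0
  have h1 : ∀ a ∈ I, χ a = 0 := by
    intro a ha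
    obtain ⟨v, hv⟩ := hUmem w hwU
    have h2 : (ratM (R a)).mulVec w = 0 := by
      rw [← hv]
      have h3 : hsEnd R a (hsEnd R ε v) = 0 := by
        rw [← Module.End.mul_apply, ← map_mul, hεa a ha, map_zero, LinearMap.zero_apply]
      exact h3
    have h3 := hw a
    rw [h2] at h3
    exact (smul_eq_zero.1 h3.symm).resolve_right hw0
  have h2 : I = RingHom.ker χ := hM.eq_of_le (RingHom.ker_ne_top χ) h1
  obtain ⟨γ, hγ⟩ := exists_aut_comp χ σ fun a => by
    have h3 : a ∈ RingHom.ker χ ↔ a ∈ I := by rw [h2]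
    exact h3
  intro hbot
  have h3 : (fun i => γ (w i)) ∈ HS R σ := by
    intro r
    have h4 := et_mulVec γ (ratM (R r)) w
    rw [et_ratM] at h4
    rw [h4, hw r]
    funext i
    simp [hγ]
  rw [hbot, Submodule.mem_bot] at h3
  apply hw0
  funext i
  have h4 := congrFun h3 i
  simpa using h4

end Pool.Agent.FQU
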