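import Pool.Agent.FQU.Isot
import Pool.Agent.FQU.Et
import Pool.Agent.FQU.Cart

/-!
# Bases of weight vectors of irreducible subspaces (PACKAGE FT5)

Proofs.

`one_mem_tor`: `M.one` and `M.cent` (everything commutes with `1`).

`td`: `FQA.TD.of (cartan_res M H hW P)`: `1 ∈ res p (tor Φ)` is `rm_one`; irreducibility is `irr_res`;
idempotents: `hI` says that `tor Φ` is the span of its idempotents `e`, and `rm p e` is an idempotent in
`res p (tor Φ)` (`rm_mul`; elements of `tor Φ` are in `g`, `M.le`, so they preserve `W`); use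
`Submodule.span_induction` or `Submodule.map_span`.

`exists_basis`: The restriction of `Φ` to `W` (`frob_mem`) is diagonalisable, so there is a basis
`b : Basis (Fin n) ℂ W` (or indexed by any finite type) of eigenvectors, `Φ b_i = c_i b_i`
(`W` is spanned by eigenvectors of `Φ`: for `w ∈ W` write `w = ∑ w_ν`, `w_ν` in the eigenspaces, and
apply `p`, which commutes with `g`, so with `tor Φ`, so with `Φ` by `comm_frob`; thus `w = p w = ∑ p w_ν`.
Choose a basis among the eigenvectors: `Basis.ofSpan`, `exists_linearIndependent`;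
or use `LinearMap.IsSemisimple.restrict`/`Module.End.IsFinitelySemisimple` and the decomposition into
eigenspaces, as in `PrimePow.tor_of_ss`). `c_i ∈ Om R Φ σ` as `W ≤ HS R σ`. The map
`i ↦ c_i` is injective: if `c_i = c_j` then every `x ∈ tor Φ` has the same value on `b_i` and `b_j`
(`exists_scalar`), so the weights `wv b i τ`, `wv b j τ` (see `CoprimeSig`/`NumRank` for `wv` and its
characterisation `wv_spec` or similar) agree for all `τ ∈ res p (tor Φ)`, so `i = j` by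
`(td M H hI hW P).hmult b hb`. It is surjective: for `μ ∈ Om R Φ σ` there is `w ∈ W`, `w ≠ 0`,
`Φ w = μ w` (`exists_eig`); write `w = ∑ a_i b_i`, then `a_i (c_i - μ) = 0`, and some `a_i ≠ 0`. So
`i ↦ c_i` is a bijection `Fin n ≃ Om R Φ σ` and `v = b.reindex _`.

`Frame.hv`: `x = rm p y`, `y ∈ tor Φ`, `y v_μ = d μ v_μ` by `exists_scalar`.

`Frame.lv`: both are sets of integral functions `f`. If `x = rm p y`, `y ∈ tor Φ`, `x v_μ = f μ v_μ` for all
`μ`: by `exists_scalar` `y` has the scalar `d μ` on all eigenvectors for `μ`, and `v μ ≠ 0` shows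
`d μ = f μ`; so `Vals R Φ σ y f`. Conversely clear.

`Frame.card`: `Module.finrank_eq_card_basis v`. -/

set_option autoImplicit false
set_option linter.unusedSectionVars false

namespace Pool.Agent.FQU

open Module
open Pool.Agent.CoprimeSig (ratM endo mem_endo Cartan)
open Pool.Agent.FQA (TD)
open Pool.Agent.NumRank (Lv)

variable {ι : Type} [Fintype ι] [DecidableEq ι] {E : Type} [CommRing E]
  {R : E →+* Matrix ι ι ℚ} {Φ : Matrix ι ι ℚ} {σ : E →+* ℂ} {c : E → E}
  {g : Submodule ℂ (Matrix ι ι ℂ)} {ψ : Matrix ι ι ℂ} {W U : Submodule ℂ (ι → ℂ)}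
  {p : (ι → ℂ) →ₗ[ℂ] W}

theorem one_mem_tor (M : Mono R c Φ g ψ) : (1 : Matrix ι ι ℂ) ∈ tor Φ :=
  M.cent 1 M.one fun y _ => by rw [one_mul, mul_one]

theorem td (M : Mono R c Φ g ψ) (H : IsFrob R Φ) (hI : Idem Φ) (hW : Irr g W) (P : Prj g W p) :
    TD (res p g) (res p (tor Φ)) := by
  have hst : ∀ x ∈ tor Φ, ∀ w ∈ W, x.mulVec w ∈ W := fun x hx => hW.1 x (M.le hx)
  refine FQA.TD.of (cartan_res M H hW P) ?_ (irr_res P hW) ?_
  · rw [← rm_one P]
    exact rm_mem (one_mem_tor M)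
  · intro y hy
    obtain ⟨x, hx, rfl⟩ := mem_res.1 hy
    have h1 := hI hx
    clear hy hx
    induction h1 using Submodule.span_induction with
    | mem e he =>
      refine Submodule.subset_span ⟨rm_mem he.1, ?_⟩
      rw [← rm_mul P (hst e he.1) (hst e he.1), he.2]
    | zero =>
      have h2 : rm p (0 : Matrix ι ι ℂ) = 0 := by
        unfold rm
        rw [map_zero, map_zero]
      rw [h2]
      exact Submodule.zero_mem _
    | add a b _ _ ha hb =>
      rw [rm_add]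
      exact Submodule.add_mem _ ha hb
    | smul c a _ ha =>
      rw [rm_smul]
      exact Submodule.smul_mem _ c ha

private theorem bas_comm (M : Mono R c Φ g ψ) (H : IsFrob R Φ) (P : Prj g W p) (v : ι → ℂ) :
    (p ((ratM Φ).mulVec v) : ι → ℂ) = (ratM Φ).mulVec (p v) := by
  have hZ : ∀ v, (LinearMap.toMatrix' (W.subtype ∘ₗ p)).mulVec v = (p v : ι → ℂ) := by
    intro v
    rw [← Matrix.toLin'_apply, Matrix.toLin'_toMatrix']
    rfl
  have hc : ∀ x ∈ tor Φ, x * LinearMap.toMatrix' (W.subtype ∘ₗ p) =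
      LinearMap.toMatrix' (W.subtype ∘ₗ p) * x := by
    intro x hx
    apply (Matrix.toLin' (R := ℂ)).injective
    refine LinearMap.ext fun v => ?_
    rw [Matrix.toLin'_apply, Matrix.toLin'_apply, ← Matrix.mulVec_mulVec, ← Matrix.mulVec_mulVec,
      hZ, hZ, P.eq x (M.le hx)]
  have h1 := comm_frob H hc
  rw [← hZ, ← hZ, Matrix.mulVec_mulVec, Matrix.mulVec_mulVec, h1]

theorem exists_basis (M : Mono R c Φ g ψ) (H : IsFrob R Φ) (hI : Idem Φ) (hW : Irr g W)
    (P : Prj g W p) (hσ : W ≤ HS R σ) : ∃ v : Basis (Om R Φ σ) ℂ W, Frame R Φ g σ W p v := by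
  classical
  have : Nontrivial W := Submodule.nontrivial_iff_ne_bot.2 hW.2.1
  let T : End ℂ W := (Matrix.toLin' (ratM Φ)).restrict fun w hw => by
    rw [Matrix.toLin'_apply]
    exact frob_mem M H hW.1 w hw
  have hT : ∀ w : W, (T w : ι → ℂ) = (ratM Φ).mulVec w := fun w => by
    rw [LinearMap.coe_restrict_apply, Matrix.toLin'_apply]
  set S : Set W := {w | ∃ c : ℂ, T w = c • w} with hS
  have hspan : Submodule.span ℂ S = ⊤ := by
    rw [eq_top_iff]
    have h1 : (⊤ : Submodule ℂ (ι → ℂ)) ≤ (Submodule.span ℂ S).comap p := by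
      rw [← H.diag]
      refine iSup_le fun μ v hv => ?_
      have h2 : (ratM Φ).mulVec v = μ • v := by
        have h4 := Module.End.mem_eigenspace_iff.1 hv
        rwa [Matrix.toLin'_apply] at h4
      refine Submodule.subset_span ⟨μ, Subtype.ext ?_⟩
      rw [hT, ← bas_comm M H P, h2, map_smul]
    intro w _
    have h2 := h1 (Submodule.mem_top : (w : ι → ℂ) ∈ ⊤)
    rw [Submodule.mem_comap, P.id w] at h2
    exact h2
  obtain ⟨b, hb, hbs, hbi⟩ := exists_linearIndependent ℂ S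
  have hbfin : b.Finite := hbi.setFinite
  have : Fintype b := hbfin.fintype
  let B : Basis b ℂ W := Basis.mk hbi (by rw [Subtype.range_coe, hbs, hspan])
  have hB : ∀ i, B i = i := fun i => Basis.mk_apply _ _ i
  have hc' : ∀ i : b, ∃ c : ℂ, T (B i) = c • B i := fun i => by
    rw [hB]
    exact hb i.2
  choose c hc using hc'
  have hc2 : ∀ i, (ratM Φ).mulVec (B i : ι → ℂ) = c i • (B i : ι → ℂ) := fun i => by
    rw [← hT, hc]
    rfl
  have hBne : ∀ i, (B i : ι → ℂ) ≠ 0 := fun i h => B.ne_zero i (Subtype.ext h)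
  have hOm : ∀ i, c i ∈ Om R Φ σ := fun i => ⟨B i, hσ (B i).2, hBne i, hc2 i⟩
  have hst : ∀ x ∈ tor Φ, ∀ w ∈ W, x.mulVec w ∈ W := fun x hx => hW.1 x (M.le hx)
  have hrm : ∀ y ∈ tor Φ, ∃ d : ℂ → ℂ, ∀ i, rm p y (B i) = d (c i) • B i := by
    intro y hy
    obtain ⟨d, hd⟩ := exists_scalar hy
    refine ⟨d, fun i => Subtype.ext ?_⟩
    rw [rm_apply P (hst y hy), hd (c i) _ (hc2 i)]
    rfl
  have hBv : ∀ x ∈ res p (tor Φ), ∀ i, ∃ a : ℂ, x (B i) = a • B i := by
    intro x hx i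
    obtain ⟨y, hy, rfl⟩ := mem_res.1 hx
    obtain ⟨d, hd⟩ := hrm y hy
    exact ⟨_, hd i⟩
  have hinj : ∀ i j, c i = c j → i = j := by
    intro i j hij
    refine (td M H hI hW P).hmult B hBv i j fun τ hτ => ?_
    have h1 := NumRank.wv_apply B hBv hτ i
    have h2 := NumRank.wv_apply B hBv hτ j
    obtain ⟨y, hy, rfl⟩ := mem_res.1 hτ
    obtain ⟨d, hd⟩ := hrm y hy
    rw [hd] at h1 h2
    have h3 : d (c i) = NumRank.wv B i (rm p y) := smul_left_injective ℂ (B.ne_zero i) h1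
    have h4 : d (c j) = NumRank.wv B j (rm p y) := smul_left_injective ℂ (B.ne_zero j) h2
    rw [← h3, ← h4, hij]
  have hsurj : ∀ μ : Om R Φ σ, ∃ i, c i = μ := by
    intro μ
    obtain ⟨w, hw, hw0, hw1⟩ := exists_eig M H hW hσ μ.2
    have h1 : T ⟨w, hw⟩ = (μ : ℂ) • ⟨w, hw⟩ := Subtype.ext (by rw [hT]; exact hw1)
    have h2 : (⟨w, hw⟩ : W) ≠ 0 := fun h => hw0 (congrArg Subtype.val h)
    obtain ⟨i, hi⟩ : ∃ i, B.repr ⟨w, hw⟩ i ≠ 0 := by
      by_contra hcon
      push Not at hcon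
      exact h2 (B.ext_elem fun i => by rw [hcon i, map_zero]; rfl)
    refine ⟨i, ?_⟩
    have h3 : (B.coord i).comp T = c i • B.coord i := by
      refine B.ext fun j => ?_
      rw [LinearMap.comp_apply, hc, map_smul, LinearMap.smul_apply, Basis.coord_apply,
        Basis.repr_self]
      by_cases hij : j = i
      · rw [hij]
      · rw [Finsupp.single_eq_of_ne (Ne.symm hij), smul_zero, smul_zero]
    have h4 := LinearMap.congr_fun h3 ⟨w, hw⟩
    rw [LinearMap.comp_apply, h1, map_smul, LinearMap.smul_apply, Basis.coord_apply,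
      smul_eq_mul, smul_eq_mul] at h4
    exact (mul_right_cancel₀ hi h4).symm
  let ε : b ≃ Om R Φ σ := Equiv.ofBijective (fun i => ⟨c i, hOm i⟩)
    ⟨fun i j h => hinj i j (congrArg Subtype.val h), fun μ => by
      obtain ⟨i, hi⟩ := hsurj μ
      exact ⟨i, Subtype.ext hi⟩⟩
  refine ⟨B.reindex ε, ⟨hW, hσ, P, fun μ => ?_⟩⟩
  rw [Basis.reindex_apply, hc2]
  congr 1
  exact congrArg Subtype.val (ε.apply_symm_apply μ)

theorem exists_frame [Algebra ℚ E] [Module.Finite ℚ E] [IsReduced E] (M : Mono R c Φ g ψ)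
    (H : IsFrob R Φ) (hI : Idem Φ) (σ : E →+* ℂ) :
    ∃ (W : Submodule ℂ (ι → ℂ)) (p : (ι → ℂ) →ₗ[ℂ] W) (v : Basis (Om R Φ σ) ℂ W),
      Frame R Φ g σ W p v := by
  obtain ⟨W, hσ, hW⟩ := exists_irr (HS_stable M (σ := σ)) (HS_ne_bot H.inj σ)
  obtain ⟨p, P⟩ := exists_prj M hW.1
  obtain ⟨v, F⟩ := exists_basis M H hI hW P hσ
  exact ⟨W, p, v, F⟩

variable {v : Basis (Om R Φ σ) ℂ W}

theorem Frame.hv (F : Frame R Φ g σ W p v) (M : Mono R c Φ g ψ) :
    ∀ x ∈ res p (tor Φ), ∀ i, ∃ c : ℂ, x (v i) = c • v i := by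
  intro x hx i
  obtain ⟨y, hy, rfl⟩ := mem_res.1 hx
  obtain ⟨d, hd⟩ := exists_scalar hy
  refine ⟨d i, Subtype.ext ?_⟩
  rw [rm_apply F.prj (F.irr.1 y (M.le hy)), hd _ _ (F.bas i)]
  rfl

theorem Frame.lv (F : Frame R Φ g σ W p v) (M : Mono R c Φ g ψ) :
    Lv (res p (tor Φ)) v = Ls R Φ σ := by
  have hst : ∀ x ∈ tor Φ, ∀ w ∈ W, x.mulVec w ∈ W := fun x hx => F.irr.1 x (M.le hx)
  ext f
  constructor
  · rintro ⟨h1, x, hx, h2⟩
    refine mem_Ls.2 ⟨h1, ?_⟩
    obtain ⟨y, hy, rfl⟩ := mem_res.1 hx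
    refine ⟨y, hy, fun μ w _ hμ => ?_⟩
    obtain ⟨d, hd⟩ := exists_scalar hy
    have h3 : (d μ : ℂ) = f μ := by
      have h4 : rm p y (v μ) = d μ • v μ := Subtype.ext (by
        rw [rm_apply F.prj (hst y hy), hd _ _ (F.bas μ)]
        rfl)
      rw [h2 μ] at h4
      exact (smul_left_injective ℂ (v.ne_zero μ) h4).symm
    rw [hd μ w hμ, h3]
  · intro hf
    obtain ⟨h1, y, hy, h2⟩ := mem_Ls.1 hf
    refine ⟨h1, rm p y, rm_mem hy, fun μ => Subtype.ext ?_⟩
    rw [rm_apply F.prj (hst y hy), h2 μ _ (F.le (v μ).2) (F.bas μ)]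
    rfl

theorem Frame.nontrivial (F : Frame R Φ g σ W p v) : Nontrivial W :=
  Submodule.nontrivial_iff_ne_bot.2 F.irr.2.1

theorem Frame.card (F : Frame R Φ g σ W p v) :
    Fintype.card (Om R Φ σ) = finrank ℂ W := by
  rw [Module.finrank_eq_card_basis v]

end Pool.Agent.FQU
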