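import Pool.Agent.FQA.Mixed

/-!
# The number of the points is the product of the numbers of the classes (PACKAGE FU3)

`L` is a lattice whose roots are distributed in pairwise orthogonal families `P i`. Two points are in the
same class for `P i` if all roots in `P i` have the same values.

Proof of `card_classes`. The map `Ω → ∏ i, Quotient (cls (P i))` is a bijection.

Injective: let `ω`, `ω'` be in the same class for all `i`. By `Lat.sep` it is enough that `f ω = f ω'` for
all `f ∈ L`. Let `S` be the `ℚ`-span of all roots and `f = f₁ + f₂` with `f₁ ∈ S` and `f₂` orthogonal to all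
roots (`exists_proj` in `Pool/Agent/FQA/Mixed.lean`). `f₁ ω = f₁ ω'` (span of functions in the `P i`, by `h2`), and
`f₂ = f - f₁ ∈ LQ L` is orthogonal to all roots, hence constant: `Dec.const` for `A = B = `... or directly: by
`move_LQ (Rf_move H)` `f₂` is invariant under all reflections, so constant by `Lat.tr`.

Surjective: for a finite set `s` of indices and points `ω i` there is a point `ω''` which is in the class of `ω i`
for `P i`, for all `i ∈ s`: induction on `s`. Step: let `ω''` be good for `s`, `j ∉ s`. Use `Dec.mix` for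
`A = P j` and `B h := ∃ i, i ≠ j ∧ P i h`, `Dec L A B` (`tr` holds by `Lat.tr`, as every root satisfies `A` or `B` by
`h2`: a reflection `Rf L h π` gives `Rt L h`), applied to `ω j` and `ω''`: the new point has the values of
`ω j` for the roots in `P j` and the values of `ω''` for the functions in `LQ L` which are orthogonal to `P j`,
in particular for the roots in `P i`, `i ∈ s` (`h3`). -/

set_option autoImplicit false
set_option linter.unusedSectionVars false

namespace Pool.Agent.FQU

open Pool.Agent.PrimePow.CC (Rf Rt Lat)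
open Pool.Agent.FQA

/-- Two points are in the same class if all functions with the property `P` have the same values. -/
def cls {Ω : Type*} (P : (Ω → ℚ) → Prop) : Setoid Ω where
  r ω ω' := ∀ h, P h → h ω = h ω'
  iseqv := ⟨fun _ _ _ => rfl, fun H h hh => (H h hh).symm, fun H H' h hh => (H h hh).trans (H' h hh)⟩

theorem card_classes {Ω : Type*} [Fintype Ω] [Nonempty Ω] {L : AddSubgroup (Ω → ℚ)} (hL : Lat L)
    {k : Type*} [Fintype k] (P : k → (Ω → ℚ) → Prop) (h1 : ∀ i h, P i h → Rt L h)
    (h2 : ∀ h, Rt L h → ∃ i, P i h) (h3 : ∀ i j h h', i ≠ j → P i h → P j h' → h ⬝ᵥ h' = 0) :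
    Fintype.card Ω = ∏ i, Nat.card (Quotient (cls (P i))) := by
  classical
  -- two sets of roots: the family `j` and the other ones
  have hDec : ∀ j, Dec L (P j) (fun h => ∃ i, i ≠ j ∧ P i h) := by
    intro j
    refine ⟨h1 j, ?_, ?_, ?_⟩
    · rintro h ⟨i, -, hi⟩
      exact h1 i h hi
    · rintro h h' hh ⟨i, hij, hi⟩
      exact h3 j i h h' (Ne.symm hij) hh hi
    · intro X hX hX2
      refine hL.tr X hX fun h π H ω hω => hX2 h π ?_ H ω hω
      obtain ⟨i, hi⟩ := h2 h ⟨π, H⟩
      by_cases hij : i = j
      · subst hij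
        exact Or.inl hi
      · exact Or.inr ⟨i, hij, hi⟩
  -- the map to the classes
  let F : Ω → ∀ i, Quotient (cls (P i)) := fun ω i => Quotient.mk (cls (P i)) ω
  have hinj : Function.Injective F := by
    intro ω ω' hω
    have hcl : ∀ i h, P i h → h ω = h ω' := fun i => Quotient.exact (congrFun hω i)
    refine hL.sep ω ω' fun f hf => ?_
    obtain ⟨f1, f1S, f1p⟩ := exists_proj (Submodule.span ℚ {h | Rt L h}) f
    have hf1 : f1 ω = f1 ω' := by
      clear f1p
      induction f1S using Submodule.span_induction with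
      | mem h hh =>
        obtain ⟨i, hi⟩ := h2 h hh
        exact hcl i h hi
      | zero => rfl
      | add a b _ _ ha hb => rw [Pi.add_apply, Pi.add_apply, ha, hb]
      | smul c a _ ha => rw [Pi.smul_apply, Pi.smul_apply, ha]
    have hle : Submodule.span ℚ {h | Rt L h} ≤ LQ L := by
      rw [Submodule.span_le]
      intro h hh
      exact mem_LQ (Pool.Agent.NumRank.Rt_mem hh)
    have hf2 : f - f1 ∈ LQ L := (LQ L).sub_mem (mem_LQ hf) (hle f1S)
    have hX := hL.tr {x | (f - f1) x = (f - f1) ω} ⟨ω, rfl⟩ (fun h π H x hx => by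
      rw [Set.mem_ofPred_eq] at hx ⊢
      have h4 : Pool.Agent.NumRank.cf (f - f1) h = 0 := by
        rw [Pool.Agent.NumRank.cf_eq_zero H.dot_self_pos.ne']
        exact f1p h (Submodule.subset_span ⟨π, H⟩)
      rw [move_LQ (Rf_move H) hf2, h4, zero_mul, sub_zero, hx])
    have hc : (f - f1) ω' = (f - f1) ω := by
      have h4 : ω' ∈ {x | (f - f1) x = (f - f1) ω} := hX ▸ Set.mem_univ ω'
      exact h4
    rw [Pi.sub_apply, Pi.sub_apply, hf1] at hc
    linarith
  have hsurj : Function.Surjective F := by
    have key : ∀ (s : Finset k) (ω : k → Ω), ∃ ω'', ∀ i ∈ s, ∀ h, P i h → h ω'' = h (ω i) := by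
      intro s ω
      induction s using Finset.induction_on with
      | empty => exact ⟨Classical.arbitrary Ω, fun i hi => absurd hi (Finset.notMem_empty i)⟩
      | insert j s hj ih =>
        obtain ⟨ω₁, hω₁⟩ := ih
        obtain ⟨ω₂, e1, e2⟩ := (hDec j).mix (ω j) ω₁
        refine ⟨ω₂, fun i hi h hh => ?_⟩
        rcases Finset.mem_insert.1 hi with rfl | hi
        · exact e1 h (Submodule.subset_span hh)
        · have hij : i ≠ j := fun h4 => hj (h4 ▸ hi)
          rw [e2 h (mem_LQ (Pool.Agent.NumRank.Rt_mem (h1 i h hh)))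
            (fun h' hh' => h3 j i h' h (Ne.symm hij) hh' hh)]
          exact hω₁ i hi h hh
    intro q
    obtain ⟨ω'', h4⟩ := key Finset.univ (fun i => (q i).out)
    refine ⟨ω'', funext fun i => ?_⟩
    have h5 : Quotient.mk (cls (P i)) (q i).out = q i := Quotient.out_eq (q i)
    rw [← h5]
    exact Quotient.sound (h4 i (Finset.mem_univ i))
  rw [← Nat.card_eq_fintype_card, Nat.card_congr (Equiv.ofBijective F ⟨hinj, hsurj⟩), Nat.card_pi]

end Pool.Agent.FQU
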