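import Pool.Agent.FQ.Defs
import Pool.Agent.EllSig.Defs

/-!
# The Mumford–Tate conjecture for abelian varieties with large endomorphism algebras: definitions

`E` is the centre of the endomorphism algebra, `R` its action on the Tate module, `c` the complex
conjugation of `E` and `Φ` the Frobenius element of a fixed place of good reduction; all are given
by rational matrices in a suitable basis. `g` is the Lie algebra of the `ℓ`-adic monodromy group with
coefficients in an algebraic closure of `ℚ_ℓ`, which is identified with `ℂ`.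
-/

set_option autoImplicit false

namespace Pool.Agent.FQU

open Module
open Pool.Agent.CoprimeSig (ratM)
open Pool.Agent.OneFrob (frobTorus)
open Pool.Agent.FQ (expG)

variable {ι : Type} [Fintype ι] [DecidableEq ι] {E : Type} [CommRing E]

/-- The eigenspace of `E` for the homomorphism `σ`. -/
def HS (R : E →+* Matrix ι ι ℚ) (σ : E →+* ℂ) : Submodule ℂ (ι → ℂ) where
  carrier := {v | ∀ a, (ratM (R a)).mulVec v = σ a • v}
  add_mem' := fun {u v} hu hv a => by rw [Matrix.mulVec_add, hu a, hv a, smul_add]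
  zero_mem' := fun a => by rw [Matrix.mulVec_zero, smul_zero]
  smul_mem' := fun c u hu a => by rw [Matrix.mulVec_smul, hu a, smul_comm]

theorem mem_HS {R : E →+* Matrix ι ι ℚ} {σ : E →+* ℂ} {v : ι → ℂ} :
    v ∈ HS R σ ↔ ∀ a, (ratM (R a)).mulVec v = σ a • v := Iff.rfl

/-- The Lie algebra of the Frobenius torus. -/
def tor (Φ : Matrix ι ι ℚ) : Submodule ℂ (Matrix ι ι ℂ) where
  carrier := {x | Matrix.toLin' x ∈ frobTorus (Matrix.toLin' (ratM Φ))}
  add_mem' := by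
    rintro x y ⟨d, hd, hs⟩ ⟨d', hd', hs'⟩
    refine ⟨fun μ => d μ + d' μ, fun μ v hv => ?_, fun s hμ n hn => ?_⟩
    · rw [map_add, LinearMap.add_apply, hd μ v hv, hd' μ v hv, add_smul]
    · simp only [mul_add, Finset.sum_add_distrib]
      rw [hs s hμ n hn, hs' s hμ n hn, add_zero]
  zero_mem' := by
    refine ⟨fun _ => 0, fun μ v _ => ?_, fun s _ n _ => ?_⟩
    · rw [map_zero, LinearMap.zero_apply, zero_smul]
    · simp
  smul_mem' := by
    rintro c x ⟨d, hd, hs⟩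
    refine ⟨fun μ => c * d μ, fun μ v hv => ?_, fun s hμ n hn => ?_⟩
    · rw [map_smul, LinearMap.smul_apply, hd μ v hv, mul_smul]
    · have h := hs s hμ n hn
      calc ∑ μ ∈ s, (n μ : ℂ) * (c * d μ) = c * ∑ μ ∈ s, (n μ : ℂ) * d μ := by
            rw [Finset.mul_sum]
            exact Finset.sum_congr rfl fun _ _ => by ring
        _ = 0 := by rw [h, mul_zero]

/-- `E` acts faithfully and commutes with the Frobenius element `Φ`, which is diagonalisable; the
eigenvalues of `Φ` have the same absolute value and no quotient of two of them is a root of unity,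
except `1`. -/
structure IsFrob (R : E →+* Matrix ι ι ℚ) (Φ : Matrix ι ι ℚ) : Prop where
  inj : Function.Injective R
  comm : ∀ a, R a * Φ = Φ * R a
  diag : ⨆ μ, Module.End.eigenspace (Matrix.toLin' (ratM Φ)) μ = ⊤
  abs : ∃ r : ℝ, 0 < r ∧ ∀ μ, Module.End.HasEigenvalue (Matrix.toLin' (ratM Φ)) μ → ‖μ‖ = r
  neat : ∀ μ ν, Module.End.HasEigenvalue (Matrix.toLin' (ratM Φ)) μ →
    Module.End.HasEigenvalue (Matrix.toLin' (ratM Φ)) ν → ∀ k : ℕ, k ≠ 0 → μ ^ k = ν ^ k → μ = ν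

/-- `W` is an irreducible subspace. -/
def Irr (g : Submodule ℂ (Matrix ι ι ℂ)) (W : Submodule ℂ (ι → ℂ)) : Prop :=
  (∀ x ∈ g, ∀ w ∈ W, x.mulVec w ∈ W) ∧ W ≠ ⊥ ∧
    ∀ U ≤ W, (∀ x ∈ g, ∀ u ∈ U, x.mulVec u ∈ U) → U = ⊥ ∨ U = W

/-- `W` is isotypic: no proper nonzero subspace is stable under `g` and all endomorphisms which
preserve `W` and commute with `g`. -/
def Isotypic (g : Submodule ℂ (Matrix ι ι ℂ)) (W : Submodule ℂ (ι → ℂ)) : Prop :=
  ∀ U ≤ W, (∀ x ∈ g, ∀ u ∈ U, x.mulVec u ∈ U) →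
    (∀ Z : Matrix ι ι ℂ, (∀ x ∈ g, x * Z = Z * x) → (∀ w ∈ W, Z.mulVec w ∈ W) →
      ∀ u ∈ U, Z.mulVec u ∈ U) → U = ⊥ ∨ U = W

/-- There is a nondegenerate alternating form on `W` such that the elements of `g` have the same
multipliers for this form as for `ψ`. -/
def SympOn (g : Submodule ℂ (Matrix ι ι ℂ)) (ψ : Matrix ι ι ℂ) (W : Submodule ℂ (ι → ℂ)) :
    Prop :=
  ∃ φ : (ι → ℂ) →ₗ[ℂ] (ι → ℂ) →ₗ[ℂ] ℂ, (∀ x ∈ W, φ x x = 0) ∧
    (∀ x ∈ W, (∀ y ∈ W, φ x y = 0) → x = 0) ∧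
    ∀ x ∈ g, ∀ κ : ℂ, x.transpose * ψ + ψ * x = κ • ψ →
      ∀ u ∈ W, ∀ v ∈ W, φ (x.mulVec u) v + φ u (x.mulVec v) = κ * φ u v

/-- The Lie algebra `g` of the monodromy group at a prime `ℓ`, with the Weil pairing `ψ`: a reductive
Lie algebra of similitudes (`LData`), whose commutant has the centre `E` (`comm`, `center`, `iso`);
the adjoint of `a ∈ E` for the Weil pairing is `c a`; an irreducible subspace of dimension `4` on
which `E` acts by a real homomorphism is symplectic (no factor of type III of relative dimension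
`2`); and the Lie algebra of the Frobenius torus is contained in `g` and is its own centraliser. -/
structure Mono (R : E →+* Matrix ι ι ℚ) (c : E → E) (Φ : Matrix ι ι ℚ)
    (g : Submodule ℂ (Matrix ι ι ℂ)) (ψ : Matrix ι ι ℂ) : Prop extends EllSig.LData g ψ where
  comm : ∀ a, ∀ x ∈ g, x * ratM (R a) = ratM (R a) * x
  center : ∀ Z : Matrix ι ι ℂ, (∀ x ∈ g, x * Z = Z * x) → ∀ a, Z * ratM (R a) = ratM (R a) * Z
  iso : ∀ σ : E →+* ℂ, Isotypic g (HS R σ)
  ros : ∀ a, (ratM (R a)).transpose * ψ = ψ * ratM (R (c a))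
  four : ∀ σ : E →+* ℂ, (∀ a, starRingEnd ℂ (σ a) = σ a) → ∀ W ≤ HS R σ, Irr g W →
    finrank ℂ W = 4 → SympOn g ψ W
  le : tor Φ ≤ g
  cent : ∀ x ∈ g, (∀ y ∈ tor Φ, x * y = y * x) → x ∈ tor Φ

/-- The idempotent `e` in the Lie algebra of the Frobenius torus is conjugate to the idempotent of
the decomposition of Hodge and Tate, and `τ` is an automorphism over `ℚ_ℓ`: `τ(e)` is conjugate to
`e`. -/
structure Coch (Φ : Matrix ι ι ℚ) (g : Submodule ℂ (Matrix ι ι ℂ)) (ψ : Matrix ι ι ℂ)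
    (τ : ℂ ≃+* ℂ) (e : Matrix ι ι ℂ) : Prop where
  mem : e ∈ tor Φ
  idem : e * e = e
  mult : e.transpose * ψ + ψ * e = ψ
  conj : ∃ u ∈ expG ℂ g,
    e.map τ = (u : Matrix ι ι ℂ) * e * ((u⁻¹ : (Matrix ι ι ℂ)ˣ) : Matrix ι ι ℂ)

/-- The powers of `τ` permute transitively the homomorphisms with the same kernel as `σ`, that is the
embeddings of the factor of `E` to which `σ` belongs. -/
def Cyc (τ : ℂ ≃+* ℂ) (σ : E →+* ℂ) : Prop :=
  ∀ σ₁ σ₂ : E →+* ℂ, (∀ a, σ₁ a = 0 ↔ σ a = 0) → (∀ a, σ₂ a = 0 ↔ σ a = 0) →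
    ∃ k : ℕ, ∀ a, σ₂ a = (τ ^[k]) (σ₁ a)

/-- The conjugates in the Frobenius torus of the idempotent `e`: the elements `γ(e')`, where `e'` in
the Lie algebra of the torus is conjugate to `e` and `γ` is an automorphism of `ℂ`. -/
def orbit (Φ : Matrix ι ι ℚ) (g : Submodule ℂ (Matrix ι ι ℂ)) (e : Matrix ι ι ℂ) :
    Set (Matrix ι ι ℂ) :=
  {x | ∃ e' ∈ tor Φ, (∃ u ∈ expG ℂ g,
    e' = (u : Matrix ι ι ℂ) * e * ((u⁻¹ : (Matrix ι ι ℂ)ˣ) : Matrix ι ι ℂ)) ∧
      ∃ γ : ℂ ≃+* ℂ, x = e'.map γ}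

end Pool.Agent.FQU
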