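import Pool.Agent.FQU.Defs

/-!
# Definitions for the main theorem: the conditions on the dimensions
-/

set_option autoImplicit false

namespace Pool.Agent.FQU

open Module
open Pool.Agent.CoprimeSig (ratM)

variable {ι : Type} [Fintype ι] [DecidableEq ι] {E : Type} [CommRing E]

/-- The condition on an irreducible subspace `W` of the eigenspace for `σ` whose dimension is a power of
two (it excludes the spin representations): if `dim W = 2 ^ m`, `m ≥ 3`, then `σ` is not real and `m` is
odd; or `σ` is real, `W` is symplectic and `m` is `0` or `3` modulo `4`; or `σ` is real, `W` is not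
symplectic and `m` is `1` or `2` modulo `4`. -/
def PowCond (g : Submodule ℂ (Matrix ι ι ℂ)) (ψ : Matrix ι ι ℂ) (σ : E →+* ℂ)
    (W : Submodule ℂ (ι → ℂ)) : Prop :=
  ∀ m : ℕ, 3 ≤ m → finrank ℂ W = 2 ^ m →
    ((∃ a, starRingEnd ℂ (σ a) ≠ σ a) ∧ Odd m) ∨
    ((∀ a, starRingEnd ℂ (σ a) = σ a) ∧
      ((SympOn g ψ W ∧ (m % 4 = 0 ∨ m % 4 = 3)) ∨
        (¬ SympOn g ψ W ∧ (m % 4 = 1 ∨ m % 4 = 2))))

end Pool.Agent.FQU
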