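import Pool.Agent.FQU.Lift
import Pool.Agent.FQU.Joint2
import Pool.Agent.FQU.Bal2
import Pool.Agent.NumRank.SpanCoroots

/-!
# Elements of `g` which act on one eigenspace and its conjugate only (PACKAGE FU24)

Proof of `exists_single`. Call `y ∈ g` good if `yᵀ ψ + ψ y = 0` and `y w = 0` for all `w ∈ HS R σ'`, `σ' ≠ σ, cp starRingAut σ`. The good elements
form a subspace which is closed under commutators; let `X ≤ End ℂ W` be its image under `rm p`. All elements of `X` have trace zero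
(`bal` with `κ = 0`), and commutators of elements of `X` are in `X` (`rm_mul`).

Let `C = cartan_res M H F.irr F.prj` and `T = td M H hB.idem F.irr F.prj`.

(1) Every root vector `D₁ ≠ 0` of `res p g` for `res p (tor Φ)` with a root `β` which is not zero on `res p (tor Φ)` is in `X`: `exists_lift_root` gives
`z ∈ g` with `rm p z = D₁`, a root vector with root `β (rm p x)`, not zero on `tor Φ`; `exists_jrt` gives `y, G, π`. `G` is not zero on
`Om R Φ σ`, because otherwise `z = 0` on `HS R σ ⊇ W` (`Jrt.kill`) and `D₁ = rm p z = 0` (`rm_apply`). So by `hG` `G = 0` on `Om R Φ σ'` for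
`σ' ≠ σ, cp starRingAut σ`, and `z = 0` on `HS R σ'` (`Jrt.kill`). `z` is skew (`Jrt.skew`). So `z` is good.

(2) If `Opp (res p g) (res p (tor Φ)) β D₁ D₂` and `D₁ ≠ 0` then `D₁ D₂ - D₂ D₁ ∈ X`: `D₁`, `D₂` are root vectors with the roots `β`, `-β`, which are not
zero on `res p (tor Φ)` (`β (D₁ D₂ - D₂ D₁) = 2`, see `opp_two` in `NumRank`/`Mod4`; or `D₁` would commute with `D₁ D₂ - D₂ D₁`), so both are in `X`.

(3) Let `D` be as in the theorem. By `mem_span_roots C` `D = D₀ + D'`, `D' ∈ X` and `D₀` a sum of root vectors with root zero on `res p (tor Φ)`,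
which are in `res p (tor Φ)` by `C.cent`. By `NumRank.span_coroots C T.one T.irr T.hopp` (`T.hopp` in `Pool/Agent/FQA/Link.lean`) and (2)
`D₀ = t • 1 + D''`, `D'' ∈ X`. The trace of `D` is zero, so `t * finrank W = 0`, `t = 0` and `D ∈ X`. -/

set_option autoImplicit false
set_option linter.unusedSectionVars false

namespace Pool.Agent.FQU

open Module
open Pool.Agent.CoprimeSig (ratM endo mem_endo Cartan IsRoot mem_span_roots Opp)
open Pool.Agent.FQA (TD)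

variable {ι : Type} [Fintype ι] [DecidableEq ι] {E : Type} [CommRing E]
  {R : E →+* Matrix ι ι ℚ} {Φ : Matrix ι ι ℚ} {σ : E →+* ℂ} {c : E → E}
  {g : Submodule ℂ (Matrix ι ι ℂ)} {ψ : Matrix ι ι ℂ} {W : Submodule ℂ (ι → ℂ)}
  {p : (ι → ℂ) →ₗ[ℂ] W} {v : Basis (Om R Φ σ) ℂ W}

/-- An element of the span of `S` is in `T` modulo `X`. -/
private theorem id_red {A : Type*} [AddCommMonoid A] [Module ℂ A] (X T : Submodule ℂ A)
    {S : Set A} (h : ∀ z ∈ S, z ∈ X ∨ z ∈ T) {D : A} (hD : D ∈ Submodule.span ℂ S) :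
    ∃ x ∈ X, ∃ t ∈ T, D = x + t := by
  have h1 : Submodule.span ℂ S ≤ X ⊔ T := by
    refine Submodule.span_le.2 fun z hz => ?_
    rcases h z hz with h2 | h2
    · exact Submodule.mem_sup_left h2
    · exact Submodule.mem_sup_right h2
  obtain ⟨x, hx, t, ht, h2⟩ := Submodule.mem_sup.1 (h1 hD)
  exact ⟨x, hx, t, ht, h2.symm⟩

private theorem id_gen {V : Type*} [AddCommGroup V] [Module ℂ V] [FiniteDimensional ℂ V]
    [Nontrivial V] {G t X : Submodule ℂ (End ℂ V)} (T : TD G t)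
    (hroot : ∀ (D : End ℂ V) (β : End ℂ V → ℂ), IsRoot G t β D → (∃ x ∈ t, β x ≠ 0) → D ∈ X)
    (hlie : ∀ a ∈ X, ∀ b ∈ X, a * b - b * a ∈ X)
    (htrX : ∀ a ∈ X, LinearMap.trace ℂ V a = 0) {D : End ℂ V} (hD : D ∈ G)
    (htr : LinearMap.trace ℂ V D = 0) : D ∈ X := by
  -- modulo `X` everything is in the torus
  obtain ⟨x₀, hx₀, D₀, hD₀, e₀⟩ := id_red X t (S := {z | ∃ β, IsRoot G t β z}) (fun z hz => by
    obtain ⟨β, hβ⟩ := hz
    by_cases hne : ∃ x ∈ t, β x ≠ 0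
    · exact Or.inl (hroot z β hβ hne)
    · push Not at hne
      refine Or.inr (T.cent z hβ.mem fun x hx => ?_)
      have h2 := hβ.root x hx
      rw [hne x hx, zero_smul, sub_eq_zero] at h2
      exact h2.symm) (mem_span_roots T.toCartan hD)
  -- modulo `X` the torus consists of scalars
  obtain ⟨x₁, hx₁, D₁, hD₁, e₁⟩ := id_red X (Submodule.span ℂ {(1 : End ℂ V)})
    (S := {1} ∪ {h | ∃ (α : End ℂ V → ℂ) (x y : End ℂ V),
      Opp G t α x y ∧ x ≠ 0 ∧ h = x * y - y * x}) (fun z hz => by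
      rcases hz with hz | hz
      · exact Or.inr (Submodule.subset_span hz)
      · obtain ⟨α, x, y, P, hx0, rfl⟩ := hz
        have h2 : α (x * y - y * x) ≠ 0 := by
          rw [Mod4.opp_two P hx0]
          exact two_ne_zero
        exact Or.inl (hlie x (hroot x α P.rx ⟨_, P.mem, h2⟩) y
          (hroot y _ P.ry ⟨_, P.mem, neg_ne_zero.2 h2⟩)))
    (NumRank.span_coroots T.toCartan T.one T.irr T.hopp hD₀)
  obtain ⟨s, rfl⟩ := Submodule.mem_span_singleton.1 hD₁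
  have h1 : D = (x₀ + x₁) + s • 1 := by rw [e₀, e₁, add_assoc]
  have hX := Submodule.add_mem _ hx₀ hx₁
  rw [h1, map_add, htrX _ hX, zero_add, map_smul, LinearMap.trace_one, smul_eq_mul] at htr
  have h3 : (finrank ℂ V : ℂ) ≠ 0 := Nat.cast_ne_zero.2 finrank_pos.ne'
  have h4 := (mul_eq_zero.1 htr).resolve_right h3
  rw [h4, zero_smul, add_zero] at h1
  rw [← h1] at hX
  exact hX

/-- The operators induced by the elements which act on two eigenspaces only. -/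
private noncomputable def idX (R : E →+* Matrix ι ι ℚ) (g : Submodule ℂ (Matrix ι ι ℂ))
    (ψ : Matrix ι ι ℂ) (p : (ι → ℂ) →ₗ[ℂ] W) (σ : E →+* ℂ) : Submodule ℂ (End ℂ W) where
  carrier := {D | ∃ y ∈ g, rm p y = D ∧ y.transpose * ψ + ψ * y = 0 ∧
    ∀ σ' : E →+* ℂ, σ' ≠ σ → σ' ≠ cp starRingAut σ → ∀ w ∈ HS R σ', y.mulVec w = 0}
  add_mem' := by
    rintro a b ⟨x, hx, rfl, h1, h2⟩ ⟨y, hy, rfl, h3, h4⟩
    refine ⟨x + y, g.add_mem hx hy, rm_add x y, ?_, fun σ' h5 h6 w hw => ?_⟩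
    · rw [Matrix.transpose_add, add_mul, mul_add, add_add_add_comm, h1, h3, add_zero]
    · rw [Matrix.add_mulVec, h2 σ' h5 h6 w hw, h4 σ' h5 h6 w hw, add_zero]
  zero_mem' := by
    refine ⟨0, g.zero_mem, ?_, ?_, fun σ' _ _ w _ => Matrix.zero_mulVec w⟩
    · unfold rm
      rw [map_zero, map_zero]
    · rw [Matrix.transpose_zero, zero_mul, mul_zero, add_zero]
  smul_mem' := by
    rintro k a ⟨x, hx, rfl, h1, h2⟩
    refine ⟨k • x, g.smul_mem k hx, rm_smul k x, ?_, fun σ' h5 h6 w hw => ?_⟩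
    · rw [Matrix.transpose_smul, smul_mul_assoc, mul_smul_comm, ← smul_add, h1, smul_zero]
    · rw [Matrix.smul_mulVec, h2 σ' h5 h6 w hw, smul_zero]

private theorem mem_idX {D : End ℂ W} : D ∈ idX R g ψ p σ ↔
    ∃ y ∈ g, rm p y = D ∧ y.transpose * ψ + ψ * y = 0 ∧
      ∀ σ' : E →+* ℂ, σ' ≠ σ → σ' ≠ cp starRingAut σ → ∀ w ∈ HS R σ', y.mulVec w = 0 := Iff.rfl

private theorem id_skew {x y : Matrix ι ι ℂ} (h1 : x.transpose * ψ + ψ * x = 0)
    (h2 : y.transpose * ψ + ψ * y = 0) :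
    (x * y - y * x).transpose * ψ + ψ * (x * y - y * x) = 0 := by
  have e1 : x.transpose * ψ = -(ψ * x) := eq_neg_of_add_eq_zero_left h1
  have e2 : y.transpose * ψ = -(ψ * y) := eq_neg_of_add_eq_zero_left h2
  rw [Matrix.transpose_sub, Matrix.transpose_mul, Matrix.transpose_mul, sub_mul, mul_assoc,
    mul_assoc, e1, e2, mul_neg, mul_neg, ← mul_assoc, ← mul_assoc, e1, e2, mul_sub, neg_mul,
    neg_mul, mul_assoc, mul_assoc]
  abel

private theorem idX_lie (M : Mono R c Φ g ψ) (F : Frame R Φ g σ W p v) {a b : End ℂ W}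
    (ha : a ∈ idX R g ψ p σ) (hb : b ∈ idX R g ψ p σ) : a * b - b * a ∈ idX R g ψ p σ := by
  obtain ⟨x, hx, rfl, h1, h2⟩ := ha
  obtain ⟨y, hy, rfl, h3, h4⟩ := hb
  have hst := F.irr.1
  refine ⟨x * y - y * x, M.lie x hx y hy, ?_, id_skew h1 h3, fun σ' h5 h6 w hw => ?_⟩
  · rw [rm_sub, rm_mul F.prj (hst x hx) (hst y hy), rm_mul F.prj (hst y hy) (hst x hx)]
  · rw [Matrix.sub_mulVec, ← Matrix.mulVec_mulVec, ← Matrix.mulVec_mulVec, h2 σ' h5 h6 w hw,
      h4 σ' h5 h6 w hw, Matrix.mulVec_zero, Matrix.mulVec_zero, sub_zero]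

private theorem idX_root (M : Mono R c Φ g ψ) (H : IsFrob R Φ) (hI : Idem Φ)
    (F : Frame R Φ g σ W p v)
    (hG : ∀ (z y : Matrix ι ι ℂ) (G : ℂ → ℚ) (π : ℂ → ℂ), Jrt R Φ g z y G π →
      (∃ μ ∈ Om R Φ σ, G μ ≠ 0) → ∀ σ' : E →+* ℂ, σ' ≠ σ → σ' ≠ cp starRingAut σ →
      ∀ μ ∈ Om R Φ σ', G μ = 0)
    {D : End ℂ W} {β : End ℂ W → ℂ} (hD : IsRoot (res p g) (res p (tor Φ)) β D)
    (hne : ∃ x ∈ res p (tor Φ), β x ≠ 0) : D ∈ idX R g ψ p σ := by
  by_cases h0 : D = 0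
  · rw [h0]
    exact Submodule.zero_mem _
  obtain ⟨z, hz, hzD, hroot⟩ := exists_lift_root M H F hD.mem h0 hD.root
  have hz0 : z ≠ 0 := by
    rintro rfl
    apply h0
    rw [← hzD]
    unfold rm
    rw [map_zero, map_zero]
  have hne' : ∃ x ∈ tor Φ, β (rm p x) ≠ 0 := by
    obtain ⟨x, hx, hx0⟩ := hne
    obtain ⟨τ, hτ, rfl⟩ := mem_res.1 hx
    exact ⟨τ, hτ, hx0⟩
  obtain ⟨y, G, π, J⟩ := exists_jrt M H hI hz hz0 (α := fun x => β (rm p x)) hroot hne'
  have hGne : ∃ μ ∈ Om R Φ σ, G μ ≠ 0 := by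
    by_contra hcon
    push Not at hcon
    apply h0
    rw [← hzD]
    ext w
    rw [rm_apply F.prj (F.irr.1 z hz), J.kill M H hcon _ (F.le w.2)]
    rfl
  exact ⟨z, hz, hzD, J.skew M, fun σ' h1 h2 w hw => J.kill M H (hG z y G π J hGne σ' h1 h2) w hw⟩

theorem exists_single (M : Mono R c Φ g ψ) (H : IsFrob R Φ) (hB : Bal R Φ)
    (F : Frame R Φ g σ W p v)
    (hG : ∀ (z y : Matrix ι ι ℂ) (G : ℂ → ℚ) (π : ℂ → ℂ), Jrt R Φ g z y G π →
      (∃ μ ∈ Om R Φ σ, G μ ≠ 0) → ∀ σ' : E →+* ℂ, σ' ≠ σ → σ' ≠ cp starRingAut σ →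
      ∀ μ ∈ Om R Φ σ', G μ = 0)
    {D : End ℂ W} (hD : D ∈ res p g) (htr : LinearMap.trace ℂ W D = 0) :
    ∃ y ∈ g, rm p y = D ∧ y.transpose * ψ + ψ * y = 0 ∧
      ∀ σ' : E →+* ℂ, σ' ≠ σ → σ' ≠ cp starRingAut σ → ∀ w ∈ HS R σ', y.mulVec w = 0 := by
  have hnt : Nontrivial W := F.nontrivial
  refine mem_idX.1 (id_gen (td M H hB.idem F.irr F.prj)
    (fun D β h hne => idX_root M H hB.idem F hG h hne) (fun a ha b hb => idX_lie M F ha hb)
    ?_ hD htr)
  rintro a ⟨y, hy, rfl, h1, -⟩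
  have h2 := bal M H hB F.irr F.prj F.le hy (κ := 0) (by rw [zero_smul]; exact h1)
  rw [zero_mul] at h2
  exact (mul_eq_zero.1 h2).resolve_left two_ne_zero

end Pool.Agent.FQU
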