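import Pool.Agent.FQU.Goursat
import Pool.Agent.FQU.Ideal

/-!
# The Lie algebra (PACKAGE FU25)

Direction `→` of `mem_iff`: `M.sim N` gives `m`; `N` commutes with the commutant of `g`; let `W` be irreducible, `exists_sig`, `exists_prj`, and
`A` the restriction of `N`: `A = rm p N` (`rm_apply`), so the trace condition is `bal`.

Direction `←`. Let `Good D` be: `Dᵀ ψ + ψ D = 0`, `D` commutes with the commutant of `g`, and `trace A = 0` for all irreducible `W` and `A : End ℂ W`
with `A w = D w`. `D = N - (m / 2) • 1` is good. Skew elements of `g` are good (`bal`), and differences of good elements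
are good.

(1) A good `D` preserves every `g`-stable `W`: by `exists_prj` and the matrix `Z` of `w ↦ p w`, which commutes with `g`, `D Z = Z D`. It preserves
`HS R σ` (`HS_stable`).

(2) For a good `D` and every `σ` there is a skew `y ∈ g` with `y w = D w` for `w ∈ HS R σ` and for `w ∈ HS R (cp starRingAut σ)`, and `y w = 0` for
`w ∈ HS R σ'`, `σ' ≠ σ, cp starRingAut σ`: Take a frame `(W, p, v)` for `σ`. `rm p D` has trace zero and is skew for all `φ` with
`IsForm g ψ p φ` (`skew_of_skew` in `Form.lean`), so it is in `res p g` by `hfull`. `exists_single` (with `goursat` for `hG`) gives `y`; `y w = D w` for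
`w ∈ W`. The space of all `u ∈ HS R σ` with `y u = D u` contains `W` and is stable under the commutant of `g` (`y` and `D`
commute with it; the commutant preserves `HS R σ` by `M.center`). The span of all `Z w`, `w ∈ W`, `Z` in the commutant, is stable
under `g` and under the commutant and not zero, so it is `HS R σ` by `M.iso σ`. So `y = D` on `HS R σ`. Let
`u ∈ HS R (cp starRingAut σ)`, `u' = y u - D u`, which is in `HS R (cp starRingAut σ)`. For `w ∈ HS R σ`: `u' ⬝ᵥ ψ w = - u ⬝ᵥ ψ (y w - D w) = 0`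
(skew). For `w ∈ HS R σ'`, `σ' ≠ σ`: `u' ⬝ᵥ ψ w = 0` because `σ'' a = σ' (c a)` for all `a`, `σ'' = cp starRingAut σ`, would be `σ' = σ` (`M.ros`, `hc`, compare the
proof of `exists_isForm`). By `iSup_HS` `u' ⬝ᵥ ψ w = 0` for all `w`, `u' = 0` (`M.unit`).

(3) Induction on the number of the `σ` for which `D` is not zero on `HS R σ` (`E →+* ℂ` is finite): if it is zero then `D = 0` (`iSup_HS`). If `D` is not
zero on `HS R σ` take `y` from (2); `D - y` is good, it is zero on `HS R σ`, and on `HS R σ'` it is zero or equal to `D`. So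
`D - y ∈ g` by induction. Finally `N = D + (m / 2) • 1 ∈ g` (`M.one`). -/

set_option autoImplicit false
set_option linter.unusedSectionVars false

namespace Pool.Agent.FQU

open Module
open Pool.Agent.CoprimeSig (ratM)

variable {ι : Type} [Fintype ι] [DecidableEq ι] {E : Type} [CommRing E]
  {R : E →+* Matrix ι ι ℚ} {Φ : Matrix ι ι ℚ} {σ : E →+* ℂ} {c : E → E}
  {g : Submodule ℂ (Matrix ι ι ℂ)} {ψ : Matrix ι ι ℂ}

/-! ### Matrices which commute with the commutant -/

/-- The matrix of the projection onto a stable subspace. -/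
private theorem fin_matrix {W : Submodule ℂ (ι → ℂ)} (M : Mono R c Φ g ψ)
    (hW : ∀ x ∈ g, ∀ w ∈ W, x.mulVec w ∈ W) :
    ∃ Z : Matrix ι ι ℂ, (∀ x ∈ g, x * Z = Z * x) ∧ (∀ v, Z.mulVec v ∈ W) ∧
      ∀ w ∈ W, Z.mulVec w = w := by
  obtain ⟨p, P⟩ := exists_prj M hW
  have hZ : ∀ v, (LinearMap.toMatrix' (W.subtype ∘ₗ p)).mulVec v = (p v : ι → ℂ) := by
    intro v
    rw [← Matrix.toLin'_apply, Matrix.toLin'_toMatrix']
    rfl
  refine ⟨LinearMap.toMatrix' (W.subtype ∘ₗ p), fun x hx => ?_, fun v => ?_, fun w hw => ?_⟩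
  · apply (Matrix.toLin' (R := ℂ)).injective
    refine LinearMap.ext fun v => ?_
    rw [Matrix.toLin'_apply, Matrix.toLin'_apply, ← Matrix.mulVec_mulVec, ← Matrix.mulVec_mulVec,
      hZ, hZ, P.eq x hx]
  · rw [hZ]
    exact (p v).2
  · rw [hZ, P.id ⟨w, hw⟩]

/-- `D` commutes with the commutant of `g`. -/
private def Bic (g : Submodule ℂ (Matrix ι ι ℂ)) (D : Matrix ι ι ℂ) : Prop :=
  ∀ Z : Matrix ι ι ℂ, (∀ x ∈ g, x * Z = Z * x) → D * Z = Z * D

private theorem bic_stable {W : Submodule ℂ (ι → ℂ)} {D : Matrix ι ι ℂ} (M : Mono R c Φ g ψ)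
    (hD : Bic g D) (hW : ∀ x ∈ g, ∀ w ∈ W, x.mulVec w ∈ W) : ∀ w ∈ W, D.mulVec w ∈ W := by
  intro w hw
  obtain ⟨Z, hZ, hZ1, hZ2⟩ := fin_matrix M hW
  have h3 : D.mulVec w = Z.mulVec (D.mulVec w) := by
    conv_lhs => rw [← hZ2 w hw]
    rw [Matrix.mulVec_mulVec, hD Z hZ, Matrix.mulVec_mulVec]
  rw [h3]
  exact hZ1 _

private theorem bic_sub {D D' : Matrix ι ι ℂ} (h : Bic g D) (h' : Bic g D') :
    Bic g (D - D') := fun Z hZ => by rw [sub_mul, mul_sub, h Z hZ, h' Z hZ]

/-- The skew matrices which commute with the commutant and have trace zero on the irreducible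
subspaces. -/
private structure Good (g : Submodule ℂ (Matrix ι ι ℂ)) (ψ D : Matrix ι ι ℂ) : Prop where
  skew : D.transpose * ψ + ψ * D = 0
  bic : Bic g D
  tr : ∀ (W : Submodule ℂ (ι → ℂ)), Irr g W → ∀ p : (ι → ℂ) →ₗ[ℂ] W, Prj g W p →
    LinearMap.trace ℂ W (rm p D) = 0

private theorem good_sub {D D' : Matrix ι ι ℂ} (h : Good g ψ D) (h' : Good g ψ D') :
    Good g ψ (D - D') := by
  refine ⟨?_, bic_sub h.bic h'.bic, fun W hW p P => ?_⟩
  · have e1 := h.skew
    have e2 := h'.skew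
    rw [Matrix.transpose_sub, sub_mul, mul_sub]
    have e3 : D.transpose * ψ - D'.transpose * ψ + (ψ * D - ψ * D') =
        (D.transpose * ψ + ψ * D) - (D'.transpose * ψ + ψ * D') := by abel
    rw [e3, e1, e2, sub_zero]
  · rw [rm_sub]
    refine ((LinearMap.trace ℂ W).map_sub (rm p D) (rm p D')).trans ?_
    rw [h.tr W hW p P, h'.tr W hW p P, sub_zero]

private theorem good_of_mem (M : Mono R c Φ g ψ) (H : IsFrob R Φ) (hB : Bal R Φ)
    {y : Matrix ι ι ℂ} (hy : y ∈ g) (hs : y.transpose * ψ + ψ * y = 0) : Good g ψ y := by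
  refine ⟨hs, fun Z hZ => hZ y hy, fun W hW p P => ?_⟩
  obtain ⟨σ, hσ⟩ := exists_sig M hW
  have h1 := bal M H hB hW P hσ hy (κ := 0) (by rw [hs, zero_smul])
  rw [zero_mul] at h1
  exact (mul_eq_zero.1 h1).resolve_left two_ne_zero

/-- Equality on an irreducible subspace gives equality on the eigenspace. -/
private theorem eq_on_HS (M : Mono R c Φ g ψ) {W : Submodule ℂ (ι → ℂ)} (hW : Irr g W)
    (hσ : W ≤ HS R σ) {D y : Matrix ι ι ℂ} (hD : Bic g D) (hy : Bic g y)
    (h : ∀ w ∈ W, y.mulVec w = D.mulVec w) : ∀ w ∈ HS R σ, y.mulVec w = D.mulVec w := by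
  let S : Submodule ℂ (ι → ℂ) := Submodule.span ℂ {u | ∃ Z : Matrix ι ι ℂ,
    (∀ x ∈ g, x * Z = Z * x) ∧ ∃ w ∈ W, u = Z.mulVec w}
  have hst : ∀ (X : Matrix ι ι ℂ), (∀ Z : Matrix ι ι ℂ, (∀ x ∈ g, x * Z = Z * x) →
      ∀ w ∈ W, X.mulVec (Z.mulVec w) ∈ S) → ∀ u ∈ S, X.mulVec u ∈ S := by
    intro X hX u hu
    have h1 : S ≤ S.comap (Matrix.toLin' X) := by
      refine Submodule.span_le.2 ?_
      rintro _ ⟨Z, hZ, w, hw, rfl⟩
      change Matrix.toLin' X (Z.mulVec w) ∈ S
      rw [Matrix.toLin'_apply]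
      exact hX Z hZ w hw
    have h2 := h1 hu
    rwa [Submodule.mem_comap, Matrix.toLin'_apply] at h2
  have hle : S ≤ HS R σ := by
    refine Submodule.span_le.2 ?_
    rintro _ ⟨Z, hZ, w, hw, rfl⟩
    intro a
    rw [Matrix.mulVec_mulVec, ← M.center Z hZ a, ← Matrix.mulVec_mulVec, hσ hw a,
      Matrix.mulVec_smul]
  have hWS : W ≤ S := fun w hw => Submodule.subset_span
    ⟨1, fun x _ => by rw [mul_one, one_mul], w, hw, by rw [Matrix.one_mulVec]⟩
  have h1 : S = ⊥ ∨ S = HS R σ := by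
    refine M.iso σ S hle (fun x hx => hst x ?_) (fun Z' hZ' _ => hst Z' ?_)
    · intro Z hZ w hw
      refine Submodule.subset_span ⟨Z, hZ, x.mulVec w, hW.1 x hx w hw, ?_⟩
      rw [Matrix.mulVec_mulVec, Matrix.mulVec_mulVec, hZ x hx]
    · intro Z hZ w hw
      refine Submodule.subset_span ⟨Z' * Z, fun x hx => ?_, w, hw, ?_⟩
      · rw [← mul_assoc, hZ' x hx, mul_assoc, hZ x hx, mul_assoc]
      · rw [Matrix.mulVec_mulVec]
  have h2 : S = HS R σ := by
    rcases h1 with h1 | h1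
    · exfalso
      apply hW.2.1
      rw [eq_bot_iff, ← h1]
      exact hWS
    · exact h1
  have h3 : S ≤ LinearMap.eqLocus (Matrix.toLin' y) (Matrix.toLin' D) := by
    refine Submodule.span_le.2 ?_
    rintro _ ⟨Z, hZ, w, hw, rfl⟩
    change Matrix.toLin' y (Z.mulVec w) = Matrix.toLin' D (Z.mulVec w)
    rw [Matrix.toLin'_apply, Matrix.toLin'_apply, Matrix.mulVec_mulVec, Matrix.mulVec_mulVec,
      hy Z hZ, hD Z hZ, ← Matrix.mulVec_mulVec, ← Matrix.mulVec_mulVec, h w hw]
  intro w hw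
  rw [← h2] at hw
  have h4 := h3 hw
  change Matrix.toLin' y w = Matrix.toLin' D w at h4
  rwa [Matrix.toLin'_apply, Matrix.toLin'_apply] at h4

private theorem dot_transpose (X : Matrix ι ι ℂ) (u w : ι → ℂ) :
    X.mulVec u ⬝ᵥ w = u ⬝ᵥ X.transpose.mulVec w := by
  rw [Matrix.dotProduct_mulVec, Matrix.vecMul_transpose]

/-- Skew matrices which are equal on an eigenspace are equal on the conjugate one. -/
private theorem eq_on_conj (M : Mono R c Φ g ψ)
    (hc : ∀ (σ : E →+* ℂ) a, σ (c a) = starRingEnd ℂ (σ a)) {D y : Matrix ι ι ℂ}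
    (hD : Good g ψ D) (hy : Good g ψ y) (h : ∀ w ∈ HS R σ, y.mulVec w = D.mulVec w) :
    ∀ u ∈ HS R (cp starRingAut σ), y.mulVec u = D.mulVec u := by
  intro u hu
  have hG := good_sub hy hD
  have hmem : (y - D).mulVec u ∈ HS R (cp starRingAut σ) :=
    bic_stable M hG.bic (HS_stable M) u hu
  have h1 : ∀ w, (y - D).mulVec u ⬝ᵥ ψ.mulVec w = 0 := by
    let L : (ι → ℂ) →ₗ[ℂ] ℂ :=
      { toFun := fun w => (y - D).mulVec u ⬝ᵥ ψ.mulVec w
        map_add' := fun v w => by rw [Matrix.mulVec_add, dotProduct_add]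
        map_smul' := fun t w => by rw [Matrix.mulVec_smul, dotProduct_smul, RingHom.id_apply] }
    have h2 : (⊤ : Submodule ℂ (ι → ℂ)) ≤ LinearMap.ker L := by
      rw [← iSup_HS M]
      refine iSup_le fun σ' w hw => ?_
      rw [LinearMap.mem_ker]
      change (y - D).mulVec u ⬝ᵥ ψ.mulVec w = 0
      by_cases hσ : σ' = σ
      · subst hσ
        have e1 : (y - D).transpose * ψ = -(ψ * (y - D)) := eq_neg_of_add_eq_zero_left hG.skew
        rw [dot_transpose, Matrix.mulVec_mulVec, e1, Matrix.neg_mulVec, ← Matrix.mulVec_mulVec,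
          Matrix.sub_mulVec, h w hw, sub_self, Matrix.mulVec_zero, neg_zero, dotProduct_zero]
      · by_contra hne
        apply hσ
        refine RingHom.ext fun a => ?_
        have e1 : (ratM (R a)).mulVec ((y - D).mulVec u) ⬝ᵥ ψ.mulVec w =
            (y - D).mulVec u ⬝ᵥ ψ.mulVec ((ratM (R (c a))).mulVec w) := by
          rw [dot_transpose, Matrix.mulVec_mulVec, Matrix.mulVec_mulVec, M.ros]
        rw [hmem a, hw (c a), Matrix.mulVec_smul, smul_dotProduct, dotProduct_smul, smul_eq_mul,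
          smul_eq_mul, hc] at e1
        have e2 := mul_right_cancel₀ hne e1
        have e3 : starRingEnd ℂ (σ a) = starRingEnd ℂ (σ' a) := e2
        exact ((starRingEnd ℂ).injective e3).symm
    intro w
    exact LinearMap.mem_ker.1 (h2 (Submodule.mem_top : w ∈ ⊤))
  have h2 : (y - D).mulVec u = 0 := by
    obtain ⟨w, hw⟩ := M.unit
    have hinv : ψ * ((w⁻¹ : (Matrix ι ι ℂ)ˣ) : Matrix ι ι ℂ) = 1 := by
      rw [← hw]
      exact w.mul_inv
    refine dotProduct_eq_zero _ fun z => ?_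
    have h3 := h1 (((w⁻¹ : (Matrix ι ι ℂ)ˣ) : Matrix ι ι ℂ).mulVec z)
    rwa [Matrix.mulVec_mulVec, hinv, Matrix.one_mulVec] at h3
  rw [Matrix.sub_mulVec] at h2
  exact sub_eq_zero.1 h2

theorem mem_iff [Algebra ℚ E] [Module.Finite ℚ E] [IsReduced E] (M : Mono R c Φ g ψ)
    (H : IsFrob R Φ) (hB : Bal R Φ) (hc : ∀ (σ : E →+* ℂ) a, σ (c a) = starRingEnd ℂ (σ a))
    (hkind : ∀ σ : E →+* ℂ, ∃ Ad St, KindAt R Φ g σ Ad St)
    (hfull : ∀ (σ : E →+* ℂ) (W : Submodule ℂ (ι → ℂ)) (p : (ι → ℂ) →ₗ[ℂ] W)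
      (v : Basis (Om R Φ σ) ℂ W), Frame R Φ g σ W p v → FullW g ψ p) (N : Matrix ι ι ℂ) :
    N ∈ g ↔ ∃ m : ℂ, N.transpose * ψ + ψ * N = m • ψ ∧
      (∀ Z : Matrix ι ι ℂ, (∀ x ∈ g, x * Z = Z * x) → N * Z = Z * N) ∧
      ∀ W, Irr g W → ∀ A : End ℂ W, (∀ w, (A w : ι → ℂ) = N.mulVec w) →
        2 * LinearMap.trace ℂ W A = m * finrank ℂ W := by
  constructor
  · intro hN
    obtain ⟨m, hm⟩ := M.sim N hN
    refine ⟨m, hm, fun Z hZ => hZ N hN, fun W hW A hA => ?_⟩
    obtain ⟨σ, hσ⟩ := exists_sig M hW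
    obtain ⟨p, P⟩ := exists_prj M hW.1
    have h1 : A = rm p N := by
      refine LinearMap.ext fun w => Subtype.ext ?_
      rw [hA, rm_apply P (hW.1 N hN)]
    rw [h1]
    exact bal M H hB hW P hσ hN hm
  · rintro ⟨m, hm, hbic, htr⟩
    -- the matrices given by one eigenspace
    have key : ∀ D : Matrix ι ι ℂ, Good g ψ D → ∀ σ : E →+* ℂ, ∃ y ∈ g, Good g ψ y ∧
        (∀ w ∈ HS R σ, y.mulVec w = D.mulVec w) ∧
        (∀ w ∈ HS R (cp starRingAut σ), y.mulVec w = D.mulVec w) ∧
        ∀ σ' : E →+* ℂ, σ' ≠ σ → σ' ≠ cp starRingAut σ → ∀ w ∈ HS R σ', y.mulVec w = 0 := by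
      intro D hD σ
      obtain ⟨W, p, v, F⟩ := exists_frame M H hB.idem σ
      have hDW := bic_stable M hD.bic F.irr.1
      have hres : rm p D ∈ res p g := by
        refine hfull σ W p v F (rm p D) (hD.tr W F.irr p F.prj) fun φ hφ u w => ?_
        exact skew_of_skew M F.irr F.prj hφ.mult hD.skew hD.bic hDW u w
      have hG : ∀ (z y : Matrix ι ι ℂ) (G : ℂ → ℚ) (π : ℂ → ℂ), Jrt R Φ g z y G π →
          (∃ μ ∈ Om R Φ σ, G μ ≠ 0) → ∀ σ' : E →+* ℂ, σ' ≠ σ → σ' ≠ cp starRingAut σ →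
          ∀ μ ∈ Om R Φ σ', G μ = 0 := by
        intro z y G π J hμ σ' h1 h2
        obtain ⟨Ad, St, K⟩ := hkind σ
        obtain ⟨Ad', St', K'⟩ := hkind σ'
        exact goursat M H hB K K' h1 h2 J hμ
      obtain ⟨y, hy, hyD, hys, hy0⟩ := exists_single M H hB F hG hres
        (hD.tr W F.irr p F.prj)
      have hyG := good_of_mem M H hB hy hys
      have h1 : ∀ w ∈ HS R σ, y.mulVec w = D.mulVec w := by
        refine eq_on_HS M F.irr F.le hD.bic hyG.bic fun w hw => ?_
        have h2 := congrArg (fun T : End ℂ W => (T ⟨w, hw⟩ : ι → ℂ)) hyD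
        rwa [rm_apply F.prj (F.irr.1 y hy), rm_apply F.prj hDW] at h2
      exact ⟨y, hy, hyG, h1, eq_on_conj M hc hD hyG h1, hy0⟩
    -- induction
    have hfin : Finite (E →+* ℂ) := finite_hom
    have main : ∀ (n : ℕ) (D : Matrix ι ι ℂ), Good g ψ D →
        {σ : E →+* ℂ | ∃ w ∈ HS R σ, D.mulVec w ≠ 0}.ncard = n → D ∈ g := by
      intro n
      induction n using Nat.strong_induction_on with
      | _ n ih =>
        intro D hD hn
        by_cases h0 : ∀ σ : E →+* ℂ, ∀ w ∈ HS R σ, D.mulVec w = 0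
        · have h1 : D = 0 := by
            have h2 : (⊤ : Submodule ℂ (ι → ℂ)) ≤ LinearMap.ker (Matrix.toLin' D) := by
              rw [← iSup_HS M]
              refine iSup_le fun σ w hw => ?_
              rw [LinearMap.mem_ker, Matrix.toLin'_apply]
              exact h0 σ w hw
            have h3 : Matrix.toLin' D = 0 := LinearMap.ext fun w =>
              LinearMap.mem_ker.1 (h2 Submodule.mem_top)
            exact (Matrix.toLin' (R := ℂ)).injective (h3.trans (map_zero _).symm)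
          rw [h1]
          exact g.zero_mem
        · push Not at h0
          obtain ⟨σ, w₀, hw₀, hne⟩ := h0
          obtain ⟨y, hy, hyG, h1, h2, h3⟩ := key D hD σ
          have h4 : {σ' : E →+* ℂ | ∃ w ∈ HS R σ', (D - y).mulVec w ≠ 0} ⊂
              {σ' : E →+* ℂ | ∃ w ∈ HS R σ', D.mulVec w ≠ 0} := by
            refine (Set.ssubset_iff_of_subset ?_).2 ⟨σ, ⟨w₀, hw₀, hne⟩, ?_⟩
            · rintro σ' ⟨w, hw, hDw⟩
              rw [Matrix.sub_mulVec] at hDw
              by_cases e1 : σ' = σ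
              · subst e1
                exact absurd (by rw [h1 w hw, sub_self]) hDw
              · by_cases e2 : σ' = cp starRingAut σ
                · subst e2
                  exact absurd (by rw [h2 w hw, sub_self]) hDw
                · rw [h3 σ' e1 e2 w hw, sub_zero] at hDw
                  exact ⟨w, hw, hDw⟩
            · rintro ⟨w, hw, hDw⟩
              rw [Matrix.sub_mulVec, h1 w hw, sub_self] at hDw
              exact hDw rfl
          have h5 := Set.ncard_lt_ncard h4 (Set.toFinite _)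
          rw [hn] at h5
          have h6 := ih _ h5 (D - y) (good_sub hD hyG) rfl
          have h7 := g.add_mem h6 hy
          rwa [sub_add_cancel] at h7
    have hD : Good g ψ (N - (m / 2) • (1 : Matrix ι ι ℂ)) := by
      refine ⟨?_, fun Z hZ => ?_, fun W hW p P => ?_⟩
      · rw [Matrix.transpose_sub, Matrix.transpose_smul, Matrix.transpose_one, sub_mul, mul_sub,
          smul_mul_assoc, one_mul, mul_smul_comm, mul_one]
        have e1 : N.transpose * ψ - (m / 2) • ψ + (ψ * N - (m / 2) • ψ) =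
            (N.transpose * ψ + ψ * N) - ((m / 2) • ψ + (m / 2) • ψ) := by abel
        rw [e1, hm, ← add_smul, add_halves, sub_self]
      · rw [sub_mul, mul_sub, hbic Z hZ, smul_mul_assoc, one_mul, mul_smul_comm, mul_one]
      · have hst : ∀ w ∈ W, N.mulVec w ∈ W := bic_stable M (fun Z hZ => hbic Z hZ) hW.1
        have h1 := htr W hW (rm p N) fun w => rm_apply P hst w
        rw [rm_sub, rm_smul, rm_one P]
        refine ((LinearMap.trace ℂ W).map_sub (rm p N) ((m / 2) • (1 : End ℂ W))).trans ?_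
        have h2 := (LinearMap.trace ℂ W).map_smul (m / 2) (1 : End ℂ W)
        rw [LinearMap.trace_one, smul_eq_mul] at h2
        refine (congrArg (fun z => LinearMap.trace ℂ W (rm p N) - z) h2).trans ?_
        linear_combination h1 / 2
    have h8 := g.add_mem (main _ _ hD rfl) (g.smul_mem (m / 2) M.one)
    rwa [sub_add_cancel] at h8

end Pool.Agent.FQU
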