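import Pool.Agent.FQU.Bal2

/-!
# Invariant forms on the irreducible subspaces (PACKAGE FU8)

`IsForm g ψ p φ`: `φ` is nondegenerate on `W` and the elements of `g` have the same multipliers for `φ` as for `ψ`.

`exists_rep`: let `b` be the matrix of the bilinear form `(u, v) ↦ φ (p u) (p v)` on `ℂ^ι`, `Z = ψ⁻¹ b` (`M.unit`), so
`φ (p u) (p v) = u ⬝ᵥ (ψ * Z).mulVec v`. For `x ∈ g` with multiplier `κ` (`M.sim`): `xᵀ b + b x = κ b`, because
`p (x v) = rm p x (p v)` (`P.eq`, `rm_apply`). With `xᵀ ψ = κ ψ - ψ x`: `(κ ψ - ψ x) Z + ψ Z x = κ ψ Z`, so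
`ψ (Z x - x Z) = 0` and `Z x = x Z`.

`real_of_form`: take `Z` from `exists_rep` for `φ ≠ 0`. `Z` commutes with `ratM (R a)` (`M.center`). For `u, w ∈ W ≤ HS R σ`, `a ∈ E`:
`(R a u)ᵀ ψ Z w = uᵀ (R a)ᵀ ψ Z w = uᵀ ψ R (c a) Z w = uᵀ ψ Z R (c a) w`, so `σ a * φ u w = σ (c a) * φ u w = conj (σ a) * φ u w`.
Take `u, w` with `φ u w ≠ 0`.

`no_form`: let `φ` be nondegenerate with multipliers `κ' x`: from `φ (rm x u) w + φ u (rm x w) = κ' φ u w` one gets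
`2 * trace (rm p x) = κ' * finrank W` (write `rm x = κ' - (adjoint of rm x)`, the adjoint for the nondegenerate form
has the same trace; compare `trace_mult` in `RealT.lean` with matrices, or `FQA`/`OddRank` lemmas on similitudes), and
`bal` gives `2 * trace (rm p x) = κ * finrank W` for the multiplier `κ` for `ψ`. So `κ' = κ`, `φ` satisfies the hypothesis of
`real_of_form`, contradiction with `hσ`. -/

set_option autoImplicit false
set_option linter.unusedSectionVars false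

namespace Pool.Agent.FQU

open Module
open Pool.Agent.CoprimeSig (ratM)

variable {ι : Type} [Fintype ι] [DecidableEq ι] {E : Type} [CommRing E]
  {R : E →+* Matrix ι ι ℚ} {Φ : Matrix ι ι ℚ} {σ : E →+* ℂ} {c : E → E}
  {g : Submodule ℂ (Matrix ι ι ℂ)} {ψ : Matrix ι ι ℂ} {W : Submodule ℂ (ι → ℂ)}
  {p : (ι → ℂ) →ₗ[ℂ] W}

/-- The elements of `g` have the same multipliers for `φ` as for `ψ`. -/
def Mul (g : Submodule ℂ (Matrix ι ι ℂ)) (ψ : Matrix ι ι ℂ) (p : (ι → ℂ) →ₗ[ℂ] W)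
    (φ : W →ₗ[ℂ] W →ₗ[ℂ] ℂ) : Prop :=
  ∀ x ∈ g, ∀ κ : ℂ, x.transpose * ψ + ψ * x = κ • ψ →
    ∀ u w, φ (rm p x u) w + φ u (rm p x w) = κ * φ u w

/-- `φ` is a nondegenerate form on `W` for which the elements of `g` have the same multipliers as
for `ψ`. -/
structure IsForm (g : Submodule ℂ (Matrix ι ι ℂ)) (ψ : Matrix ι ι ℂ) (p : (ι → ℂ) →ₗ[ℂ] W)
    (φ : W →ₗ[ℂ] W →ₗ[ℂ] ℂ) : Prop where
  nd : ∀ x, (∀ y, φ x y = 0) → x = 0
  mult : Mul g ψ p φ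

private theorem form_ext {A B : Matrix ι ι ℂ}
    (h : ∀ u v : ι → ℂ, u ⬝ᵥ A.mulVec v = u ⬝ᵥ B.mulVec v) : A = B := by
  ext i j
  have h1 := h (Pi.single i 1) (Pi.single j 1)
  simpa using h1

/-- `p` commutes with the elements of `g` -/
private theorem form_p (hW : Irr g W) (P : Prj g W p) {x : Matrix ι ι ℂ} (hx : x ∈ g)
    (u : ι → ℂ) : p (x.mulVec u) = rm p x (p u) := by
  apply Subtype.ext
  rw [P.eq x hx u, rm_apply P (hW.1 x hx)]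

theorem exists_rep (M : Mono R c Φ g ψ) (hW : Irr g W) (P : Prj g W p)
    {φ : W →ₗ[ℂ] W →ₗ[ℂ] ℂ} (hφ : Mul g ψ p φ) :
    ∃ Z : Matrix ι ι ℂ, (∀ x ∈ g, x * Z = Z * x) ∧
      ∀ u v : ι → ℂ, φ (p u) (p v) = u ⬝ᵥ (ψ * Z).mulVec v := by
  obtain ⟨b, hb⟩ : ∃ b : Matrix ι ι ℂ, ∀ u v : ι → ℂ, φ (p u) (p v) = u ⬝ᵥ b.mulVec v := by
    refine ⟨LinearMap.toMatrix₂' ℂ (φ.compl₁₂ p p), fun u v => ?_⟩
    have h1 := Matrix.toLinearMap₂'_apply' (LinearMap.toMatrix₂' ℂ (φ.compl₁₂ p p)) u v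
    rw [Matrix.toLinearMap₂'_toMatrix'] at h1
    rw [← h1, LinearMap.compl₁₂_apply]
  obtain ⟨w, hw⟩ := M.unit
  have hinv : ψ * ((w⁻¹ : (Matrix ι ι ℂ)ˣ) : Matrix ι ι ℂ) = 1 := by
    rw [← hw]
    exact w.mul_inv
  have hinv' : ((w⁻¹ : (Matrix ι ι ℂ)ˣ) : Matrix ι ι ℂ) * ψ = 1 := by
    rw [← hw]
    exact w.inv_mul
  obtain ⟨Z, hZ⟩ : ∃ Z : Matrix ι ι ℂ, ψ * Z = b :=
    ⟨((w⁻¹ : (Matrix ι ι ℂ)ˣ) : Matrix ι ι ℂ) * b, by rw [← mul_assoc, hinv, one_mul]⟩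
  refine ⟨Z, fun x hx => ?_, fun u v => by rw [hZ]; exact hb u v⟩
  obtain ⟨κ, hκ⟩ := M.sim x hx
  have h1 : x.transpose * b + b * x = κ • b := by
    refine form_ext fun u v => ?_
    have h2 := hφ x hx κ hκ (p u) (p v)
    rw [← form_p hW P hx, ← form_p hW P hx, hb, hb, hb] at h2
    rw [Matrix.add_mulVec, dotProduct_add, Matrix.smul_mulVec, dotProduct_smul, smul_eq_mul,
      ← h2, ← Matrix.mulVec_mulVec v x.transpose b, ← Matrix.mulVec_mulVec v b x,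
      Matrix.dotProduct_mulVec u x.transpose, Matrix.vecMul_transpose]
  have h3 : x.transpose * ψ = κ • ψ - ψ * x := eq_sub_of_add_eq hκ
  have h4 : ψ * (x * Z) = ψ * (Z * x) := by
    have h5 : x.transpose * b = κ • b - ψ * (x * Z) := by
      rw [← hZ, ← mul_assoc, h3, sub_mul, smul_mul_assoc, mul_assoc ψ x Z]
    rw [h5, ← hZ] at h1
    rw [← mul_assoc ψ Z x]
    have h6 : ψ * Z * x - ψ * (x * Z) = 0 := by
      rw [← sub_eq_zero] at h1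
      rw [← h1]
      abel
    exact (sub_eq_zero.1 h6).symm
  have h5 := congrArg (fun y => ((w⁻¹ : (Matrix ι ι ℂ)ˣ) : Matrix ι ι ℂ) * y) h4
  simp only [← mul_assoc, hinv', one_mul] at h5
  exact h5

theorem real_of_form (M : Mono R c Φ g ψ) (hc : ∀ (σ : E →+* ℂ) a, σ (c a) = starRingEnd ℂ (σ a))
    (hW : Irr g W) (P : Prj g W p) (hσ : W ≤ HS R σ) {φ : W →ₗ[ℂ] W →ₗ[ℂ] ℂ}
    (hφ : Mul g ψ p φ) (h0 : φ ≠ 0) (a : E) : starRingEnd ℂ (σ a) = σ a := by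
  obtain ⟨Z, hZ, hrep⟩ := exists_rep M hW P hφ
  obtain ⟨u, w, huw⟩ : ∃ u w : W, φ u w ≠ 0 := by
    by_contra h
    push Not at h
    exact h0 (LinearMap.ext fun u => LinearMap.ext fun w => h u w)
  have h1 : φ u w = (u : ι → ℂ) ⬝ᵥ (ψ * Z).mulVec w := by rw [← hrep, P.id, P.id]
  have h2 : σ a * φ u w = σ (c a) * φ u w := by
    calc σ a * φ u w = (σ a • (u : ι → ℂ)) ⬝ᵥ (ψ * Z).mulVec w := by
          rw [smul_dotProduct, smul_eq_mul, h1]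
      _ = ((ratM (R a)).mulVec (u : ι → ℂ)) ⬝ᵥ (ψ * Z).mulVec w := by
          rw [mem_HS.1 (hσ u.2) a]
      _ = (u : ι → ℂ) ⬝ᵥ ((ratM (R a)).transpose * (ψ * Z)).mulVec w := by
          rw [← Matrix.mulVec_mulVec (w : ι → ℂ) (ratM (R a)).transpose (ψ * Z),
            Matrix.dotProduct_mulVec (u : ι → ℂ) (ratM (R a)).transpose,
            Matrix.vecMul_transpose]
      _ = (u : ι → ℂ) ⬝ᵥ (ψ * Z * ratM (R (c a))).mulVec w := by
          rw [← mul_assoc, M.ros, mul_assoc, ← M.center Z hZ, ← mul_assoc]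
      _ = (u : ι → ℂ) ⬝ᵥ (ψ * Z).mulVec (σ (c a) • (w : ι → ℂ)) := by
          rw [← Matrix.mulVec_mulVec, mem_HS.1 (hσ w.2) (c a)]
      _ = σ (c a) * φ u w := by
          rw [Matrix.mulVec_smul, dotProduct_smul, smul_eq_mul, h1]
  rw [← hc]
  exact (mul_right_cancel₀ huw h2).symm

/-- the trace of a similitude of a nondegenerate form -/
private theorem trace_sim {V : Type*} [AddCommGroup V] [Module ℂ V] [FiniteDimensional ℂ V]
    {φ : V →ₗ[ℂ] V →ₗ[ℂ] ℂ} (hφ : ∀ x, (∀ y, φ x y = 0) → x = 0) {y : End ℂ V} {κ : ℂ}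
    (h : ∀ u w, φ (y u) w + φ u (y w) = κ * φ u w) :
    2 * LinearMap.trace ℂ V y = κ * finrank ℂ V := by
  have hinj : Function.Injective (φ : V →ₗ[ℂ] Module.Dual ℂ V) := by
    rw [injective_iff_map_eq_zero]
    intro x hx
    exact hφ x fun z => by rw [hx]; rfl
  let e : V ≃ₗ[ℂ] Module.Dual ℂ V := LinearMap.linearEquivOfInjective
    (φ : V →ₗ[ℂ] Module.Dual ℂ V) hinj Subspace.dual_finrank_eq.symm
  have he : ∀ u, e u = φ u := fun u => rfl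
  have h1 : e.conj y = κ • (1 : End ℂ (Module.Dual ℂ V)) -
      Module.Dual.transpose (R := ℂ) y := by
    refine LinearMap.ext fun f => ?_
    obtain ⟨u, rfl⟩ := e.surjective f
    refine LinearMap.ext fun w => ?_
    have h2 : e.conj y (e u) = e (y u) := by
      rw [LinearEquiv.conj_apply_apply, e.symm_apply_apply]
    have h3 : (κ • (1 : End ℂ (Module.Dual ℂ V)) - Module.Dual.transpose (R := ℂ) y) (e u) w =
        κ * φ u w - φ u (y w) := rfl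
    rw [h2, h3, he, ← h u w]
    ring
  have h2 := congrArg (LinearMap.trace ℂ (Module.Dual ℂ V)) h1
  rw [LinearMap.trace_conj', map_sub, map_smul, LinearMap.trace_one, LinearMap.trace_transpose',
    Subspace.dual_finrank_eq, smul_eq_mul] at h2
  linear_combination h2

theorem no_form (M : Mono R c Φ g ψ) (H : IsFrob R Φ) (hB : Bal R Φ)
    (hc : ∀ (σ : E →+* ℂ) a, σ (c a) = starRingEnd ℂ (σ a))
    (hW : Irr g W) (P : Prj g W p) (hσ : W ≤ HS R σ) (hn : ∃ a, starRingEnd ℂ (σ a) ≠ σ a)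
    (φ : W →ₗ[ℂ] W →ₗ[ℂ] ℂ) (hφ : ∀ x, (∀ y, φ x y = 0) → x = 0) :
    ¬ ∀ y ∈ res p g, ∃ κ : ℂ, ∀ u w, φ (y u) w + φ u (y w) = κ * φ u w := by
  intro h
  have hnt : Nontrivial W := Submodule.nontrivial_iff_ne_bot.2 hW.2.1
  have hdim : (finrank ℂ W : ℂ) ≠ 0 := by
    rw [Nat.cast_ne_zero]
    exact (finrank_pos (R := ℂ) (M := W)).ne'
  have hmul : Mul g ψ p φ := by
    intro x hx κ hκ
    obtain ⟨κ', hκ'⟩ := h _ (rm_mem hx)
    have h1 := trace_sim hφ hκ'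
    rw [bal M H hB hW P hσ hx hκ] at h1
    have h2 := mul_right_cancel₀ hdim h1
    rw [h2]
    exact hκ'
  have h0 : φ ≠ 0 := by
    intro h0
    obtain ⟨x, hx⟩ := exists_ne (0 : W)
    exact hx (hφ x fun y => by rw [h0]; rfl)
  obtain ⟨a, ha⟩ := hn
  exact ha (real_of_form M hc hW P hσ hmul h0 a)

/-- The elements of `res p g` are similitudes. -/
theorem IsForm.sim {φ : W →ₗ[ℂ] W →ₗ[ℂ] ℂ} (hφ : IsForm g ψ p φ) (M : Mono R c Φ g ψ) :
    ∀ x ∈ res p g, ∃ κ : ℂ, ∀ u w, φ (x u) w + φ u (x w) = κ * φ u w := by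
  intro y hy
  obtain ⟨x, hx, rfl⟩ := mem_res.1 hy
  obtain ⟨κ, hκ⟩ := M.sim x hx
  exact ⟨κ, hφ.mult x hx κ hκ⟩

/-- A matrix which is skew for `ψ` and commutes with the commutant of `g` is skew for `φ`. -/
theorem skew_of_skew (M : Mono R c Φ g ψ) (hW : Irr g W) (P : Prj g W p)
    {φ : W →ₗ[ℂ] W →ₗ[ℂ] ℂ} (hφ : Mul g ψ p φ) {D : Matrix ι ι ℂ}
    (hD : D.transpose * ψ + ψ * D = 0)
    (hcomm : ∀ Z : Matrix ι ι ℂ, (∀ x ∈ g, x * Z = Z * x) → D * Z = Z * D)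
    (hDW : ∀ w ∈ W, D.mulVec w ∈ W) (u w : W) : φ (rm p D u) w + φ u (rm p D w) = 0 := by
  obtain ⟨Z, hZ, hrep⟩ := exists_rep M hW P hφ
  have h1 : ∀ u w : W, φ u w = (u : ι → ℂ) ⬝ᵥ (ψ * Z).mulVec w := by
    intro u w
    rw [← hrep, P.id, P.id]
  rw [h1, h1, rm_apply P hDW, rm_apply P hDW]
  have h2 : (D.mulVec (u : ι → ℂ)) ⬝ᵥ (ψ * Z).mulVec w =
      (u : ι → ℂ) ⬝ᵥ (D.transpose * ψ * Z).mulVec w := by
    have h4 : (D.transpose * ψ * Z).mulVec (w : ι → ℂ) =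
        D.transpose.mulVec ((ψ * Z).mulVec (w : ι → ℂ)) := by
      rw [Matrix.mulVec_mulVec, mul_assoc]
    rw [h4, Matrix.dotProduct_mulVec (u : ι → ℂ) D.transpose, Matrix.vecMul_transpose]
  have h3 : (ψ * Z).mulVec (D.mulVec (w : ι → ℂ)) = (ψ * D * Z).mulVec w := by
    rw [Matrix.mulVec_mulVec, mul_assoc, ← hcomm Z hZ, ← mul_assoc]
  rw [h2, h3, ← dotProduct_add, ← Matrix.add_mulVec, ← add_mul, hD, zero_mul, Matrix.zero_mulVec,
    dotProduct_zero]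

end Pool.Agent.FQU
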