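import Pool.Agent.FQU.TransK
import Pool.Agent.FQU.Form2
import Pool.Agent.FQA.Kind
import Pool.Agent.FQA.ModN

/-!
# The operators induced on the irreducible subspaces (reserved for helper3)

`FullW g ψ p`: every operator on `W` of trace zero which is skew for the invariant forms (if there are any) is induced
by an element of `g`. -/

set_option autoImplicit false
set_option linter.unusedSectionVars false

namespace Pool.Agent.FQU

open Module
open Pool.Agent.CoprimeSig (ratM)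
open Pool.Agent.FQA (TD Cn)
open Pool.Agent.NumRank (Lv)
open Pool.Agent.PrimePow.CC (Rf Rt Lat)
open Pool.Agent.FQ (expG)

variable {ι : Type} [Fintype ι] [DecidableEq ι] {E : Type} [CommRing E]
  {R : E →+* Matrix ι ι ℚ} {Φ : Matrix ι ι ℚ} {σ : E →+* ℂ} {c : E → E}
  {g : Submodule ℂ (Matrix ι ι ℂ)} {ψ : Matrix ι ι ℂ} {W : Submodule ℂ (ι → ℂ)}
  {p : (ι → ℂ) →ₗ[ℂ] W} {v : Basis (Om R Φ σ) ℂ W}

/-- The operators of trace zero which are skew for the invariant forms are induced by `g`. -/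
def FullW (g : Submodule ℂ (Matrix ι ι ℂ)) (ψ : Matrix ι ι ℂ) (p : (ι → ℂ) →ₗ[ℂ] W) : Prop :=
  ∀ D : End ℂ W, LinearMap.trace ℂ W D = 0 →
    (∀ φ, IsForm g ψ p φ → ∀ u w, φ (D u) w + φ u (D w) = 0) → D ∈ res p g

/-- A decomposition of Hodge and Tate at a place where the Frobenius automorphism is the complex
conjugation. -/
def HTc (R : E →+* Matrix ι ι ℚ) (c : E → E) (Φ : Matrix ι ι ℚ) : Prop :=
  ∃ (τ : ℂ ≃+* ℂ) (g : Submodule ℂ (Matrix ι ι ℂ)) (ψ e : Matrix ι ι ℂ),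
    (∀ μ, Module.End.HasEigenvalue (Matrix.toLin' (ratM Φ)) μ → τ μ = starRingEnd ℂ μ) ∧
      Mono R c Φ g ψ ∧ Coch Φ g ψ τ e

/-- The induced torus is spanned by idempotents whose rank is half of the dimension. -/
theorem res_bal (hB : Bal R Φ) (M : Mono R c Φ g ψ) (F : Frame R Φ g σ W p v) :
    res p (tor Φ) ≤ Submodule.span ℂ {e : End ℂ W | e ∈ res p (tor Φ) ∧ e * e = e ∧
      2 * LinearMap.trace ℂ W e = finrank ℂ W} := by
  intro y hy
  obtain ⟨x, hx, rfl⟩ := mem_res.1 hy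
  have h1 := hB hx
  clear hy hx
  induction h1 using Submodule.span_induction with
  | mem e he =>
    obtain ⟨he, hee, -, hs⟩ := he
    refine Submodule.subset_span ⟨rm_mem he, (rm_val F M he hee).2.1, ?_⟩
    rw [trace_rm F M he hee, ← F.card]
    exact_mod_cast hs σ
  | zero =>
    have h2 : rm p (0 : Matrix ι ι ℂ) = 0 := by
      unfold rm
      rw [map_zero, map_zero]
    rw [h2]
    exact Submodule.zero_mem _
  | add a b _ _ ha hb =>
    rw [rm_add]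
    exact Submodule.add_mem _ ha hb
  | smul c a _ ha =>
    rw [rm_smul]
    exact Submodule.smul_mem _ c ha

/-- Dimension two modulo four: the roots are connected. -/
theorem cn_mod4 (hB : Bal R Φ) (M : Mono R c Φ g ψ) (H : IsFrob R Φ) (F : Frame R Φ g σ W p v)
    (h4 : Fintype.card (Om R Φ σ) % 4 = 2) :
    ∀ h h', Rt (Ls R Φ σ) h → Rt (Ls R Φ σ) h' → Cn (Ls R Φ σ) h h' := by
  have hnt : Nontrivial W := F.nontrivial
  have T := td M H hB.idem F.irr F.prj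
  have h1 := T.cn_of_mod4 v (F.hv M) (by rw [← F.card]; exact h4) (res_bal hB M F)
  rwa [F.lv M] at h1

/-- The form on a real eigenspace of dimension four is alternating. -/
theorem alt_of_four (M : Mono R c Φ g ψ) (F : Frame R Φ g σ W p v)
    (hr : ∀ a, starRingEnd ℂ (σ a) = σ a) (h4 : finrank ℂ W = 4) {φ : W →ₗ[ℂ] W →ₗ[ℂ] ℂ}
    (hφ : IsForm g ψ p φ) (x : W) : φ x x = 0 := by
  obtain ⟨θ, halt, hnd, hmul⟩ := M.four σ hr W F.le F.irr h4
  have hm : Mul g ψ p (θ.compl₁₂ W.subtype W.subtype) := by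
    intro y hy κ hκ u w
    simp only [LinearMap.compl₁₂_apply, Submodule.subtype_apply]
    rw [rm_apply F.prj (F.irr.1 y hy), rm_apply F.prj (F.irr.1 y hy)]
    exact hmul y hy κ hκ u u.2 w w.2
  obtain ⟨t, ht⟩ := hφ.unique M F.irr F.prj hm
  have hnt : Nontrivial W := F.nontrivial
  have ht0 : t ≠ 0 := by
    rintro rfl
    obtain ⟨z, hz⟩ := exists_ne (0 : W)
    apply hz
    apply Subtype.ext
    refine hnd z z.2 fun y hy => ?_
    have h1 := LinearMap.congr_fun (LinearMap.congr_fun ht z) ⟨y, hy⟩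
    rw [zero_smul] at h1
    exact h1
  have h1 := LinearMap.congr_fun (LinearMap.congr_fun ht x) x
  have h2 : (θ.compl₁₂ W.subtype W.subtype) x x = 0 := halt x x.2
  rw [h2, LinearMap.smul_apply, LinearMap.smul_apply, smul_eq_mul] at h1
  exact (mul_eq_zero.1 h1.symm).resolve_left ht0

/-- A symmetric form: the dimension is not four. -/
theorem ne_four_of_symm (M : Mono R c Φ g ψ) (F : Frame R Φ g σ W p v)
    (hr : ∀ a, starRingEnd ℂ (σ a) = σ a) {φ : W →ₗ[ℂ] W →ₗ[ℂ] ℂ}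
    (hφ : IsForm g ψ p φ) (hsymm : ∀ x y, φ x y = φ y x) : finrank ℂ W ≠ 4 := by
  intro h4
  have halt := alt_of_four M F hr h4 hφ
  have hnt : Nontrivial W := F.nontrivial
  obtain ⟨z, hz⟩ := exists_ne (0 : W)
  refine hz (hφ.nd z fun y => ?_)
  have h1 := halt (z + y)
  rw [map_add, map_add, LinearMap.add_apply, LinearMap.add_apply, halt z, halt y,
    hsymm y z] at h1
  have h2 : 2 * φ z y = 0 := by linear_combination h1
  exact (mul_eq_zero.1 h2).resolve_left two_ne_zero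

section

variable [Algebra ℚ E] [Module.Finite ℚ E] [IsReduced E]

/-- The eigenspace for a homomorphism which is not real. -/
private theorem full_nf (H : IsFrob R Φ) (hB : Bal R Φ)
    (hc : ∀ (σ : E →+* ℂ) a, σ (c a) = starRingEnd ℂ (σ a))
    {g₁ : Submodule ℂ (Matrix ι ι ℂ)} {ψ₁ e₁ : Matrix ι ι ℂ} (M₁ : Mono R c Φ g₁ ψ₁)
    (he₁ : e₁ ∈ tor Φ) (hee₁ : e₁ * e₁ = e₁) (hm₁ : e₁.transpose * ψ₁ + ψ₁ * e₁ = ψ₁)
    {u : (Matrix ι ι ℂ)ˣ} (hu : u ∈ expG ℂ g₁)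
    (hue : 1 - e₁ = (u : Matrix ι ι ℂ) * e₁ * ((u⁻¹ : (Matrix ι ι ℂ)ˣ) : Matrix ι ι ℂ))
    (M : Mono R c Φ g ψ) (F : Frame R Φ g σ W p v)
    (hn : ∀ m : ℕ, 3 ≤ m → Fintype.card (Om R Φ σ) ≠ 2 ^ m)
    (hcn : ∀ h h', Rt (Ls R Φ σ) h → Rt (Ls R Φ σ) h' → Cn (Ls R Φ σ) h h')
    (hnr : ∃ a, starRingEnd ℂ (σ a) ≠ σ a) (D : End ℂ W) : D ∈ res p g := by
  classical
  obtain ⟨W₁, p₁, v₁, F₁⟩ := exists_frame M₁ H hB.idem σ
  have hnt : Nontrivial W := F.nontrivial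
  have hnt₁ : Nontrivial W₁ := F₁.nontrivial
  have T := td M H hB.idem F.irr F.prj
  have T₁ := td M₁ H hB.idem F₁.irr F₁.prj
  have hnf := no_form M H hB hc F.irr F.prj F.le hnr
  have hnf₁ := no_form M₁ H hB hc F₁.irr F₁.prj F₁.le hnr
  obtain ⟨u', hu', hconj⟩ := exp_res F₁.prj F₁.irr.1 hu
  obtain ⟨h1, h2, -⟩ := rm_val F₁ M₁ he₁ hee₁
  have h3 : (u' : End ℂ W₁) * rm p₁ e₁ * ((u'⁻¹ : (End ℂ W₁)ˣ) : End ℂ W₁) = 1 - rm p₁ e₁ := by
    rw [← hconj e₁ (M₁.le he₁), ← hue, rm_sub, rm_one F₁.prj]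
  have hfull : ∀ D₁ : End ℂ W₁, D₁ ∈ res p₁ g₁ := fun D₁ =>
    T₁.full_of_conj_nf v₁ (F₁.hv M₁) (by rw [F₁.lv M₁]; exact hcn) hnf₁
      (fun m hm => by rw [← F₁.card]; exact hn m hm) h1 h2 hu' h3 D₁
  obtain ⟨μ, hμ, ν, hν, h4, h5⟩ := ns_of_mult M₁ H hB he₁ hee₁ hm₁ σ
  have hcard : 1 < finrank ℂ W := by
    rw [← F.card, Fintype.one_lt_card_iff]
    refine ⟨⟨μ, hμ⟩, ⟨ν, hν⟩, fun h => ?_⟩
    rw [Subtype.mk.injEq] at h
    rw [h, h5] at h4
    exact one_ne_zero h4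
  exact T.spread_nf v (F.hv M) hnf hcard T₁ v₁ (F₁.hv M₁) (by rw [F.lv M, F₁.lv M₁]) hfull D

/-- The eigenspace for a real homomorphism: the Lie algebra for which the idempotent is conjugate to
its complement. -/
private theorem full_real_one (H : IsFrob R Φ) (hB : Bal R Φ) {e : Matrix ι ι ℂ}
    (M : Mono R c Φ g ψ) (F : Frame R Φ g σ W p v)
    (he : e ∈ tor Φ) (hee : e * e = e) (hm : e.transpose * ψ + ψ * e = ψ)
    {u : (Matrix ι ι ℂ)ˣ} (hu : u ∈ expG ℂ g)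
    (hue : 1 - e = (u : Matrix ι ι ℂ) * e * ((u⁻¹ : (Matrix ι ι ℂ)ˣ) : Matrix ι ι ℂ))
    (hn : ∀ m : ℕ, 3 ≤ m → Fintype.card (Om R Φ σ) ≠ 2 ^ m)
    (hcn : ∀ h h', Rt (Ls R Φ σ) h → Rt (Ls R Φ σ) h' → Cn (Ls R Φ σ) h h')
    (hr : ∀ a, starRingEnd ℂ (σ a) = σ a) {φ : W →ₗ[ℂ] W →ₗ[ℂ] ℂ} (hφ : IsForm g ψ p φ)
    (has : (∀ x, φ x x = 0) ∨ ∀ x y, φ x y = φ y x) {D : End ℂ W}
    (hD : ∀ a b, φ (D a) b + φ a (D b) = 0) : D ∈ res p g := by
  have hnt : Nontrivial W := F.nontrivial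
  have T := td M H hB.idem F.irr F.prj
  obtain ⟨u', hu', hconj⟩ := exp_res F.prj F.irr.1 hu
  obtain ⟨h1, h2, -⟩ := rm_val F M he hee
  have h3 : (u' : End ℂ W) * rm p e * ((u'⁻¹ : (End ℂ W)ˣ) : End ℂ W) = 1 - rm p e := by
    rw [← hconj e (M.le he), ← hue, rm_sub, rm_one F.prj]
  have h4 : ∀ a b, φ (rm p e a) b + φ a (rm p e b) = φ a b := by
    intro a b
    have h5 := hφ.mult e (M.le he) 1 (by rw [one_smul]; exact hm) a b
    rwa [one_mul] at h5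
  have hcn' : ∀ h h', Rt (Lv (res p (tor Φ)) v) h → Rt (Lv (res p (tor Φ)) v) h' →
      Cn (Lv (res p (tor Φ)) v) h h' := by
    rw [F.lv M]
    exact hcn
  have hn' : ∀ m : ℕ, 3 ≤ m → finrank ℂ W ≠ 2 ^ m := by
    intro m hm
    rw [← F.card]
    exact hn m hm
  rcases has with halt | hsymm
  · exact T.full_of_conj halt hφ.nd (hφ.sim M) v (F.hv M) hcn' hn' h1 h2 h4 hu' h3
      ⟨0, fun a b => by rw [hD, zero_mul]⟩
  · have hn2 : ∀ m : ℕ, 2 ≤ m → finrank ℂ W ≠ 2 ^ m := by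
      intro m hm
      rcases Nat.lt_or_ge m 3 with h5 | h5
      · have h6 : m = 2 := by omega
        rw [h6]
        exact ne_four_of_symm M F hr hφ hsymm
      · exact hn' m h5
    exact T.full_of_conj_sym v (F.hv M) hcn' hsymm hφ.nd (hφ.sim M) hn2 h1 h2 h4 hu' h3 hD

/-- **All admissible operators are induced on the irreducible subspaces.** -/
theorem full_all (H : IsFrob R Φ) (hB : Bal R Φ)
    (hc : ∀ (σ : E →+* ℂ) a, σ (c a) = starRingEnd ℂ (σ a)) (hHT : HTc R c Φ)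
    (M : Mono R c Φ g ψ) (F : Frame R Φ g σ W p v)
    (hn : ∀ m : ℕ, 3 ≤ m → Fintype.card (Om R Φ σ) ≠ 2 ^ m)
    (hcn : Fintype.card (Om R Φ σ) % 4 = 2 ∨
      ((∀ a, starRingEnd ℂ (σ a) = σ a) ∧ Fintype.card (Om R Φ σ) = 4) ∨
      ∀ h h', Rt (Ls R Φ σ) h → Rt (Ls R Φ σ) h' → Cn (Ls R Φ σ) h h') :
    FullW g ψ p := by
  have hnt : Nontrivial W := F.nontrivial
  have T := td M H hB.idem F.irr F.prj
  -- the case of dimension four
  by_cases hfour : (∀ a, starRingEnd ℂ (σ a) = σ a) ∧ Fintype.card (Om R Φ σ) = 4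
  · obtain ⟨hr, h4⟩ := hfour
    intro D _ hD
    obtain ⟨φ, hφ, -⟩ := exists_isForm M hc F.irr F.prj F.le hr
    have h4' : finrank ℂ W = 4 := by rw [← F.card, h4]
    exact T.skew_of_mod4 (alt_of_four M F hr h4' hφ) hφ.nd (hφ.sim M) (Or.inr h4') (hD φ hφ)
  have hcn' : ∀ h h', Rt (Ls R Φ σ) h → Rt (Ls R Φ σ) h' → Cn (Ls R Φ σ) h h' := by
    rcases hcn with h4 | h4 | h4
    · exact cn_mod4 hB M H F h4
    · exact absurd h4 hfour
    · exact h4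
  obtain ⟨τ, g₁, ψ₁, e₁, hτ, M₁, C₁⟩ := hHT
  have htr := trace_of_mult M₁ C₁.mult
  have h1 : e₁.map τ = 1 - e₁ := map_eq_one_sub H C₁.mem C₁.idem htr hτ
  obtain ⟨u, hu, hue⟩ := C₁.conj
  rw [h1] at hue
  by_cases hr : ∀ a, starRingEnd ℂ (σ a) = σ a
  · intro D _ hD
    obtain ⟨W₁, p₁, v₁, F₁⟩ := exists_frame M₁ H hB.idem σ
    have hnt₁ : Nontrivial W₁ := F₁.nontrivial
    have T₁ := td M₁ H hB.idem F₁.irr F₁.prj
    obtain ⟨φ, hφ, has⟩ := exists_isForm M hc F.irr F.prj F.le hr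
    obtain ⟨φ₁, hφ₁, has₁⟩ := exists_isForm M₁ hc F₁.irr F₁.prj F₁.le hr
    have hfull : ∀ D₁ : End ℂ W₁, (∀ a b, φ₁ (D₁ a) b + φ₁ a (D₁ b) = 0) → D₁ ∈ res p₁ g₁ :=
      fun D₁ hD₁ => full_real_one H hB M₁ F₁ C₁.mem C₁.idem C₁.mult hu hue hn hcn' hr hφ₁ has₁ hD₁
    have hne : Nonempty ι := by
      by_contra hcon
      rw [not_nonempty_iff] at hcon
      obtain ⟨w, hw⟩ := exists_ne (0 : W)
      exact hw (Subtype.ext (funext fun i => hcon.elim i))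
    have hm := mult_of_trace M (M.le C₁.mem) htr
    obtain ⟨h2, h3, -⟩ := rm_val F M C₁.mem C₁.idem
    obtain ⟨h2', h3', -⟩ := rm_val F₁ M₁ C₁.mem C₁.idem
    have h4 : ∀ a b, φ (rm p e₁ a) b + φ a (rm p e₁ b) = φ a b := by
      intro a b
      have h5 := hφ.mult e₁ (M.le C₁.mem) 1 (by rw [one_smul]; exact hm) a b
      rwa [one_mul] at h5
    have h4' : ∀ a b, φ₁ (rm p₁ e₁ a) b + φ₁ a (rm p₁ e₁ b) = φ₁ a b := by
      intro a b
      have h5 := hφ₁.mult e₁ (M₁.le C₁.mem) 1 (by rw [one_smul]; exact C₁.mult) a b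
      rwa [one_mul] at h5
    have hcn2 : ∀ h h', Rt (Lv (res p (tor Φ)) v) h → Rt (Lv (res p (tor Φ)) v) h' →
        Cn (Lv (res p (tor Φ)) v) h h' := by
      rw [F.lv M]
      exact hcn'
    have hL : Lv (res p (tor Φ)) v = Lv (res p₁ (tor Φ)) v₁ := by rw [F.lv M, F₁.lv M₁]
    have hn' : ∀ m : ℕ, 3 ≤ m → finrank ℂ W ≠ 2 ^ m := by
      intro m hm
      rw [← F.card]
      exact hn m hm
    rcases has with halt | hsymm
    · exact T.spread_alt v (F.hv M) hcn2 halt hφ.nd (hφ.sim M) hn' h2 h3 h4 T₁ v₁ (F₁.hv M₁) hL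
        has₁ hφ₁.nd (hφ₁.sim M₁) h2' h3' h4' hfull (hD φ hφ)
    · have hn2 : ∀ m : ℕ, 2 ≤ m → finrank ℂ W ≠ 2 ^ m := by
        intro m hm
        rcases Nat.lt_or_ge m 3 with h5 | h5
        · have h6 : m = 2 := by omega
          rw [h6]
          exact ne_four_of_symm M F hr hφ hsymm
        · exact hn' m h5
      exact T.spread_sym v (F.hv M) hcn2 hsymm hφ.nd (hφ.sim M) hn2 h2 h3 h4 T₁ v₁ (F₁.hv M₁) hL
        has₁ hφ₁.nd (hφ₁.sim M₁) h2' h3' h4' hfull (hD φ hφ)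
  · push Not at hr
    intro D _ _
    exact full_nf H hB hc M₁ C₁.mem C₁.idem C₁.mult hu hue M F hn hcn' hr D

end

end Pool.Agent.FQU
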