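import Pool.Agent.FQU.Pair

/-!
# Pairs of lattices with common reflections: the norms (PACKAGE FU14, pure)

Let `t` be as in `PD.link`, `S = PS J ≤ N` (`D.mem`), `U = span {h | ∃ h', J h h'}`, the image of `S` under the first projection,
`n = card Ω`, `n' = card Ω'`.

(a) For `x, y ∈ S`: `x.2 ⬝ y.2 = t * (x.1 ⬝ y.1)` (`link` and linearity). So `x.1 = 0` implies `x.2 = 0`.

(b) For `β ∈ Ω'` there is `w β ∈ U` with `x.2 β = w β ⬝ x.1` for all `x ∈ S`; for `a ∈ Ω` there is `u a ∈ U` with `x a = u a ⬝ x` for all `x ∈ U`.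
(The scalar product is positive definite on `U`, so every linear functional on `U` is represented by an element of `U`; by (a)
`x.1 ↦ x.2 β` is a well defined functional on `U`. Use e.g. `exists_proj` of `Pool/Agent/FQA/Mixed.lean`, the orthogonal
projection on a subspace of `Ω → ℚ`, may be imported, applied to an extension of the functional to all of `Ω → ℚ`
(`LinearMap.exists_extend`; every functional on `Ω → ℚ` is a scalar product).) They are unique.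

(c) `∑ β, (w β ⬝ s) (w β ⬝ s') = t * (s ⬝ s')` and `∑ a, (u a ⬝ s) (u a ⬝ s') = s ⬝ s'` for `s, s' ∈ U`. So
`∑ β, w β ⬝ w β = ∑ β, ∑ a, (u a ⬝ w β)² = ∑ a, ∑ β, (w β ⬝ u a)² = t * ∑ a, u a ⬝ u a`.

(d) `w β ⬝ w β` does not depend on `β`, `u a ⬝ u a` not on `a`: let `(h, h') ∈ J` with the reflections `π`, `π'`. For `x ∈ S` the coefficient
`a` satisfies `a * (h ⬝ h) = 2 * (x.1 ⬝ h)`, so `x.2 (π' β) = x.2 β - a * h' β` with `h' β = w β ⬝ h`: `w (π' β) = w β - (2 * (w β ⬝ h) / (h ⬝ h)) • h` if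
`h ≠ 0` (by uniqueness), a vector of the same norm; if `h = 0` then `h' = 0` (`link`) and `w (π' β) = w β`. So the set of the `β` with a
given value of `w β ⬝ w β` is stable under all `π'`; use `D.tr'`. The same for `u` with `D.tr`.

(e) By (c), (d) `n' * (w β ⬝ w β) = t * n * (u a ⬝ u a)` for all `β`, `a`.

(f) `n' = t * n`: let `e` be the pair from the hypotheses, `f = e - (1/2) • 1 ∈ N`. `f.1 ∈ U`, so there is `x ∈ S` with `x.1 = f.1`, and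
`∑ f.2 = 0`, so `f = x` by `mem_span`. All values of `f.1`, `f.2` are `± 1/2`, so by (a) `n' / 4 = f.2 ⬝ f.2 = t * (f.1 ⬝ f.1) = t * n / 4`.

(g) `weights`: `w = w β`. The first claim: by (e), (f) `w β ⬝ w β = u a ⬝ u a` (`n' ≠ 0` because `β ∈ Ω'`), and `u = u a` by uniqueness. The second:
`(h, h') ∈ S`. The third: `f - (κ/2) • 1 ∈ N` has the first component in `U` and the sum of the second component is zero, so it is in
`S` by `mem_span`. -/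

set_option autoImplicit false

namespace Pool.Agent.FQU

variable {Ω Ω' : Type*} [Fintype Ω] [Fintype Ω']
  {N : Submodule ℚ ((Ω → ℚ) × (Ω' → ℚ))} {J : (Ω → ℚ) → (Ω' → ℚ) → Prop}

private theorem eq_of_dot {U : Submodule ℚ (Ω → ℚ)} {w w' : Ω → ℚ} (hw : w ∈ U) (hw' : w' ∈ U)
    (h : ∀ s ∈ U, w' ⬝ᵥ s = w ⬝ᵥ s) : w' = w := by
  have h1 := h (w' - w) (U.sub_mem hw' hw)
  have h2 : (w' - w) ⬝ᵥ (w' - w) = 0 := by rw [sub_dotProduct, h1, sub_self]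
  exact sub_eq_zero.1 (dotProduct_self_eq_zero.1 h2)

/-- Reflected vectors have the same norm. -/
private theorem norm_eq_of_refl {U : Submodule ℚ (Ω → ℚ)} {h w w' : Ω → ℚ} (hh : h ∈ U)
    (hw : w ∈ U) (hw' : w' ∈ U)
    (H : ∀ s ∈ U, ∃ a : ℚ, a * (h ⬝ᵥ h) = 2 * (s ⬝ᵥ h) ∧ w' ⬝ᵥ s = w ⬝ᵥ s - a * (w ⬝ᵥ h)) :
    w' ⬝ᵥ w' = w ⬝ᵥ w := by
  by_cases h0 : h = 0
  · have h1 : w' = w := eq_of_dot hw hw' fun s hs => by
      obtain ⟨a, -, h2⟩ := H s hs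
      rw [h2, h0, dotProduct_zero, mul_zero, sub_zero]
    rw [h1]
  · have hhh : h ⬝ᵥ h ≠ 0 := fun h1 => h0 (dotProduct_self_eq_zero.1 h1)
    obtain ⟨k, hk⟩ : ∃ k : ℚ, k * (h ⬝ᵥ h) = 2 * (w ⬝ᵥ h) :=
      ⟨2 * (w ⬝ᵥ h) / (h ⬝ᵥ h), div_mul_cancel₀ _ hhh⟩
    have h1 : w' = w - k • h := by
      refine eq_of_dot (U.sub_mem hw (U.smul_mem k hh)) hw' fun s hs => ?_
      obtain ⟨a, h2, h3⟩ := H s hs
      rw [h3, sub_dotProduct, smul_dotProduct, smul_eq_mul, dotProduct_comm h s]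
      have h4 : a * (w ⬝ᵥ h) = k * (s ⬝ᵥ h) := by
        apply mul_right_cancel₀ hhh
        linear_combination (w ⬝ᵥ h) * h2 - (s ⬝ᵥ h) * hk
      rw [h4]
    rw [h1, sub_dotProduct, dotProduct_sub, dotProduct_sub, smul_dotProduct, dotProduct_smul,
      smul_dotProduct, dotProduct_smul, smul_eq_mul, smul_eq_mul, smul_eq_mul, smul_eq_mul,
      dotProduct_comm h w]
    linear_combination k * hk

/-- Linear functionals are represented by elements of a subspace. -/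
private theorem exists_rep (U : Submodule ℚ (Ω → ℚ)) (F : (Ω → ℚ) →ₗ[ℚ] ℚ) :
    ∃ g ∈ U, ∀ s ∈ U, F s = g ⬝ᵥ s := by
  let T : U →ₗ[ℚ] Module.Dual ℚ U :=
    { toFun := fun g =>
        { toFun := fun s => (g : Ω → ℚ) ⬝ᵥ (s : Ω → ℚ)
          map_add' := fun a b => by rw [Submodule.coe_add, dotProduct_add]
          map_smul' := fun c a => by
            rw [Submodule.coe_smul, dotProduct_smul, RingHom.id_apply] }
      map_add' := fun a b => by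
        ext s
        change ((a + b : U) : Ω → ℚ) ⬝ᵥ (s : Ω → ℚ) = _
        rw [Submodule.coe_add, add_dotProduct]
        rfl
      map_smul' := fun c a => by
        ext s
        change ((c • a : U) : Ω → ℚ) ⬝ᵥ (s : Ω → ℚ) = _
        rw [Submodule.coe_smul, smul_dotProduct]
        rfl }
  have hinj : Function.Injective T := by
    rw [injective_iff_map_eq_zero]
    intro g hg
    have h1 : (g : Ω → ℚ) ⬝ᵥ (g : Ω → ℚ) = 0 := LinearMap.congr_fun hg g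
    exact Subtype.ext (dotProduct_self_eq_zero.1 h1)
  have hsurj : Function.Surjective T := by
    have hfr : Module.finrank ℚ U = Module.finrank ℚ (Module.Dual ℚ U) :=
      Subspace.dual_finrank_eq.symm
    exact (LinearMap.injective_iff_surjective_of_finrank_eq_finrank hfr).1 hinj
  obtain ⟨g, hg⟩ := hsurj (F.comp U.subtype)
  exact ⟨g, g.2, fun s hs => (LinearMap.congr_fun hg ⟨s, hs⟩).symm⟩

private theorem exists_w {S : Submodule ℚ ((Ω → ℚ) × (Ω' → ℚ))}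
    (h0 : ∀ x ∈ S, x.1 = 0 → x.2 = 0) (U : Submodule ℚ (Ω → ℚ)) (hU : ∀ x ∈ S, x.1 ∈ U)
    (β : Ω') : ∃ w ∈ U, ∀ x ∈ S, x.2 β = w ⬝ᵥ x.1 := by
  let φ : S →ₗ[ℚ] (Ω → ℚ) := (LinearMap.fst ℚ (Ω → ℚ) (Ω' → ℚ)).comp S.subtype
  have hφ : LinearMap.ker φ = ⊥ := by
    rw [LinearMap.ker_eq_bot']
    rintro ⟨x, hx⟩ h1
    have h2 : x.1 = 0 := h1
    exact Subtype.ext (Prod.ext h2 (h0 x hx h2))
  obtain ⟨ψ, hψ⟩ := LinearMap.exists_leftInverse_of_injective φ hφ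
  let F : (Ω → ℚ) →ₗ[ℚ] ℚ := (LinearMap.proj β).comp
    ((LinearMap.snd ℚ (Ω → ℚ) (Ω' → ℚ)).comp (S.subtype.comp ψ))
  obtain ⟨w, hw, h1⟩ := exists_rep U F
  refine ⟨w, hw, fun x hx => ?_⟩
  rw [← h1 x.1 (hU x hx)]
  have h3 : ψ x.1 = ⟨x, hx⟩ := LinearMap.congr_fun hψ ⟨x, hx⟩
  change x.2 β = ((ψ x.1 : S) : (Ω → ℚ) × (Ω' → ℚ)).2 β
  rw [h3]

private theorem coef_eq {h f : Ω → ℚ} {π : Equiv.Perm Ω} {a : ℚ} (hneg : ∀ ω, h (π ω) = -h ω)
    (hf : ∀ ω, f (π ω) = f ω - a * h ω) : a * (h ⬝ᵥ h) = 2 * (f ⬝ᵥ h) := by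
  have h1 : f ⬝ᵥ h = ∑ ω, f (π ω) * h (π ω) := (Equiv.sum_comp π fun ω => f ω * h ω).symm
  have h2 : ∑ ω, f (π ω) * h (π ω) = a * (h ⬝ᵥ h) - f ⬝ᵥ h := by
    rw [dotProduct, dotProduct, Finset.mul_sum, ← Finset.sum_sub_distrib]
    refine Finset.sum_congr rfl fun ω _ => ?_
    rw [hneg, hf]
    ring
  linarith

theorem PD.weights (D : PD N J) (hb : ∃ h h', J h h' ∧ h ≠ 0 ∧ h' ≠ 0)
    (hone : ((fun _ => 1, fun _ => 1) : (Ω → ℚ) × (Ω' → ℚ)) ∈ N)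
    {e : (Ω → ℚ) × (Ω' → ℚ)} (he : e ∈ N) (he1 : ∀ ω, e.1 ω = 0 ∨ e.1 ω = 1)
    (he2 : ∀ ω, e.2 ω = 0 ∨ e.2 ω = 1) (hs1 : 2 * ∑ ω, e.1 ω = Fintype.card Ω)
    (hs2 : 2 * ∑ ω, e.2 ω = Fintype.card Ω')
    (hU : (fun ω => e.1 ω - 1 / 2) ∈ Submodule.span ℚ {h | ∃ h', J h h'}) (β : Ω') :
    ∃ w ∈ Submodule.span ℚ {h | ∃ h', J h h'},
      (∀ a, ∀ u ∈ Submodule.span ℚ {h | ∃ h', J h h'},
        (∀ s ∈ Submodule.span ℚ {h | ∃ h', J h h'}, s a = u ⬝ᵥ s) → w ⬝ᵥ w = u ⬝ᵥ u) ∧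
      (∀ h h', J h h' → h' β = w ⬝ᵥ h) ∧
      ∀ f ∈ N, ∀ κ : ℚ, 2 * ∑ ω, f.1 ω = κ * Fintype.card Ω →
        2 * ∑ ω, f.2 ω = κ * Fintype.card Ω' →
        (fun ω => f.1 ω - κ / 2) ∈ Submodule.span ℚ {h | ∃ h', J h h'} →
        f.2 β - κ / 2 = w ⬝ᵥ fun ω => f.1 ω - κ / 2 := by
  classical
  obtain ⟨t, ht, -, hlink⟩ := D.link hb
  obtain ⟨U, hUdef⟩ : ∃ U, U = Submodule.span ℚ {h : Ω → ℚ | ∃ h', J h h'} := ⟨_, rfl⟩
  rw [← hUdef] at hU ⊢
  have hJU : ∀ h h', J h h' → h ∈ U := fun h h' hJ => by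
    rw [hUdef]
    exact Submodule.subset_span ⟨h', hJ⟩
  have hJS : ∀ h h', J h h' → (h, h') ∈ PS J := fun h h' hJ => Submodule.subset_span hJ
  have hUm : U = (PS J).map (LinearMap.fst ℚ (Ω → ℚ) (Ω' → ℚ)) := by
    rw [hUdef, PS, Submodule.map_span]
    congr 1
    ext h
    constructor
    · rintro ⟨h', hJ⟩
      exact ⟨(h, h'), hJ, rfl⟩
    · rintro ⟨x, hx, rfl⟩
      exact ⟨x.2, hx⟩
  have hSU : ∀ x ∈ PS J, x.1 ∈ U := fun x hx => by
    rw [hUm]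
    exact ⟨x, hx, rfl⟩
  have hUS : ∀ s ∈ U, ∃ x ∈ PS J, x.1 = s := fun s hs => by
    rw [hUm] at hs
    exact hs
  have hSN : PS J ≤ N := Submodule.span_le.2 fun x hx => D.mem x.1 x.2 hx
  -- (a)
  have ha : ∀ f ∈ N, ∀ y ∈ PS J, f.2 ⬝ᵥ y.2 = t * (f.1 ⬝ᵥ y.1) := by
    intro f hf y hy
    rw [PS] at hy
    induction hy using Submodule.span_induction with
    | mem x hx => exact hlink f hf x.1 x.2 hx
    | zero => simp
    | add x y _ _ hx hy =>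
      rw [Prod.snd_add, Prod.fst_add, dotProduct_add, dotProduct_add, hx, hy, mul_add]
    | smul c x _ hx =>
      rw [Prod.smul_snd, Prod.smul_fst, dotProduct_smul, dotProduct_smul, hx, smul_eq_mul,
        smul_eq_mul]
      ring
  have ha0 : ∀ x ∈ PS J, x.1 = 0 → x.2 = 0 := fun x hx h0 => by
    have h1 := ha x (hSN hx) x hx
    rw [h0, zero_dotProduct, mul_zero] at h1
    exact dotProduct_self_eq_zero.1 h1
  -- (b)
  have hbw := fun β' : Ω' => exists_w ha0 U hSU β'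
  choose w hwU hw using hbw
  have hbu := fun a : Ω => exists_rep U (LinearMap.proj a)
  choose u huU hu using hbu
  have hu' : ∀ a, ∀ s ∈ U, s a = u a ⬝ᵥ s := fun a s hs => hu a s hs
  have hwJ : ∀ h h', J h h' → ∀ β', h' β' = w β' ⬝ᵥ h := fun h h' hJ β' =>
    hw β' (h, h') (hJS h h' hJ)
  -- (c)
  have hc : ∑ β', w β' ⬝ᵥ w β' = t * ∑ a, u a ⬝ᵥ u a := by
    have h1 : ∀ β' : Ω', w β' ⬝ᵥ w β' = ∑ a, (w β' ⬝ᵥ u a) * (w β' ⬝ᵥ u a) := by
      intro β'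
      rw [dotProduct]
      refine Finset.sum_congr rfl fun a _ => ?_
      rw [hu' a (w β') (hwU β'), dotProduct_comm]
    have h2 : ∀ a : Ω, ∑ β', (w β' ⬝ᵥ u a) * (w β' ⬝ᵥ u a) = t * (u a ⬝ᵥ u a) := by
      intro a
      obtain ⟨x, hx, hx1⟩ := hUS (u a) (huU a)
      have h3 := ha x (hSN hx) x hx
      rw [hx1] at h3
      rw [← h3, dotProduct]
      refine Finset.sum_congr rfl fun β' _ => ?_
      rw [hw β' x hx, hx1]
    rw [Finset.sum_congr rfl fun β' _ => h1 β', Finset.sum_comm, Finset.mul_sum]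
    exact Finset.sum_congr rfl fun a _ => h2 a
  -- (d)
  have hdw : ∀ β', w β' ⬝ᵥ w β' = w β ⬝ᵥ w β := by
    have h1 := D.tr' {β' | w β' ⬝ᵥ w β' = w β ⬝ᵥ w β} ⟨β, rfl⟩ (by
      intro h h' π π' hJ hP β' hβ'
      refine Eq.trans ?_ hβ'
      refine norm_eq_of_refl (hJU h h' hJ) (hwU β') (hwU (π' β')) fun s hs => ?_
      obtain ⟨x, hx, rfl⟩ := hUS s hs
      obtain ⟨a, h2, h3⟩ := hP.refl x (hSN hx)
      refine ⟨a, coef_eq hP.neg h2, ?_⟩
      rw [← hw _ x hx, ← hw _ x hx, h3, hwJ h h' hJ])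
    intro β'
    have h2 : β' ∈ (Set.univ : Set Ω') := Set.mem_univ β'
    rw [← h1] at h2
    exact h2
  have hdu : ∀ a a', u a' ⬝ᵥ u a' = u a ⬝ᵥ u a := by
    intro a
    have h1 := D.tr {a' | u a' ⬝ᵥ u a' = u a ⬝ᵥ u a} ⟨a, rfl⟩ (by
      intro h h' π π' hJ hP a' ha'
      refine Eq.trans ?_ ha'
      refine norm_eq_of_refl (hJU h h' hJ) (huU a') (huU (π a')) fun s hs => ?_
      obtain ⟨x, hx, rfl⟩ := hUS s hs
      obtain ⟨c, h2, h3⟩ := hP.refl x (hSN hx)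
      refine ⟨c, coef_eq hP.neg h2, ?_⟩
      rw [← hu' _ _ hs, ← hu' _ _ hs, h2, ← hu' _ _ (hJU h h' hJ)])
    intro a'
    have h2 : a' ∈ (Set.univ : Set Ω) := Set.mem_univ a'
    rw [← h1] at h2
    exact h2
  -- the elements of `S`
  have hS : ∀ f ∈ N, ∀ κ : ℚ, 2 * ∑ ω, f.2 ω = κ * Fintype.card Ω' →
      (fun ω => f.1 ω - κ / 2) ∈ U →
      ((fun ω => f.1 ω - κ / 2, fun ω => f.2 ω - κ / 2) : (Ω → ℚ) × (Ω' → ℚ)) ∈ PS J := by
    intro f hf κ h1 h2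
    obtain ⟨x, hx, hx1⟩ := hUS _ h2
    have h3 : ((fun ω => f.1 ω - κ / 2, fun ω => f.2 ω - κ / 2) : (Ω → ℚ) × (Ω' → ℚ)) ∈ N := by
      have h4 : ((fun ω => f.1 ω - κ / 2, fun ω => f.2 ω - κ / 2) : (Ω → ℚ) × (Ω' → ℚ)) =
          f - (κ / 2) • ((fun _ => 1, fun _ => 1) : (Ω → ℚ) × (Ω' → ℚ)) := by
        refine Prod.ext ?_ ?_
        · funext ω
          simp
        · funext ω
          simp
      rw [h4]
      exact N.sub_mem hf (N.smul_mem _ hone)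
    have h5 : ∑ ω : Ω', (f.2 ω - κ / 2) = 0 := by
      rw [Finset.sum_sub_distrib, Finset.sum_const, Finset.card_univ, nsmul_eq_mul]
      linarith
    rw [D.mem_span hb h3 hx hx1.symm h5]
    exact hx
  -- (f)
  have hf : (Fintype.card Ω' : ℚ) = t * Fintype.card Ω := by
    have h1 := hS e he 1 (by rw [hs2, one_mul]) hU
    have h2 := ha _ (hSN h1) _ h1
    have h3 : ∀ z : ℚ, z = 0 ∨ z = 1 → (z - 1 / 2) * (z - 1 / 2) = 1 / 4 := by
      rintro z (rfl | rfl) <;> norm_num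
    rw [dotProduct, dotProduct, Finset.sum_congr rfl fun ω _ => h3 _ (he2 ω),
      Finset.sum_congr rfl fun ω _ => h3 _ (he1 ω), Finset.sum_const, Finset.sum_const,
      Finset.card_univ, Finset.card_univ, nsmul_eq_mul, nsmul_eq_mul] at h2
    linarith
  have hn' : (Fintype.card Ω' : ℚ) ≠ 0 := by
    have : Nonempty Ω' := ⟨β⟩
    exact_mod_cast Fintype.card_ne_zero
  refine ⟨w β, hwU β, ?_, fun h h' hJ => hwJ h h' hJ β, ?_⟩
  · intro a v hv h1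
    have h2 : v = u a := eq_of_dot (huU a) hv fun s hs => by rw [← h1 s hs, ← hu' a s hs]
    rw [h2]
    apply mul_left_cancel₀ hn'
    rw [Finset.sum_congr rfl fun β' _ => hdw β', Finset.sum_congr rfl fun a' _ => hdu a a',
      Finset.sum_const, Finset.sum_const, Finset.card_univ, Finset.card_univ, nsmul_eq_mul,
      nsmul_eq_mul, ← mul_assoc, ← hf] at hc
    exact hc
  · intro f hf' κ _ h2 h3
    exact hw β _ (hS f hf' κ h2 h3)

end Pool.Agent.FQU
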