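import Pool.Agent.FQU.KindEx
import Pool.Agent.FQU.Pair2
import Pool.Agent.FQU.HW

/-!
# A root vector acts on one eigenspace and its conjugate only (PACKAGE FU23)

Let `Ω = Om R Φ σ`, `Ω' = Om R Φ σ'`, `N` the space of the pairs `(f, f')` of rational functions for which there is `x ∈ tor Φ` which acts on the
eigenspaces of `Φ` as the scalars `d μ` with `d μ = f μ` for `μ ∈ Ω`, `d μ = f' μ` for `μ ∈ Ω'` (`exists_scalar`; a `ℚ`-subspace), and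
`J h h' := ∃ z y G π, Jrt R Φ g z y G π ∧ rs R Φ σ G = h ∧ rs R Φ σ' G = h'`.

(1) `PD N J`. `mem`: `J.cor`, `J.val`. `refl`: `π`, `π'` from `Jrt.equiv` for `σ` and `σ'`; `neg`; for `(f, f') ∈ N` given by `x` and
`s` from `J.root`: `f (π ω) = f ω - s * G ω` for `ω ∈ Ω` and `ω ∈ Ω'` (`J.refl`); if `G` is not zero at some `ω ∈ Ω ∪ Ω'` then `s` is rational
(`G ω = ± 1`); otherwise take `a = 0`. `tr`, `tr'`: `jrt_tr` (if `A` is stable under all the `π` of `PRf`, then it is stable in the sense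
of `jrt_tr`, because the `π` of `Jrt.equiv` is one of these). `conn`: let `P` be given with `(h₀, h₀') ∈ J`, `h₀ ≠ 0`, `P h₀ h₀'`, and let `(k, k') ∈ J`, `k ≠ 0`.
First, if `P h h'`, `J h h'`, `J h h''`, `h ≠ 0` then `P h h''` (`h ⬝ h ≠ 0`). By `Knd.exists_dot` (`K.ad`) there is `s ∈ St` with `h₀ ⬝ s ≠ 0`; `s` lifts to `(s, s') ∈ J` and
`P s s'`. By `K.knd.conn` applied to `fun s => ∀ s', J s s' → P s s'` this holds for all `s ∈ St`. There is `s ∈ St` with `k ⬝ s ≠ 0`, so `P k k'`. (If `s = 0` it is not used: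
`s ⬝ _ ≠ 0`.) `conn'` in the same way with `K'`.

(2) Assume that `G μ ≠ 0` for some `μ ∈ Ω` and `G μ' ≠ 0` for some `μ' ∈ Ω'`. Then `hb` of `PD.weights` holds. `hone`: `1 ∈ tor Φ` (`one_mem_tor`). Take a
balanced idempotent `e` (`Bal`, `1 ≠ 0`) and the pair of its values; `he1`, `he2`: `ev_or`; `hs1`, `hs2`: balanced; `hU`: `K.idem`, `K.knd.span`, and the
elements of `St` are first components of elements of `J` (`K.lift`).

(3) Let `β ∈ Ω'` and `w` from `PD.weights`. `U = span {h | ∃ h', J h h'}` is `span {h | St h}` (`⊆`: `K.ad`, `K.knd.span`). By `K.knd.fin` (`w ⬝ h = h' β ∈ {0, 1, -1}`: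
`v01`) there is `a ∈ Ω` with `w ⬝ x = x a` for all `x ∈ U`, or `w ⬝ x = - x a` for all `x ∈ U`. For every balanced idempotent `e` (with `κ = 1` in
`PD.weights`): `ev Φ e β - 1/2 = ± (ev Φ e a - 1/2)` with the same sign for all `e`. In the first case `ev Φ e β = ev Φ e a` for all balanced `e`, so all
`x ∈ tor Φ` have the same scalars on the eigenspaces for `β` and `a`, and `β = a ∈ Ω` by `sep`. In the second case
`ev Φ e β = 1 - ev Φ e a = ev Φ e (conj a)` (`ev_conj`), and `β = conj a ∈ Om R Φ (cp starRingAut σ)`.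

(4) `Ω'` is not empty; let `β ∈ Ω'`. In the first case the set `{β ∈ Ω' | β ∈ Ω}` is not empty and stable in the sense of `jrt_tr` (`J.pm` for `σ`), so
`Ω' ⊆ Ω`; the set `{a ∈ Ω | a ∈ Ω'}` too, so `Ω ⊆ Ω'`. By `iso_of_om` `σ = σ'`, contradiction. In the second case the same with
`Om R Φ (cp starRingAut σ)` instead of `Ω`. -/

set_option autoImplicit false
set_option linter.unusedSectionVars false

namespace Pool.Agent.FQU

open Module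
open Pool.Agent.CoprimeSig (ratM)

variable {ι : Type} [Fintype ι] [DecidableEq ι] {E : Type} [CommRing E]
  {R : E →+* Matrix ι ι ℚ} {Φ : Matrix ι ι ℚ} {σ σ' : E →+* ℂ} {c : E → E}
  {g : Submodule ℂ (Matrix ι ι ℂ)} {ψ : Matrix ι ι ℂ}

private theorem gou_conn {Ω Ω' : Type*} [Fintype Ω] [DecidableEq Ω] {Ad St : (Ω → ℚ) → Prop}
    (K : Knd Ad St) {J : (Ω → ℚ) → (Ω' → ℚ) → Prop} (hlift : ∀ h, St h → ∃ h', J h h')
    (had : ∀ h h', J h h' → Ad h) (P : (Ω → ℚ) → (Ω' → ℚ) → Prop)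
    (h0 : ∃ h h', J h h' ∧ h ≠ 0 ∧ P h h')
    (hst : ∀ h h' k k', J h h' → J k k' → P h h' → h ⬝ᵥ k ≠ 0 → P k k') :
    ∀ h h', J h h' → h ≠ 0 → P h h' := by
  obtain ⟨h₀, h₀', hJ, hne, hP⟩ := h0
  obtain ⟨s, hs, hs0⟩ := K.exists_dot (had _ _ hJ) hne
  have h1 := K.conn (fun s => ∀ s', J s s' → P s s')
    ⟨s, hs, fun s' hs' => hst _ _ _ _ hJ hs' hP hs0⟩ (by
      intro h k hh _ hQ hk k' hk'
      obtain ⟨h', hh'⟩ := hlift h hh
      exact hst _ _ _ _ hh' hk' (hQ h' hh') hk)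
  intro k k' hk hk0
  obtain ⟨s, hs, hs0⟩ := K.exists_dot (had _ _ hk) hk0
  obtain ⟨s', hs'⟩ := hlift s hs
  refine hst _ _ _ _ hs' hk (h1 s hs s' hs') ?_
  rw [dotProduct_comm]
  exact hs0

/-- The pairs of the rational scalars of the elements of the Lie algebra of the torus. -/
private def gouN (R : E →+* Matrix ι ι ℚ) (Φ : Matrix ι ι ℚ) (σ σ' : E →+* ℂ) :
    Submodule ℚ ((Om R Φ σ → ℚ) × (Om R Φ σ' → ℚ)) where
  carrier := {f | ∃ x ∈ tor Φ, ∃ d : ℂ → ℂ,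
    (∀ μ v, (ratM Φ).mulVec v = μ • v → x.mulVec v = d μ • v) ∧
    (∀ ω : Om R Φ σ, d ω = f.1 ω) ∧ ∀ ω : Om R Φ σ', d ω = f.2 ω}
  add_mem' := by
    rintro f f' ⟨x, hx, d, h1, h2, h3⟩ ⟨x', hx', d', h1', h2', h3'⟩
    refine ⟨x + x', (tor Φ).add_mem hx hx', fun μ => d μ + d' μ, fun μ v hv => ?_, fun ω => ?_,
      fun ω => ?_⟩
    · rw [Matrix.add_mulVec, h1 μ v hv, h1' μ v hv, add_smul]
    · beta_reduce
      rw [h2, h2', Prod.fst_add, Pi.add_apply, Rat.cast_add]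
    · beta_reduce
      rw [h3, h3', Prod.snd_add, Pi.add_apply, Rat.cast_add]
  zero_mem' := by
    refine ⟨0, (tor Φ).zero_mem, fun _ => 0, fun μ v _ => ?_, fun ω => ?_, fun ω => ?_⟩
    · rw [Matrix.zero_mulVec, zero_smul]
    · rw [Prod.fst_zero, Pi.zero_apply, Rat.cast_zero]
    · rw [Prod.snd_zero, Pi.zero_apply, Rat.cast_zero]
  smul_mem' := by
    rintro q f ⟨x, hx, d, h1, h2, h3⟩
    refine ⟨(q : ℂ) • x, (tor Φ).smul_mem _ hx, fun μ => (q : ℂ) * d μ, fun μ v hv => ?_,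
      fun ω => ?_, fun ω => ?_⟩
    · rw [Matrix.smul_mulVec, h1 μ v hv, mul_smul]
    · beta_reduce
      rw [h2, Prod.smul_fst, Pi.smul_apply, smul_eq_mul, Rat.cast_mul]
    · beta_reduce
      rw [h3, Prod.smul_snd, Pi.smul_apply, smul_eq_mul, Rat.cast_mul]

/-- The pairs of coroots. -/
private def gouJ (R : E →+* Matrix ι ι ℚ) (Φ : Matrix ι ι ℚ) (g : Submodule ℂ (Matrix ι ι ℂ))
    (σ σ' : E →+* ℂ) (h : Om R Φ σ → ℚ) (h' : Om R Φ σ' → ℚ) : Prop :=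
  ∃ (z y : Matrix ι ι ℂ) (G : ℂ → ℚ) (π : ℂ → ℂ), Jrt R Φ g z y G π ∧
    rs R Φ σ G = h ∧ rs R Φ σ' G = h'

private theorem gou_prf {z y : Matrix ι ι ℂ} {G : ℂ → ℚ} {π : ℂ → ℂ}
    (J : Jrt R Φ g z y G π) (σ σ' : E →+* ℂ) :
    ∃ (π₁ : Equiv.Perm (Om R Φ σ)) (π₂ : Equiv.Perm (Om R Φ σ')),
      PRf (gouN R Φ σ σ') (rs R Φ σ G) (rs R Φ σ' G) π₁ π₂ ∧
      (∀ μ, ((π₁ μ : Om R Φ σ) : ℂ) = π μ) ∧ ∀ μ, ((π₂ μ : Om R Φ σ') : ℂ) = π μ := by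
  obtain ⟨π₁, hπ₁⟩ := J.equiv σ
  obtain ⟨π₂, hπ₂⟩ := J.equiv σ'
  refine ⟨π₁, π₂, ⟨fun ω => ?_, fun ω => ?_, ?_⟩, hπ₁, hπ₂⟩
  · rw [rs_apply, rs_apply, hπ₁, J.neg σ ω ω.2]
  · rw [rs_apply, rs_apply, hπ₂, J.neg σ' ω ω.2]
  · rintro f ⟨x, hx, d, h1, h2, h3⟩
    obtain ⟨s, hs, -⟩ := J.root x hx
    have hr := J.refl x hx d h1 s hs
    have e1 : ∀ ω : Om R Φ σ, ((f.1 (π₁ ω) : ℚ) : ℂ) = f.1 ω - s * G ω := by
      intro ω
      rw [← h2, ← h2, hπ₁, hr σ ω ω.2]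
    have e2 : ∀ ω : Om R Φ σ', ((f.2 (π₂ ω) : ℚ) : ℂ) = f.2 ω - s * G ω := by
      intro ω
      rw [← h3, ← h3, hπ₂, hr σ' ω ω.2]
    have key : (∃ a : ℚ, (a : ℂ) = s) ∨ ((∀ ω : Om R Φ σ, G ω = 0) ∧
        ∀ ω : Om R Φ σ', G ω = 0) := by
      by_cases c1 : ∀ ω : Om R Φ σ, G ω = 0
      · by_cases c2 : ∀ ω : Om R Φ σ', G ω = 0
        · exact Or.inr ⟨c1, c2⟩
        · left
          push Not at c2
          obtain ⟨ω, hω⟩ := c2
          refine ⟨(f.2 ω - f.2 (π₂ ω)) / G ω, ?_⟩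
          rw [Rat.cast_div, Rat.cast_sub, e2, div_eq_iff (by exact_mod_cast hω)]
          ring
      · left
        push Not at c1
        obtain ⟨ω, hω⟩ := c1
        refine ⟨(f.1 ω - f.1 (π₁ ω)) / G ω, ?_⟩
        rw [Rat.cast_div, Rat.cast_sub, e1, div_eq_iff (by exact_mod_cast hω)]
        ring
    rcases key with ⟨a, ha⟩ | ⟨c1, c2⟩
    · refine ⟨a, fun ω => ?_, fun ω => ?_⟩
      · have h4 := e1 ω
        rw [← ha] at h4
        rw [rs_apply]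
        exact_mod_cast h4
      · have h4 := e2 ω
        rw [← ha] at h4
        rw [rs_apply]
        exact_mod_cast h4
    · refine ⟨0, fun ω => ?_, fun ω => ?_⟩
      · have h4 := e1 ω
        rw [c1 ω, Rat.cast_zero, mul_zero, sub_zero] at h4
        rw [zero_mul, sub_zero]
        exact_mod_cast h4
      · have h4 := e2 ω
        rw [c2 ω, Rat.cast_zero, mul_zero, sub_zero] at h4
        rw [zero_mul, sub_zero]
        exact_mod_cast h4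

private theorem gou_pd [Algebra ℚ E] [Module.Finite ℚ E] [IsReduced E] (M : Mono R c Φ g ψ)
    (H : IsFrob R Φ) (hI : Idem Φ) {Ad St : (Om R Φ σ → ℚ) → Prop}
    (K : KindAt R Φ g σ Ad St) {Ad' St' : (Om R Φ σ' → ℚ) → Prop}
    (K' : KindAt R Φ g σ' Ad' St') : PD (gouN R Φ σ σ') (gouJ R Φ g σ σ') where
  mem := by
    rintro _ _ ⟨z, y, G, π, J, rfl, rfl⟩
    exact ⟨_, J.cor, fun μ => (G μ : ℂ), J.val, fun _ => rfl, fun _ => rfl⟩
  refl := by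
    rintro _ _ ⟨z, y, G, π, J, rfl, rfl⟩
    obtain ⟨π₁, π₂, h, -, -⟩ := gou_prf J σ σ'
    exact ⟨π₁, π₂, h⟩
  tr := by
    intro A hA hst
    refine jrt_tr M H hI σ A hA ?_
    intro z y F π J μ hμ ν hν
    obtain ⟨π₁, π₂, h, h1, h2⟩ := gou_prf J σ σ'
    have h3 := hst _ _ π₁ π₂ ⟨z, y, F, π, J, rfl, rfl⟩ h μ hμ
    have h4 : ν = π₁ μ := Subtype.ext (by rw [hν, h1])
    rw [h4]
    exact h3
  tr' := by
    intro A hA hst
    refine jrt_tr M H hI σ' A hA ?_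
    intro z y F π J μ hμ ν hν
    obtain ⟨π₁, π₂, h, h1, h2⟩ := gou_prf J σ σ'
    have h3 := hst _ _ π₁ π₂ ⟨z, y, F, π, J, rfl, rfl⟩ h μ hμ
    have h4 : ν = π₂ μ := Subtype.ext (by rw [hν, h2])
    rw [h4]
    exact h3
  conn := by
    refine gou_conn K.knd ?_ ?_
    · intro h hh
      obtain ⟨z, y, G, π, J, rfl⟩ := K.lift h hh
      exact ⟨_, z, y, G, π, J, rfl, rfl⟩
    · rintro _ _ ⟨z, y, G, π, J, rfl, rfl⟩
      exact K.ad z y G π J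
  conn' := by
    intro P h0 hst h h' hJ hh'
    refine gou_conn (J := fun h' h => gouJ R Φ g σ σ' h h') K'.knd ?_ ?_ (fun h' h => P h h')
      ?_ ?_ h' h hJ hh'
    · intro h hh
      obtain ⟨z, y, G, π, J, rfl⟩ := K'.lift h hh
      exact ⟨_, z, y, G, π, J, rfl, rfl⟩
    · rintro _ _ ⟨z, y, G, π, J, rfl, rfl⟩
      exact K'.ad z y G π J
    · obtain ⟨h, h', h1, h2, h3⟩ := h0
      exact ⟨h', h, h1, h2, h3⟩
    · intro h' h k' k h1 h2 h3 h4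
      exact hst h h' k k' h1 h2 h3 h4

/-- Eigenvalues with the same values for all balanced idempotents are equal. -/
private theorem gou_sep (H : IsFrob R Φ) {S : Set (Matrix ι ι ℂ)} (hS : tor Φ ≤ Submodule.span ℂ S)
    (hS1 : ∀ e ∈ S, e ∈ tor Φ ∧ e * e = e) {μ ν : ℂ}
    (hμ : Module.End.HasEigenvalue (Matrix.toLin' (ratM Φ)) μ)
    (hν : Module.End.HasEigenvalue (Matrix.toLin' (ratM Φ)) ν)
    (h : ∀ e ∈ S, ev Φ e μ = ev Φ e ν) : μ = ν := by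
  by_contra hne
  obtain ⟨x, hx, c, d, hcd, hc, hd⟩ := sep H hμ hν hne
  obtain ⟨u, hu, hu0⟩ := hμ.exists_hasEigenvector
  obtain ⟨w, hw, hw0⟩ := hν.exists_hasEigenvector
  have hu1 := Module.End.mem_eigenspace_iff.1 hu
  have hw1 := Module.End.mem_eigenspace_iff.1 hw
  rw [Matrix.toLin'_apply] at hu1 hw1
  have key : ∀ y ∈ Submodule.span ℂ S, ∃ t : ℂ, y.mulVec u = t • u ∧ y.mulVec w = t • w := by
    intro y hy
    induction hy using Submodule.span_induction with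
    | mem e he =>
      refine ⟨(ev Φ e μ : ℂ), ev_apply (hS1 e he).1 (hS1 e he).2 hu1, ?_⟩
      rw [h e he]
      exact ev_apply (hS1 e he).1 (hS1 e he).2 hw1
    | zero => exact ⟨0, by simp, by simp⟩
    | add a b _ _ ha hb =>
      obtain ⟨s, h1, h2⟩ := ha
      obtain ⟨t, h3, h4⟩ := hb
      refine ⟨s + t, ?_, ?_⟩
      · rw [Matrix.add_mulVec, h1, h3, add_smul]
      · rw [Matrix.add_mulVec, h2, h4, add_smul]
    | smul q a _ ha =>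
      obtain ⟨s, h1, h2⟩ := ha
      refine ⟨q * s, ?_, ?_⟩
      · rw [Matrix.smul_mulVec, h1, mul_smul]
      · rw [Matrix.smul_mulVec, h2, mul_smul]
  obtain ⟨t, h1, h2⟩ := key x (hS hx)
  rw [hc u hu1] at h1
  rw [hd w hw1] at h2
  have h3 : c = t := smul_left_injective ℂ hu0 h1
  have h4 : d = t := smul_left_injective ℂ hw0 h2
  exact hcd (h3.trans h4.symm)

private theorem gou_sub [Algebra ℚ E] [Module.Finite ℚ E] [IsReduced E] (M : Mono R c Φ g ψ)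
    (H : IsFrob R Φ) (hI : Idem Φ) {σ₁ σ₂ : E →+* ℂ} {β : ℂ} (h1 : β ∈ Om R Φ σ₁)
    (h2 : β ∈ Om R Φ σ₂) : Om R Φ σ₁ ⊆ Om R Φ σ₂ := by
  have h3 := jrt_tr M H hI σ₁ {μ | (μ : ℂ) ∈ Om R Φ σ₂} ⟨⟨β, h1⟩, h2⟩ (by
    intro z y F π J μ hμ ν hν
    rw [Set.mem_ofPred_eq] at hμ ⊢
    rw [hν]
    exact J.pm σ₂ μ hμ)
  intro μ hμ
  have h4 : (⟨μ, hμ⟩ : Om R Φ σ₁) ∈ {μ : Om R Φ σ₁ | (μ : ℂ) ∈ Om R Φ σ₂} := by
    rw [h3]
    exact Set.mem_univ _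
  exact h4

private theorem gou_eq [Algebra ℚ E] [Module.Finite ℚ E] [IsReduced E] (M : Mono R c Φ g ψ)
    (H : IsFrob R Φ) (hI : Idem Φ) {σ₁ σ₂ : E →+* ℂ} {β : ℂ} (h1 : β ∈ Om R Φ σ₁)
    (h2 : β ∈ Om R Φ σ₂) : σ₁ = σ₂ :=
  iso_of_om M H hI (Set.Subset.antisymm (gou_sub M H hI h1 h2) (gou_sub M H hI h2 h1))

theorem goursat [Algebra ℚ E] [Module.Finite ℚ E] [IsReduced E] (M : Mono R c Φ g ψ)
    (H : IsFrob R Φ) (hB : Bal R Φ) {Ad St : (Om R Φ σ → ℚ) → Prop}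
    (K : KindAt R Φ g σ Ad St) {Ad' St' : (Om R Φ σ' → ℚ) → Prop}
    (K' : KindAt R Φ g σ' Ad' St') (h1 : σ' ≠ σ) (h2 : σ' ≠ cp starRingAut σ)
    {z y : Matrix ι ι ℂ} {G : ℂ → ℚ} {π : ℂ → ℂ} (J : Jrt R Φ g z y G π)
    (hσ : ∃ μ ∈ Om R Φ σ, G μ ≠ 0) : ∀ μ ∈ Om R Φ σ', G μ = 0 := by
  have hI : Idem Φ := hB.idem
  have D : PD (gouN R Φ σ σ') (gouJ R Φ g σ σ') := gou_pd M H hI K K'
  intro β hβ
  by_contra hGβ
  obtain ⟨μ₀, hμ₀, hGμ⟩ := hσ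
  have hb : ∃ h h', gouJ R Φ g σ σ' h h' ∧ h ≠ 0 ∧ h' ≠ 0 :=
    ⟨_, _, ⟨z, y, G, π, J, rfl, rfl⟩, fun h0 => hGμ (congrFun h0 ⟨μ₀, hμ₀⟩),
      fun h0 => hGβ (congrFun h0 ⟨β, hβ⟩)⟩
  have hone : ((fun _ => 1, fun _ => 1) : (Om R Φ σ → ℚ) × (Om R Φ σ' → ℚ)) ∈
      gouN R Φ σ σ' :=
    ⟨1, one_mem_tor M, fun _ => 1, fun μ v _ => by rw [Matrix.one_mulVec, one_smul],
      fun _ => by rw [Rat.cast_one], fun _ => by rw [Rat.cast_one]⟩
  set S : Set (Matrix ι ι ℂ) := {e : Matrix ι ι ℂ | e ∈ tor Φ ∧ e * e = e ∧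
    2 * e.trace = Fintype.card ι ∧
    ∀ σ : E →+* ℂ, 2 * sm R Φ σ (ev Φ e) = Fintype.card (Om R Φ σ)} with hSdef
  have hSp : tor Φ ≤ Submodule.span ℂ S := hB
  have hne : S.Nonempty := by
    by_contra hcon
    rw [Set.not_nonempty_iff_eq_empty] at hcon
    have h3 := hSp (one_mem_tor M)
    rw [hcon, Submodule.span_empty, Submodule.mem_bot] at h3
    obtain ⟨w, -, hw0, -⟩ := hμ₀
    apply hw0
    rw [← Matrix.one_mulVec w, h3, Matrix.zero_mulVec]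
  have hSN : ∀ e ∈ S, ((rs R Φ σ (ev Φ e), rs R Φ σ' (ev Φ e)) :
      (Om R Φ σ → ℚ) × (Om R Φ σ' → ℚ)) ∈ gouN R Φ σ σ' := by
    rintro e ⟨he, hee, -, -⟩
    exact ⟨e, he, fun μ => (ev Φ e μ : ℂ), fun μ v hv => ev_apply he hee hv, fun _ => rfl,
      fun _ => rfl⟩
  have hStJ : {h | St h} ⊆ {h | ∃ h', gouJ R Φ g σ σ' h h'} := by
    intro h hh
    obtain ⟨z, y, G, π, J, rfl⟩ := K.lift h hh
    exact ⟨_, z, y, G, π, J, rfl, rfl⟩
  have hUeq : Submodule.span ℚ {h | ∃ h', gouJ R Φ g σ σ' h h'} =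
      Submodule.span ℚ {h | St h} := by
    refine le_antisymm (Submodule.span_le.2 ?_) (Submodule.span_mono hStJ)
    rintro _ ⟨_, z, y, G, π, J, rfl, rfl⟩
    exact K.knd.span _ (K.ad z y G π J)
  have hSU : ∀ e ∈ S, (fun ω => rs R Φ σ (ev Φ e) ω - 1 / 2) ∈
      Submodule.span ℚ {h | ∃ h', gouJ R Φ g σ σ' h h'} := by
    rintro e ⟨he, hee, htr, hsm⟩
    rw [hUeq]
    exact K.knd.span _ (K.idem e he hee htr (hsm σ))
  obtain ⟨e₀, he₀⟩ := hne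
  obtain ⟨w, hwU, hw1, hw2, hw3⟩ := D.weights hb hone (hSN e₀ he₀)
    (fun ω => ev_or Φ e₀ ω) (fun ω => ev_or Φ e₀ ω) (he₀.2.2.2 σ) (he₀.2.2.2 σ') (hSU e₀ he₀)
    ⟨β, hβ⟩
  rw [hUeq] at hwU hw1
  obtain ⟨a, ha⟩ := K.knd.fin w hwU (by
    intro h hh
    obtain ⟨z, y, G, π, J, rfl⟩ := K.lift h hh
    rw [← hw2 _ _ ⟨z, y, G, π, J, rfl, rfl⟩, rs_apply]
    exact J.v01 σ' β hβ) hw1
  have hw4 : ∀ e ∈ S, ev Φ e β - 1 / 2 = w ⬝ᵥ fun ω => rs R Φ σ (ev Φ e) ω - 1 / 2 := by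
    intro e he
    exact hw3 _ (hSN e he) 1 (by rw [one_mul]; exact he.2.2.2 σ) (by
      rw [one_mul]
      exact he.2.2.2 σ') (hSU e he)
  rcases ha with ha | ha
  · have h3 : β = (a : ℂ) := by
      refine gou_sep H hSp (fun e he => ⟨he.1, he.2.1⟩) (hasEigenvalue_of_mem hβ)
        (hasEigenvalue_of_mem a.2) fun e he => ?_
      have h4 := hSU e he
      rw [hUeq] at h4
      have h5 := hw4 e he
      rw [ha _ h4, rs_apply] at h5
      linarith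
    exact h1 (gou_eq M H hI hβ (h3 ▸ a.2))
  · have hac := mem_Om_cp (starRingAut : ℂ ≃+* ℂ) a.2
    have h3 : β = (starRingAut : ℂ ≃+* ℂ) (a : ℂ) := by
      refine gou_sep H hSp (fun e he => ⟨he.1, he.2.1⟩) (hasEigenvalue_of_mem hβ)
        (hasEigenvalue_of_mem hac) fun e he => ?_
      have h4 := hSU e he
      rw [hUeq] at h4
      have h5 := hw4 e he
      rw [ha _ h4, rs_apply] at h5
      have h6 : ev Φ e ((starRingAut : ℂ ≃+* ℂ) (a : ℂ)) = 1 - ev Φ e a :=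
        ev_conj H he.1 he.2.1 he.2.2.1 (hasEigenvalue_of_mem a.2)
      rw [h6]
      linarith
    exact h2 (gou_eq M H hI hβ (h3 ▸ hac))

end Pool.Agent.FQU
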