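import Pool.Agent.FQU.Om

/-!
# The torus of a neat Frobenius element separates the eigenvalues (PACKAGE FT1)

Proof of `sep`. Let `S` be the finite set of the eigenvalues of `Φ` (`Module.End.finite_hasEigenvalue`);
they are not zero, because they have the absolute value `r > 0`. Let `L` be the set of the functions
`n : ℂ → ℤ` (zero outside `S`) with `∏ μ ∈ S, μ ^ n μ = 1`. It is an additive subgroup. In the
`ℚ`-vector space of the functions `S → ℚ` let `U` be the span of the functions of `L`. The function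
`u = δ_μ - δ_ν` is not in `U`: every element of the `ℚ`-span of an additive group `L` has a positive
integral multiple in `L` (induction over the span), and `k • u ∈ L`, `k ≠ 0`, means `μ ^ k = ν ^ k`,
so `μ = ν` by `neat`. So there is a linear functional `f` which is zero on `U` and not zero at `u`
(`Submodule.exists_le_ker_of_notMem`). Let `d λ = f (δ_λ)` for `λ ∈ S` (a rational number, cast to
`ℂ`) and `0` for other `λ`. Then `∑ n_λ d_λ = f (n) = 0` for all `n ∈ L`, and `d μ ≠ d ν`.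
There is a matrix `x` which acts on the eigenspace of `Φ` for `λ ∈ S` as the scalar `d λ`: take
`x = Polynomial.aeval (ratM Φ) (Lagrange.interpolate S id d)` (see `frob_poly`,
`frob_aeval_apply` in `Pool/Agent/EllSig/Frob.lean`, private there, copy them). Note that in
`frobTorus` the relation is required for all finsets `s` of eigenvalues and all `n : ℂ → ℤ`:
such an `s` is a subset of `S`, extend `n` by zero.

Proof of `comm_frob`. Let `v` be an eigenvector of `Φ` with eigenvalue `μ`. `Z v` is a sum of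
eigenvectors `w_ν` of `Φ` (`H.diag`; the eigenspaces are independent). If `w_ν ≠ 0` for some `ν ≠ μ`
take `x` from `sep`: `x Z v = Z x v = c Z v`, so `x w_ν = c w_ν` (independence of the eigenspaces), but
`x w_ν = d w_ν`, a contradiction. So `Z v` is in the eigenspace for `μ` and `Φ Z v = μ Z v = Z Φ v`. Now
use `ext_of_diag`. (An alternative without sums: let `P` be the Lagrange polynomial in `Φ` which is
the projection on the eigenspace for `ν`; the element `x` of `sep` and `Z`.) -/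

set_option autoImplicit false
set_option linter.unusedSectionVars false

namespace Pool.Agent.FQU

open Module
open Pool.Agent.CoprimeSig (ratM)
open Pool.Agent.OneFrob (frobTorus)

variable {ι : Type} [Fintype ι] [DecidableEq ι] {E : Type} [CommRing E]
  {R : E →+* Matrix ι ι ℚ} {Φ : Matrix ι ι ℚ}

private theorem aeval_mulVec (A : Matrix ι ι ℂ) (P : Polynomial ℂ) {μ : ℂ} {v : ι → ℂ}
    (hv : A.mulVec v = μ • v) : (Polynomial.aeval A P).mulVec v = P.eval μ • v := by
  have h1 : Matrix.toLin' (Polynomial.aeval A P) = Polynomial.aeval (Matrix.toLin' A) P :=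
    (Polynomial.aeval_algHom_apply (Matrix.toLinAlgEquiv' (R := ℂ) (n := ι)).toAlgHom A P).symm
  have h2 : v ∈ Module.End.eigenspace (Matrix.toLin' A) μ :=
    Module.End.mem_eigenspace_iff.2 (by rw [Matrix.toLin'_apply, hv])
  rw [← Matrix.toLin'_apply, h1]
  by_cases h : v = 0
  · rw [h, map_zero, smul_zero]
  · exact Module.End.aeval_apply_of_hasEigenvector ⟨h2, h⟩

private theorem hasEig {A : Matrix ι ι ℂ} {μ : ℂ} {v : ι → ℂ} (hv : A.mulVec v = μ • v)
    (h0 : v ≠ 0) : Module.End.HasEigenvalue (Matrix.toLin' A) μ :=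
  Module.End.hasEigenvalue_of_hasEigenvector (x := v)
    ⟨Module.End.mem_eigenspace_iff.2 (by rw [Matrix.toLin'_apply, hv]), h0⟩

/-- The integral relations between the elements of `S`. -/
private def IsRel (S : Finset ℂ) (n : ℂ → ℤ) : Prop :=
  (∀ ω, ω ∉ S → n ω = 0) ∧ ∏ ω ∈ S, ω ^ n ω = 1

private theorem isRel_comb {S : Finset ℂ} (hS : ∀ ω ∈ S, ω ≠ 0) {n m : ℂ → ℤ}
    (hn : IsRel S n) (hm : IsRel S m) (a b : ℤ) : IsRel S fun ω => a * n ω + b * m ω := by
  refine ⟨fun ω hω => by simp only [hn.1 ω hω, hm.1 ω hω, mul_zero, add_zero], ?_⟩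
  calc ∏ ω ∈ S, ω ^ (a * n ω + b * m ω) =
      ∏ ω ∈ S, ((ω ^ n ω) ^ a * (ω ^ m ω) ^ b) := by
        refine Finset.prod_congr rfl fun ω hω => ?_
        rw [zpow_add₀ (hS ω hω), ← zpow_mul, ← zpow_mul, mul_comm a, mul_comm b]
    _ = 1 := by
        rw [Finset.prod_mul_distrib, Finset.prod_zpow, Finset.prod_zpow, hn.2, hm.2, one_zpow,
          one_zpow, mul_one]

/-- The rational span of the relations. -/
private def relSpan (S : Finset ℂ) : Submodule ℚ (ℂ → ℚ) :=
  Submodule.span ℚ {f | ∃ n : ℂ → ℤ, IsRel S n ∧ f = fun ω => (n ω : ℚ)}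

private theorem exists_mul {S : Finset ℂ} (hS : ∀ ω ∈ S, ω ≠ 0) {f : ℂ → ℚ}
    (hf : f ∈ relSpan S) : ∃ k : ℕ, k ≠ 0 ∧ ∃ n : ℂ → ℤ, IsRel S n ∧
      ∀ ω, (k : ℚ) * f ω = n ω := by
  unfold relSpan at hf
  induction hf using Submodule.span_induction with
  | mem f hf =>
    obtain ⟨n, hn, rfl⟩ := hf
    exact ⟨1, one_ne_zero, n, hn, fun ω => by rw [Nat.cast_one, one_mul]⟩
  | zero =>
    exact ⟨1, one_ne_zero, fun _ => 0, ⟨fun _ _ => rfl, by simp⟩, fun ω => by simp⟩
  | add f f' _ _ h1 h2 =>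
    obtain ⟨k, hk, n, hn, h3⟩ := h1
    obtain ⟨k', hk', n', hn', h4⟩ := h2
    refine ⟨k * k', mul_ne_zero hk hk', _, isRel_comb hS hn hn' k' k, fun ω => ?_⟩
    rw [Pi.add_apply]
    push_cast
    rw [← h3, ← h4]
    ring
  | smul c f _ h1 =>
    obtain ⟨k, hk, n, hn, h3⟩ := h1
    refine ⟨k * c.den, mul_ne_zero hk c.den_nz, _, isRel_comb hS hn hn c.num 0, fun ω => ?_⟩
    rw [Pi.smul_apply, smul_eq_mul]
    push_cast
    rw [← h3]
    have h5 : (c.den : ℚ) * c = c.num := Rat.den_mul_eq_num c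
    rw [← h5]
    ring

/-- A difference of two elements is not in the span. -/
private theorem notMem_span {S : Finset ℂ} (hS : ∀ ω ∈ S, ω ≠ 0) {μ ν : ℂ} (hμ : μ ∈ S)
    (hν : ν ∈ S) (hne : μ ≠ ν) (hk : ∀ k : ℕ, k ≠ 0 → μ ^ k ≠ ν ^ k) :
    (Pi.single μ 1 - Pi.single ν 1 : ℂ → ℚ) ∉ relSpan S := by
  intro h
  obtain ⟨k, hk0, n, hn, h1⟩ := exists_mul hS h
  have hμn : n μ = k := by
    have h2 := h1 μ
    rw [Pi.sub_apply, Pi.single_eq_same, Pi.single_eq_of_ne hne, sub_zero, mul_one] at h2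
    exact_mod_cast h2.symm
  have hνn : n ν = -k := by
    have h2 := h1 ν
    rw [Pi.sub_apply, Pi.single_eq_same, Pi.single_eq_of_ne hne.symm, zero_sub, mul_neg,
      mul_one] at h2
    exact_mod_cast h2.symm
  have h0 : ∀ ω, ω ≠ μ → ω ≠ ν → n ω = 0 := by
    intro ω h3 h4
    have h2 := h1 ω
    rw [Pi.sub_apply, Pi.single_eq_of_ne h3, Pi.single_eq_of_ne h4, sub_zero, mul_zero] at h2
    exact_mod_cast h2.symm
  have h2 := hn.2
  rw [← Finset.mul_prod_erase S _ hμ, ← Finset.mul_prod_erase (S.erase μ) _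
    (Finset.mem_erase.2 ⟨hne.symm, hν⟩), Finset.prod_eq_one, mul_one, hμn, hνn, zpow_neg,
    zpow_natCast, zpow_natCast] at h2
  · apply hk k hk0
    have h3 : ν ^ k ≠ 0 := pow_ne_zero _ (hS ν hν)
    field_simp at h2
    exact h2
  · intro ω hω
    have h3 := Finset.mem_erase.1 hω
    have h4 := Finset.mem_erase.1 h3.2
    rw [h0 ω h4.1 h3.1, zpow_zero]

/-- The torus separates the eigenvalues of a neat Frobenius element. -/
theorem sep (H : IsFrob R Φ) {μ ν : ℂ}
    (hμ : Module.End.HasEigenvalue (Matrix.toLin' (ratM Φ)) μ)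
    (hν : Module.End.HasEigenvalue (Matrix.toLin' (ratM Φ)) ν) (hne : μ ≠ ν) :
    ∃ x ∈ tor Φ, ∃ c d : ℂ, c ≠ d ∧ (∀ v, (ratM Φ).mulVec v = μ • v → x.mulVec v = c • v) ∧
      ∀ v, (ratM Φ).mulVec v = ν • v → x.mulVec v = d • v := by
  classical
  let S : Finset ℂ := (Module.End.finite_hasEigenvalue (Matrix.toLin' (ratM Φ))).toFinset
  have hmS : ∀ ω, ω ∈ S ↔ Module.End.HasEigenvalue (Matrix.toLin' (ratM Φ)) ω := fun ω => by
    simp [S]
  have hS : ∀ ω ∈ S, ω ≠ 0 := by
    intro ω hω h0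
    obtain ⟨r, hr, h1⟩ := H.abs
    have h2 := h1 ω ((hmS ω).1 hω)
    rw [h0, norm_zero] at h2
    exact hr.ne h2
  obtain ⟨f, hf, hf2⟩ := Submodule.exists_le_ker_of_notMem (notMem_span hS ((hmS μ).2 hμ)
    ((hmS ν).2 hν) hne fun k hk he => hne (H.neat μ ν hμ hν k hk he))
  have hrel : ∀ n : ℂ → ℤ, IsRel S n → ∑ ω ∈ S, (n ω : ℂ) * ((f (Pi.single ω 1) : ℚ) : ℂ) = 0 := by
    intro n hn
    have h1 : f (fun ω => (n ω : ℚ)) = 0 :=
      hf2 (Submodule.subset_span ⟨n, hn, rfl⟩)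
    have h2 : (fun ω => (n ω : ℚ)) = ∑ ω ∈ S, (n ω : ℚ) • (Pi.single ω 1 : ℂ → ℚ) := by
      funext ω
      rw [Finset.sum_apply]
      by_cases hω : ω ∈ S
      · rw [Finset.sum_eq_single_of_mem ω hω]
        · rw [Pi.smul_apply, Pi.single_eq_same, smul_eq_mul, mul_one]
        · intro ω' _ h3
          rw [Pi.smul_apply, Pi.single_eq_of_ne h3.symm, smul_zero]
      · rw [hn.1 ω hω, Int.cast_zero, Finset.sum_eq_zero]
        intro ω' h3
        rw [Pi.smul_apply, Pi.single_eq_of_ne, smul_zero]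
        rintro rfl
        exact hω h3
    rw [h2, map_sum] at h1
    have h3 := congrArg (fun q : ℚ => (q : ℂ)) h1
    simp only [map_smul, smul_eq_mul, Rat.cast_sum, Rat.cast_mul, Rat.cast_intCast,
      Rat.cast_zero] at h3
    exact h3
  let D : ℂ → ℂ := fun ω => ((f (Pi.single ω 1) : ℚ) : ℂ)
  have hP : ∀ ω ∈ S, (Lagrange.interpolate S id D).eval ω = D ω := fun ω hω =>
    Lagrange.eval_interpolate_at_node D (Set.injOn_id _) hω
  refine ⟨Polynomial.aeval (ratM Φ) (Lagrange.interpolate S id D), ?_, D μ, D ν, ?_, ?_, ?_⟩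
  · refine ⟨fun ω => (Lagrange.interpolate S id D).eval ω, fun ω v hv => ?_, fun s hs n hn => ?_⟩
    · have h1 := Module.End.mem_eigenspace_iff.1 hv
      rw [Matrix.toLin'_apply] at h1 ⊢
      exact aeval_mulVec _ _ h1
    · have hsS : s ⊆ S := fun ω hω => (hmS ω).2 (hs ω hω)
      have h1 := hrel (fun ω => if ω ∈ s then n ω else 0) ⟨fun ω hω => ?_, ?_⟩
      · rw [← h1, ← Finset.sum_subset hsS]
        · refine Finset.sum_congr rfl fun ω hω => ?_
          simp only [if_pos hω, hP ω (hsS hω)]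
          rfl
        · intro ω _ hω
          rw [if_neg hω, Int.cast_zero, zero_mul]
      · exact if_neg fun h => hω (hsS h)
      · rw [← hn, ← Finset.prod_subset hsS]
        · refine Finset.prod_congr rfl fun ω hω => ?_
          simp only [if_pos hω]
        · intro ω _ hω
          simp only [if_neg hω, zpow_zero]
  · intro he
    apply hf
    rw [map_sub, sub_eq_zero]
    exact Rat.cast_injective he
  · intro v hv
    rw [aeval_mulVec _ _ hv, hP μ ((hmS μ).2 hμ)]
  · intro v hv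
    rw [aeval_mulVec _ _ hv, hP ν ((hmS ν).2 hν)]

/-- A matrix commuting with the torus commutes with `Φ`. -/
theorem comm_frob (H : IsFrob R Φ) {Z : Matrix ι ι ℂ} (hZ : ∀ x ∈ tor Φ, x * Z = Z * x) :
    ratM Φ * Z = Z * ratM Φ := by
  classical
  let S : Finset ℂ := (Module.End.finite_hasEigenvalue (Matrix.toLin' (ratM Φ))).toFinset
  have hmS : ∀ ω, ω ∈ S ↔ Module.End.HasEigenvalue (Matrix.toLin' (ratM Φ)) ω := fun ω => by
    simp [S]
  let P : ℂ → Matrix ι ι ℂ := fun ω => Polynomial.aeval (ratM Φ) (Lagrange.basis S id ω)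
  have hPv : ∀ (ω μ : ℂ) (v : ι → ℂ), (ratM Φ).mulVec v = μ • v →
      (P ω).mulVec v = (Lagrange.basis S id ω).eval μ • v := fun ω μ v hv =>
    aeval_mulVec _ _ hv
  have hP1 : ∀ ω ∈ S, (Lagrange.basis S id ω).eval ω = 1 := fun ω hω =>
    Lagrange.eval_basis_self (Set.injOn_id _) hω
  have hP0 : ∀ ω, ∀ ω' ∈ S, ω ≠ ω' → (Lagrange.basis S id ω).eval ω' = 0 := fun ω ω' hω h =>
    Lagrange.eval_basis_of_ne (v := id) h hω
  -- the image of `P ω` is in the eigenspace
  have hPe : ∀ ω w, (ratM Φ).mulVec ((P ω).mulVec w) = ω • (P ω).mulVec w := by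
    intro ω w
    have h1 : ratM Φ * P ω = ω • P ω := by
      refine ext_of_diag H.diag fun μ v hv => ?_
      rw [← Matrix.mulVec_mulVec, hPv ω μ v hv, Matrix.mulVec_smul, hv, Matrix.smul_mulVec,
        hPv ω μ v hv, smul_smul, smul_smul]
      by_cases hv0 : v = 0
      · rw [hv0, smul_zero, smul_zero]
      by_cases hωμ : ω = μ
      · rw [hωμ, mul_comm]
      · rw [hP0 ω μ ((hmS μ).2 (hasEig hv hv0)) hωμ, zero_mul, mul_zero]
    rw [Matrix.mulVec_mulVec, h1, Matrix.smul_mulVec]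
  refine ext_of_diag H.diag fun μ v hv => ?_
  by_cases hv0 : v = 0
  · rw [hv0, Matrix.mulVec_zero, Matrix.mulVec_zero]
  have hμ := hasEig hv hv0
  have hμS := (hmS μ).2 hμ
  rw [← Matrix.mulVec_mulVec, ← Matrix.mulVec_mulVec, hv, Matrix.mulVec_smul]
  have hsum : Z.mulVec v = ∑ ω ∈ S, (P ω).mulVec (Z.mulVec v) := by
    have h1 : ∑ ω ∈ S, P ω = 1 := by
      have h2 := Lagrange.sum_basis (s := S) (v := (id : ℂ → ℂ)) (Set.injOn_id _) ⟨μ, hμS⟩
      have h3 := congrArg (Polynomial.aeval (ratM Φ)) h2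
      rw [map_sum, map_one] at h3
      exact h3
    rw [← Matrix.sum_mulVec, h1, Matrix.one_mulVec]
  have hz : ∀ ω ∈ S, ω ≠ μ → (P ω).mulVec (Z.mulVec v) = 0 := by
    intro ω hω hne
    obtain ⟨x, hx, c, d, hcd, hc, hd⟩ := sep H hμ ((hmS ω).1 hω) hne.symm
    obtain ⟨t, ht⟩ := exists_scalar hx
    have h1 : x * P ω = P ω * x := by
      refine ext_of_diag H.diag fun κ u hu => ?_
      rw [← Matrix.mulVec_mulVec, ← Matrix.mulVec_mulVec, hPv ω κ u hu, ht κ u hu,
        Matrix.mulVec_smul, Matrix.mulVec_smul, hPv ω κ u hu, ht κ u hu, smul_smul, smul_smul,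
        mul_comm]
    have h2 : x.mulVec (Z.mulVec v) = c • Z.mulVec v := by
      rw [Matrix.mulVec_mulVec, hZ x hx, ← Matrix.mulVec_mulVec, hc v hv, Matrix.mulVec_smul]
    have h3 := hd _ (hPe ω (Z.mulVec v))
    rw [Matrix.mulVec_mulVec, h1, ← Matrix.mulVec_mulVec, h2, Matrix.mulVec_smul] at h3
    have h4 : (c - d) • (P ω).mulVec (Z.mulVec v) = 0 := by
      rw [sub_smul, h3, sub_self]
    exact (smul_eq_zero.1 h4).resolve_left (sub_ne_zero.2 hcd)
  have h5 : Z.mulVec v = (P μ).mulVec (Z.mulVec v) := by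
    conv_lhs => rw [hsum]
    rw [Finset.sum_eq_single_of_mem μ hμS hz]
  rw [h5]
  exact hPe μ _

end Pool.Agent.FQU
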