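import Pool.Agent.FQU.Res
import Pool.Agent.FQU.Sep

/-!
# Irreducible subspaces (PACKAGE FT2)

Proofs. `exists_irr`: take `W` of minimal dimension among the nonzero subspaces of `U` stable under
`g` (`wellFounded_lt.has_min` or strong induction on `finrank`).

`exists_prj`: `M.ss` gives a stable complement `W'` of `W`; `p` is the projection along `W'`
(`Submodule.projectionOnto`, compare `OddRank.exists_proj` in `Pool/Agent/OddRank/Decomp.lean`,
which
can be applied with `G = endo g`).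

`HS_stable`: `M.comm`: `R a (x w) = x (R a w) = x (σ a • w) = σ a • x w`.

`exists_sig`: let `p` be the projection of `exists_prj`, `Z = LinearMap.toMatrix' (W.subtype ∘ₗ
p)`. `Z`
commutes with `g` (`P.eq`), so with all `R a` (`M.center`), so `R a` preserves `W`, the range of
`Z`.
`R a` commutes with `g` (`M.comm`). By Schur's lemma (an eigenspace of `R a` on `W`, `ℂ` is
algebraically closed: `Module.End.exists_eigenvalue`, is stable under `g`, so it is `W`) `R a` is a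
scalar `s a` on `W`. As `W ≠ 0`, `a ↦ s a` is a ring homomorphism `E →+* ℂ`.

`frob_mem`: let `Z` be the matrix of the projection onto the stable subspace `W` as above, it
commutes
with `g`, so with `tor Φ` (`M.le`), so with `Φ` (`comm_frob`); for `w ∈ W`:
`Φ w = Φ Z w = Z Φ w ∈ W`.

`HS_ne_bot`: `CoprimeSig.HS_decomp R`: `finrank (HS R σ) * finrank ℚ E = card ι ≠ 0`. -/

set_option autoImplicit false
set_option linter.unusedSectionVars false

namespace Pool.Agent.FQU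

open Module
open Pool.Agent.CoprimeSig (ratM endo mem_endo)

variable {ι : Type} [Fintype ι] [DecidableEq ι] {E : Type} [CommRing E]
  {R : E →+* Matrix ι ι ℚ} {Φ : Matrix ι ι ℚ} {σ : E →+* ℂ} {c : E → E}
  {g : Submodule ℂ (Matrix ι ι ℂ)} {ψ : Matrix ι ι ℂ} {W U : Submodule ℂ (ι → ℂ)}

theorem exists_irr (hU : ∀ x ∈ g, ∀ u ∈ U, x.mulVec u ∈ U) (h0 : U ≠ ⊥) : ∃ W ≤ U, Irr g W := by
  let S : Set (Submodule ℂ (ι → ℂ)) :=
    {W | W ≤ U ∧ W ≠ ⊥ ∧ ∀ x ∈ g, ∀ w ∈ W, x.mulVec w ∈ W}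
  have hS : S.Nonempty := ⟨U, le_rfl, h0, hU⟩
  obtain ⟨W, ⟨hW1, hW2, hW3⟩, hmin⟩ :=
    (wellFounded_lt (α := Submodule ℂ (ι → ℂ))).has_min S hS
  refine ⟨W, hW1, hW3, hW2, fun U' hU' hst => ?_⟩
  by_contra hc
  rw [not_or] at hc
  exact hmin U' ⟨hU'.trans hW1, hc.1, hst⟩ (lt_of_le_of_ne hU' hc.2)

theorem exists_prj (M : Mono R c Φ g ψ) (hW : ∀ x ∈ g, ∀ w ∈ W, x.mulVec w ∈ W) :
    ∃ p : (ι → ℂ) →ₗ[ℂ] W, Prj g W p := by
  obtain ⟨W', hc, hW'⟩ := M.ss W hW
  refine ⟨W.projectionOnto W' hc, fun u => Submodule.projectionOnto_apply_left hc u, ?_⟩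
  intro x hx v
  have h1 : v ∈ W ⊔ W' := by
    rw [hc.sup_eq_top]
    exact Submodule.mem_top
  obtain ⟨u, hu, u', hu', rfl⟩ := Submodule.mem_sup.1 h1
  have h3 := hW x hx u hu
  have h4 := hW' x hx u' hu'
  have e1 : W.projectionOnto W' hc (x.mulVec u) = ⟨x.mulVec u, h3⟩ :=
    Submodule.projectionOnto_apply_left hc ⟨x.mulVec u, h3⟩
  have e2 : W.projectionOnto W' hc (x.mulVec u') = 0 :=
    Submodule.projectionOnto_apply_right hc ⟨x.mulVec u', h4⟩
  have e3 : W.projectionOnto W' hc u = ⟨u, hu⟩ :=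
    Submodule.projectionOnto_apply_left hc ⟨u, hu⟩
  have e4 : W.projectionOnto W' hc u' = 0 :=
    Submodule.projectionOnto_apply_right hc ⟨u', hu'⟩
  rw [Matrix.mulVec_add, map_add, map_add, e1, e2, e3, e4, add_zero, add_zero]

/-- The matrix of the projection onto a stable subspace. -/
private theorem irrs_matrix (M : Mono R c Φ g ψ) (hW : ∀ x ∈ g, ∀ w ∈ W, x.mulVec w ∈ W) :
    ∃ Z : Matrix ι ι ℂ, (∀ x ∈ g, x * Z = Z * x) ∧ (∀ v, Z.mulVec v ∈ W) ∧
      ∀ w ∈ W, Z.mulVec w = w := by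
  obtain ⟨p, P⟩ := exists_prj M hW
  have hZ : ∀ v, (LinearMap.toMatrix' (W.subtype ∘ₗ p)).mulVec v = (p v : ι → ℂ) := by
    intro v
    rw [← Matrix.toLin'_apply, Matrix.toLin'_toMatrix']
    rfl
  refine ⟨LinearMap.toMatrix' (W.subtype ∘ₗ p), fun x hx => ?_, fun v => ?_, fun w hw => ?_⟩
  · apply (Matrix.toLin' (R := ℂ)).injective
    refine LinearMap.ext fun v => ?_
    rw [Matrix.toLin'_apply, Matrix.toLin'_apply, ← Matrix.mulVec_mulVec, ← Matrix.mulVec_mulVec,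
      hZ, hZ, P.eq x hx]
  · rw [hZ]
    exact (p v).2
  · rw [hZ, P.id ⟨w, hw⟩]

/-- A matrix which commutes with the projection preserves the subspace. -/
private theorem irrs_mem {Z x : Matrix ι ι ℂ} (h1 : ∀ v, Z.mulVec v ∈ W)
    (h2 : ∀ w ∈ W, Z.mulVec w = w) (h : x * Z = Z * x) : ∀ w ∈ W, x.mulVec w ∈ W := by
  intro w hw
  have h3 : x.mulVec w = Z.mulVec (x.mulVec w) := by
    conv_lhs => rw [← h2 w hw]
    rw [Matrix.mulVec_mulVec, h, Matrix.mulVec_mulVec]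
  rw [h3]
  exact h1 _

theorem HS_stable (M : Mono R c Φ g ψ) : ∀ x ∈ g, ∀ w ∈ HS R σ, x.mulVec w ∈ HS R σ := by
  intro x hx w hw a
  rw [Matrix.mulVec_mulVec, ← M.comm a x hx, ← Matrix.mulVec_mulVec, hw a, Matrix.mulVec_smul]

/-- The action of `E` on the complex vector space. -/
noncomputable def hsEnd (R : E →+* Matrix ι ι ℚ) : E →+* End ℂ (ι → ℂ) :=
  ((Matrix.toLinAlgEquiv' : Matrix ι ι ℂ ≃ₐ[ℂ] End ℂ (ι → ℂ)) : Matrix ι ι ℂ →+* End ℂ (ι → ℂ)).comp
    ((Rat.castHom ℂ).mapMatrix.comp R)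

theorem hsEnd_apply (a : E) (w : ι → ℂ) : hsEnd R a w = (ratM (R a)).mulVec w := rfl

theorem exists_sig (M : Mono R c Φ g ψ) (hW : Irr g W) : ∃ σ : E →+* ℂ, W ≤ HS R σ := by
  obtain ⟨Z, hZ, hZ1, hZ2⟩ := irrs_matrix M hW.1
  have hRa : ∀ a, ∀ w ∈ W, (ratM (R a)).mulVec w ∈ W := fun a =>
    irrs_mem hZ1 hZ2 (M.center Z hZ a).symm
  have hsc : ∀ a, ∃ c : ℂ, ∀ w ∈ W, (ratM (R a)).mulVec w = c • w := by
    intro a
    have : Nontrivial W := Submodule.nontrivial_iff_ne_bot.2 hW.2.1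
    let T : End ℂ W := (Matrix.toLin' (ratM (R a))).restrict fun w hw => by
      rw [Matrix.toLin'_apply]
      exact hRa a w hw
    have hT : ∀ w : W, (T w : ι → ℂ) = (ratM (R a)).mulVec w := fun w => by
      rw [LinearMap.coe_restrict_apply, Matrix.toLin'_apply]
    obtain ⟨c, hc⟩ := Module.End.exists_eigenvalue T
    refine ⟨c, fun w hw => ?_⟩
    let U' : Submodule ℂ (ι → ℂ) := (Module.End.eigenspace T c).map W.subtype
    have hU' : ∀ u, u ∈ U' ↔ u ∈ W ∧ (ratM (R a)).mulVec u = c • u := by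
      intro u
      constructor
      · rintro ⟨u', hu', rfl⟩
        refine ⟨u'.2, ?_⟩
        have h1 := Module.End.mem_eigenspace_iff.1 hu'
        rw [Submodule.subtype_apply, ← hT, h1]
        rfl
      · rintro ⟨h1, h2⟩
        refine ⟨⟨u, h1⟩, Module.End.mem_eigenspace_iff.2 (Subtype.ext ?_), rfl⟩
        rw [hT]
        exact h2
    have hst : ∀ x ∈ g, ∀ u ∈ U', x.mulVec u ∈ U' := by
      intro x hx u hu
      obtain ⟨h1, h2⟩ := (hU' u).1 hu
      refine (hU' _).2 ⟨hW.1 x hx u h1, ?_⟩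
      rw [Matrix.mulVec_mulVec, ← M.comm a x hx, ← Matrix.mulVec_mulVec, h2, Matrix.mulVec_smul]
    rcases hW.2.2 U' (fun u hu => ((hU' u).1 hu).1) hst with h | h
    · exfalso
      obtain ⟨v, hv⟩ := hc.exists_hasEigenvector
      have h1 : (v : ι → ℂ) ∈ U' := ⟨v, hv.1, rfl⟩
      rw [h, Submodule.mem_bot] at h1
      exact hv.2 (Subtype.ext h1)
    · rw [← h] at hw
      exact ((hU' w).1 hw).2
  choose s hs using hsc
  obtain ⟨w, hw, hw0⟩ := Submodule.exists_mem_ne_zero_of_ne_bot hW.2.1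
  have key : ∀ a, hsEnd R a w = s a • w := fun a => hs a w hw
  have heq : ∀ c d : ℂ, c • w = d • w → c = d := fun c d h => smul_left_injective ℂ hw0 h
  refine ⟨{ toFun := s, map_one' := heq _ _ ?_, map_mul' := fun a b => heq _ _ ?_,
            map_zero' := heq _ _ ?_, map_add' := fun a b => heq _ _ ?_ }, fun w hw a => hs a w hw⟩
  · rw [← key, map_one, one_smul]
    rfl
  · rw [← key, map_mul, Module.End.mul_apply, key b, map_smul, key a, smul_smul, mul_comm]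
  · rw [← key, map_zero, zero_smul]
    rfl
  · rw [← key, map_add, LinearMap.add_apply, key a, key b, add_smul]

theorem frob_mem (M : Mono R c Φ g ψ) (H : IsFrob R Φ)
    (hW : ∀ x ∈ g, ∀ w ∈ W, x.mulVec w ∈ W) : ∀ w ∈ W, (ratM Φ).mulVec w ∈ W := by
  obtain ⟨Z, hZ, hZ1, hZ2⟩ := irrs_matrix M hW
  exact irrs_mem hZ1 hZ2 (comm_frob H fun x hx => hZ x (M.le hx))

end Pool.Agent.FQU
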