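import Pool.Agent.FQU.Bas

/-!
# The reflections given by the root vectors of `g` (PACKAGE FU16)

`Jrt R Φ g z y F π`: `z`, `y` are opposite root vectors of `g` for the torus `tor Φ`, `F` gives the eigenvalues of the coroot
`z y - y z` on the eigenspaces of `Φ`, `π` is the reflection on the set of the eigenvalues of `Φ`.

Proof of `exists_jrt`. `α` is not zero on `tor Φ`, which is spanned by idempotents (`hI`), so `α e ≠ 0` for an idempotent `e ∈ tor Φ`
(`α` is linear on `tor Φ` because `z ≠ 0`). `CoprimeSig.exists_opp (cartan M H)` for `Matrix.toLin' z`, `Matrix.toLin' e` and the root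
`fun τ => α (LinearMap.toMatrix' τ)` gives `y` with `Opp (endo g) (endo (tor Φ)) _ (toLin' z) (toLin' y)`; this translates into `mz`, `my`, `zz`,
`yy`, `zyz`, `yzy`, `cor`, `root`.

Let `h = z y - y z`. `P = z y`, `Q = y z` are idempotents with `P Q = Q P = 0`, so the eigenvalues of `h` are `0, 1, -1`. By `exists_scalar`
`h` acts on the eigenvectors of `Φ` for `μ` as the scalar `d μ`; for an eigenvalue `μ` it is `0`, `1` or `-1`; let `F μ` be this
rational number (and `F μ = 0` if `μ` is not an eigenvalue).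

Let `w = (1 + z) (1 - y) (1 + z)` (`CoprimeSig.wl`; see `Pool/Agent/CoprimeSig/Wl.lean`, `wl_mul_inv`, `mul_wl`): it is invertible and
`x w = w (x - α x • h)` for `x ∈ tor Φ`. Let `μ` be an eigenvalue of `Φ`, `v` an eigenvector. For `x ∈ tor Φ` with scalars `d_x`:
`x (w v) = (d_x μ - α x * F μ) w v`. Decompose `w v` into eigenvectors of `Φ`: all components have the same scalars for all
`x ∈ tor Φ`, so by `sep` there is only one: `Φ (w v) = ν w v`, and `d_x ν = d_x μ - α x * F μ` for all `x ∈ tor Φ`, which determines `ν`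
(`sep`). Let `π μ = ν` (it does not depend on `v`), and `π μ = μ` if `μ` is not an eigenvalue. `pm`: `w v ∈ HS R σ` if `v ∈ HS R σ`
(`HS_stable`). `neg`: apply this to `x = h`: `α h = 2` (`h z - z h = 2 z`), so `F ν = F μ - 2 F μ`. `inv`:
`d_x (π (π μ)) = d_x (π μ) - α x * F (π μ) = d_x μ` for all `x ∈ tor Φ`, so `π (π μ) = μ` by `sep`.
`shift`: let `z v ≠ 0`. `z (h v) = - z y z v = - z v`, so `F μ = -1`; then `h v = - v`, i.e. `z y v - y z v = -v`; apply `z`, `y`:
`y v = y (y z v - z y v) = - y z y v = - y v`, so `y v = 0`, `y z v = v`, and `w v = z v`; so `Φ (z v) = π μ • z v`. (`y z v = v` because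
`z y v = 0`.) -/

set_option autoImplicit false
set_option linter.unusedSectionVars false

namespace Pool.Agent.FQU

open Module
open Pool.Agent.CoprimeSig (ratM endo mem_endo Cartan IsRoot mem_span_roots Opp)

variable {ι : Type} [Fintype ι] [DecidableEq ι] {E : Type} [CommRing E]
  {R : E →+* Matrix ι ι ℚ} {Φ : Matrix ι ι ℚ} {σ : E →+* ℂ} {c : E → E}
  {g : Submodule ℂ (Matrix ι ι ℂ)} {ψ : Matrix ι ι ℂ}

/-- The reflection given by the opposite root vectors `z` and `y`. -/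
structure Jrt (R : E →+* Matrix ι ι ℚ) (Φ : Matrix ι ι ℚ) (g : Submodule ℂ (Matrix ι ι ℂ))
    (z y : Matrix ι ι ℂ) (F : ℂ → ℚ) (π : ℂ → ℂ) : Prop where
  mz : z ∈ g
  my : y ∈ g
  ne : z ≠ 0
  zz : z * z = 0
  yy : y * y = 0
  zyz : z * y * z = z
  yzy : y * z * y = y
  cor : z * y - y * z ∈ tor Φ
  root : ∀ x ∈ tor Φ, ∃ s : ℂ, x * z - z * x = s • z ∧ x * y - y * x = -(s • y)
  val : ∀ μ v, (ratM Φ).mulVec v = μ • v → (z * y - y * z).mulVec v = (F μ : ℂ) • v
  v01 : ∀ σ : E →+* ℂ, ∀ μ ∈ Om R Φ σ, F μ = -1 ∨ F μ = 0 ∨ F μ = 1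
  pm : ∀ σ : E →+* ℂ, ∀ μ ∈ Om R Φ σ, π μ ∈ Om R Φ σ
  inv : ∀ σ : E →+* ℂ, ∀ μ ∈ Om R Φ σ, π (π μ) = μ
  neg : ∀ σ : E →+* ℂ, ∀ μ ∈ Om R Φ σ, F (π μ) = -F μ
  refl : ∀ x ∈ tor Φ, ∀ d : ℂ → ℂ, (∀ μ v, (ratM Φ).mulVec v = μ • v → x.mulVec v = d μ • v) →
    ∀ s : ℂ, x * z - z * x = s • z → ∀ σ : E →+* ℂ, ∀ μ ∈ Om R Φ σ, d (π μ) = d μ - s * F μ
  shift : ∀ μ v, (ratM Φ).mulVec v = μ • v → z.mulVec v ≠ 0 →
    F μ = -1 ∧ (ratM Φ).mulVec (z.mulVec v) = π μ • z.mulVec v

private theorem aevalMV (A : Matrix ι ι ℂ) (P : Polynomial ℂ) {μ : ℂ} {v : ι → ℂ}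
    (hv : A.mulVec v = μ • v) : (Polynomial.aeval A P).mulVec v = P.eval μ • v := by
  have h1 : Matrix.toLin' (Polynomial.aeval A P) = Polynomial.aeval (Matrix.toLin' A) P :=
    (Polynomial.aeval_algHom_apply (Matrix.toLinAlgEquiv' (R := ℂ) (n := ι)).toAlgHom A P).symm
  have h2 : v ∈ Module.End.eigenspace (Matrix.toLin' A) μ :=
    Module.End.mem_eigenspace_iff.2 (by rw [Matrix.toLin'_apply, hv])
  rw [← Matrix.toLin'_apply, h1]
  by_cases h : v = 0
  · rw [h, map_zero, smul_zero]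
  · exact Module.End.aeval_apply_of_hasEigenvector ⟨h2, h⟩

private theorem hasEigV {A : Matrix ι ι ℂ} {μ : ℂ} {v : ι → ℂ} (hv : A.mulVec v = μ • v)
    (h0 : v ≠ 0) : Module.End.HasEigenvalue (Matrix.toLin' A) μ :=
  Module.End.hasEigenvalue_of_hasEigenvector (x := v)
    ⟨Module.End.mem_eigenspace_iff.2 (by rw [Matrix.toLin'_apply, hv]), h0⟩

/-- A common eigenvector of the torus is an eigenvector of `Φ`. -/
private theorem eig_of_tor (H : IsFrob R Φ) {u : ι → ℂ} (hu0 : u ≠ 0)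
    {χ : Matrix ι ι ℂ → ℂ} (hu : ∀ x ∈ tor Φ, x.mulVec u = χ x • u) :
    ∃ ν : ℂ, (ratM Φ).mulVec u = ν • u := by
  classical
  let S : Finset ℂ := (Module.End.finite_hasEigenvalue (Matrix.toLin' (ratM Φ))).toFinset
  have hmS : ∀ ω, ω ∈ S ↔ Module.End.HasEigenvalue (Matrix.toLin' (ratM Φ)) ω := fun ω => by
    simp [S]
  let P : ℂ → Matrix ι ι ℂ := fun ω => Polynomial.aeval (ratM Φ) (Lagrange.basis S id ω)
  have hPv : ∀ (ω μ : ℂ) (v : ι → ℂ), (ratM Φ).mulVec v = μ • v →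
      (P ω).mulVec v = (Lagrange.basis S id ω).eval μ • v := fun ω μ v hv =>
    aevalMV _ _ hv
  have hP0 : ∀ ω, ∀ ω' ∈ S, ω ≠ ω' → (Lagrange.basis S id ω).eval ω' = 0 := fun ω ω' hω h =>
    Lagrange.eval_basis_of_ne (v := id) h hω
  have hPe : ∀ ω w, (ratM Φ).mulVec ((P ω).mulVec w) = ω • (P ω).mulVec w := by
    intro ω w
    have h1 : ratM Φ * P ω = ω • P ω := by
      refine ext_of_diag H.diag fun μ v hv => ?_
      rw [← Matrix.mulVec_mulVec, hPv ω μ v hv, Matrix.mulVec_smul, hv, Matrix.smul_mulVec,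
        hPv ω μ v hv, smul_smul, smul_smul]
      by_cases hv0 : v = 0
      · rw [hv0, smul_zero, smul_zero]
      by_cases hωμ : ω = μ
      · rw [hωμ, mul_comm]
      · rw [hP0 ω μ ((hmS μ).2 (hasEigV hv hv0)) hωμ, zero_mul, mul_zero]
    rw [Matrix.mulVec_mulVec, h1, Matrix.smul_mulVec]
  have hne : S.Nonempty := by
    have : Nontrivial (ι → ℂ) := ⟨u, 0, hu0⟩
    obtain ⟨ω, hω⟩ := Module.End.exists_eigenvalue (Matrix.toLin' (ratM Φ))
    exact ⟨ω, (hmS ω).2 hω⟩
  have hsum : u = ∑ ω ∈ S, (P ω).mulVec u := by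
    have h1 : ∑ ω ∈ S, P ω = 1 := by
      have h2 := Lagrange.sum_basis (s := S) (v := (id : ℂ → ℂ)) (Set.injOn_id _) hne
      have h3 := congrArg (Polynomial.aeval (ratM Φ)) h2
      rw [map_sum, map_one] at h3
      exact h3
    rw [← Matrix.sum_mulVec, h1, Matrix.one_mulVec]
  have hcomm : ∀ x ∈ tor Φ, ∀ ω, x * P ω = P ω * x := by
    intro x hx ω
    obtain ⟨t, ht⟩ := exists_scalar hx
    refine ext_of_diag H.diag fun κ v hv => ?_
    rw [← Matrix.mulVec_mulVec, ← Matrix.mulVec_mulVec, hPv ω κ v hv, ht κ v hv,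
      Matrix.mulVec_smul, Matrix.mulVec_smul, hPv ω κ v hv, ht κ v hv, smul_smul, smul_smul,
      mul_comm]
  have hχ : ∀ x ∈ tor Φ, ∀ ω, x.mulVec ((P ω).mulVec u) = χ x • (P ω).mulVec u := by
    intro x hx ω
    rw [Matrix.mulVec_mulVec, hcomm x hx, ← Matrix.mulVec_mulVec, hu x hx, Matrix.mulVec_smul]
  obtain ⟨μ, hμ, hμ0⟩ : ∃ μ ∈ S, (P μ).mulVec u ≠ 0 := by
    by_contra hcon
    push Not at hcon
    exact hu0 (by rw [hsum, Finset.sum_eq_zero hcon])
  have hz : ∀ ω ∈ S, ω ≠ μ → (P ω).mulVec u = 0 := by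
    intro ω hω hωμ
    by_contra h0
    obtain ⟨x, hx, c, d, hcd, hc, hd⟩ := sep H ((hmS μ).1 hμ) ((hmS ω).1 hω) hωμ.symm
    have h1 := hc _ (hPe μ u)
    have h2 := hd _ (hPe ω u)
    rw [hχ x hx] at h1 h2
    have h3 : χ x = c := smul_left_injective ℂ hμ0 h1
    have h4 : χ x = d := smul_left_injective ℂ h0 h2
    exact hcd (h3.symm.trans h4)
  have h5 : u = (P μ).mulVec u := by
    conv_lhs => rw [hsum]
    rw [Finset.sum_eq_single_of_mem μ hμ hz]
  refine ⟨μ, ?_⟩
  rw [h5]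
  exact hPe μ u

theorem exists_jrt (M : Mono R c Φ g ψ) (H : IsFrob R Φ) (hI : Idem Φ) {z : Matrix ι ι ℂ}
    (hz : z ∈ g) (hz0 : z ≠ 0) {α : Matrix ι ι ℂ → ℂ}
    (hα : ∀ x ∈ tor Φ, x * z - z * x = α x • z) (hne : ∃ x ∈ tor Φ, α x ≠ 0) :
    ∃ (y : Matrix ι ι ℂ) (F : ℂ → ℚ) (π : ℂ → ℂ), Jrt R Φ g z y F π := by
  classical
  -- an idempotent on which the root is not zero
  obtain ⟨e, he, hee, hαe⟩ : ∃ e ∈ tor Φ, e * e = e ∧ α e ≠ 0 := by
    by_contra hcon
    push Not at hcon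
    obtain ⟨x, hx, hx0⟩ := hne
    have h1 : x * z - z * x = 0 := by
      have h2 := hI hx
      clear hx0 hx
      induction h2 using Submodule.span_induction with
      | mem e he => rw [hα e he.1, hcon e he.1 he.2, zero_smul]
      | zero => rw [zero_mul, mul_zero, sub_zero]
      | add a b _ _ ha hb =>
        have h3 : (a + b) * z - z * (a + b) = (a * z - z * a) + (b * z - z * b) := by
          noncomm_ring
        rw [h3, ha, hb, add_zero]
      | smul r a _ ha =>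
        rw [smul_mul_assoc, mul_smul_comm, ← smul_sub, ha, smul_zero]
    rw [hα x hx] at h1
    exact (smul_eq_zero.1 h1).elim hx0 hz0
  -- the opposite root vector
  have hroot : IsRoot (endo g) (endo (tor Φ)) (fun τ => α (LinearMap.toMatrix' τ))
      (Matrix.toLin' z) := by
    refine ⟨mem_endo.2 hz, ?_⟩
    rintro _ ⟨x, hx, rfl⟩
    change Matrix.toLin' x * Matrix.toLin' z - Matrix.toLin' z * Matrix.toLin' x =
      α (LinearMap.toMatrix' (Matrix.toLin' x)) • Matrix.toLin' z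
    rw [LinearMap.toMatrix'_toLin', ← map_smul, ← hα x hx, map_sub]
    rw [Module.End.mul_eq_comp, Module.End.mul_eq_comp, ← Matrix.toLin'_mul,
      ← Matrix.toLin'_mul]
  have hZ0 : Matrix.toLin' z ≠ 0 := fun h =>
    hz0 ((Matrix.toLin' (R := ℂ)).injective (by rw [h, map_zero]))
  have hee' : Matrix.toLin' e * Matrix.toLin' e = Matrix.toLin' e := by
    rw [Module.End.mul_eq_comp, ← Matrix.toLin'_mul, hee]
  obtain ⟨-, Y, O⟩ := CoprimeSig.exists_opp (cartan M H) hroot hZ0 (mem_endo.2 he) hee' (by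
    change α (LinearMap.toMatrix' (Matrix.toLin' e)) ≠ 0
    rw [LinearMap.toMatrix'_toLin']
    exact hαe)
  obtain ⟨y, rfl⟩ : ∃ y : Matrix ι ι ℂ, Matrix.toLin' y = Y :=
    ⟨LinearMap.toMatrix' Y, Matrix.toLin'_toMatrix' Y⟩
  have tl : ∀ a b : Matrix ι ι ℂ, Matrix.toLin' a * Matrix.toLin' b = Matrix.toLin' (a * b) :=
    fun a b => by rw [Module.End.mul_eq_comp, ← Matrix.toLin'_mul]
  have inj := (Matrix.toLin' (R := ℂ) (m := ι) (n := ι)).injective
  have hyg : y ∈ g := mem_endo.1 O.ry.mem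
  have hzz : z * z = 0 := inj (by rw [← tl, O.xx, map_zero])
  have hyy : y * y = 0 := inj (by rw [← tl, O.yy, map_zero])
  have hzyz : z * y * z = z := inj (by rw [← tl, ← tl, O.xyx])
  have hyzy : y * z * y = y := inj (by rw [← tl, ← tl, O.yxy])
  have hcor : z * y - y * z ∈ tor Φ := by
    rw [← mem_endo, map_sub, ← tl, ← tl]
    exact O.mem
  have hry : ∀ x ∈ tor Φ, x * y - y * x = -(α x • y) := by
    intro x hx
    have h1 := O.ry.root _ (mem_endo.2 hx)
    apply inj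
    rw [map_sub, ← tl, ← tl, h1]
    change (-α (LinearMap.toMatrix' (Matrix.toLin' x))) • Matrix.toLin' y = _
    rw [LinearMap.toMatrix'_toLin', map_neg, map_smul]
    exact neg_smul (α x) (Matrix.toLin' y)
  -- the Weyl group element
  set w : Matrix ι ι ℂ := 1 + z - y - z * y - y * z with hw
  have hwl : Matrix.toLin' w = CoprimeSig.wl (Matrix.toLin' z) (Matrix.toLin' y) := by
    rw [CoprimeSig.wl_eq O.xx O.xyx, hw, map_sub, map_sub, map_sub, map_add, tl, tl,
      Matrix.toLin'_one]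
    rfl
  have hWI := CoprimeSig.wl_mul_inv O
  have hwv : ∀ v, w.mulVec v = CoprimeSig.wl (Matrix.toLin' z) (Matrix.toLin' y) v := fun v => by
    rw [← hwl, Matrix.toLin'_apply]
  have hwne : ∀ v, v ≠ 0 → w.mulVec v ≠ 0 := by
    intro v hv h0
    rw [hwv] at h0
    have h1 := LinearMap.congr_fun hWI.2.1 v
    rw [Module.End.mul_apply, h0, map_zero] at h1
    exact hv h1.symm
  have hwx : ∀ x ∈ tor Φ, ∀ v, x.mulVec (w.mulVec v) =
      w.mulVec (x.mulVec v - α x • (z * y - y * z).mulVec v) := by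
    intro x hx v
    have h1 := CoprimeSig.mul_wl O.xx O.yy O.xyx O.yxy (O.rx.root _ (mem_endo.2 hx))
      (O.ry.root _ (mem_endo.2 hx))
    have h2 := hWI.2.2.2 _ (mem_endo.2 hx)
    have h3 : Matrix.toLin' x * CoprimeSig.wl (Matrix.toLin' z) (Matrix.toLin' y) =
        CoprimeSig.wl (Matrix.toLin' z) (Matrix.toLin' y) *
          (Matrix.toLin' x - α (LinearMap.toMatrix' (Matrix.toLin' x)) •
            (Matrix.toLin' z * Matrix.toLin' y - Matrix.toLin' y * Matrix.toLin' z)) := by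
      rw [← h2, ← mul_assoc, ← mul_assoc, hWI.1, one_mul]
    have h4 := LinearMap.congr_fun h3 v
    rw [LinearMap.toMatrix'_toLin', tl, tl, ← map_sub] at h4
    rw [Module.End.mul_apply, Module.End.mul_apply, ← hwv, ← hwv] at h4
    rw [Matrix.toLin'_apply] at h4
    rw [h4]
    congr 1
  -- the values of the coroot
  obtain ⟨dh, hdh⟩ := exists_scalar hcor
  have hcube : (z * y - y * z) * ((z * y - y * z) * (z * y - y * z)) = z * y - y * z := by
    have k1 : z * y * (z * y) = z * y := by rw [← mul_assoc, hzyz]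
    have k2 : y * z * (y * z) = y * z := by rw [← mul_assoc, hyzy]
    have k3 : z * y * (y * z) = 0 := by rw [mul_assoc, ← mul_assoc y y, hyy, zero_mul, mul_zero]
    have k4 : y * z * (z * y) = 0 := by rw [mul_assoc, ← mul_assoc z z, hzz, zero_mul, mul_zero]
    have k5 : (z * y - y * z) * (z * y - y * z) = z * y + y * z := by
      rw [sub_mul, mul_sub, mul_sub, k1, k2, k3, k4]
      abel
    rw [k5, sub_mul, mul_add, mul_add, k1, k2, k3, k4]
    abel
  have hd3 : ∀ μ v, (ratM Φ).mulVec v = μ • v → v ≠ 0 → dh μ = -1 ∨ dh μ = 0 ∨ dh μ = 1 := by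
    intro μ v hv hv0
    have h1 := hdh μ v hv
    have h2 : (dh μ * (dh μ * dh μ)) • v = dh μ • v := by
      have h3 : ((z * y - y * z) * ((z * y - y * z) * (z * y - y * z))).mulVec v =
          (z * y - y * z).mulVec v := by rw [hcube]
      rw [← Matrix.mulVec_mulVec, ← Matrix.mulVec_mulVec, h1, Matrix.mulVec_smul, h1,
        Matrix.mulVec_smul, Matrix.mulVec_smul, h1, smul_smul, smul_smul] at h3
      rw [← h3]
      congr 1
      ring
    have h4 : dh μ * (dh μ * dh μ) = dh μ := smul_left_injective ℂ hv0 h2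
    have h5 : (dh μ + 1) * (dh μ * (dh μ - 1)) = 0 := by linear_combination h4
    rcases mul_eq_zero.1 h5 with h6 | h6
    · exact Or.inl (eq_neg_of_add_eq_zero_left h6)
    · rcases mul_eq_zero.1 h6 with h7 | h7
      · exact Or.inr (Or.inl h7)
      · exact Or.inr (Or.inr (sub_eq_zero.1 h7))
  let F : ℂ → ℚ := fun μ => if dh μ = 1 then 1 else if dh μ = -1 then -1 else 0
  have hF : ∀ μ v, (ratM Φ).mulVec v = μ • v → (z * y - y * z).mulVec v = (F μ : ℂ) • v := by
    intro μ v hv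
    by_cases hv0 : v = 0
    · rw [hv0, Matrix.mulVec_zero, smul_zero]
    rw [hdh μ v hv]
    congr 1
    change dh μ = ((if dh μ = 1 then 1 else if dh μ = -1 then -1 else 0 : ℚ) : ℂ)
    rcases hd3 μ v hv hv0 with h | h | h
    · rw [h, if_neg (by norm_num), if_pos rfl]
      norm_num
    · rw [h, if_neg (by norm_num), if_neg (by norm_num)]
      norm_num
    · rw [h, if_pos rfl]
      norm_num
  have hxw : ∀ x ∈ tor Φ, ∀ d : ℂ → ℂ,
      (∀ μ v, (ratM Φ).mulVec v = μ • v → x.mulVec v = d μ • v) →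
      ∀ μ v, (ratM Φ).mulVec v = μ • v →
        x.mulVec (w.mulVec v) = (d μ - α x * F μ) • w.mulVec v := by
    intro x hx d hd μ v hv
    rw [hwx x hx v, hd μ v hv, hF μ v hv, smul_smul, ← sub_smul, Matrix.mulVec_smul]
  -- the reflection
  have hπ' : ∀ μ : ℂ, ∃ ν : ℂ, ∀ v : ι → ℂ, (ratM Φ).mulVec v = μ • v →
      (ratM Φ).mulVec (w.mulVec v) = ν • w.mulVec v := by
    intro μ
    have hd : ∀ x : Matrix ι ι ℂ, ∃ d : ℂ → ℂ, x ∈ tor Φ →
        ∀ μ v, (ratM Φ).mulVec v = μ • v → x.mulVec v = d μ • v := by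
      intro x
      by_cases hx : x ∈ tor Φ
      · obtain ⟨d, hd⟩ := exists_scalar hx
        exact ⟨d, fun _ => hd⟩
      · exact ⟨0, fun h => absurd h hx⟩
    choose D hD using hd
    by_cases h : ∃ v, (ratM Φ).mulVec v = μ • v ∧ v ≠ 0
    · obtain ⟨v0, hv0, hv00⟩ := h
      have key : ∀ v, (ratM Φ).mulVec v = μ • v → v ≠ 0 →
          ∃ ν : ℂ, (ratM Φ).mulVec (w.mulVec v) = ν • w.mulVec v := fun v hv hvn =>
        eig_of_tor H (hwne v hvn) (χ := fun x => D x μ - α x * F μ)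
          fun x hx => hxw x hx (D x) (hD x hx) μ v hv
      obtain ⟨ν, hν⟩ := key v0 hv0 hv00
      refine ⟨ν, fun v hv => ?_⟩
      by_cases hvn : v = 0
      · rw [hvn, Matrix.mulVec_zero, Matrix.mulVec_zero, smul_zero]
      obtain ⟨ν', hν'⟩ := key v hv hvn
      by_cases hνν : ν' = ν
      · rw [hν', hνν]
      · exfalso
        obtain ⟨x, hx, a, b, hab, ha, hb⟩ := sep H (hasEigV hν' (hwne v hvn))
          (hasEigV hν (hwne v0 hv00)) hνν
        have h1 := ha _ hν'
        have h2 := hb _ hν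
        rw [hxw x hx (D x) (hD x hx) μ v hv] at h1
        rw [hxw x hx (D x) (hD x hx) μ v0 hv0] at h2
        exact hab ((smul_left_injective ℂ (hwne v hvn) h1).symm.trans
          (smul_left_injective ℂ (hwne v0 hv00) h2))
    · push Not at h
      refine ⟨μ, fun v hv => ?_⟩
      rw [h v hv, Matrix.mulVec_zero, Matrix.mulVec_zero, smul_zero]
  choose π hπ using hπ'
  have hαu : ∀ x ∈ tor Φ, ∀ s : ℂ, x * z - z * x = s • z → s = α x := by
    intro x hx s hs
    rw [hα x hx] at hs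
    exact (smul_left_injective ℂ hz0 hs).symm
  have hpm : ∀ σ : E →+* ℂ, ∀ μ ∈ Om R Φ σ, π μ ∈ Om R Φ σ := by
    rintro σ μ ⟨v, hv, hv0, hvμ⟩
    refine ⟨w.mulVec v, ?_, hwne v hv0, hπ μ v hvμ⟩
    have hst := HS_stable M (σ := σ)
    rw [hw, Matrix.sub_mulVec, Matrix.sub_mulVec, Matrix.sub_mulVec, Matrix.add_mulVec,
      Matrix.one_mulVec, ← Matrix.mulVec_mulVec, ← Matrix.mulVec_mulVec]
    exact (HS R σ).sub_mem ((HS R σ).sub_mem ((HS R σ).sub_mem
      ((HS R σ).add_mem hv (hst z hz v hv)) (hst y hyg v hv))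
      (hst z hz _ (hst y hyg v hv))) (hst y hyg _ (hst z hz v hv))
  have hrefl : ∀ x ∈ tor Φ, ∀ d : ℂ → ℂ,
      (∀ μ v, (ratM Φ).mulVec v = μ • v → x.mulVec v = d μ • v) →
      ∀ s : ℂ, x * z - z * x = s • z → ∀ σ : E →+* ℂ, ∀ μ ∈ Om R Φ σ,
        d (π μ) = d μ - s * F μ := by
    rintro x hx d hd s hs σ μ ⟨v, hv, hv0, hvμ⟩
    rw [hαu x hx s hs]
    have h1 := hd _ _ (hπ μ v hvμ)
    rw [hxw x hx d hd μ v hvμ] at h1
    exact (smul_left_injective ℂ (hwne v hv0) h1).symm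
  have hneg : ∀ σ : E →+* ℂ, ∀ μ ∈ Om R Φ σ, F (π μ) = -F μ := by
    intro σ μ hμ
    have h1 : (z * y - y * z) * z - z * (z * y - y * z) = (2 : ℂ) • z := by
      have k1 : y * z * z = 0 := by rw [mul_assoc, hzz, mul_zero]
      have k2 : z * (z * y) = 0 := by rw [← mul_assoc, hzz, zero_mul]
      have k3 : z * (y * z) = z := by rw [← mul_assoc, hzyz]
      rw [sub_mul, mul_sub, hzyz, k1, k2, k3, two_smul]
      abel
    have h2 := hrefl _ hcor (fun μ => (F μ : ℂ)) hF 2 h1 σ μ hμ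
    have h3 : (F (π μ) : ℂ) = ((-F μ : ℚ) : ℂ) := by
      rw [Rat.cast_neg, h2]
      ring
    exact Rat.cast_injective h3
  refine ⟨y, F, π, ?_⟩
  exact
  { mz := hz
    my := hyg
    ne := hz0
    zz := hzz
    yy := hyy
    zyz := hzyz
    yzy := hyzy
    cor := hcor
    root := fun x hx => ⟨α x, hα x hx, hry x hx⟩
    val := hF
    v01 := by
      intro σ μ _
      change (if dh μ = 1 then (1 : ℚ) else if dh μ = -1 then -1 else 0) = -1 ∨
        (if dh μ = 1 then (1 : ℚ) else if dh μ = -1 then -1 else 0) = 0 ∨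
        (if dh μ = 1 then (1 : ℚ) else if dh μ = -1 then -1 else 0) = 1
      split_ifs
      · exact Or.inr (Or.inr rfl)
      · exact Or.inl rfl
      · exact Or.inr (Or.inl rfl)
    pm := hpm
    inv := by
      intro σ μ hμ
      by_contra hcon
      have h1 := hpm σ μ hμ
      have h2 := hpm σ (π μ) h1
      obtain ⟨x, hx, a, b, hab, ha, hb⟩ := sep H (hasEigenvalue_of_mem h2)
        (hasEigenvalue_of_mem hμ) hcon
      obtain ⟨d, hd⟩ := exists_scalar hx
      have h3 := hrefl x hx d hd (α x) (hα x hx) σ μ hμ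
      have h4 := hrefl x hx d hd (α x) (hα x hx) σ (π μ) h1
      rw [hneg σ μ hμ, h3, Rat.cast_neg] at h4
      obtain ⟨v, -, hv0, hv⟩ := hμ
      obtain ⟨v', -, hv0', hv'⟩ := h2
      have h5 := hb v hv
      have h6 := ha v' hv'
      rw [hd _ _ hv] at h5
      rw [hd _ _ hv'] at h6
      have h7 : d μ = b := smul_left_injective ℂ hv0 h5
      have h8 : d (π (π μ)) = a := smul_left_injective ℂ hv0' h6
      apply hab
      rw [← h7, ← h8, h4]
      ring
    neg := hneg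
    refl := hrefl
    shift := by
      intro μ v hv hzv
      have h1 := hF μ v hv
      have h2 : F μ = -1 := by
        have h3 : z.mulVec ((z * y - y * z).mulVec v) = -(z.mulVec v) := by
          rw [Matrix.mulVec_mulVec, mul_sub, ← mul_assoc, ← mul_assoc, hzz, zero_mul, hzyz,
            zero_sub, Matrix.neg_mulVec]
        rw [h1, Matrix.mulVec_smul, ← neg_one_smul ℂ (z.mulVec v)] at h3
        have h4 : (F μ : ℂ) = -1 := smul_left_injective ℂ hzv h3
        have h5 : (F μ : ℂ) = ((-1 : ℚ) : ℂ) := by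
          rw [h4]
          norm_num
        exact Rat.cast_injective h5
      refine ⟨h2, ?_⟩
      rw [h2, Rat.cast_neg, Rat.cast_one, neg_one_smul] at h1
      have h6 : y.mulVec v = 0 := by
        have h3 : y.mulVec ((z * y - y * z).mulVec v) = y.mulVec v := by
          rw [Matrix.mulVec_mulVec, mul_sub, ← mul_assoc, ← mul_assoc, hyy, zero_mul, hyzy,
            sub_zero]
        rw [h1, Matrix.mulVec_neg] at h3
        exact self_eq_neg.1 h3.symm
      have h7 : y.mulVec (z.mulVec v) = v := by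
        rw [Matrix.sub_mulVec, ← Matrix.mulVec_mulVec, h6, Matrix.mulVec_zero, zero_sub,
          neg_inj, ← Matrix.mulVec_mulVec] at h1
        exact h1
      have h8 : w.mulVec v = z.mulVec v := by
        rw [hw, Matrix.sub_mulVec, Matrix.sub_mulVec, Matrix.sub_mulVec, Matrix.add_mulVec,
          Matrix.one_mulVec, ← Matrix.mulVec_mulVec, ← Matrix.mulVec_mulVec, h6, h7,
          Matrix.mulVec_zero]
        abel
      rw [← h8]
      exact hπ μ v hv }

end Pool.Agent.FQU
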