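import Pool.Agent.FQU.Kinds

/-!
# The system of type A (PACKAGE FU10, Mathlib only)

Proof of `knd_sl` (`n = card Ω ≥ 2`). `span`: `f = ∑ a, f a • (δ_a - δ_o)` for a fixed `o` if `∑ f = 0`. `conn`: from `δ_a - δ_b` to
`δ_c - δ_d`: `(δ_a - δ_b) ⬝ (δ_a - δ_d) ≠ 0`, `(δ_a - δ_d) ⬝ (δ_c - δ_d) ≠ 0` if `d ≠ a`; if `d = a`: `(δ_a - δ_b) ⬝ (δ_c - δ_a) ≠ 0`
(it is `-1` or `-2`). `fin`: `∑ w = 0` and `w a - w b ∈ {0, 1, -1}`, so there is `t` with `w a ∈ {t, t + 1}` for all `a`. Let
`A = {a | w a = t + 1}`, `k = card A`: `n t + k = 0`, `w ⬝ w = (n - k) t² + k (t + 1)² = k (n - k) / n`. The vector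
`u = δ_a - 1 / n` is in the span and represents the evaluation at `a`, `u ⬝ u = (n - 1) / n`. So `k (n - k) = n - 1`,
`(k - 1) (n - 1 - k) = 0`. If `k = 1`, `A = {a}`: `w ⬝ x = x a` for all `x` with `∑ x = 0`. If `k = n - 1`, the complement of `A` is
`{a}` and `w ⬝ x = - x a`. -/

set_option autoImplicit false

namespace Pool.Agent.FQU

variable {Ω : Type*} [Fintype Ω] [DecidableEq Ω]

private theorem dot_sub_single (f : Ω → ℚ) (a b : Ω) :
    f ⬝ᵥ (Pi.single a 1 - Pi.single b 1 : Ω → ℚ) = f a - f b := by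
  rw [dotProduct_sub, dotProduct_single_one, dotProduct_single_one]

private theorem sum_sub_single (a b : Ω) :
    ∑ c, (Pi.single a 1 - Pi.single b 1 : Ω → ℚ) c = 0 := by
  simp [Finset.sum_sub_distrib]

private theorem sum_of_span {x : Ω → ℚ} (hx : x ∈ Submodule.span ℚ {h : Ω → ℚ | StSl h}) :
    ∑ a, x a = 0 := by
  induction hx using Submodule.span_induction with
  | mem x hx =>
    obtain ⟨a, b, -, rfl⟩ := hx
    exact sum_sub_single a b
  | zero => simp
  | add x y _ _ hx hy => simp only [Pi.add_apply, Finset.sum_add_distrib, hx, hy, add_zero]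
  | smul c x _ hx => simp only [Pi.smul_apply, smul_eq_mul, ← Finset.mul_sum, hx, mul_zero]

private theorem span_of_sum [Nonempty Ω] {f : Ω → ℚ} (hf : ∑ a, f a = 0) :
    f ∈ Submodule.span ℚ {h : Ω → ℚ | StSl h} := by
  let o : Ω := Classical.arbitrary Ω
  have h1 : f = ∑ a, f a • (Pi.single a 1 - Pi.single o 1 : Ω → ℚ) := by
    funext c
    rw [Finset.sum_apply]
    simp only [Pi.smul_apply, Pi.sub_apply, smul_eq_mul, mul_sub, Finset.sum_sub_distrib]
    rw [← Finset.sum_mul, hf, zero_mul, sub_zero]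
    simp [Pi.single_apply]
  rw [h1]
  refine Submodule.sum_mem _ fun a _ => Submodule.smul_mem _ _ ?_
  by_cases hao : a = o
  · rw [hao, sub_self]
    exact Submodule.zero_mem _
  · exact Submodule.subset_span ⟨a, o, hao, rfl⟩

private theorem conn_sl (P : (Ω → ℚ) → Prop) (h0 : ∃ h, StSl h ∧ P h)
    (hs : ∀ h k, StSl h → StSl k → P h → h ⬝ᵥ k ≠ 0 → P k) (h : Ω → ℚ) (hh : StSl h) : P h := by
  obtain ⟨_, ⟨a, b, hab, rfl⟩, hP⟩ := h0
  obtain ⟨c, d, hcd, rfl⟩ := hh
  by_cases hda : d = a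
  · refine hs _ _ ⟨a, b, hab, rfl⟩ ⟨c, d, hcd, rfl⟩ hP ?_
    rw [dot_sub_single]
    subst hda
    simp only [Pi.sub_apply, Pi.single_apply, if_neg hcd, if_true, if_neg hab]
    split_ifs <;> norm_num
  · have hda' : a ≠ d := fun e => hda e.symm
    have h1 : P (Pi.single a 1 - Pi.single d 1 : Ω → ℚ) := by
      refine hs _ _ ⟨a, b, hab, rfl⟩ ⟨a, d, hda', rfl⟩ hP ?_
      rw [dot_sub_single]
      simp only [Pi.sub_apply, Pi.single_apply, if_true, if_neg hab, if_neg hda]
      split_ifs <;> norm_num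
    refine hs _ _ ⟨a, d, hda', rfl⟩ ⟨c, d, hcd, rfl⟩ h1 ?_
    rw [dot_sub_single]
    simp only [Pi.sub_apply, Pi.single_apply, if_neg hcd, if_true, if_neg hda]
    split_ifs <;> norm_num

private theorem fin_sl (hn : 2 ≤ Fintype.card Ω) (w : Ω → ℚ) (hw0 : ∑ a, w a = 0)
    (hw : ∀ h, StSl h → w ⬝ᵥ h = -1 ∨ w ⬝ᵥ h = 0 ∨ w ⬝ᵥ h = 1)
    (hnorm : w ⬝ᵥ w = 1 - 1 / (Fintype.card Ω : ℚ)) :
    ∃ a : Ω, (∀ x : Ω → ℚ, ∑ b, x b = 0 → w ⬝ᵥ x = x a) ∨
      ∀ x : Ω → ℚ, ∑ b, x b = 0 → w ⬝ᵥ x = -x a := by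
  have : Nonempty Ω := Fintype.card_pos_iff.1 (by omega)
  obtain ⟨o, ho⟩ := Finite.exists_min w
  obtain ⟨t, ht⟩ : ∃ t, t = w o := ⟨_, rfl⟩
  have hd : ∀ a, w a = t ∨ w a = t + 1 := by
    intro a
    by_cases hao : a = o
    · left
      rw [hao, ht]
    · have h1 := hw _ ⟨a, o, hao, rfl⟩
      rw [dot_sub_single, ← ht] at h1
      have h2 := ho a
      rw [← ht] at h2
      rcases h1 with h1 | h1 | h1
      · linarith
      · left
        linarith
      · right
        linarith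
  set A : Finset Ω := Finset.univ.filter fun a => w a = t + 1 with hA
  have hval : ∀ a, w a = t + if a ∈ A then 1 else 0 := by
    intro a
    rcases hd a with h | h
    · have : a ∉ A := by
        rw [hA, Finset.mem_filter]
        rintro ⟨-, h'⟩
        linarith
      rw [if_neg this, h, add_zero]
    · have : a ∈ A := by
        rw [hA, Finset.mem_filter]
        exact ⟨Finset.mem_univ _, h⟩
      rw [if_pos this, h]
  have hdot : ∀ x : Ω → ℚ, w ⬝ᵥ x = t * ∑ b, x b + ∑ b ∈ A, x b := by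
    intro x
    have h1 : ∀ b, w b * x b = t * x b + if b ∈ A then x b else 0 := by
      intro b
      rw [hval b]
      split_ifs <;> ring
    rw [dotProduct, Finset.sum_congr rfl fun b _ => h1 b, Finset.sum_add_distrib,
      ← Finset.mul_sum, Finset.sum_ite_mem, Finset.univ_inter]
  set n : ℚ := (Fintype.card Ω : ℚ) with hnq
  have hn2 : (2 : ℚ) ≤ n := by
    rw [hnq]
    exact_mod_cast hn
  have hsumw : n * t + (A.card : ℚ) = 0 := by
    have h1 := hw0
    rw [Finset.sum_congr rfl fun b _ => hval b, Finset.sum_add_distrib, Finset.sum_const,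
      Finset.sum_ite_mem, Finset.univ_inter, Finset.sum_const, nsmul_eq_mul, nsmul_eq_mul,
      mul_one, Finset.card_univ] at h1
    exact h1
  have hww : w ⬝ᵥ w = (A.card : ℚ) * (t + 1) := by
    rw [hdot w, hw0, mul_zero, zero_add]
    have h1 : ∀ b ∈ A, w b = t + 1 := by
      intro b hb
      rw [hA, Finset.mem_filter] at hb
      exact hb.2
    rw [Finset.sum_congr rfl h1, Finset.sum_const, nsmul_eq_mul]
  have hn0 : n ≠ 0 := by linarith
  have hprod : ((A.card : ℚ) - 1) * (n - 1 - (A.card : ℚ)) = 0 := by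
    rw [hww] at hnorm
    have h1 : n * ((A.card : ℚ) * (t + 1)) = n - 1 := by
      rw [hnorm]
      field_simp
    have h2 : n * t = -(A.card : ℚ) := by linarith
    have h3 : n * ((A.card : ℚ) * (t + 1)) = (A.card : ℚ) * (n * t) + n * (A.card : ℚ) := by
      ring
    rw [h3, h2] at h1
    linarith
  rcases mul_eq_zero.1 hprod with h | h
  · have hk : A.card = 1 := by
      have : (A.card : ℚ) = 1 := by linarith
      exact_mod_cast this
    obtain ⟨a, ha⟩ := Finset.card_eq_one.1 hk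
    refine ⟨a, Or.inl fun x hx => ?_⟩
    rw [hdot x, hx, mul_zero, zero_add, ha, Finset.sum_singleton]
  · have hk : Aᶜ.card = 1 := by
      have h1 : (A.card : ℚ) + 1 = n := by linarith
      have h2 : A.card + 1 = Fintype.card Ω := by
        rw [hnq] at h1
        exact_mod_cast h1
      rw [Finset.card_compl]
      omega
    obtain ⟨a, ha⟩ := Finset.card_eq_one.1 hk
    refine ⟨a, Or.inr fun x hx => ?_⟩
    have h3 := Finset.sum_add_sum_compl A x
    rw [hx, ha, Finset.sum_singleton] at h3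
    rw [hdot x, hx, mul_zero, zero_add]
    linarith

theorem knd_sl (hn : 2 ≤ Fintype.card Ω) : Knd (fun f : Ω → ℚ => ∑ a, f a = 0) StSl where
  ad := by
    rintro h ⟨a, b, -, rfl⟩
    exact sum_sub_single a b
  span := by
    intro f hf
    have : Nonempty Ω := Fintype.card_pos_iff.1 (by omega)
    exact span_of_sum hf
  conn := conn_sl
  fin := by
    intro w hw hst hrep
    have : Nonempty Ω := Fintype.card_pos_iff.1 (by omega)
    have hn2 : (2 : ℚ) ≤ (Fintype.card Ω : ℚ) := by exact_mod_cast hn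
    have hn0 : (Fintype.card Ω : ℚ) ≠ 0 := by linarith
    let o : Ω := Classical.arbitrary Ω
    let u : Ω → ℚ := Pi.single o 1 - fun _ => 1 / (Fintype.card Ω : ℚ)
    have hu0 : ∑ a, u a = 0 := by
      simp only [u, Pi.sub_apply, Finset.sum_sub_distrib, Finset.sum_const, Finset.card_univ,
        nsmul_eq_mul, Finset.sum_pi_single', Finset.mem_univ, if_true]
      field_simp
      ring
    have husp := span_of_sum hu0
    have hud : ∀ s : Ω → ℚ, ∑ b, s b = 0 → s o = u ⬝ᵥ s := by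
      intro s hs
      have h1 : (fun _ : Ω => 1 / (Fintype.card Ω : ℚ)) ⬝ᵥ s = 0 := by
        rw [dotProduct, ← Finset.mul_sum, hs, mul_zero]
      rw [sub_dotProduct, h1, sub_zero, single_one_dotProduct]
    have h2 := hrep o u husp fun s hs => hud s (sum_of_span hs)
    rw [← hud u hu0] at h2
    have h3 : u o = 1 - 1 / (Fintype.card Ω : ℚ) := by
      simp [u]
    rw [h3] at h2
    obtain ⟨a, ha⟩ := fin_sl hn w (sum_of_span hw) hst h2
    refine ⟨a, ?_⟩
    rcases ha with ha | ha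
    · exact Or.inl fun x hx => ha x (sum_of_span hx)
    · exact Or.inr fun x hx => ha x (sum_of_span hx)

end Pool.Agent.FQU
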