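import Pool.Agent.FQU.Kinds

/-! # The system of type C (PACKAGE FU11, Mathlib only)

Proof of `knd_sp` (`n ≥ 2`; `n ≥ 2` holds if `Ω` is not empty). `span`:
`f = (1/2) ∑ a, f a • (δ_a - δ_(bar a))` if `f (bar a) = - f a`. `conn`: `δ_a - δ_(bar a)` is not
orthogonal to `δ_a + δ_b - δ_(bar a) - δ_(bar b)` (scalar product `2`), which is not orthogonal to
`δ_b - δ_(bar b)`; and `(δ_a - δ_(bar a)) ⬝ (δ_(bar a) - δ_a) = -2`. `fin`: `w (bar a) = - w a`, so
`w ⬝ (δ_a - δ_(bar a)) = 2 w a ∈ {0, 1, -1}`; `u = (δ_a - δ_(bar a)) / 2` represents the evaluation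
at `a`, `u ⬝ u = 1 / 2`. So `∑ a, (2 w a)² = 2`: exactly for `a, bar a` the value `w a` is not zero,
`w = ± (δ_a - δ_(bar a)) / 2`. -/

set_option autoImplicit false

namespace Pool.Agent.FQU

variable {Ω : Type*} [Fintype Ω] [DecidableEq Ω]

private theorem dot_dd (bar : Ω → Ω) (f : Ω → ℚ) (a : Ω) :
    f ⬝ᵥ (Pi.single a 1 - Pi.single (bar a) 1) = f a - f (bar a) := by
  rw [dotProduct_sub, dotProduct_single, dotProduct_single, mul_one, mul_one]

private theorem dot_hh (bar : Ω → Ω) (f : Ω → ℚ) (a b : Ω) :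
    f ⬝ᵥ (Pi.single a 1 + Pi.single b 1 - Pi.single (bar a) 1 - Pi.single (bar b) 1) =
      f a + f b - f (bar a) - f (bar b) := by
  rw [dotProduct_sub, dotProduct_sub, dotProduct_add, dotProduct_single, dotProduct_single,
    dotProduct_single, dotProduct_single, mul_one, mul_one, mul_one, mul_one]

omit [Fintype Ω] in
private theorem sp_ad {bar : Ω → Ω} (hbar : ∀ a, bar (bar a) = a) {h : Ω → ℚ}
    (hh : StSp bar h) (x : Ω) : h (bar x) = -h x := by
  have e1 : ∀ y : Ω, (bar x = y) ↔ (x = bar y) := fun y =>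
    ⟨fun h => by rw [← h, hbar], fun h => by rw [h, hbar]⟩
  rcases hh with ⟨a, rfl⟩ | ⟨a, b, -, -, rfl⟩
  · simp only [Pi.sub_apply, Pi.single_apply, e1, hbar]
    ring
  · simp only [Pi.sub_apply, Pi.add_apply, Pi.single_apply, e1, hbar]
    ring

omit [Fintype Ω] in
private theorem sp_ad_span {bar : Ω → Ω} (hbar : ∀ a, bar (bar a) = a) {f : Ω → ℚ}
    (hf : f ∈ Submodule.span ℚ {h | StSp bar h}) (x : Ω) : f (bar x) = -f x := by
  induction hf using Submodule.span_induction with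
  | mem f hf => exact sp_ad hbar hf x
  | zero => simp
  | add f g _ _ hf hg => rw [Pi.add_apply, Pi.add_apply, hf, hg]; ring
  | smul c f _ hf => rw [Pi.smul_apply, Pi.smul_apply, hf, smul_neg]

private theorem sp_span {bar : Ω → Ω} (hbar : ∀ a, bar (bar a) = a) {f : Ω → ℚ}
    (hf : ∀ a, f (bar a) = -f a) : f ∈ Submodule.span ℚ {h | StSp bar h} := by
  have h1 : f = ∑ a, (1 / 2 * f a) • ((Pi.single a 1 - Pi.single (bar a) 1 : Ω → ℚ)) := by
    funext x
    have e1 : ∀ y : Ω, (x = bar y) ↔ (bar x = y) := fun y =>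
      ⟨fun h => by rw [h, hbar], fun h => by rw [← h, hbar]⟩
    rw [Finset.sum_apply]
    simp only [Pi.smul_apply, Pi.sub_apply, Pi.single_apply, smul_eq_mul, mul_sub, mul_ite,
      mul_one, mul_zero, e1, Finset.sum_sub_distrib, Finset.sum_ite_eq, Finset.mem_univ, if_true,
      hf]
    ring
  rw [h1]
  exact Submodule.sum_mem _ fun a _ => Submodule.smul_mem _ _ (Submodule.subset_span
    (Or.inl ⟨a, rfl⟩))

private theorem sp_conn {bar : Ω → Ω} (hbar : ∀ a, bar (bar a) = a) (hfix : ∀ a, bar a ≠ a)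
    (P : (Ω → ℚ) → Prop) (h0 : ∃ h, StSp bar h ∧ P h)
    (hP : ∀ h k, StSp bar h → StSp bar k → P h → h ⬝ᵥ k ≠ 0 → P k) :
    ∀ h, StSp bar h → P h := by
  have hfix' : ∀ a, a ≠ bar a := fun a h => hfix a h.symm
  have d1 : ∀ a, StSp bar (Pi.single a 1 - Pi.single (bar a) 1) := fun a => Or.inl ⟨a, rfl⟩
  have d2 : ∀ a b, b ≠ a → b ≠ bar a → StSp bar
      (Pi.single a 1 + Pi.single b 1 - Pi.single (bar a) 1 - Pi.single (bar b) 1) :=
    fun a b h1 h2 => Or.inr ⟨a, b, h1, h2, rfl⟩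
  -- from two entries to four entries
  have s1 : ∀ a b, b ≠ a → b ≠ bar a → P (Pi.single a 1 - Pi.single (bar a) 1) →
      P (Pi.single a 1 + Pi.single b 1 - Pi.single (bar a) 1 - Pi.single (bar b) 1) := by
    intro a b h1 h2 h3
    apply hP _ _ (d1 a) (d2 a b h1 h2) h3
    have h4 : bar b ≠ a := fun h => h2 (by rw [← h, hbar])
    have h5 : bar b ≠ bar a := fun h => h1 (by rw [← hbar b, h, hbar])
    rw [dot_hh]
    simp [h1, h2, h4, h5, hfix, hfix']
  -- from four entries to two entries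
  have s2 : ∀ a b, b ≠ a → b ≠ bar a →
      P (Pi.single a 1 + Pi.single b 1 - Pi.single (bar a) 1 - Pi.single (bar b) 1) →
      P (Pi.single a 1 - Pi.single (bar a) 1) ∧ P (Pi.single b 1 - Pi.single (bar b) 1) := by
    intro a b h1 h2 h3
    have h4 : bar b ≠ a := fun h => h2 (by rw [← h, hbar])
    have h5 : bar b ≠ bar a := fun h => h1 (by rw [← hbar b, h, hbar])
    constructor
    · apply hP _ _ (d2 a b h1 h2) (d1 a) h3
      rw [dot_dd]
      simp [h1.symm, h2.symm, h4.symm, h5.symm, hfix, hfix']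
    · apply hP _ _ (d2 a b h1 h2) (d1 b) h3
      rw [dot_dd]
      simp [h1, h2, h4, h5, hfix, hfix']
  obtain ⟨a, ha⟩ : ∃ a, P (Pi.single a 1 - Pi.single (bar a) 1) := by
    obtain ⟨h, h1, h2⟩ := h0
    rcases h1 with ⟨a, rfl⟩ | ⟨a, b, h3, h4, rfl⟩
    · exact ⟨a, h2⟩
    · exact ⟨a, (s2 a b h3 h4 h2).1⟩
  have hall : ∀ b, P (Pi.single b 1 - Pi.single (bar b) 1) := by
    intro b
    by_cases h1 : b = a
    · rwa [h1]
    by_cases h2 : b = bar a
    · rw [h2]
      apply hP _ _ (d1 a) (d1 (bar a)) ha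
      rw [dot_dd]
      simp [hbar, hfix, hfix']
      norm_num
    exact (s2 a b h1 h2 (s1 a b h1 h2 ha)).2
  intro h hh
  rcases hh with ⟨b, rfl⟩ | ⟨b, c, h1, h2, rfl⟩
  · exact hall b
  · exact s1 b c h1 h2 (hall b)

private theorem sp_fin {bar : Ω → Ω} (hfix : ∀ a, bar a ≠ a) {w : Ω → ℚ}
    (hw : ∀ a, w (bar a) = -w a)
    (hw1 : ∀ a, w a - w (bar a) = -1 ∨ w a - w (bar a) = 0 ∨ w a - w (bar a) = 1)
    (hw2 : w ⬝ᵥ w = 1 / 2) :
    ∃ a, (w a = 1 / 2 ∨ w a = -1 / 2) ∧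
      w = w a • (Pi.single a 1 - Pi.single (bar a) 1 : Ω → ℚ) := by
  have hval : ∀ a, w a = -1 / 2 ∨ w a = 0 ∨ w a = 1 / 2 := by
    intro a
    rcases hw1 a with h | h | h
    · left; rw [hw] at h; linarith
    · right; left; rw [hw] at h; linarith
    · right; right; rw [hw] at h; linarith
  have hex : ∃ a, w a ≠ 0 := by
    by_contra hcon
    push Not at hcon
    have : w = 0 := funext hcon
    rw [this, dotProduct_zero] at hw2
    norm_num at hw2
  obtain ⟨a, ha⟩ := hex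
  have hsq : w a * w a = 1 / 4 := by
    rcases hval a with h | h | h
    · rw [h]; norm_num
    · exact absurd h ha
    · rw [h]; norm_num
  have hne : bar a ∈ Finset.univ.erase a := by
    rw [Finset.mem_erase]
    exact ⟨hfix a, Finset.mem_univ _⟩
  have hsum : ∑ x ∈ (Finset.univ.erase a).erase (bar a), w x * w x = 0 := by
    have h1 : w ⬝ᵥ w = ∑ x, w x * w x := rfl
    rw [h1, ← Finset.add_sum_erase _ _ (Finset.mem_univ a), ← Finset.add_sum_erase _ _ hne,
      hw a, neg_mul_neg, hsq] at hw2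
    linarith
  have hz : ∀ x, x ≠ a → x ≠ bar a → w x = 0 := by
    intro x h1 h2
    have h3 := (Finset.sum_eq_zero_iff_of_nonneg (fun x _ => mul_self_nonneg (w x))).1 hsum x
      (by simp [h1, h2])
    exact mul_self_eq_zero.1 h3
  refine ⟨a, ?_, ?_⟩
  · rcases hval a with h | h | h
    · right; exact h
    · exact absurd h ha
    · left; exact h
  · funext x
    by_cases h1 : x = a
    · subst h1
      simp [(hfix x).symm]
    by_cases h2 : x = bar a
    · subst h2
      rw [hw]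
      simp [hfix a]
    rw [hz x h1 h2]
    simp [h1, h2]

theorem knd_sp (bar : Ω → Ω) (hbar : ∀ a, bar (bar a) = a) (hfix : ∀ a, bar a ≠ a)
    (hn : 2 ≤ Fintype.card Ω) :
    Knd (fun f : Ω → ℚ => ∀ a, f (bar a) = -f a) (StSp bar) := by
  refine ⟨fun h hh => sp_ad hbar hh, fun f hf => sp_span hbar hf,
    fun P h0 hP => sp_conn hbar hfix P h0 hP, ?_⟩
  intro w hw h1 h2
  have hw0 := sp_ad_span hbar hw
  have hne : Nonempty Ω := Fintype.card_pos_iff.1 (by omega)
  have hd : ∀ a, (Pi.single a 1 - Pi.single (bar a) 1 : Ω → ℚ) ∈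
      Submodule.span ℚ {h | StSp bar h} := fun a => Submodule.subset_span (Or.inl ⟨a, rfl⟩)
  have hww : w ⬝ᵥ w = 1 / 2 := by
    obtain ⟨a⟩ := hne
    rw [h2 a ((1 / 2 : ℚ) • (Pi.single a 1 - Pi.single (bar a) 1))
      (Submodule.smul_mem _ _ (hd a)) (fun s hs => by
        rw [smul_dotProduct, dotProduct_comm, dot_dd, sp_ad_span hbar hs, smul_eq_mul]
        ring)]
    rw [smul_dotProduct, dotProduct_smul, dot_dd]
    simp [hfix a, (hfix a).symm]
    norm_num
  obtain ⟨a, ha, hwa⟩ := sp_fin hfix hw0 (fun a => by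
    have h3 := h1 _ (Or.inl ⟨a, rfl⟩)
    rwa [dot_dd] at h3) hww
  have key : ∀ x ∈ Submodule.span ℚ {h | StSp bar h}, w ⬝ᵥ x = w a * (2 * x a) := by
    intro x hx
    rw [hwa, smul_dotProduct, dotProduct_comm, dot_dd, sp_ad_span hbar hx, smul_eq_mul, ← hwa]
    ring
  refine ⟨a, ?_⟩
  rcases ha with ha | ha
  · left
    intro x hx
    rw [key x hx, ha]
    ring
  · right
    intro x hx
    rw [key x hx, ha]
    ring

end Pool.Agent.FQU
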