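import Pool.Agent.FQU.StdA

/-!
# The standard coroots, orthogonal and symplectic case (PACKAGE FU21)

Notation and lemmas (`tor_conj`, `form_val`): `StdA.lean`.

`std_so`: `σ` real, `φ` the form, `hsa` its symmetry or antisymmetry, `b ≠ a, bar a`. By `form_val` `φ (v (bar b)) (v b) ≠ 0`. Let
`s = - φ (v a) (v (bar a)) / φ (v (bar b)) (v b)` and `D : v (bar b) ↦ v a`, `v (bar a) ↦ s • v b`, `v μ ↦ 0` for the other `μ`. `trace D = 0`. `D` is skew for
`φ`: check on basis vectors with `form_val`: the only cases are `(v (bar b), v (bar a))`: `φ (v a) (v (bar a)) + s φ (v (bar b)) (v b) = 0`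
and `(v (bar a), v (bar b))`, which follows by (anti)symmetry. By `IsForm.unique` `D` is skew for all forms, so `D ∈ res p g`.
`x D - D x = β x • D` with `β x = x_a - x_(bar b) = x_b - x_(bar a)` (`x_a + x_(bar a) = x_b + x_(bar b)` by `tor_conj`), not zero for some `x`
(`sep`). `h₀ = δ_a + δ_b - δ_(bar a) - δ_(bar b)`, `T` diagonal with these values: trace zero and skew (`form_val`, `h₀ (bar μ) = - h₀ μ`).
`trace (x T) = x_a + x_b - x_(bar a) - x_(bar b) = 2 β x` and `finrank (range D) = 2`.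

`std_sp`: `φ` alternating. `D : v (bar a) ↦ v a`, others `0`; skew: only `(v (bar a), v (bar a))` matters:
`φ (v a) (v (bar a)) + φ (v (bar a)) (v a) = 0`. `β x = x_a - x_(bar a)`, `h₀ = δ_a - δ_(bar a)`, rank one. -/

set_option autoImplicit false
set_option linter.unusedSectionVars false

namespace Pool.Agent.FQU

open Module
open Pool.Agent.CoprimeSig (ratM)

variable {ι : Type} [Fintype ι] [DecidableEq ι] {E : Type} [CommRing E]
  {R : E →+* Matrix ι ι ℚ} {Φ : Matrix ι ι ℚ} {σ : E →+* ℂ} {c : E → E}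
  {g : Submodule ℂ (Matrix ι ι ℂ)} {ψ : Matrix ι ι ℂ} {W : Submodule ℂ (ι → ℂ)}
  {p : (ι → ℂ) →ₗ[ℂ] W} {v : Basis (Om R Φ σ) ℂ W}

/-- The value on the basis. -/
private noncomputable def ss_c (v : Basis (Om R Φ σ) ℂ W) (x : End ℂ W) (μ : Om R Φ σ) : ℂ :=
  v.repr (x (v μ)) μ

private theorem ss_of {x : End ℂ W} {μ : Om R Φ σ} {r : ℂ} (h : x (v μ) = r • v μ) :
    ss_c v x μ = r := by
  rw [ss_c, h, map_smul, Basis.repr_self, Finsupp.smul_apply, Finsupp.single_eq_same,
    smul_eq_mul, mul_one]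

private theorem ss_val (M : Mono R c Φ g ψ) (F : Frame R Φ g σ W p v) {x : End ℂ W}
    (hx : x ∈ res p (tor Φ)) (μ : Om R Φ σ) : x (v μ) = ss_c v x μ • v μ := by
  obtain ⟨a, ha⟩ := F.hv M x hx μ
  rw [ss_of ha, ha]

private theorem ss_sep (M : Mono R c Φ g ψ) (H : IsFrob R Φ) (F : Frame R Φ g σ W p v)
    {a b : Om R Φ σ} (hab : a ≠ b) : ∃ x ∈ res p (tor Φ), ss_c v x a - ss_c v x b ≠ 0 := by
  obtain ⟨x, hx, r, s, hrs, h1, h2⟩ := sep H (hasEigenvalue_of_mem a.2)
    (hasEigenvalue_of_mem b.2) (fun h => hab (Subtype.ext h))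
  refine ⟨rm p x, rm_mem hx, ?_⟩
  have hst : ∀ w ∈ W, x.mulVec w ∈ W := F.irr.1 x (M.le hx)
  have h3 : rm p x (v a) = r • v a :=
    Subtype.ext (by rw [rm_apply F.prj hst, h1 _ (F.bas a)]; rfl)
  have h4 : rm p x (v b) = s • v b :=
    Subtype.ext (by rw [rm_apply F.prj hst, h2 _ (F.bas b)]; rfl)
  rw [ss_of h3, ss_of h4]
  exact sub_ne_zero.2 hrs

private theorem ss_conj (M : Mono R c Φ g ψ) (H : IsFrob R Φ) (hB : Bal R Φ)
    (F : Frame R Φ g σ W p v) {bar : Om R Φ σ → Om R Φ σ}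
    (hbar : ∀ μ, ((bar μ : Om R Φ σ) : ℂ) = starRingEnd ℂ μ) {x : End ℂ W}
    (hx : x ∈ res p (tor Φ)) (a b : Om R Φ σ) :
    ss_c v x a + ss_c v x (bar a) = ss_c v x b + ss_c v x (bar b) := by
  obtain ⟨y, hy, rfl⟩ := mem_res.1 hx
  have hst : ∀ w ∈ W, y.mulVec w ∈ W := F.irr.1 y (M.le hy)
  have hv : ∀ μ, y.mulVec (v μ : ι → ℂ) = ss_c v (rm p y) μ • (v μ : ι → ℂ) := fun μ => by
    rw [← rm_apply F.prj hst, ss_val M F hx μ]
    rfl
  have h0 : ∀ μ, (v μ : ι → ℂ) ≠ 0 := fun μ h => v.ne_zero μ (Subtype.ext h)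
  have h1 : ∀ μ, (ss_c v (rm p y) μ + ss_c v (rm p y) (bar μ)) * Fintype.card ι =
      2 * y.trace := fun μ => by
    have h2 := F.bas (bar μ)
    rw [hbar] at h2
    exact tor_conj H hB hy (h0 μ) (F.bas μ) (hv μ) (h0 (bar μ)) h2 (hv (bar μ))
  have hne : Nonempty ι := by
    by_contra h
    rw [not_nonempty_iff] at h
    exact h0 a (Subsingleton.elim _ _)
  have h2 : (Fintype.card ι : ℂ) ≠ 0 := by
    rw [Nat.cast_ne_zero]
    exact Fintype.card_ne_zero
  exact mul_right_cancel₀ h2 ((h1 a).trans (h1 b).symm)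

private theorem ss_mem (M : Mono R c Φ g ψ) (F : Frame R Φ g σ W p v) (hfull : FullW g ψ p)
    {φ : W →ₗ[ℂ] W →ₗ[ℂ] ℂ} (hφ : IsForm g ψ p φ) {D : End ℂ W}
    (htr : LinearMap.trace ℂ W D = 0)
    (hs : ∀ i j, φ (D (v i)) (v j) + φ (v i) (D (v j)) = 0) : D ∈ res p g := by
  refine hfull D htr fun φ' hφ' u w => ?_
  obtain ⟨t, rfl⟩ := IsForm.unique M F.irr F.prj hφ hφ'.mult
  have h1 : φ.comp D + φ.compl₂ D = 0 := v.ext fun i => v.ext fun j => by
    simpa using hs i j
  have h2 := LinearMap.congr_fun₂ h1 u w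
  simp only [LinearMap.add_apply, LinearMap.comp_apply, LinearMap.compl₂_apply,
    LinearMap.zero_apply] at h2
  simp only [LinearMap.smul_apply, smul_eq_mul]
  linear_combination t * h2

private theorem ss_T (M : Mono R c Φ g ψ) (H : IsFrob R Φ) (hB : Bal R Φ)
    (F : Frame R Φ g σ W p v) (hfull : FullW g ψ p) {φ : W →ₗ[ℂ] W →ₗ[ℂ] ℂ}
    (hφ : IsForm g ψ p φ) {bar : Om R Φ σ → Om R Φ σ}
    (hbar : ∀ μ, ((bar μ : Om R Φ σ) : ℂ) = starRingEnd ℂ μ) {h : Om R Φ σ → ℚ}
    (hsum : ∑ μ, h μ = 0) (hneg : ∀ μ, h (bar μ) = -h μ) :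
    ∃ T ∈ res p g, ∀ μ, T (v μ) = (h μ : ℂ) • v μ := by
  let T : End ℂ W := v.constr ℂ fun μ => (h μ : ℂ) • v μ
  have hT : ∀ μ, T (v μ) = (h μ : ℂ) • v μ := fun μ => v.constr_basis ℂ _ μ
  refine ⟨T, ss_mem M F hfull hφ ?_ fun i j => ?_, hT⟩
  · rw [FQA.trace_dg v hT, hsum, Rat.cast_zero]
  · rw [hT, hT, map_smul, map_smul, LinearMap.smul_apply, smul_eq_mul, smul_eq_mul]
    by_cases hj : j = bar i
    · rw [hj, hneg]
      push_cast
      ring
    · have h1 : φ (v i) (v j) = 0 := by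
        by_contra h2
        exact hj ((form_val M H hB F hφ hbar i j).1 h2)
      rw [h1, mul_zero, mul_zero, add_zero]

private theorem ss_trace (M : Mono R c Φ g ψ) (F : Frame R Φ g σ W p v) {x T : End ℂ W}
    (hx : x ∈ res p (tor Φ)) {h : Om R Φ σ → ℚ} (hT : ∀ μ, T (v μ) = (h μ : ℂ) • v μ) :
    LinearMap.trace ℂ W (x * T) = ∑ μ, ss_c v x μ * (h μ : ℂ) := by
  classical
  rw [LinearMap.trace_eq_matrix_trace ℂ v, Matrix.trace]
  refine Finset.sum_congr rfl fun i _ => ?_
  rw [Matrix.diag_apply, LinearMap.toMatrix_apply, Module.End.mul_apply, hT, map_smul,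
    ss_val M F hx, map_smul, map_smul, Basis.repr_self, Finsupp.smul_apply, Finsupp.smul_apply,
    Finsupp.single_eq_same, smul_eq_mul, smul_eq_mul, mul_one, mul_comm]

private theorem ss_single [DecidableEq (Om R Φ σ)] (f : Om R Φ σ → ℂ) (a : Om R Φ σ) :
    ∑ μ, f μ * (((Pi.single a 1 : Om R Φ σ → ℚ) μ : ℚ) : ℂ) = f a := by
  rw [Finset.sum_eq_single a]
  · rw [Pi.single_eq_same, Rat.cast_one, mul_one]
  · intro b _ hb
    rw [Pi.single_eq_of_ne hb, Rat.cast_zero, mul_zero]
  · intro h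
    exact absurd (Finset.mem_univ a) h

private theorem ss_bar [DecidableEq (Om R Φ σ)] {bar : Om R Φ σ → Om R Φ σ}
    (hinv : ∀ μ, bar (bar μ) = μ) (a μ : Om R Φ σ) :
    (Pi.single a 1 : Om R Φ σ → ℚ) (bar μ) = (Pi.single (bar a) 1 : Om R Φ σ → ℚ) μ := by
  by_cases h : μ = bar a
  · rw [h, hinv, Pi.single_eq_same, Pi.single_eq_same]
  · rw [Pi.single_eq_of_ne h, Pi.single_eq_of_ne]
    intro h1
    apply h
    rw [← h1, hinv]

private theorem ss_coord [DecidableEq (Om R Φ σ)] (v : Basis (Om R Φ σ) ℂ W)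
    (a b : Om R Φ σ) : v.coord a (v b) = if b = a then 1 else 0 := by
  rw [Basis.coord_apply, Basis.repr_self, Finsupp.single_apply]

theorem std_so (M : Mono R c Φ g ψ) (H : IsFrob R Φ) (hB : Bal R Φ)
    (F : Frame R Φ g σ W p v) (hfull : FullW g ψ p) {φ : W →ₗ[ℂ] W →ₗ[ℂ] ℂ}
    (hφ : IsForm g ψ p φ) (hsa : (∀ x, φ x x = 0) ∨ ∀ x y, φ x y = φ y x)
    {bar : Om R Φ σ → Om R Φ σ} (hbar : ∀ μ, ((bar μ : Om R Φ σ) : ℂ) = starRingEnd ℂ μ)
    (hinv : ∀ μ, bar (bar μ) = μ) (hfix : ∀ μ, bar μ ≠ μ) [DecidableEq (Om R Φ σ)]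
    {a b : Om R Φ σ} (hab : b ≠ a) (hab' : b ≠ bar a) :
    ∃ (z y : Matrix ι ι ℂ) (G : ℂ → ℚ) (π : ℂ → ℂ), Jrt R Φ g z y G π ∧
      rs R Φ σ G = Pi.single a 1 + Pi.single b 1 - Pi.single (bar a) 1 - Pi.single (bar b) 1 := by
  classical
  have hfv := form_val M H hB F hφ hbar
  obtain ⟨ε, hε⟩ : ∃ ε : ℂ, ∀ x y, φ x y = ε * φ y x := by
    rcases hsa with h | h
    · refine ⟨-1, fun x y => ?_⟩
      have h1 := h (x + y)
      simp only [map_add, LinearMap.add_apply, h] at h1
      linear_combination h1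
    · exact ⟨1, fun x y => by rw [one_mul, h]⟩
  have hbb : bar a ≠ bar b := fun h => hab (by rw [← hinv b, ← h, hinv])
  have hab2 : a ≠ bar b := fun h => hab' (by rw [h, hinv])
  have hz : ∀ i j, j ≠ bar i → φ (v i) (v j) = 0 := fun i j hj => by
    by_contra h
    exact hj ((hfv i j).1 h)
  have h1 : φ (v a) (v (bar a)) ≠ 0 := (hfv a (bar a)).2 rfl
  have h2 : φ (v (bar b)) (v b) ≠ 0 := (hfv (bar b) b).2 (hinv b).symm
  obtain ⟨s, hs0, hs⟩ : ∃ s : ℂ, s ≠ 0 ∧
      φ (v a) (v (bar a)) + s * φ (v (bar b)) (v b) = 0 := by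
    refine ⟨-(φ (v a) (v (bar a)) / φ (v (bar b)) (v b)), neg_ne_zero.2 (div_ne_zero h1 h2), ?_⟩
    field_simp
    ring
  let D : End ℂ W := (v.coord (bar b)).smulRight (v a) + s • (v.coord (bar a)).smulRight (v b)
  have hD : ∀ w, D w = v.coord (bar b) w • v a + s • v.coord (bar a) w • v b := fun w => rfl
  have hD1 : D (v (bar b)) = v a := by
    rw [hD, ss_coord, ss_coord, if_pos rfl, if_neg (Ne.symm hbb), one_smul, zero_smul,
      smul_zero, add_zero]
  have hD2 : D (v (bar a)) = s • v b := by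
    rw [hD, ss_coord, ss_coord, if_pos rfl, if_neg hbb, one_smul, zero_smul, zero_add]
  have hD3 : ∀ i, i ≠ bar b → i ≠ bar a → D (v i) = 0 := fun i hi hi' => by
    rw [hD, ss_coord, ss_coord, if_neg hi, if_neg hi', zero_smul, zero_smul, smul_zero,
      add_zero]
  have htr : LinearMap.trace ℂ W D = 0 := by
    have h3 : LinearMap.trace ℂ W D = v.coord (bar b) (v a) + s * v.coord (bar a) (v b) := by
      rw [show D = (v.coord (bar b)).smulRight (v a) + s • (v.coord (bar a)).smulRight (v b)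
        from rfl, map_add, map_smul, LinearMap.trace_smulRight, LinearMap.trace_smulRight,
        smul_eq_mul]
    rw [h3, ss_coord, ss_coord, if_neg hab2, if_neg hab', mul_zero, add_zero]
  have hskew : ∀ i j, φ (D (v i)) (v j) + φ (v i) (D (v j)) = 0 := by
    intro i j
    by_cases hi : i = bar b
    · subst hi
      rw [hD1]
      by_cases hj : j = bar a
      · subst hj
        rw [hD2, map_smul, smul_eq_mul, hs]
      · rw [hz a j hj, zero_add]
        by_cases hj' : j = bar b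
        · subst hj'
          rw [hD1, hz _ _ (by rw [hinv]; exact Ne.symm hab)]
        · rw [hD3 j hj' hj, map_zero]
    · by_cases hi' : i = bar a
      · subst hi'
        rw [hD2, map_smul, LinearMap.smul_apply, smul_eq_mul]
        by_cases hj : j = bar b
        · subst hj
          rw [hD1, hε (v b), hε (v (bar a))]
          linear_combination ε * hs
        · rw [hz b j hj, mul_zero, zero_add]
          by_cases hj' : j = bar a
          · subst hj'
            rw [hD2, map_smul, smul_eq_mul, hz _ _ (by rw [hinv]; exact hab), mul_zero]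
          · rw [hD3 j hj hj', map_zero]
      · rw [hD3 i hi hi', map_zero, LinearMap.zero_apply, zero_add]
        by_cases hj : j = bar b
        · subst hj
          rw [hD1, hz i a fun h => hi' (by rw [h, hinv])]
        · by_cases hj' : j = bar a
          · subst hj'
            rw [hD2, map_smul, smul_eq_mul, hz i b fun h => hi (by rw [h, hinv]), mul_zero]
          · rw [hD3 j hj hj', map_zero]
  have hDm : D ∈ res p g := ss_mem M F hfull hφ htr hskew
  have hD0 : D ≠ 0 := by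
    intro h
    rw [h, LinearMap.zero_apply] at hD1
    exact v.ne_zero a hD1.symm
  have hrk : finrank ℂ (LinearMap.range D) = 2 := by
    have h3 : LinearMap.range D = Submodule.span ℂ (Set.range (v ∘ ![a, b])) := by
      apply le_antisymm
      · rintro _ ⟨w, rfl⟩
        rw [hD]
        refine Submodule.add_mem _ (Submodule.smul_mem _ _ (Submodule.subset_span ⟨0, rfl⟩))
          (Submodule.smul_mem _ _ (Submodule.smul_mem _ _ (Submodule.subset_span ⟨1, rfl⟩)))
      · refine Submodule.span_le.2 ?_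
        rintro _ ⟨i, rfl⟩
        fin_cases i
        · exact ⟨v (bar b), hD1⟩
        · refine ⟨s⁻¹ • v (bar a), ?_⟩
          rw [map_smul, hD2, smul_smul, inv_mul_cancel₀ hs0, one_smul]
          rfl
    have h4 : Function.Injective ![a, b] := by
      intro i j hij
      fin_cases i <;> fin_cases j
      · rfl
      · exact absurd hij.symm hab
      · exact absurd hij hab
      · rfl
    rw [h3, finrank_span_eq_card (v.linearIndependent.comp _ h4), Fintype.card_fin]
  have hneg : ∀ μ, (Pi.single a 1 + Pi.single b 1 - Pi.single (bar a) 1 - Pi.single (bar b) 1 :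
      Om R Φ σ → ℚ) (bar μ) = -(Pi.single a 1 + Pi.single b 1 - Pi.single (bar a) 1 -
        Pi.single (bar b) 1 : Om R Φ σ → ℚ) μ := by
    intro μ
    simp only [Pi.sub_apply, Pi.add_apply, ss_bar hinv, hinv]
    ring
  obtain ⟨T, hT, hTv⟩ := ss_T M H hB F hfull hφ hbar (h := Pi.single a 1 + Pi.single b 1 -
    Pi.single (bar a) 1 - Pi.single (bar b) 1) (by
      simp only [Pi.sub_apply, Pi.add_apply, Finset.sum_sub_distrib, Finset.sum_add_distrib,
        Finset.sum_pi_single', Finset.mem_univ, if_true]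
      norm_num) hneg
  have hcj : ∀ x ∈ res p (tor Φ), ss_c v x a + ss_c v x (bar a) =
      ss_c v x b + ss_c v x (bar b) := fun x hx => ss_conj M H hB F hbar hx a b
  obtain ⟨z, y, G, π, J, -, hG⟩ := exists_coroot M H hB.idem F hDm hD0
    (β := fun x => ss_c v x a - ss_c v x (bar b)) (fun x hx => v.ext fun i => by
      rw [LinearMap.sub_apply, Module.End.mul_apply, Module.End.mul_apply, ss_val M F hx i,
        map_smul, LinearMap.smul_apply]
      by_cases hi : i = bar b
      · rw [hi, hD1, ss_val M F hx a, sub_smul]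
      · by_cases hi' : i = bar a
        · rw [hi', hD2, map_smul, ss_val M F hx b, smul_smul, smul_smul, smul_smul, ← sub_smul]
          congr 1
          linear_combination (-s) * hcj x hx
        · rw [hD3 i hi hi', map_zero, smul_zero, smul_zero, sub_zero]) (ss_sep M H F hab2)
    (Pi.single a 1 + Pi.single b 1 - Pi.single (bar a) 1 - Pi.single (bar b) 1) hT hTv
    (fun x hx => by
      rw [ss_trace M F hx hTv, hrk]
      simp only [Pi.sub_apply, Pi.add_apply, Rat.cast_sub, Rat.cast_add, mul_sub, mul_add,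
        Finset.sum_sub_distrib, Finset.sum_add_distrib, ss_single]
      push_cast
      linear_combination -(hcj x hx))
  exact ⟨z, y, G, π, J, hG⟩

theorem std_sp (M : Mono R c Φ g ψ) (H : IsFrob R Φ) (hB : Bal R Φ)
    (F : Frame R Φ g σ W p v) (hfull : FullW g ψ p) {φ : W →ₗ[ℂ] W →ₗ[ℂ] ℂ}
    (hφ : IsForm g ψ p φ) (hsa : ∀ x, φ x x = 0)
    {bar : Om R Φ σ → Om R Φ σ} (hbar : ∀ μ, ((bar μ : Om R Φ σ) : ℂ) = starRingEnd ℂ μ)
    (hinv : ∀ μ, bar (bar μ) = μ) (hfix : ∀ μ, bar μ ≠ μ) [DecidableEq (Om R Φ σ)]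
    (a : Om R Φ σ) :
    ∃ (z y : Matrix ι ι ℂ) (G : ℂ → ℚ) (π : ℂ → ℂ), Jrt R Φ g z y G π ∧
      rs R Φ σ G = Pi.single a 1 - Pi.single (bar a) 1 := by
  classical
  have hfv := form_val M H hB F hφ hbar
  have hε : ∀ x y, φ x y = -φ y x := by
    intro x y
    have h1 := hsa (x + y)
    simp only [map_add, LinearMap.add_apply, hsa] at h1
    linear_combination h1
  have haa : a ≠ bar a := (hfix a).symm
  have hz : ∀ i j, j ≠ bar i → φ (v i) (v j) = 0 := fun i j hj => by
    by_contra h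
    exact hj ((hfv i j).1 h)
  let D : End ℂ W := (v.coord (bar a)).smulRight (v a)
  have hD : ∀ w, D w = v.coord (bar a) w • v a := fun w => rfl
  have hD1 : D (v (bar a)) = v a := by
    rw [hD, ss_coord, if_pos rfl, one_smul]
  have hD3 : ∀ i, i ≠ bar a → D (v i) = 0 := fun i hi => by
    rw [hD, ss_coord, if_neg hi, zero_smul]
  have htr : LinearMap.trace ℂ W D = 0 := by
    have h3 : LinearMap.trace ℂ W D = v.coord (bar a) (v a) := LinearMap.trace_smulRight _ _
    rw [h3, ss_coord, if_neg haa]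
  have hskew : ∀ i j, φ (D (v i)) (v j) + φ (v i) (D (v j)) = 0 := by
    intro i j
    by_cases hi : i = bar a
    · subst hi
      rw [hD1]
      by_cases hj : j = bar a
      · subst hj
        rw [hD1, hε (v (bar a)) (v a), add_neg_cancel]
      · rw [hz a j hj, hD3 j hj, map_zero, add_zero]
    · rw [hD3 i hi, map_zero, LinearMap.zero_apply, zero_add]
      by_cases hj : j = bar a
      · subst hj
        rw [hD1, hz i a fun h => hi (by rw [h, hinv])]
      · rw [hD3 j hj, map_zero]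
  have hDm : D ∈ res p g := ss_mem M F hfull hφ htr hskew
  have hD0 : D ≠ 0 := by
    intro h
    rw [h, LinearMap.zero_apply] at hD1
    exact v.ne_zero a hD1.symm
  have hrk : finrank ℂ (LinearMap.range D) = 1 := by
    have h3 : LinearMap.range D = Submodule.span ℂ {v a} := by
      apply le_antisymm
      · rintro _ ⟨w, rfl⟩
        rw [hD]
        exact Submodule.smul_mem _ _ (Submodule.mem_span_singleton_self _)
      · rw [Submodule.span_singleton_le_iff_mem]
        exact ⟨v (bar a), hD1⟩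
    rw [h3, finrank_span_singleton (v.ne_zero a)]
  have hneg : ∀ μ, (Pi.single a 1 - Pi.single (bar a) 1 : Om R Φ σ → ℚ) (bar μ) =
      -(Pi.single a 1 - Pi.single (bar a) 1 : Om R Φ σ → ℚ) μ := by
    intro μ
    simp only [Pi.sub_apply, ss_bar hinv, hinv]
    ring
  obtain ⟨T, hT, hTv⟩ := ss_T M H hB F hfull hφ hbar (h := Pi.single a 1 -
    Pi.single (bar a) 1) (by
      simp only [Pi.sub_apply, Finset.sum_sub_distrib, Finset.sum_pi_single', Finset.mem_univ,
        if_true]
      norm_num) hneg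
  obtain ⟨z, y, G, π, J, -, hG⟩ := exists_coroot M H hB.idem F hDm hD0
    (β := fun x => ss_c v x a - ss_c v x (bar a)) (fun x hx => v.ext fun i => by
      rw [LinearMap.sub_apply, Module.End.mul_apply, Module.End.mul_apply, ss_val M F hx i,
        map_smul, LinearMap.smul_apply]
      by_cases hi : i = bar a
      · rw [hi, hD1, ss_val M F hx a, sub_smul]
      · rw [hD3 i hi, map_zero, smul_zero, smul_zero, sub_zero]) (ss_sep M H F haa)
    (Pi.single a 1 - Pi.single (bar a) 1) hT hTv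
    (fun x hx => by
      rw [ss_trace M F hx hTv, hrk]
      simp only [Pi.sub_apply, Rat.cast_sub, mul_sub, Finset.sum_sub_distrib, ss_single]
      push_cast
      ring)
  exact ⟨z, y, G, π, J, hG⟩

end Pool.Agent.FQU
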