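import Pool.Agent.FQU.StdSl
import Pool.Agent.FQU.StdSo
import Pool.Agent.FQU.KindSl
import Pool.Agent.FQU.KindSp
import Pool.Agent.FQU.KindSo

/-!
# Every embedding has one of the three standard systems (PACKAGE FU22)

Proof of `exists_kind`. `card Ω ≥ 2` for `Ω = Om R Φ σ`: take a balanced idempotent `e` (`Bal`, `one_mem_tor`, `1 ≠ 0` because `W ≠ ⊥`): by
`F.card` and `F.nontrivial` `card Ω ≥ 1`, and `2 * sm R Φ σ (ev Φ e) = card Ω` with `sm R Φ σ (ev Φ e)` a sum of numbers `0`, `1`, so `card Ω` is even.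

If `σ` is not real: `Ad f := ∑ a, f a = 0`, `St := StSl`, `knd_sl`, `std_sl`; `Jrt.sum`; for an idempotent `∑ (ev - 1/2) = sm - card/2 = 0`.

If `σ` is real: `bar` from `exists_bar`; `Ad f := ∀ a, f (bar a) = - f a`. For `Jrt`: `x = z y - y z ∈ tor Φ` (`cor`) has trace zero, so by `tor_conj`
(for eigenvectors in `HS R σ` for `a` and `conj a`, `J.val`) `G (bar a) = - G a`. For an idempotent `e`: `ev Φ e (conj μ) = 1 - ev Φ e μ` (`ev_conj`,
`hasEigenvalue_of_mem`). `exists_isForm` gives `φ`. If `φ` is alternating: `St := StSp bar`, `knd_sp`, `std_sp` and `std_so`. If `φ` is symmetric: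
`St := StSo bar`, `knd_so`, `std_so`; it remains that `card Ω ≥ 6` and `≠ 8`. `card Ω` is even and `≠ 8` by `hn 3`. `card Ω ≠ 4`: by
`M.four σ hr W F.le F.irr` (`F.card`) `W` has an alternating form with the multipliers of `ψ` (restrict it to `W`: see
`exists_form` in `Pool/Agent/FQT/Full.lean`); by `IsForm.unique` `φ` is a multiple of it, or it is a multiple of `φ`; so `φ` is
alternating and symmetric, so zero, a contradiction. `card Ω ≠ 2`: `TD.pow_sym` (`Pool/Agent/FQA/Kind.lean`) for `td M H hB.idem F.irr F.prj`, the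
form `φ`, `hgsp = hφ.sim M`, the idempotent `rm p e` for a balanced idempotent `e` (`rm_val`; multiplier one: `mult_of_trace`, `hφ.mult`
with `κ = 1`); its hypothesis `∀ m ≥ 2, finrank ≠ 2 ^ m` holds if `finrank = 2`, and it gives `finrank ≠ 2 ^ 1`. -/

set_option autoImplicit false
set_option linter.unusedSectionVars false

namespace Pool.Agent.FQU

open Module
open Pool.Agent.CoprimeSig (ratM)

variable {ι : Type} [Fintype ι] [DecidableEq ι] {E : Type} [CommRing E]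
  {R : E →+* Matrix ι ι ℚ} {Φ : Matrix ι ι ℚ} {σ : E →+* ℂ} {c : E → E}
  {g : Submodule ℂ (Matrix ι ι ℂ)} {ψ : Matrix ι ι ℂ} {W : Submodule ℂ (ι → ℂ)}
  {p : (ι → ℂ) →ₗ[ℂ] W} {v : Basis (Om R Φ σ) ℂ W}

/-- A standard system of coroots for `σ`. -/
structure KindAt (R : E →+* Matrix ι ι ℚ) (Φ : Matrix ι ι ℚ) (g : Submodule ℂ (Matrix ι ι ℂ))
    (σ : E →+* ℂ) (Ad St : (Om R Φ σ → ℚ) → Prop) : Prop where
  knd : Knd Ad St
  lift : ∀ h, St h → ∃ (z y : Matrix ι ι ℂ) (G : ℂ → ℚ) (π : ℂ → ℂ), Jrt R Φ g z y G π ∧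
    rs R Φ σ G = h
  ad : ∀ (z y : Matrix ι ι ℂ) (G : ℂ → ℚ) (π : ℂ → ℂ), Jrt R Φ g z y G π → Ad (rs R Φ σ G)
  idem : ∀ e ∈ tor Φ, e * e = e → 2 * e.trace = Fintype.card ι →
    2 * sm R Φ σ (ev Φ e) = Fintype.card (Om R Φ σ) → Ad fun μ => rs R Φ σ (ev Φ e) μ - 1 / 2

private theorem ke_bal (M : Mono R c Φ g ψ) (hB : Bal R Φ) {w : ι → ℂ} (hw : w ≠ 0) :
    ∃ e : Matrix ι ι ℂ, e ∈ tor Φ ∧ e * e = e ∧ 2 * e.trace = Fintype.card ι ∧
      ∀ σ : E →+* ℂ, 2 * sm R Φ σ (ev Φ e) = Fintype.card (Om R Φ σ) := by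
  by_contra hne
  have h2 := hB (one_mem_tor M)
  have h3 : {e : Matrix ι ι ℂ | e ∈ tor Φ ∧ e * e = e ∧ 2 * e.trace = Fintype.card ι ∧
      ∀ σ : E →+* ℂ, 2 * sm R Φ σ (ev Φ e) = Fintype.card (Om R Φ σ)} = ∅ := by
    rw [Set.eq_empty_iff_forall_notMem]
    intro e he
    exact hne ⟨e, he⟩
  rw [h3, Submodule.span_empty, Submodule.mem_bot] at h2
  apply hw
  rw [← Matrix.one_mulVec w, h2, Matrix.zero_mulVec]

private theorem ke_sm (e : Matrix ι ι ℂ) : ∃ k : ℕ, sm R Φ σ (ev Φ e) = k := by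
  have h1 : ∀ μ : Om R Φ σ, ∃ k : ℕ, rs R Φ σ (ev Φ e) μ = k := by
    intro μ
    rcases ev_or Φ e μ with h | h
    · exact ⟨0, by rw [rs_apply, h, Nat.cast_zero]⟩
    · exact ⟨1, by rw [rs_apply, h, Nat.cast_one]⟩
  choose k hk using h1
  refine ⟨∑ μ, k μ, ?_⟩
  unfold sm
  rw [Nat.cast_sum]
  exact Finset.sum_congr rfl fun μ _ => hk μ

/-- the coroots are odd -/
private theorem ke_odd (H : IsFrob R Φ) (hB : Bal R Φ)
    (F : Frame R Φ g σ W p v) {bar : Om R Φ σ → Om R Φ σ}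
    (hbar : ∀ μ, ((bar μ : Om R Φ σ) : ℂ) = starRingEnd ℂ μ) {z y : Matrix ι ι ℂ} {G : ℂ → ℚ}
    {π : ℂ → ℂ} (J : Jrt R Φ g z y G π) (a : Om R Φ σ) :
    rs R Φ σ G (bar a) = -rs R Φ σ G a := by
  have h0 : ∀ μ, (v μ : ι → ℂ) ≠ 0 := fun μ h => v.ne_zero μ (Subtype.ext h)
  have h1 := F.bas (bar a)
  have h2 := J.val _ _ h1
  rw [hbar] at h1
  have h3 := tor_conj H hB J.cor (h0 a) (F.bas a) (J.val _ _ (F.bas a)) (h0 (bar a)) h1 h2
  rw [Matrix.trace_sub, Matrix.trace_mul_comm z y, sub_self, mul_zero] at h3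
  have hne : Nonempty ι := by
    by_contra h
    rw [not_nonempty_iff] at h
    exact h0 a (Subsingleton.elim _ _)
  have h4 : (Fintype.card ι : ℂ) ≠ 0 := by
    rw [Nat.cast_ne_zero]
    exact Fintype.card_ne_zero
  have h5 : (G a : ℂ) + (G (bar a) : ℂ) = 0 := (mul_eq_zero.1 h3).resolve_right h4
  have h6 : G a + G (bar a) = 0 := by exact_mod_cast h5
  rw [rs_apply, rs_apply]
  linarith

private theorem ke_four (M : Mono R c Φ g ψ) (F : Frame R Φ g σ W p v)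
    (hr : ∀ a, starRingEnd ℂ (σ a) = σ a) {φ : W →ₗ[ℂ] W →ₗ[ℂ] ℂ} (hφ : IsForm g ψ p φ)
    (hs : ∀ x y, φ x y = φ y x) : finrank ℂ W ≠ 4 := by
  intro h4
  obtain ⟨φ₀, h1, h2, h3⟩ := M.four σ hr W F.le F.irr h4
  have hnt : Nontrivial W := F.nontrivial
  obtain ⟨x₀, hx₀⟩ := exists_ne (0 : W)
  have hm : Mul g ψ p (φ₀.compl₁₂ W.subtype W.subtype) := by
    intro x hx κ hκ u w
    have h5 := h3 x hx κ hκ u u.2 w w.2
    change φ₀ (rm p x u : ι → ℂ) w + φ₀ u (rm p x w : ι → ℂ) = κ * φ₀ u w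
    rw [rm_apply F.prj (F.irr.1 x hx), rm_apply F.prj (F.irr.1 x hx)]
    exact h5
  obtain ⟨t, ht⟩ := IsForm.unique M F.irr F.prj hφ hm
  have ht' : ∀ u w : W, φ₀ u w = t * φ u w := fun u w => by
    have h5 := congrArg (fun f : W →ₗ[ℂ] W →ₗ[ℂ] ℂ => f u w) ht
    simpa using h5
  have ht0 : t ≠ 0 := by
    rintro rfl
    apply hx₀
    refine Subtype.ext (h2 x₀ x₀.2 fun y hy => ?_)
    have h5 := ht' x₀ ⟨y, hy⟩
    rw [zero_mul] at h5
    exact h5
  have h5 : ∀ x, φ x x = 0 := by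
    intro x
    have h6 := ht' x x
    rw [h1 x x.2] at h6
    exact (mul_eq_zero.1 h6.symm).resolve_left ht0
  apply hx₀
  refine hφ.nd x₀ fun y => ?_
  have h6 := h5 (x₀ + y)
  rw [map_add, map_add, LinearMap.add_apply, LinearMap.add_apply, h5, h5, hs y x₀] at h6
  linear_combination h6 / 2

private theorem ke_two (M : Mono R c Φ g ψ) (H : IsFrob R Φ) (hB : Bal R Φ)
    (F : Frame R Φ g σ W p v) {φ : W →ₗ[ℂ] W →ₗ[ℂ] ℂ} (hφ : IsForm g ψ p φ)
    (hs : ∀ x y, φ x y = φ y x) {e : Matrix ι ι ℂ} (he : e ∈ tor Φ) (hee : e * e = e)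
    (htr : 2 * e.trace = Fintype.card ι) (hne : Nonempty ι) : finrank ℂ W ≠ 2 := by
  intro h2
  have hnt : Nontrivial W := F.nontrivial
  obtain ⟨h3, h4, -⟩ := rm_val F M he hee
  have h5 : rm p e ∈ res p g := rm_mem (M.le he)
  have h6 : ∀ u w, φ (rm p e u) w + φ u (rm p e w) = φ u w := by
    intro u w
    have h7 := hφ.mult e (M.le he) 1 (by rw [one_smul]; exact mult_of_trace M (M.le he) htr) u w
    rwa [one_mul] at h7
  refine (td M H hB.idem F.irr F.prj).pow_sym hs hφ.nd (hφ.sim M) ?_ h5 h4 h6 1 ?_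
  · intro m hm h7
    rw [h2] at h7
    have h8 : 2 ^ 2 ≤ 2 ^ m := Nat.pow_le_pow_right (by norm_num) hm
    omega
  · rw [h2, pow_one]

theorem exists_kind [Algebra ℚ E] [Module.Finite ℚ E] [IsReduced E] (M : Mono R c Φ g ψ)
    (H : IsFrob R Φ) (hB : Bal R Φ) (hc : ∀ (σ : E →+* ℂ) a, σ (c a) = starRingEnd ℂ (σ a))
    (F : Frame R Φ g σ W p v) (hfull : FullW g ψ p)
    (hn : ∀ m : ℕ, 3 ≤ m → Fintype.card (Om R Φ σ) ≠ 2 ^ m) :
    ∃ Ad St, KindAt R Φ g σ Ad St := by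
  classical
  have hnt : Nontrivial W := F.nontrivial
  obtain ⟨x₀, hx₀⟩ := exists_ne (0 : W)
  have hx₀' : (x₀ : ι → ℂ) ≠ 0 := fun h => hx₀ (Subtype.ext h)
  have hne : Nonempty ι := by
    by_contra h
    rw [not_nonempty_iff] at h
    exact hx₀' (Subsingleton.elim _ _)
  obtain ⟨e, he, hee, htr, hsm⟩ := ke_bal (R := R) M hB hx₀'
  obtain ⟨k, hk⟩ := ke_sm (R := R) (Φ := Φ) (σ := σ) e
  have hcard : 2 * k = Fintype.card (Om R Φ σ) := by
    have h1 := hsm σ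
    rw [hk] at h1
    exact_mod_cast h1
  have hpos : 0 < Fintype.card (Om R Φ σ) := by
    rw [F.card]
    exact Module.finrank_pos
  have h2 : 2 ≤ Fintype.card (Om R Φ σ) := by omega
  by_cases hr : ∀ a, starRingEnd ℂ (σ a) = σ a
  · obtain ⟨bar, hbar, hinv, hfix⟩ := exists_bar M H hB hr
    obtain ⟨φ, hφ, hsa⟩ := exists_isForm M hc F.irr F.prj F.le hr
    have hid : ∀ e ∈ tor Φ, e * e = e → 2 * e.trace = Fintype.card ι →
        2 * sm R Φ σ (ev Φ e) = Fintype.card (Om R Φ σ) →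
        ∀ a, rs R Φ σ (ev Φ e) (bar a) - 1 / 2 = -(rs R Φ σ (ev Φ e) a - 1 / 2) := by
      intro e he hee htr _ a
      rw [rs_apply, rs_apply, hbar, ev_conj H he hee htr (hasEigenvalue_of_mem a.2)]
      ring
    rcases hsa with hs | hs
    · refine ⟨fun f => ∀ a, f (bar a) = -f a, StSp bar, knd_sp bar hinv hfix h2, ?_,
        fun z y G π J a => ke_odd H hB F hbar J a, hid⟩
      rintro h (⟨a, rfl⟩ | ⟨a, b, hab, hab', rfl⟩)
      · exact std_sp M H hB F hfull hφ hs hbar hinv hfix a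
      · exact std_so M H hB F hfull hφ (Or.inl hs) hbar hinv hfix hab hab'
    · have h4 := ke_four M F hr hφ hs
      have h2' := ke_two M H hB F hφ hs he hee htr hne
      rw [← F.card] at h4 h2'
      have h8 : Fintype.card (Om R Φ σ) ≠ 8 := fun h => hn 3 (le_refl _) (by rw [h]; norm_num)
      refine ⟨fun f => ∀ a, f (bar a) = -f a, StSo bar, knd_so bar hinv hfix (by omega) h8, ?_,
        fun z y G π J a => ke_odd H hB F hbar J a, hid⟩
      rintro h ⟨a, b, hab, hab', rfl⟩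
      exact std_so M H hB F hfull hφ (Or.inr hs) hbar hinv hfix hab hab'
  · push Not at hr
    refine ⟨fun f => ∑ a, f a = 0, StSl, knd_sl h2, ?_, fun z y G π J => J.sum σ, ?_⟩
    · rintro h ⟨a, b, hab, rfl⟩
      exact std_sl M H hB hc F hfull hr hab
    · intro e _ _ _ hsm
      unfold sm at hsm
      rw [Finset.sum_sub_distrib, Finset.sum_const, Finset.card_univ, nsmul_eq_mul]
      linarith

end Pool.Agent.FQU
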