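import Mathlib

/-!
# The three standard systems of coroots

`Ω` is a finite set, `bar` an involution without fixed points. `StSl`: the vectors `δ_a - δ_b`; `StSo`: the vectors
`δ_a + δ_b - δ_(bar a) - δ_(bar b)`, `b ≠ a, bar a`; `StSp`: these and the vectors `δ_a - δ_(bar a)`.

`Knd Ad St` collects what is needed: the elements of `St` have the property `Ad` and span the functions with this
property (`span`), they are connected (`conn`), and (`fin`) a vector `w` in the span whose scalar products with the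
elements of `St` are `0`, `1`, `-1` and which has the norm of the vectors `u` which represent the evaluations `s ↦ s a`
on the span is one of these vectors, up to the sign. -/

set_option autoImplicit false

namespace Pool.Agent.FQU

variable {Ω : Type*} [Fintype Ω] [DecidableEq Ω]

/-- The differences of two basis vectors. -/
def StSl (h : Ω → ℚ) : Prop := ∃ a b : Ω, a ≠ b ∧ h = Pi.single a 1 - Pi.single b 1

/-- The vectors with four nonzero entries. -/
def StSo (bar : Ω → Ω) (h : Ω → ℚ) : Prop := ∃ a b : Ω, b ≠ a ∧ b ≠ bar a ∧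
  h = Pi.single a 1 + Pi.single b 1 - Pi.single (bar a) 1 - Pi.single (bar b) 1

/-- The vectors with two or four nonzero entries. -/
def StSp (bar : Ω → Ω) (h : Ω → ℚ) : Prop :=
  (∃ a : Ω, h = Pi.single a 1 - Pi.single (bar a) 1) ∨ StSo bar h

/-- A connected system of vectors. -/
structure Knd (Ad St : (Ω → ℚ) → Prop) : Prop where
  ad : ∀ h, St h → Ad h
  span : ∀ f, Ad f → f ∈ Submodule.span ℚ {h | St h}
  conn : ∀ P : (Ω → ℚ) → Prop, (∃ h, St h ∧ P h) →
    (∀ h k, St h → St k → P h → h ⬝ᵥ k ≠ 0 → P k) → ∀ h, St h → P h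
  fin : ∀ w ∈ Submodule.span ℚ {h | St h},
    (∀ h, St h → w ⬝ᵥ h = -1 ∨ w ⬝ᵥ h = 0 ∨ w ⬝ᵥ h = 1) →
    (∀ a, ∀ u ∈ Submodule.span ℚ {h | St h}, (∀ s ∈ Submodule.span ℚ {h | St h}, s a = u ⬝ᵥ s) →
      w ⬝ᵥ w = u ⬝ᵥ u) →
    ∃ a : Ω, (∀ x ∈ Submodule.span ℚ {h | St h}, w ⬝ᵥ x = x a) ∨
      ∀ x ∈ Submodule.span ℚ {h | St h}, w ⬝ᵥ x = -x a

/-- A function with the property which is not zero is not orthogonal to the system. -/
theorem Knd.exists_dot {Ad St : (Ω → ℚ) → Prop} (K : Knd Ad St) {f : Ω → ℚ} (hf : Ad f)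
    (h0 : f ≠ 0) : ∃ s, St s ∧ f ⬝ᵥ s ≠ 0 := by
  by_contra hcon
  push Not at hcon
  have h1 : ∀ x ∈ Submodule.span ℚ {h | St h}, f ⬝ᵥ x = 0 := by
    intro x hx
    induction hx using Submodule.span_induction with
    | mem x hx => exact hcon x hx
    | zero => exact dotProduct_zero _
    | add x y _ _ hx hy => rw [dotProduct_add, hx, hy, add_zero]
    | smul c x _ hx => rw [dotProduct_smul, hx, smul_zero]
  exact h0 (dotProduct_self_eq_zero.1 (h1 f (K.span f hf)))

end Pool.Agent.FQU
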