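import Pool.Agent.FQU.Joint

/-!
# Lifting root vectors of an irreducible subspace (PACKAGE FU18)

Proof of `exists_lift_root`. Let `x ∈ g` with `rm p x = D` (`mem_res`). By `mem_span_roots (cartan M H)` `x` is a finite sum of root vectors
`x_i ∈ g` with roots `α_i` (functions on `tor Φ`). Let `β' τ = β (rm p τ)`, `τ ∈ tor Φ`. For each `i` for which `α_i ≠ β'` on `tor Φ` choose
`τ_i ∈ tor Φ` with `α_i τ_i ≠ β' τ_i` and let `Q_i` be the linear operator `w ↦ (β' τ_i - α_i τ_i)⁻¹ • (τ_i w - w τ_i - α_i τ_i • w)`. The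
operators `Q_i` preserve `g` and multiply every root vector by a scalar; `Q_i` kills `x_i`, and it fixes every root vector with the
root `β'`. Let `z` be the image of `x` under the product of all these `Q_i`: it is the sum of the `x_i` with `α_i = β'`, so
`τ z - z τ = β' τ • z` for `τ ∈ tor Φ`. On the other hand `rm p (Q_i w) = (β' τ_i - α_i τ_i)⁻¹ • ([rm p τ_i, rm p w] - α_i τ_i • rm p w)` for `w ∈ g`
(`rm_mul`, `rm_sub`, `rm_smul`), and `D` is fixed by this operation (`hβ`), so `rm p z = D`. (An induction over the list of the root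
vectors avoids the product: statement for `x = (sum of root vectors with root β') + (sum of k other root vectors)`.)

Proof of `exists_coroot`. Let `z` be as in `exists_lift_root`; `z ≠ 0`; the root `x ↦ β (rm p x)` is not zero on `tor Φ`, so `exists_jrt` gives
`y, G, π`. Let `D' = rm p y`, `S = rm p (z y - y z) = D D' - D' D` (`rm_mul`; `W` is stable under `g`: `F.irr.1`). `D D' D = D`, so `D D'` is an
idempotent with the same range as `D` and `trace (D D') = finrank (range D)` (`LinearMap.IsProj.trace`, `Mod4`/`SmallRank` have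
`trace_idem`). For `x ∈ res p (tor Φ)`: `trace (x S) = trace (x D D') - trace (x D' D) = trace ((x D - D x) D') = β x * trace (D D')`, so
`trace (x * (S - T)) = 0` by `hr`. `S ∈ res p (tor Φ)` (`J.cor`) and `S (v μ) = G μ • v μ` (`J.val`, `F.bas`). `T` is diagonal in the basis `v`, as are all
elements of `res p (tor Φ)` (`F.hv M`), so it commutes with them and is in `res p (tor Φ)` (`(cartan_res M H F.irr F.prj).cent`). Take
`x = S - T`: `∑ μ, (G μ - h₀ μ)² = 0` (`FQA.trace_pair` or `trace_dg`), so `G μ = h₀ μ` for all `μ`. -/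

set_option autoImplicit false
set_option linter.unusedSectionVars false

namespace Pool.Agent.FQU

open Module
open Pool.Agent.CoprimeSig (ratM endo mem_endo Cartan IsRoot mem_span_roots Opp)

variable {ι : Type} [Fintype ι] [DecidableEq ι] {E : Type} [CommRing E]
  {R : E →+* Matrix ι ι ℚ} {Φ : Matrix ι ι ℚ} {σ : E →+* ℂ} {c : E → E}
  {g : Submodule ℂ (Matrix ι ι ℂ)} {ψ : Matrix ι ι ℂ} {W : Submodule ℂ (ι → ℂ)}
  {p : (ι → ℂ) →ₗ[ℂ] W} {v : Basis (Om R Φ σ) ℂ W}

/-- Root vectors, as matrices. -/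
private def RV (Φ : Matrix ι ι ℚ) (g : Submodule ℂ (Matrix ι ι ℂ)) (z : Matrix ι ι ℂ) : Prop :=
  z ∈ g ∧ ∃ α : Matrix ι ι ℂ → ℂ, ∀ τ ∈ tor Φ, τ * z - z * τ = α τ • z

private theorem RV.smul {z : Matrix ι ι ℂ} (h : RV Φ g z) (k : ℂ) : RV Φ g (k • z) := by
  obtain ⟨hz, α, hα⟩ := h
  refine ⟨g.smul_mem k hz, α, fun τ hτ => ?_⟩
  rw [mul_smul_comm, smul_mul_assoc, ← smul_sub, hα τ hτ, smul_comm]

private theorem exists_list (M : Mono R c Φ g ψ) (H : IsFrob R Φ) {x : Matrix ι ι ℂ}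
    (hx : x ∈ g) : ∃ l : List (Matrix ι ι ℂ), (∀ a ∈ l, RV Φ g a) ∧ x = l.sum := by
  have h1 := mem_span_roots (cartan M H) (mem_endo.2 hx)
  have h2 : ∀ T : End ℂ (ι → ℂ), T ∈ Submodule.span ℂ
      {z | ∃ α, IsRoot (endo g) (endo (tor Φ)) α z} →
      ∃ l : List (Matrix ι ι ℂ), (∀ a ∈ l, RV Φ g a) ∧ T = Matrix.toLin' l.sum := by
    intro T hT
    induction hT using Submodule.span_induction with
    | mem T hT =>
      obtain ⟨α, hα⟩ := hT
      have e1 : Matrix.toLin' (LinearMap.toMatrix' T) = T := Matrix.toLin'_toMatrix' T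
      refine ⟨[LinearMap.toMatrix' T], ?_, by rw [List.sum_singleton, e1]⟩
      intro a ha
      rw [List.mem_singleton] at ha
      rw [ha]
      refine ⟨mem_endo.1 (by rw [e1]; exact hα.mem), fun τ => α (Matrix.toLin' τ),
        fun τ hτ => (Matrix.toLin' (R := ℂ)).injective ?_⟩
      have h3 := hα.root (Matrix.toLin' τ) (mem_endo.2 hτ)
      rw [map_sub, map_smul, Matrix.toLin'_mul, Matrix.toLin'_mul, e1]
      exact h3
    | zero => exact ⟨[], by simp, by rw [List.sum_nil, map_zero]⟩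
    | add a b _ _ ha hb =>
      obtain ⟨l, hl, h3⟩ := ha
      obtain ⟨l', hl', h4⟩ := hb
      refine ⟨l ++ l', ?_, by rw [List.sum_append, map_add, ← h3, ← h4]⟩
      intro a ha
      rcases List.mem_append.1 ha with h | h
      · exact hl a h
      · exact hl' a h
    | smul k a _ ha =>
      obtain ⟨l, hl, h3⟩ := ha
      refine ⟨l.map fun a => k • a, ?_, by rw [← List.smul_sum, map_smul, ← h3]⟩
      intro a ha
      obtain ⟨b, hb, rfl⟩ := List.mem_map.1 ha
      exact (hl b hb).smul k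
  obtain ⟨l, hl, h3⟩ := h2 _ h1
  exact ⟨l, hl, (Matrix.toLin' (R := ℂ)).injective h3⟩

/-- The operator which kills the root vectors with the value `a` at `τ` and fixes those with the
value `b`. -/
private noncomputable def qop (τ : Matrix ι ι ℂ) (a b : ℂ) :
    Matrix ι ι ℂ →ₗ[ℂ] Matrix ι ι ℂ where
  toFun w := (b - a)⁻¹ • (τ * w - w * τ - a • w)
  map_add' u w := by
    rw [← smul_add]
    congr 1
    rw [mul_add, add_mul, smul_add]
    abel
  map_smul' k w := by
    rw [RingHom.id_apply, smul_comm k]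
    congr 1
    rw [mul_smul_comm, smul_mul_assoc, smul_comm a k, ← smul_sub, ← smul_sub]

private theorem qop_apply (τ : Matrix ι ι ℂ) (a b : ℂ) (w : Matrix ι ι ℂ) :
    qop τ a b w = (b - a)⁻¹ • (τ * w - w * τ - a • w) := rfl

private theorem qop_root {τ w : Matrix ι ι ℂ} {s : ℂ} (h : τ * w - w * τ = s • w) (a b : ℂ) :
    qop τ a b w = ((b - a)⁻¹ * (s - a)) • w := by
  rw [qop_apply, h, ← sub_smul, smul_smul]

private theorem lift_sm {V : Type*} [AddCommGroup V] [Module ℂ V] (a b : ℂ) (h : b - a ≠ 0)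
    (D : End ℂ V) : (b - a)⁻¹ • (b • D - a • D) = D := by
  rw [← sub_smul, smul_smul, inv_mul_cancel₀ h, one_smul]

private theorem lift_step (M : Mono R c Φ g ψ) (F : Frame R Φ g σ W p v)
    {D : End ℂ W} {β : End ℂ W → ℂ}
    (hβ : ∀ x ∈ res p (tor Φ), x * D - D * x = β x • D) (n : ℕ) :
    ∀ (z₀ : Matrix ι ι ℂ) (l : List (Matrix ι ι ℂ)), l.length = n → (∀ a ∈ l, RV Φ g a) →
      z₀ ∈ g → (∀ τ ∈ tor Φ, τ * z₀ - z₀ * τ = β (rm p τ) • z₀) → rm p (z₀ + l.sum) = D →
      ∃ z ∈ g, rm p z = D ∧ ∀ x ∈ tor Φ, x * z - z * x = β (rm p x) • z := by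
  induction n with
  | zero =>
    intro z₀ l hl _ hz hr hD
    rw [List.length_eq_zero_iff] at hl
    rw [hl, List.sum_nil, add_zero] at hD
    exact ⟨z₀, hz, hD, hr⟩
  | succ n ih =>
    intro z₀ l hl hR hz hr hD
    obtain ⟨a, l, rfl⟩ := List.exists_cons_of_length_eq_add_one hl
    rw [List.length_cons, Nat.add_right_cancel_iff] at hl
    obtain ⟨ha, α, hα⟩ := hR a List.mem_cons_self
    have hR' : ∀ b ∈ l, RV Φ g b := fun b hb => hR b (List.mem_cons_of_mem a hb)
    rw [List.sum_cons] at hD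
    by_cases hc : ∀ τ ∈ tor Φ, α τ = β (rm p τ)
    · refine ih (z₀ + a) l hl hR' (g.add_mem hz ha) (fun τ hτ => ?_) (by rwa [add_assoc])
      have h1 := hα τ hτ
      rw [hc τ hτ] at h1
      rw [mul_add, add_mul, smul_add, ← hr τ hτ, ← h1]
      abel
    · push Not at hc
      obtain ⟨τ, hτ, hne⟩ := hc
      have hne' : β (rm p τ) - α τ ≠ 0 := sub_ne_zero.2 hne.symm
      set Q := qop τ (α τ) (β (rm p τ)) with hQ
      have q0 : Q z₀ = z₀ := by
        rw [hQ, qop_root (hr τ hτ), inv_mul_cancel₀ hne', one_smul]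
      have qa : Q a = 0 := by
        rw [hQ, qop_root (hα τ hτ), sub_self, mul_zero, zero_smul]
      have hRl : ∀ b ∈ l.map Q, RV Φ g b := by
        intro b hb
        obtain ⟨b', hb', rfl⟩ := List.mem_map.1 hb
        have h1 := hR' b' hb'
        obtain ⟨-, α', hα'⟩ := h1
        rw [hQ, qop_root (hα' τ hτ)]
        exact (hR' b' hb').smul _
      refine ih z₀ (l.map Q) (by rw [List.length_map, hl]) hRl hz hr ?_
      have hsum : z₀ + (l.map Q).sum = Q (z₀ + (a + l.sum)) := by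
        rw [map_add, map_add, q0, qa, zero_add, map_list_sum]
      have hτg : τ ∈ g := M.le hτ
      have hlg : l.sum ∈ g := list_sum_mem fun b hb => (hR' b hb).1
      have hxg : z₀ + (a + l.sum) ∈ g := g.add_mem hz (g.add_mem ha hlg)
      have hst := F.irr.1
      rw [hsum, hQ, qop_apply, rm_smul, rm_sub, rm_sub, rm_smul,
        rm_mul F.prj (hst _ hτg) (hst _ hxg), rm_mul F.prj (hst _ hxg) (hst _ hτg), hD,
        hβ _ (rm_mem hτ)]
      exact lift_sm _ _ hne' D

theorem exists_lift_root (M : Mono R c Φ g ψ) (H : IsFrob R Φ) (F : Frame R Φ g σ W p v)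
    {D : End ℂ W} (hD : D ∈ res p g) (h0 : D ≠ 0) {β : End ℂ W → ℂ}
    (hβ : ∀ x ∈ res p (tor Φ), x * D - D * x = β x • D) :
    ∃ z ∈ g, rm p z = D ∧ ∀ x ∈ tor Φ, x * z - z * x = β (rm p x) • z := by
  obtain ⟨x, hx, rfl⟩ := mem_res.1 hD
  obtain ⟨l, hl, rfl⟩ := exists_list M H hx
  refine lift_step M F hβ l.length 0 l rfl hl g.zero_mem (fun τ _ => ?_) (by rw [zero_add])
  rw [mul_zero, zero_mul, sub_zero, smul_zero]

private theorem trace_gen {V : Type*} [AddCommGroup V] [Module ℂ V] [FiniteDimensional ℂ V]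
    {D D' x : End ℂ V} {b : ℂ} (h : D * D' * D = D) (hx : x * D - D * x = b • D) :
    LinearMap.trace ℂ V (x * (D * D' - D' * D)) =
      b * (finrank ℂ (LinearMap.range D) : ℂ) := by
  have h1 : LinearMap.IsProj (LinearMap.range D) (D * D') := by
    refine ⟨fun x => ⟨D' x, rfl⟩, ?_⟩
    rintro _ ⟨x, rfl⟩
    rw [← Module.End.mul_apply, h]
  have e1 : x * (D * D' - D' * D) = x * D * D' - x * D' * D := by
    rw [mul_sub, mul_assoc, mul_assoc]
  have e2 : LinearMap.trace ℂ V (x * D' * D) = LinearMap.trace ℂ V (D * x * D') := by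
    rw [LinearMap.trace_mul_comm, mul_assoc]
  rw [e1, map_sub, e2, ← map_sub, ← sub_mul, hx, smul_mul_assoc, map_smul, h1.trace,
    smul_eq_mul]

private theorem eq_gen {V I : Type*} [AddCommGroup V] [Module ℂ V] [FiniteDimensional ℂ V]
    [Fintype I]
    (v : Basis I ℂ V) {t : Submodule ℂ (End ℂ V)} {S T : End ℂ V} (hS : S ∈ t) (hT : T ∈ t)
    (htr : ∀ x ∈ t, LinearMap.trace ℂ V (x * S) = LinearMap.trace ℂ V (x * T)) {f h : I → ℚ}
    (hSv : ∀ i, S (v i) = (f i : ℂ) • v i) (hTv : ∀ i, T (v i) = (h i : ℂ) • v i) : f = h := by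
  have hX : S - T ∈ t := t.sub_mem hS hT
  have h0' : LinearMap.trace ℂ V ((S - T) * (S - T)) = 0 := by
    have e1 : (S - T) * (S - T) = (S - T) * S - (S - T) * T := mul_sub _ _ _
    rw [e1, map_sub, htr _ hX, sub_self]
  have hXv : ∀ i, (S - T) (v i) = ((f i - h i : ℚ) : ℂ) • v i := by
    intro i
    rw [LinearMap.sub_apply, hSv, hTv, Rat.cast_sub, sub_smul]
  have h3 := FQA.trace_pair v (k := fun i => f i - h i) (h := fun i => f i - h i) hXv hXv
  rw [h0'] at h3
  have h4 : (fun i => f i - h i) ⬝ᵥ (fun i => f i - h i) = 0 := by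
    exact_mod_cast h3.symm
  rw [dotProduct_self_eq_zero] at h4
  funext i
  exact sub_eq_zero.1 (congrFun h4 i)

theorem exists_coroot (M : Mono R c Φ g ψ) (H : IsFrob R Φ) (hI : Idem Φ)
    (F : Frame R Φ g σ W p v) {D : End ℂ W} (hD : D ∈ res p g) (h0 : D ≠ 0) {β : End ℂ W → ℂ}
    (hβ : ∀ x ∈ res p (tor Φ), x * D - D * x = β x • D)
    (hne : ∃ x ∈ res p (tor Φ), β x ≠ 0) (h₀ : Om R Φ σ → ℚ) {T : End ℂ W}
    (hT : T ∈ res p g) (hTv : ∀ μ, T (v μ) = (h₀ μ : ℂ) • v μ)
    (hr : ∀ x ∈ res p (tor Φ), LinearMap.trace ℂ W (x * T) =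
      (finrank ℂ (LinearMap.range D) : ℂ) * β x) :
    ∃ (z y : Matrix ι ι ℂ) (G : ℂ → ℚ) (π : ℂ → ℂ), Jrt R Φ g z y G π ∧ rm p z = D ∧
      rs R Φ σ G = h₀ := by
  obtain ⟨z, hz, hzD, hroot⟩ := exists_lift_root M H F hD h0 hβ
  have hz0 : z ≠ 0 := by
    rintro rfl
    apply h0
    rw [← hzD]
    have h1 := rm_smul (p := p) (0 : ℂ) (0 : Matrix ι ι ℂ)
    rwa [zero_smul, zero_smul] at h1
  have hne' : ∃ x ∈ tor Φ, β (rm p x) ≠ 0 := by
    obtain ⟨x, hx, hx0⟩ := hne
    obtain ⟨τ, hτ, rfl⟩ := mem_res.1 hx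
    exact ⟨τ, hτ, hx0⟩
  obtain ⟨y, G, π, J⟩ := exists_jrt M H hI hz hz0 (α := fun x => β (rm p x)) hroot hne'
  refine ⟨z, y, G, π, J, hzD, ?_⟩
  have hst := F.irr.1
  have hzy : ∀ w ∈ W, (z * y).mulVec w ∈ W := fun w hw => by
    rw [← Matrix.mulVec_mulVec]
    exact hst z hz _ (hst y J.my w hw)
  set D' := rm p y with hD'
  have hDD : D * D' * D = D := by
    rw [hD', ← hzD, ← rm_mul F.prj (hst z hz) (hst y J.my), ← rm_mul F.prj hzy (hst z hz),
      J.zyz]
  have hS : rm p (z * y - y * z) = D * D' - D' * D := by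
    rw [rm_sub, rm_mul F.prj (hst z hz) (hst y J.my), rm_mul F.prj (hst y J.my) (hst z hz),
      hzD]
  have hSt : rm p (z * y - y * z) ∈ res p (tor Φ) := rm_mem J.cor
  have hSv : ∀ μ, rm p (z * y - y * z) (v μ) = (rs R Φ σ G μ : ℂ) • v μ := by
    intro μ
    refine Subtype.ext ?_
    rw [rm_apply F.prj (hst _ (M.le J.cor)), J.val _ _ (F.bas μ)]
    rfl
  set S := rm p (z * y - y * z) with hSdef
  have htr : ∀ x ∈ res p (tor Φ), LinearMap.trace ℂ W (x * S) =
      LinearMap.trace ℂ W (x * T) := by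
    intro x hx
    rw [hr x hx, mul_comm, hS]
    exact trace_gen hDD (hβ x hx)
  have C := cartan_res M H F.irr F.prj
  have hTt : T ∈ res p (tor Φ) := by
    refine C.cent T hT fun x hx => v.ext fun μ => ?_
    obtain ⟨k, hk⟩ := F.hv M x hx μ
    rw [Module.End.mul_apply, Module.End.mul_apply, hk, hTv, map_smul, map_smul, hTv, hk,
      smul_comm]
  exact eq_gen v hSt hTt htr hSv hTv

end Pool.Agent.FQU
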