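import Pool.Agent.FQU.Final

/-!
# The main theorem
-/

set_option autoImplicit false
set_option linter.unusedSectionVars false

namespace Pool.Agent.FQU

open Module
open Pool.Agent.CoprimeSig (ratM)
open Pool.Agent.FQ (expG fixG)

variable {ι : Type} [Fintype ι] [DecidableEq ι] {E : Type} [CommRing E]
  {R : E →+* Matrix ι ι ℚ} {Φ : Matrix ι ι ℚ} {c : E → E}

/-- The condition on the eigenspace of `E` for `σ`; `W` is an irreducible subspace, `e` the idempotent of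
the decomposition of Hodge and Tate at the given place and `τ` its Frobenius automorphism.

Either the powers of `τ` are transitive on the embeddings of the factor of `E` to which `σ` belongs,
`dim W` is not a power of two (except `2` and `4`), and if it is a `k`-th power, `k ≥ 2`, then `k` is prime
to the degree of `K`. Or `dim W` is `2` modulo `4`, or `4` with `σ` real; and if `σ` is not real, the
rank of `e` on `W` is half the dimension of `W`. -/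
def DimCond (K : Subfield ℂ) (τ : ℂ ≃+* ℂ) (e : Matrix ι ι ℂ) (σ : E →+* ℂ)
    (W : Submodule ℂ (ι → ℂ)) : Prop :=
  (Cyc τ σ ∧ (∀ m : ℕ, 3 ≤ m → finrank ℂ W ≠ 2 ^ m) ∧
    ∀ m k : ℕ, 2 ≤ k → finrank ℂ W = m ^ k → (finrank ℚ K).Coprime k) ∨
  ((finrank ℂ W % 4 = 2 ∨ ((∀ a, starRingEnd ℂ (σ a) = σ a) ∧ finrank ℂ W = 4)) ∧
    ((∀ a, starRingEnd ℂ (σ a) = σ a) ∨
      ∀ A : End ℂ W, (∀ w, (A w : ι → ℂ) = e.mulVec w) →
        2 * LinearMap.trace ℂ W A = finrank ℂ W))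

private theorem mn_orbit (hΦ : ⨆ μ, Module.End.eigenspace (Matrix.toLin' (ratM Φ)) μ = ⊤)
    {g : Submodule ℂ (Matrix ι ι ℂ)} {e x : Matrix ι ι ℂ} (hee : e * e = e)
    (hx : x ∈ orbit Φ g e) : x ∈ tor Φ ∧ x * x = x := by
  obtain ⟨e', he', ⟨u, -, hu⟩, γ, rfl⟩ := hx
  have h1 : e' * e' = e' := conj_idem hee hu
  have hmap : ∀ A B : Matrix ι ι ℂ, (A * B).map γ = A.map γ * B.map γ := fun A B =>
    Matrix.map_mul (f := (γ : ℂ →+* ℂ))
  exact ⟨map_mem_tor he' γ hΦ, by rw [← hmap, h1]⟩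

private theorem mn_alg {μ : ℂ} (hμ : Module.End.HasEigenvalue (Matrix.toLin' (ratM Φ)) μ) :
    IsAlgebraic ℚ μ := by
  rw [Module.End.hasEigenvalue_iff_isRoot_charpoly, Matrix.charpoly_toLin'] at hμ
  refine ⟨Φ.charpoly, Φ.charpoly_monic.ne_zero, ?_⟩
  have h2 : (ratM Φ).charpoly = Φ.charpoly.map (algebraMap ℚ ℂ) := by
    rw [← Matrix.charpoly_map]
    rfl
  rw [h2] at hμ
  rwa [Polynomial.IsRoot.def, Polynomial.eval_map_algebraMap] at hμ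

/-- The main theorem. -/
theorem main [Algebra ℚ E] [Module.Finite ℚ E] [IsReduced E] (H : IsFrob R Φ)
    (hc : ∀ (σ : E →+* ℂ) a, σ (c a) = starRingEnd ℂ (σ a))
    {K : Subfield ℂ} [FiniteDimensional ℚ K] (hK : ∀ z ∈ K, starRingEnd ℂ z = z)
    (hHT : ∀ γ ∈ fixG K, ∀ S : Finset ℂ, (∀ x ∈ S, IsAlgebraic ℚ x) →
      ∃ τ : ℂ ≃+* ℂ, (∀ x ∈ S, τ x = γ x) ∧ ∃ (g : Submodule ℂ (Matrix ι ι ℂ))
        (ψ e : Matrix ι ι ℂ), Mono R c Φ g ψ ∧ Coch Φ g ψ τ e)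
    (hNW : ∃ τ ∈ fixG K, ∃ (g : Submodule ℂ (Matrix ι ι ℂ)) (ψ e : Matrix ι ι ℂ),
      Mono R c Φ g ψ ∧ Coch Φ g ψ τ e ∧ tor Φ ≤ Submodule.span ℂ (orbit Φ g e) ∧
      ∀ (σ : E →+* ℂ) (W : Submodule ℂ (ι → ℂ)), W ≤ HS R σ → Irr g W → DimCond K τ e σ W)
    {g : Submodule ℂ (Matrix ι ι ℂ)} {ψ : Matrix ι ι ℂ}
    (M : Mono R c Φ g ψ) (N : Matrix ι ι ℂ) :
    N ∈ g ↔ ∃ m : ℂ, N.transpose * ψ + ψ * N = m • ψ ∧
      (∀ Z : Matrix ι ι ℂ, (∀ x ∈ g, x * Z = Z * x) → N * Z = Z * N) ∧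
      ∀ W, Irr g W → ∀ A : End ℂ W, (∀ w, (A w : ι → ℂ) = N.mulVec w) →
        2 * LinearMap.trace ℂ W A = m * finrank ℂ W := by
  classical
  obtain ⟨τ₀, hτ₀, g₀, ψ₀, e₀, M₀, C₀, hspan, hdim⟩ := hNW
  have hI : Idem Φ := hspan.trans (Submodule.span_mono fun x hx => mn_orbit H.diag C₀.idem hx)
  -- the condition in terms of the eigenvalues
  have hcond : ∀ σ : E →+* ℂ,
      (2 * sm R Φ σ (ev Φ e₀) = Fintype.card (Om R Φ σ)) ∧
      (∀ m : ℕ, 3 ≤ m → Fintype.card (Om R Φ σ) ≠ 2 ^ m) ∧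
      ((Cyc τ₀ σ ∧ ∀ m k : ℕ, 2 ≤ k → Fintype.card (Om R Φ σ) = m ^ k →
          (finrank ℚ K).Coprime k) ∨
        Fintype.card (Om R Φ σ) % 4 = 2 ∨
        ((∀ a, starRingEnd ℂ (σ a) = σ a) ∧ Fintype.card (Om R Φ σ) = 4)) := by
    intro σ
    obtain ⟨W, p, v, F⟩ := exists_frame M₀ H hI σ
    have h1 := hdim σ W F.le F.irr
    unfold DimCond at h1
    rw [← F.card] at h1
    rcases h1 with ⟨h1, h2, h3⟩ | ⟨h1, h2⟩
    · exact ⟨two_sm H hI M₀ C₀ σ h1, h2, Or.inl ⟨h1, h3⟩⟩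
    · have h3 : ∀ m : ℕ, 3 ≤ m → Fintype.card (Om R Φ σ) ≠ 2 ^ m := by
        intro m hm h4
        have h5 : 8 ∣ Fintype.card (Om R Φ σ) := by
          rw [h4]
          exact pow_dvd_pow 2 hm
        rcases h1 with h1 | ⟨-, h1⟩ <;> omega
      refine ⟨?_, h3, Or.inr h1⟩
      rcases h2 with hr | hb
      · have h4 := sm_dual H C₀.mem C₀.idem (trace_of_mult M₀ C₀.mult) σ
        have h5 : cp starRingAut σ = σ := by
          ext a
          exact hr a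
        rw [h5] at h4
        rw [two_mul, h4]
      · have h4 := hb (rm p e₀) fun w => rm_apply F.prj (F.irr.1 e₀ (M₀.le C₀.mem)) w
        rw [trace_rm F M₀ C₀.mem C₀.idem] at h4
        exact_mod_cast h4
  have hB : Bal R Φ := bal_of H M₀ C₀ (fun σ => (hcond σ).1) hspan
  have hHTc : HTc R c Φ := by
    have hfin := Module.End.finite_hasEigenvalue (Matrix.toLin' (ratM Φ))
    obtain ⟨τ, h1, g₁, ψ₁, e₁, M₁, C₁⟩ := hHT starRingAut (fun x hx => hK x hx) hfin.toFinset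
      fun x hx => mn_alg ((Set.Finite.mem_toFinset hfin).1 hx)
    exact ⟨τ, g₁, ψ₁, e₁, fun μ hμ => h1 μ ((Set.Finite.mem_toFinset hfin).2 hμ), M₁, C₁⟩
  have hfull : ∀ (σ : E →+* ℂ) (W : Submodule ℂ (ι → ℂ)) (p : (ι → ℂ) →ₗ[ℂ] W)
      (v : Basis (Om R Φ σ) ℂ W), Frame R Φ g σ W p v → FullW g ψ p := by
    intro σ W p v F
    refine full_all H hB hc hHTc M F (hcond σ).2.1 ?_
    rcases (hcond σ).2.2 with ⟨hcyc, hnum⟩ | h1 | h1
    · exact Or.inr (Or.inr fun h h' hh hh' => all_cn H hI K hHT hτ₀ M₀ C₀ hspan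
        (fun g' ψ' e' M' he' hee' hm' => ns_of_mult M' H hB he' hee' hm') σ hcyc hnum h h' hh hh')
    · exact Or.inl h1
    · exact Or.inr (Or.inl h1)
  have hkind : ∀ σ : E →+* ℂ, ∃ Ad St, KindAt R Φ g σ Ad St := by
    intro σ
    obtain ⟨W, p, v, F⟩ := exists_frame M H hI σ
    exact exists_kind M H hB hc F (hfull σ W p v F) (hcond σ).2.1
  exact mem_iff M H hB hc hkind hfull N

end Pool.Agent.FQU
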