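import Mathlib

/-!
# Pairs of lattices with common reflections: the ratio (PACKAGE FU13, Mathlib only)

`N` is a space of pairs of functions `(f, f')` on `Ω` and `Ω'`, `J` a set of pairs `(h, h')` in `N` with common
reflections.

Let `(h, h') ∈ J` with the reflections `π`, `π'`. For `f ∈ N` with the coefficient `a`: since `π` is a permutation
`f.1 ⬝ h = (f.1 ∘ π) ⬝ (h ∘ π) = (f.1 - a h) ⬝ (-h)`, so (1) `a * (h ⬝ h) = 2 * (f.1 ⬝ h)` and in the same way (2)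
`a * (h' ⬝ h') = 2 * (f.2 ⬝ h')`. Also `∑ h' = 0`.

Proof of `link`. Let `(h₀, h₀')` be the pair from `hb`, `t = (h₀' ⬝ h₀') / (h₀ ⬝ h₀) > 0`.
Let `P h h'` be: `h ≠ 0`, `h' ≠ 0` and `h' ⬝ h' = t * (h ⬝ h)`. If `P h h'`, `J k k'` and `h ⬝ k ≠ 0` then `P k k'`: by (1), (2) for
`(h, h')` and `f = (k, k')`: `a ≠ 0`, `k' ⬝ h' = (a / 2) * (h' ⬝ h') = t * (k ⬝ h) ≠ 0`, so `k' ≠ 0`; and by (1), (2) for `(k, k')` and
`f = (h, h')`: `b ≠ 0`, `b * (k ⬝ k) = 2 * (h ⬝ k)`, `b * (k' ⬝ k') = 2 * (h' ⬝ k') = 2 * t * (h ⬝ k)`, so `k' ⬝ k' = t * (k ⬝ k)`. By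
`conn` `P h h'` holds for all `(h, h') ∈ J` with `h ≠ 0`. Let `Q h h'` be `h ≠ 0`. If `Q h h'`, `J h h'`, `J k k'` and `h' ⬝ k' ≠ 0` then by (2) for
`(h, h')` and `f = (k, k')` (`h ≠ 0`, so `h' ≠ 0`) `a ≠ 0`, and by (1) `k ⬝ h ≠ 0`, so `k ≠ 0`. By `conn'` all `(h, h') ∈ J` with `h' ≠ 0`
have `h ≠ 0`. The last claim: if `h ≠ 0` by (1), (2) and `P h h'`; if `h = 0` then `h' = 0`.

Proof of `mem_span`: `z = f.2 - x.2`, `(0, z) ∈ N`. By `link` `z ⬝ h' = t * (0 ⬝ h) = 0` for `(h, h') ∈ J`. So `z` is invariant under all the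
`π'` (the coefficient `a` satisfies `a * (h' ⬝ h') = 0` by (2), so `a h' = 0`), hence constant by `tr'`; and `∑ z = ∑ f.2 - ∑ x.2 = 0` (`∑ h' = 0`
for all `(h, h') ∈ J`), so `z = 0` (if `Ω'` is empty `z = 0` anyway). -/

set_option autoImplicit false

namespace Pool.Agent.FQU

variable {Ω Ω' : Type*} [Fintype Ω] [Fintype Ω']

/-- A common reflection of the pairs of functions in `N`. -/
structure PRf (N : Submodule ℚ ((Ω → ℚ) × (Ω' → ℚ))) (h : Ω → ℚ) (h' : Ω' → ℚ)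
    (π : Equiv.Perm Ω) (π' : Equiv.Perm Ω') : Prop where
  neg : ∀ ω, h (π ω) = -h ω
  neg' : ∀ ω, h' (π' ω) = -h' ω
  refl : ∀ f ∈ N, ∃ a : ℚ, (∀ ω, f.1 (π ω) = f.1 ω - a * h ω) ∧ ∀ ω, f.2 (π' ω) = f.2 ω - a * h' ω

/-- A set of pairs of coroots. -/
structure PD (N : Submodule ℚ ((Ω → ℚ) × (Ω' → ℚ))) (J : (Ω → ℚ) → (Ω' → ℚ) → Prop) : Prop where
  mem : ∀ h h', J h h' → (h, h') ∈ N
  refl : ∀ h h', J h h' → ∃ π π', PRf N h h' π π'
  tr : ∀ A : Set Ω, A.Nonempty →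
    (∀ h h' π π', J h h' → PRf N h h' π π' → ∀ ω ∈ A, π ω ∈ A) → A = Set.univ
  tr' : ∀ A : Set Ω', A.Nonempty →
    (∀ h h' π π', J h h' → PRf N h h' π π' → ∀ ω ∈ A, π' ω ∈ A) → A = Set.univ
  conn : ∀ P : (Ω → ℚ) → (Ω' → ℚ) → Prop, (∃ h h', J h h' ∧ h ≠ 0 ∧ P h h') →
    (∀ h h' k k', J h h' → J k k' → P h h' → h ⬝ᵥ k ≠ 0 → P k k') →
    ∀ h h', J h h' → h ≠ 0 → P h h'
  conn' : ∀ P : (Ω → ℚ) → (Ω' → ℚ) → Prop, (∃ h h', J h h' ∧ h' ≠ 0 ∧ P h h') →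
    (∀ h h' k k', J h h' → J k k' → P h h' → h' ⬝ᵥ k' ≠ 0 → P k k') →
    ∀ h h', J h h' → h' ≠ 0 → P h h'

variable {N : Submodule ℚ ((Ω → ℚ) × (Ω' → ℚ))} {J : (Ω → ℚ) → (Ω' → ℚ) → Prop}

/-- The span of the pairs of coroots. -/
def PS (J : (Ω → ℚ) → (Ω' → ℚ) → Prop) : Submodule ℚ ((Ω → ℚ) × (Ω' → ℚ)) :=
  Submodule.span ℚ {x | J x.1 x.2}

private theorem pair_coef {Ω : Type*} [Fintype Ω] (π : Equiv.Perm Ω) {h g : Ω → ℚ} {a : ℚ}
    (neg : ∀ ω, h (π ω) = -h ω) (hg : ∀ ω, g (π ω) = g ω - a * h ω) :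
    a * (h ⬝ᵥ h) = 2 * (g ⬝ᵥ h) := by
  have h1 : g ⬝ᵥ h = ∑ ω, g (π ω) * h (π ω) := (Equiv.sum_comp π fun ω => g ω * h ω).symm
  have h2 : ∑ ω, g (π ω) * h (π ω) = a * (h ⬝ᵥ h) - g ⬝ᵥ h := by
    simp only [dotProduct, Finset.mul_sum, ← Finset.sum_sub_distrib]
    refine Finset.sum_congr rfl fun ω _ => ?_
    rw [neg, hg]
    ring
  linarith

private theorem pair_pos {Ω : Type*} [Fintype Ω] {h : Ω → ℚ} (hh : h ≠ 0) : 0 < h ⬝ᵥ h := by
  obtain ⟨ω, hω⟩ := Function.ne_iff.1 hh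
  refine Finset.sum_pos' (fun i _ => mul_self_nonneg _) ⟨ω, Finset.mem_univ _, ?_⟩
  exact mul_self_pos.2 hω

theorem PD.link (D : PD N J) (hb : ∃ h h', J h h' ∧ h ≠ 0 ∧ h' ≠ 0) :
    ∃ t : ℚ, 0 < t ∧ (∀ h h', J h h' → (h ≠ 0 ↔ h' ≠ 0)) ∧
      ∀ f ∈ N, ∀ h h', J h h' → f.2 ⬝ᵥ h' = t * (f.1 ⬝ᵥ h) := by
  obtain ⟨h₀, h₀', hJ₀, hn, hn'⟩ := hb
  have hp := pair_pos hn
  have hp' := pair_pos hn'
  set t : ℚ := (h₀' ⬝ᵥ h₀') / (h₀ ⬝ᵥ h₀) with ht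
  have ht0 : 0 < t := div_pos hp' hp
  have hP : ∀ h h', J h h' → h ≠ 0 → (h ≠ 0 ∧ h' ≠ 0 ∧ h' ⬝ᵥ h' = t * (h ⬝ᵥ h)) := by
    refine D.conn (fun h h' => h ≠ 0 ∧ h' ≠ 0 ∧ h' ⬝ᵥ h' = t * (h ⬝ᵥ h)) ?_ ?_
    · refine ⟨h₀, h₀', hJ₀, hn, hn, hn', ?_⟩
      rw [ht, div_mul_cancel₀ _ hp.ne']
    · rintro h h' k k' hJ kJ ⟨hh, hh', he⟩ hk
      obtain ⟨π, π', R⟩ := D.refl h h' hJ
      obtain ⟨a, ha, ha'⟩ := R.refl (k, k') (D.mem k k' kJ)
      have e1 := pair_coef π R.neg ha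
      have e2 := pair_coef π' R.neg' ha'
      simp only at e1 e2
      rw [he] at e2
      rw [dotProduct_comm] at hk
      have e3 : k' ⬝ᵥ h' = t * (k ⬝ᵥ h) := by linear_combination (t * e1 - e2) / 2
      have hk0 : k ≠ 0 := by
        rintro rfl
        exact hk (zero_dotProduct h)
      have hk0' : k' ≠ 0 := by
        rintro rfl
        rw [zero_dotProduct] at e3
        exact (mul_ne_zero ht0.ne' hk) e3.symm
      refine ⟨hk0, hk0', ?_⟩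
      obtain ⟨ρ, ρ', S⟩ := D.refl k k' kJ
      obtain ⟨b, hb, hb'⟩ := S.refl (h, h') (D.mem h h' hJ)
      have e4 := pair_coef ρ S.neg hb
      have e5 := pair_coef ρ' S.neg' hb'
      simp only at e4 e5
      rw [dotProduct_comm h k] at e4
      rw [dotProduct_comm h' k', e3] at e5
      have hb0 : b ≠ 0 := by
        rintro rfl
        rw [zero_mul] at e4
        apply hk
        linarith
      have e6 : b * (k' ⬝ᵥ k') = b * (t * (k ⬝ᵥ k)) := by linear_combination e5 - t * e4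
      exact mul_left_cancel₀ hb0 e6
  have hQ : ∀ h h', J h h' → h' ≠ 0 → h ≠ 0 := by
    refine D.conn' (fun h _ => h ≠ 0) ⟨h₀, h₀', hJ₀, hn', hn⟩ ?_
    intro h h' k k' hJ kJ hh hk
    obtain ⟨π, π', R⟩ := D.refl h h' hJ
    obtain ⟨a, ha, ha'⟩ := R.refl (k, k') (D.mem k k' kJ)
    have e1 := pair_coef π R.neg ha
    have e2 := pair_coef π' R.neg' ha'
    simp only at e1 e2
    rintro rfl
    rw [zero_dotProduct, mul_zero] at e1
    rcases mul_eq_zero.1 e1 with h0 | h0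
    · rw [h0, zero_mul, dotProduct_comm] at e2
      apply hk
      linarith
    · exact (pair_pos hh).ne' h0
  refine ⟨t, ht0, fun h h' hJ => ⟨fun hh => (hP h h' hJ hh).2.1, hQ h h' hJ⟩, ?_⟩
  intro f hf h h' hJ
  by_cases hh : h = 0
  · have hh' : h' = 0 := by
      by_contra hne
      exact hQ h h' hJ hne hh
    rw [hh, hh', dotProduct_zero, dotProduct_zero, mul_zero]
  · obtain ⟨π, π', R⟩ := D.refl h h' hJ
    obtain ⟨a, ha, ha'⟩ := R.refl f hf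
    have e1 := pair_coef π R.neg ha
    have e2 := pair_coef π' R.neg' ha'
    rw [(hP h h' hJ hh).2.2] at e2
    linear_combination (t * e1 - e2) / 2

theorem PD.mem_span (D : PD N J) (hb : ∃ h h', J h h' ∧ h ≠ 0 ∧ h' ≠ 0)
    {f x : (Ω → ℚ) × (Ω' → ℚ)} (hf : f ∈ N) (hx : x ∈ PS J) (h1 : f.1 = x.1)
    (h2 : ∑ ω, f.2 ω = 0) : f = x := by
  obtain ⟨t, -, -, hl⟩ := D.link hb
  have hle : PS J ≤ N := by
    refine Submodule.span_le.2 ?_
    rintro ⟨h, h'⟩ hJ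
    exact D.mem h h' hJ
  have hfx : f - x ∈ N := N.sub_mem hf (hle hx)
  have hs : ∑ ω, x.2 ω = 0 := by
    unfold PS at hx
    clear h1 hfx
    induction hx using Submodule.span_induction with
    | mem y hy =>
      obtain ⟨π, π', R⟩ := D.refl y.1 y.2 hy
      have e1 : ∑ ω, y.2 ω = ∑ ω, y.2 (π' ω) := (Equiv.sum_comp π' _).symm
      have e2 : ∑ ω, y.2 (π' ω) = -∑ ω, y.2 ω := by
        rw [← Finset.sum_neg_distrib]
        exact Finset.sum_congr rfl fun ω _ => R.neg' ω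
      linarith
    | zero => simp
    | add y z _ _ hy hz =>
      rw [Prod.snd_add]
      simp only [Pi.add_apply, Finset.sum_add_distrib, hy, hz, add_zero]
    | smul c y _ hy =>
      rw [Prod.smul_snd]
      simp only [Pi.smul_apply, smul_eq_mul, ← Finset.mul_sum, hy, mul_zero]
  have hinv : ∀ h h' π π', J h h' → PRf N h h' π π' → ∀ ω, (f - x).2 (π' ω) = (f - x).2 ω := by
    intro h h' π π' hJ R ω
    obtain ⟨a, ha, ha'⟩ := R.refl (f - x) hfx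
    have e2 := pair_coef π' R.neg' ha'
    have e3 := hl (f - x) hfx h h' hJ
    have e4 : (f - x).1 = 0 := by rw [Prod.fst_sub, h1, sub_self]
    rw [e4, zero_dotProduct, mul_zero] at e3
    rw [e3, mul_zero] at e2
    rw [ha' ω]
    rcases mul_eq_zero.1 e2 with h0 | h0
    · rw [h0, zero_mul, sub_zero]
    · have h3 : h' = 0 := by
        by_contra hne
        exact (pair_pos hne).ne' h0
      rw [h3, Pi.zero_apply, mul_zero, sub_zero]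
  have hz : (f - x).2 = 0 := by
    funext ω₀
    have hc : ∀ ω, (f - x).2 ω = (f - x).2 ω₀ := by
      have h3 := D.tr' {ω | (f - x).2 ω = (f - x).2 ω₀} ⟨ω₀, rfl⟩ (by
        intro h h' π π' hJ R ω hω
        rw [Set.mem_ofPred_eq] at hω ⊢
        rw [hinv h h' π π' hJ R ω, hω])
      intro ω
      have h4 : ω ∈ {ω | (f - x).2 ω = (f - x).2 ω₀} := by rw [h3]; exact Set.mem_univ _
      exact h4
    have h3 : ∑ ω, (f - x).2 ω = 0 := by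
      rw [Prod.snd_sub]
      simp only [Pi.sub_apply, Finset.sum_sub_distrib, h2, hs, sub_zero]
    rw [Finset.sum_congr rfl fun ω _ => hc ω, Finset.sum_const, nsmul_eq_mul] at h3
    have h4 : ((Finset.univ : Finset Ω').card : ℚ) ≠ 0 := by
      rw [Nat.cast_ne_zero]
      exact (Finset.card_pos.2 ⟨ω₀, Finset.mem_univ _⟩).ne'
    exact (mul_eq_zero.1 h3).resolve_left h4
  refine Prod.ext h1 ?_
  rw [Prod.snd_sub] at hz
  exact sub_eq_zero.1 hz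

end Pool.Agent.FQU
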