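import Pool.Agent.FQU.Trans
import Pool.Agent.FQU.CardCl

/-!
# The number of the eigenvalues is a power (PACKAGE FU4)

Proof of `card_pow`. Apply `card_classes (lat M H hI σ)` to the finite type `k = {c // IsCmp R Φ σ c}` (finite: see the
proof of `finite_prs`: every component is `cmp R Φ σ F` for one of the finitely many `F`, `finite_rts`) and
`P c f := ∃ F ∈ c.1, rs R Φ σ F = f`. `h1`: `F ∈ c` implies `Rts R Φ σ F`. `h2`: `exists_rts` and `cmp`. `h3`: if the roots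
`F ∈ c`, `F' ∈ c'` are not orthogonal then they are connected (`Cns`, one step of `Cn`), so `c = c'`
(`cmp_eq_of_mem`).

All factors are equal: let `c`, `c'` be components, `γ` with `cp γ σ = σ` and `mv γ '' c = c'`. The bijection
`ω ↦ γ ω` of `Om R Φ σ` (`mem_Om_cp`, `symm_mem_Om`; or `omE R Φ γ σ` and a cast) maps the classes for `c` to the
classes for `c'`: `F (ω) = F (ω')` for all `F ∈ c` iff `(mv γ F) (γ ω) = (mv γ F) (γ ω')` for all `F ∈ c`
(`mv γ F (γ ω) = F ω`). So `Nat.card (Quotient (cls (P c))) = Nat.card (Quotient (cls (P c')))` (`Quotient.congr`).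
If there is no component take `m = 1` (the product is `1`), else `m` the common value;
`Finset.prod_const`, `Nat.card_eq_fintype_card`. -/

set_option autoImplicit false
set_option linter.unusedSectionVars false

namespace Pool.Agent.FQU

open Module
open Pool.Agent.PrimePow.CC (Rf Rt Lat)

variable {ι : Type} [Fintype ι] [DecidableEq ι] {E : Type} [CommRing E]
  {R : E →+* Matrix ι ι ℚ} {Φ : Matrix ι ι ℚ} {σ : E →+* ℂ} {c : E → E}
  {g : Submodule ℂ (Matrix ι ι ℂ)} {ψ : Matrix ι ι ℂ}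

private theorem fin_cmp (R : E →+* Matrix ι ι ℚ) (Φ : Matrix ι ι ℚ) (σ : E →+* ℂ) :
    Finite {c : Set (ℂ → ℚ) // IsCmp R Φ σ c} := by
  have h1 : {c | IsCmp R Φ σ c}.Finite := by
    refine ((finite_rts R Φ σ).image (cmp R Φ σ)).subset ?_
    rintro c ⟨F, hF, rfl⟩
    exact ⟨F, hF, rfl⟩
  exact h1.to_subtype

/-- The numbers of the classes for conjugate components are equal. -/
private theorem card_cls_mv (R : E →+* Matrix ι ι ℚ) (Φ : Matrix ι ι ℚ) (γ : ℂ ≃+* ℂ)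
    {σ σ' : E →+* ℂ} (h : cp γ σ = σ') (c : Set (ℂ → ℚ)) :
    Nat.card (Quotient (cls fun f : Om R Φ σ → ℚ => ∃ F ∈ c, rs R Φ σ F = f)) =
      Nat.card (Quotient (cls fun f : Om R Φ σ' → ℚ => ∃ F ∈ mv γ '' c, rs R Φ σ' F = f)) := by
  subst h
  have h2 : ∀ (F : ℂ → ℚ) (ω : Om R Φ σ),
      rs R Φ (cp γ σ) (mv γ F) (omE R Φ γ σ ω) = rs R Φ σ F ω := fun F ω => congrFun rs_mv ω
  refine Nat.card_congr (Quotient.congr (omE R Φ γ σ) fun ω ω' => ?_)
  constructor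
  · rintro H _ ⟨_, ⟨F, hF, rfl⟩, rfl⟩
    rw [h2, h2]
    exact H _ ⟨F, hF, rfl⟩
  · rintro H _ ⟨F, hF, rfl⟩
    have h1 := H _ ⟨mv γ F, ⟨F, hF, rfl⟩, rfl⟩
    rwa [h2, h2] at h1

theorem card_pow [Algebra ℚ E] [Module.Finite ℚ E] [IsReduced E] (M : Mono R c Φ g ψ)
    (H : IsFrob R Φ) (hI : Idem Φ) (σ : E →+* ℂ)
    (htr : ∀ c c' : Set (ℂ → ℚ), IsCmp R Φ σ c → IsCmp R Φ σ c' →
      ∃ γ : ℂ ≃+* ℂ, cp γ σ = σ ∧ mv γ '' c = c') :
    ∃ m : ℕ, Fintype.card (Om R Φ σ) = m ^ Nat.card {c : Set (ℂ → ℚ) // IsCmp R Φ σ c} := by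
  have hfin := fin_cmp R Φ σ
  have : Fintype {c : Set (ℂ → ℚ) // IsCmp R Φ σ c} := Fintype.ofFinite _
  have hne : Nonempty (Om R Φ σ) := by
    obtain ⟨W, p, v, F⟩ := exists_frame M H hI σ
    have := F.nontrivial
    exact v.index_nonempty
  have h := card_classes (lat M H hI σ)
    (fun (c : {c : Set (ℂ → ℚ) // IsCmp R Φ σ c}) (f : Om R Φ σ → ℚ) =>
      ∃ F ∈ c.1, rs R Φ σ F = f) (by
        rintro ⟨c, F₀, hF₀, rfl⟩ f ⟨F, hF, rfl⟩
        exact hF.1.rt) (by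
        intro f hf
        obtain ⟨F, hF, rfl⟩ := exists_rts hf
        exact ⟨⟨cmp R Φ σ F, F, hF, rfl⟩, F, ⟨hF, Cns.refl⟩, rfl⟩) (by
        rintro c c' f f' hne ⟨F, hF, rfl⟩ ⟨F', hF', rfl⟩
        by_contra h0
        apply hne
        apply Subtype.ext
        rw [← cmp_eq_of_mem c.2 hF]
        have hF'r : Rts R Φ σ F' := by
          obtain ⟨F₀, hF₀, h1⟩ := c'.2
          rw [h1] at hF'
          exact hF'.1
        refine cmp_eq_of_mem c'.2 hF' ▸ ?_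
        have hmem : F' ∈ cmp R Φ σ F := by
          refine ⟨hF'r, ?_⟩
          exact Relation.ReflTransGen.single ⟨hF'r.rt, h0⟩
        have hFc : IsCmp R Φ σ (cmp R Φ σ F) := by
          rw [cmp_eq_of_mem c.2 hF]
          exact c.2
        exact (cmp_eq_of_mem hFc hmem).symm)
  rw [h, Nat.card_eq_fintype_card]
  rcases isEmpty_or_nonempty {c : Set (ℂ → ℚ) // IsCmp R Φ σ c} with he | ⟨⟨c₀⟩⟩
  · exact ⟨1, by simp⟩
  · refine ⟨Nat.card (Quotient (cls fun f : Om R Φ σ → ℚ => ∃ F ∈ c₀.1, rs R Φ σ F = f)), ?_⟩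
    rw [Finset.prod_congr rfl (g := fun _ =>
      Nat.card (Quotient (cls fun f : Om R Φ σ → ℚ => ∃ F ∈ c₀.1, rs R Φ σ F = f))),
      Finset.prod_const, Finset.card_univ]
    intro c _
    obtain ⟨γ, h1, h2⟩ := htr c₀.1 c.1 c₀.2 c.2
    rw [card_cls_mv R Φ γ h1 c₀.1, h2]

end Pool.Agent.FQU
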