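import Pool.Agent.FQU.StdA

/-!
# The standard coroots, no form (PACKAGE FU20)

`std_sl`: let `D` be the operator `v b ↦ v a`, `v μ ↦ 0` for `μ ≠ b`. Its trace is zero and there is no form (`real_of_form`: a form `φ` with
`IsForm` is not zero because `W ≠ 0`), so `D ∈ res p g` by `hfull`. For `x ∈ res p (tor Φ)`, `x (v μ) = x_μ • v μ`: `x D - D x = (x_a - x_b) • D`,
so `β x = x_a - x_b` (define `β x = (v.repr (x (v a))) a - (v.repr (x (v b))) b`); it is not zero for some `x` by `sep` (`a ≠ b`). Let `h₀ = δ_a - δ_b`,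
`T` the diagonal operator with these values: trace zero, so `T ∈ res p g`. `trace (x T) = x_a - x_b`, `finrank (range D) = 1`. Apply
`exists_coroot`. -/

set_option autoImplicit false
set_option linter.unusedSectionVars false

namespace Pool.Agent.FQU

open Module
open Pool.Agent.CoprimeSig (ratM)

variable {ι : Type} [Fintype ι] [DecidableEq ι] {E : Type} [CommRing E]
  {R : E →+* Matrix ι ι ℚ} {Φ : Matrix ι ι ℚ} {σ : E →+* ℂ} {c : E → E}
  {g : Submodule ℂ (Matrix ι ι ℂ)} {ψ : Matrix ι ι ℂ} {W : Submodule ℂ (ι → ℂ)}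
  {p : (ι → ℂ) →ₗ[ℂ] W} {v : Basis (Om R Φ σ) ℂ W}

theorem std_sl (M : Mono R c Φ g ψ) (H : IsFrob R Φ) (hB : Bal R Φ)
    (hc : ∀ (σ : E →+* ℂ) a, σ (c a) = starRingEnd ℂ (σ a)) (F : Frame R Φ g σ W p v)
    (hfull : FullW g ψ p) (hr : ∃ a, starRingEnd ℂ (σ a) ≠ σ a) [DecidableEq (Om R Φ σ)]
    {a b : Om R Φ σ} (hab : a ≠ b) :
    ∃ (z y : Matrix ι ι ℂ) (G : ℂ → ℚ) (π : ℂ → ℂ), Jrt R Φ g z y G π ∧
      rs R Φ σ G = Pi.single a 1 - Pi.single b 1 := by
  -- there is no form
  have hno : ∀ φ : W →ₗ[ℂ] W →ₗ[ℂ] ℂ, IsForm g ψ p φ → False := by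
    intro φ hφ
    have h0 : φ ≠ 0 := by
      intro h0
      apply F.irr.2.1
      rw [Submodule.eq_bot_iff]
      intro w hw
      have h1 := hφ.nd ⟨w, hw⟩ (fun y => by rw [h0]; rfl)
      exact congrArg Subtype.val h1
    obtain ⟨e, he⟩ := hr
    exact he (real_of_form M hc F.irr F.prj F.le hφ.mult h0 e)
  have hmem : ∀ D : End ℂ W, LinearMap.trace ℂ W D = 0 → D ∈ res p g := fun D hD =>
    hfull D hD fun φ hφ => (hno φ hφ).elim
  -- the root vector
  let D : End ℂ W := v.constr ℂ fun μ => if μ = b then v a else 0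
  have hDv : ∀ μ, D (v μ) = if μ = b then v a else 0 := fun μ => v.constr_basis ℂ _ μ
  have hDb : D (v b) = v a := by rw [hDv, if_pos rfl]
  have hDn : ∀ μ, μ ≠ b → D (v μ) = 0 := fun μ hμ => by rw [hDv, if_neg hμ]
  have hDtr : LinearMap.trace ℂ W D = 0 := by
    rw [LinearMap.trace_eq_matrix_trace ℂ v, Matrix.trace]
    refine Finset.sum_eq_zero fun μ _ => ?_
    rw [Matrix.diag_apply, LinearMap.toMatrix_apply, hDv]
    by_cases hμ : μ = b
    · rw [if_pos hμ, Basis.repr_self, hμ, Finsupp.single_eq_of_ne (Ne.symm hab)]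
    · rw [if_neg hμ, map_zero]
      rfl
  have hD : D ∈ res p g := hmem D hDtr
  have hD0 : D ≠ 0 := by
    intro h0
    have h1 : D (v b) = 0 := by rw [h0]; rfl
    rw [hDb] at h1
    exact v.ne_zero a h1
  -- the diagonal operators
  have hdiag : ∀ x ∈ res p (tor Φ), ∃ d : Om R Φ σ → ℂ, ∀ μ, x (v μ) = d μ • v μ := by
    intro x hx
    choose d hd using F.hv M x hx
    exact ⟨d, hd⟩
  let β : End ℂ W → ℂ := fun x => (v.repr (x (v a))) a - (v.repr (x (v b))) b
  have hβd : ∀ (x : End ℂ W) (d : Om R Φ σ → ℂ), (∀ μ, x (v μ) = d μ • v μ) →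
      β x = d a - d b := by
    intro x d hd
    change (v.repr (x (v a))) a - (v.repr (x (v b))) b = d a - d b
    rw [hd, hd, map_smul, map_smul, Basis.repr_self, Basis.repr_self, Finsupp.smul_apply,
      Finsupp.smul_apply, Finsupp.single_eq_same, Finsupp.single_eq_same, smul_eq_mul,
      smul_eq_mul, mul_one, mul_one]
  have hβ : ∀ x ∈ res p (tor Φ), x * D - D * x = β x • D := by
    intro x hx
    obtain ⟨d, hd⟩ := hdiag x hx
    rw [hβd x d hd]
    refine v.ext fun μ => ?_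
    rw [LinearMap.sub_apply, Module.End.mul_apply, Module.End.mul_apply, LinearMap.smul_apply, hd,
      map_smul]
    by_cases hμ : μ = b
    · rw [hμ, hDb, hd, sub_smul]
    · rw [hDn μ hμ, map_zero, smul_zero, smul_zero, sub_zero]
  have hne : ∃ x ∈ res p (tor Φ), β x ≠ 0 := by
    obtain ⟨x, hx, s, t, hst, hs, ht⟩ := sep H (hasEigenvalue_of_mem a.2)
      (hasEigenvalue_of_mem b.2) (fun h => hab (Subtype.ext h))
    refine ⟨rm p x, rm_mem hx, ?_⟩
    obtain ⟨d, hd⟩ := hdiag _ (rm_mem (p := p) hx)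
    have key : ∀ (μ : Om R Φ σ) (r : ℂ), x.mulVec (v μ : ι → ℂ) = r • (v μ : ι → ℂ) →
        d μ = r := by
      intro μ r hr'
      have h1 : rm p x (v μ) = r • v μ := by
        apply Subtype.ext
        rw [rm_apply F.prj (F.irr.1 x (M.le hx)), hr']
        rfl
      rw [hd] at h1
      have h2 : (d μ - r) • v μ = 0 :=
        (sub_smul (d μ) r (v μ)).trans (sub_eq_zero.2 h1)
      rcases smul_eq_zero.1 h2 with h3 | h3
      · exact sub_eq_zero.1 h3
      · exact absurd h3 (v.ne_zero μ)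
    rw [hβd _ d hd, key a s (hs _ (F.bas a)), key b t (ht _ (F.bas b))]
    exact sub_ne_zero.2 hst
  -- the coroot
  let h₀ : Om R Φ σ → ℚ := Pi.single a 1 - Pi.single b 1
  have hh₀ : h₀ = Pi.single a 1 - Pi.single b 1 := rfl
  let T : End ℂ W := v.constr ℂ fun μ => ((h₀ μ : ℚ) : ℂ) • v μ
  have hTv : ∀ μ, T (v μ) = ((h₀ μ : ℚ) : ℂ) • v μ := fun μ => v.constr_basis ℂ _ μ
  have hTtr : LinearMap.trace ℂ W T = 0 := by
    rw [FQA.trace_dg v hTv, hh₀]
    simp
  have hT : T ∈ res p g := hmem T hTtr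
  have hrange : finrank ℂ (LinearMap.range D) = 1 := by
    have h1 : LinearMap.range D = Submodule.span ℂ {v a} := by
      apply le_antisymm
      · rintro _ ⟨w, rfl⟩
        rw [← v.sum_repr w, map_sum]
        refine Submodule.sum_mem _ fun μ _ => ?_
        rw [map_smul, hDv]
        refine Submodule.smul_mem _ _ ?_
        split_ifs
        · exact Submodule.mem_span_singleton_self _
        · exact Submodule.zero_mem _
      · rw [Submodule.span_singleton_le_iff_mem]
        exact ⟨v b, hDb⟩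
    rw [h1]
    exact finrank_span_singleton (v.ne_zero a)
  have hrr : ∀ x ∈ res p (tor Φ), LinearMap.trace ℂ W (x * T) =
      (finrank ℂ (LinearMap.range D) : ℂ) * β x := by
    intro x hx
    obtain ⟨d, hd⟩ := hdiag x hx
    rw [hrange, Nat.cast_one, one_mul, hβd x d hd, LinearMap.trace_eq_matrix_trace ℂ v,
      Matrix.trace]
    have h1 : ∀ μ, (LinearMap.toMatrix v v (x * T)).diag μ = ((h₀ μ : ℚ) : ℂ) * d μ := by
      intro μ
      rw [Matrix.diag_apply, LinearMap.toMatrix_apply, Module.End.mul_apply, hTv, map_smul, hd,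
        smul_smul, map_smul, Basis.repr_self, Finsupp.smul_apply, Finsupp.single_eq_same,
        smul_eq_mul, mul_one]
    rw [Finset.sum_congr rfl fun μ _ => h1 μ]
    have h2 : ∀ μ, ((h₀ μ : ℚ) : ℂ) * d μ = (if μ = a then d μ else 0) -
        if μ = b then d μ else 0 := by
      intro μ
      rw [hh₀, Pi.sub_apply, Pi.single_apply, Pi.single_apply]
      split_ifs <;> simp
    rw [Finset.sum_congr rfl fun μ _ => h2 μ, Finset.sum_sub_distrib,
      Finset.sum_ite_eq' Finset.univ a, Finset.sum_ite_eq' Finset.univ b,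
      if_pos (Finset.mem_univ a), if_pos (Finset.mem_univ b)]
  obtain ⟨z, y, G, π, hJ, -, hG⟩ := exists_coroot M H hB.idem F hD hD0 hβ hne h₀ hT hTv hrr
  exact ⟨z, y, G, π, hJ, hG⟩

end Pool.Agent.FQU
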