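import Pool.Agent.FQU.Api

/-!
# The component touched by an idempotent
-/

set_option autoImplicit false
set_option linter.unusedSectionVars false

namespace Pool.Agent.FQU

open Module
open Pool.Agent.CoprimeSig (ratM)
open Pool.Agent.FQA (TD Cn)
open Pool.Agent.PrimePow.CC (Rf Rt Lat)
open Pool.Agent.FQ (expG)

variable {ι : Type} [Fintype ι] [DecidableEq ι] {E : Type} [CommRing E]
  {R : E →+* Matrix ι ι ℚ} {Φ : Matrix ι ι ℚ} {σ : E →+* ℂ} {c : E → E}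
  {g : Submodule ℂ (Matrix ι ι ℂ)} {ψ : Matrix ι ι ℂ}

/-- The idempotent is not a scalar on the eigenspaces. -/
def Ns (R : E →+* Matrix ι ι ℚ) (Φ : Matrix ι ι ℚ) (e : Matrix ι ι ℂ) : Prop :=
  ∀ σ : E →+* ℂ, ∃ μ ∈ Om R Φ σ, ∃ ν ∈ Om R Φ σ, ev Φ e μ = 0 ∧ ev Φ e ν = 1

theorem ns_map {e : Matrix ι ι ℂ} (he : Ns R Φ e) (γ : ℂ ≃+* ℂ) : Ns R Φ (e.map γ) := by
  intro σ
  obtain ⟨μ, hμ, ν, hν, h0, h1⟩ := he (cp γ.symm σ)
  have h2 : cp γ (cp γ.symm σ) = σ := by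
    ext a
    simp [cp_apply]
  refine ⟨γ μ, ?_, γ ν, ?_, ?_, ?_⟩
  · have h3 := mem_Om_cp γ hμ
    rwa [h2] at h3
  · have h3 := mem_Om_cp γ hν
    rwa [h2] at h3
  · rw [ev_map, RingEquiv.symm_apply_apply, h0]
  · rw [ev_map, RingEquiv.symm_apply_apply, h1]

/-- Conjugates of idempotents are idempotents. -/
theorem conj_idem {e e' : Matrix ι ι ℂ} (hee : e * e = e) {u : (Matrix ι ι ℂ)ˣ}
    (hue : e' = (u : Matrix ι ι ℂ) * e * ((u⁻¹ : (Matrix ι ι ℂ)ˣ) : Matrix ι ι ℂ)) :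
    e' * e' = e' := by
  have h5 : ((u⁻¹ : (Matrix ι ι ℂ)ˣ) : Matrix ι ι ℂ) * (u : Matrix ι ι ℂ) = 1 := u.inv_mul
  calc e' * e' = (u : Matrix ι ι ℂ) * e *
        (((u⁻¹ : (Matrix ι ι ℂ)ˣ) : Matrix ι ι ℂ) * (u : Matrix ι ι ℂ)) * e *
        ((u⁻¹ : (Matrix ι ι ℂ)ˣ) : Matrix ι ι ℂ) := by rw [hue]; noncomm_ring
    _ = (u : Matrix ι ι ℂ) * (e * e) * ((u⁻¹ : (Matrix ι ι ℂ)ˣ) : Matrix ι ι ℂ) := by
      rw [h5]; noncomm_ring
    _ = e' := by rw [hee, hue]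

theorem tch_isCmp [Algebra ℚ E] [Module.Finite ℚ E] [IsReduced E] (M : Mono R c Φ g ψ) (H : IsFrob R Φ)
    (hI : Idem Φ) {e : Matrix ι ι ℂ} (he : e ∈ tor Φ) (hee : e * e = e) (hns : Ns R Φ e)
    (σ : E →+* ℂ) : IsCmp R Φ σ (tch R Φ σ (ev Φ e)) := by
  obtain ⟨μ, hμ, ν, hν, h0, h1⟩ := hns σ
  refine tch_eq (touch_ex M H hI σ he hee hμ hν h0 h1) fun F F' hF h2 hF' h3 => ?_
  exact touch_cn M H hI σ he hee he (u := 1) (one_mem _) (by simp) hF h2 hF' h3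

theorem tch_conj [Algebra ℚ E] [Module.Finite ℚ E] [IsReduced E] (M : Mono R c Φ g ψ) (H : IsFrob R Φ)
    (hI : Idem Φ) {e e' : Matrix ι ι ℂ} (he : e ∈ tor Φ) (hee : e * e = e) (hns : Ns R Φ e)
    (he' : e' ∈ tor Φ) (hns' : Ns R Φ e') {u : (Matrix ι ι ℂ)ˣ} (hu : u ∈ expG ℂ g)
    (hue : e' = (u : Matrix ι ι ℂ) * e * ((u⁻¹ : (Matrix ι ι ℂ)ˣ) : Matrix ι ι ℂ))
    (σ : E →+* ℂ) : tch R Φ σ (ev Φ e) = tch R Φ σ (ev Φ e') := by
  have hee' : e' * e' = e' := conj_idem hee hue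
  obtain ⟨μ, hμ, ν, hν, h0, h1⟩ := hns σ
  obtain ⟨μ', hμ', ν', hν', h0', h1'⟩ := hns' σ
  refine tch_congr (touch_ex M H hI σ he hee hμ hν h0 h1)
    (touch_ex M H hI σ he' hee' hμ' hν' h0' h1') fun F F' hF h2 hF' h3 => ?_
  exact touch_cn M H hI σ he hee he' hu hue hF h2 hF' h3

/-- Conjugates of idempotents which are not scalars are not scalars. -/
theorem ns_conj [Algebra ℚ E] [Module.Finite ℚ E] [IsReduced E] (M : Mono R c Φ g ψ) (H : IsFrob R Φ)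
    (hI : Idem Φ) {e e' : Matrix ι ι ℂ} (he : e ∈ tor Φ) (hee : e * e = e) (hns : Ns R Φ e)
    (he' : e' ∈ tor Φ) {u : (Matrix ι ι ℂ)ˣ} (hu : u ∈ expG ℂ g)
    (hue : e' = (u : Matrix ι ι ℂ) * e * ((u⁻¹ : (Matrix ι ι ℂ)ˣ) : Matrix ι ι ℂ)) :
    Ns R Φ e' := by
  intro σ
  obtain ⟨μ, hμ, ν, hν, h0, h1⟩ := hns σ
  obtain ⟨W, p, v, F⟩ := exists_frame M H hI σ
  obtain ⟨-, -, a3⟩ := rm_val F M he hee
  obtain ⟨-, -, b3⟩ := rm_val F M he' (conj_idem hee hue)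
  obtain ⟨u', -, hconj⟩ := exp_res F.prj F.irr.1 hu
  have h5 := hconj e (M.le he)
  rw [← hue] at h5
  -- the idempotent is not a scalar
  have key : ∀ c : ℂ, (∀ ω ∈ Om R Φ σ, (ev Φ e' ω : ℂ) = c) → False := by
    intro c hc
    have h6 : rm p e' = c • (1 : End ℂ W) := by
      refine v.ext fun ω => ?_
      rw [b3 ω, rs_apply, hc ω ω.2]
      rfl
    have h7 : rm p e = c • (1 : End ℂ W) := by
      have h8 : ((u'⁻¹ : (End ℂ W)ˣ) : End ℂ W) * rm p e' * (u' : End ℂ W) = rm p e := by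
        rw [h5]
        have h9 : ((u'⁻¹ : (End ℂ W)ˣ) : End ℂ W) * (u' : End ℂ W) = 1 := u'.inv_mul
        calc ((u'⁻¹ : (End ℂ W)ˣ) : End ℂ W) * ((u' : End ℂ W) * rm p e *
              ((u'⁻¹ : (End ℂ W)ˣ) : End ℂ W)) * (u' : End ℂ W) =
              (((u'⁻¹ : (End ℂ W)ˣ) : End ℂ W) * (u' : End ℂ W)) * rm p e *
              (((u'⁻¹ : (End ℂ W)ˣ) : End ℂ W) * (u' : End ℂ W)) := by noncomm_ring
          _ = rm p e := by rw [h9, one_mul, mul_one]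
      rw [← h8, h6, mul_smul_comm, mul_one, smul_mul_assoc]
      congr 1
      exact u'.inv_mul
    have h10 := a3 ⟨μ, hμ⟩
    have h11 := a3 ⟨ν, hν⟩
    rw [h7, LinearMap.smul_apply, Module.End.one_apply, rs_apply] at h10 h11
    rw [h0, Rat.cast_zero, zero_smul] at h10
    rw [h1, Rat.cast_one, one_smul] at h11
    rcases smul_eq_zero.1 h10 with h12 | h12
    · rw [h12, zero_smul] at h11
      exact v.ne_zero _ h11.symm
    · exact v.ne_zero _ h12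
  by_contra hcon
  by_cases h6 : ∃ ω ∈ Om R Φ σ, ev Φ e' ω = 0
  · obtain ⟨ω, hω, h7⟩ := h6
    refine key 0 fun ω' hω' => ?_
    rcases ev_or Φ e' ω' with h8 | h8
    · rw [h8, Rat.cast_zero]
    · exact absurd ⟨ω, hω, ω', hω', h7, h8⟩ hcon
  · push Not at h6
    refine key 1 fun ω' hω' => ?_
    rcases ev_or Φ e' ω' with h8 | h8
    · exact absurd h8 (h6 ω' hω')
    · rw [h8, Rat.cast_one]

/-- The touched component for the idempotents of a decomposition of Hodge and Tate is stable. -/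
theorem coch_tch [Algebra ℚ E] [Module.Finite ℚ E] [IsReduced E] (M : Mono R c Φ g ψ) (H : IsFrob R Φ)
    (hI : Idem Φ) {τ : ℂ ≃+* ℂ} {e : Matrix ι ι ℂ} (C : Coch Φ g ψ τ e) (hns : Ns R Φ e)
    (σ : E →+* ℂ) : mv τ '' tch R Φ σ (ev Φ e) = tch R Φ (cp τ σ) (ev Φ e) := by
  rw [← tch_mv H.diag]
  have h1 : mv τ (ev Φ e) = ev Φ (e.map τ) := funext fun μ => (ev_map Φ e τ μ).symm
  rw [h1]
  obtain ⟨u, hu, hue⟩ := C.conj
  exact (tch_conj M H hI C.mem C.idem hns (map_mem_tor C.mem τ H.diag) (ns_map hns τ) hu hue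
    (cp τ σ)).symm

/-- A component is determined by each of its elements. -/
theorem cmp_eq_of_mem {c : Set (ℂ → ℚ)} (hc : IsCmp R Φ σ c) {F : ℂ → ℚ} (hF : F ∈ c) :
    cmp R Φ σ F = c := by
  obtain ⟨F₀, h0, rfl⟩ := hc
  ext F'
  constructor
  · rintro ⟨h1, h2⟩
    exact ⟨h1, hF.2.trans h2⟩
  · rintro ⟨h1, h2⟩
    exact ⟨h1, (hF.2.symm h0).trans h2⟩

/-- The functional which gives the scalar product of the values with those of `F`. -/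
theorem exists_functional (R : E →+* Matrix ι ι ℚ) (Φ : Matrix ι ι ℚ) (σ : E →+* ℂ)
    (F : Om R Φ σ → ℚ) : ∃ L : Matrix ι ι ℂ →ₗ[ℂ] ℂ, ∀ (z : Matrix ι ι ℂ) (f : Om R Φ σ → ℚ),
      Vals R Φ σ z f → L z = ((f ⬝ᵥ F : ℚ) : ℂ) := by
  have h1 : ∀ ω : Om R Φ σ, ∃ w : ι → ℂ, ∃ i : ι, w ∈ HS R σ ∧ w i ≠ 0 ∧
      (ratM Φ).mulVec w = (ω : ℂ) • w := by
    rintro ⟨ω, w, hw, hw0, hω⟩
    obtain ⟨i, hi⟩ := Function.ne_iff.1 hw0
    exact ⟨w, i, hw, hi, hω⟩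
  choose w i hw hi hω using h1
  refine ⟨{ toFun := fun z => ∑ ω : Om R Φ σ, (z.mulVec (w ω)) (i ω) * (w ω (i ω))⁻¹ * (F ω : ℂ)
            map_add' := fun x y => ?_
            map_smul' := fun c x => ?_ }, fun z f hz => ?_⟩
  · rw [← Finset.sum_add_distrib]
    refine Finset.sum_congr rfl fun ω _ => ?_
    rw [Matrix.add_mulVec, Pi.add_apply]
    ring
  · rw [RingHom.id_apply, smul_eq_mul, Finset.mul_sum]
    refine Finset.sum_congr rfl fun ω _ => ?_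
    rw [Matrix.smul_mulVec, Pi.smul_apply, smul_eq_mul]
    ring
  · change ∑ ω : Om R Φ σ, (z.mulVec (w ω)) (i ω) * (w ω (i ω))⁻¹ * (F ω : ℂ) = _
    rw [dotProduct]
    push_cast
    refine Finset.sum_congr rfl fun ω _ => ?_
    rw [hz ω (w ω) (hw ω) (hω ω), Pi.smul_apply, smul_eq_mul, mul_assoc (f ω : ℂ),
      mul_inv_cancel₀ (hi ω), mul_one]

/-- Every component is the conjugate of the component touched by the idempotent. -/
theorem comp_orbit [Algebra ℚ E] [Module.Finite ℚ E] [IsReduced E] (M : Mono R c Φ g ψ) (H : IsFrob R Φ)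
    (hI : Idem Φ) {e : Matrix ι ι ℂ} (he : e ∈ tor Φ) (hee : e * e = e) (hns : Ns R Φ e)
    (hspan : tor Φ ≤ Submodule.span ℂ (orbit Φ g e)) {σ : E →+* ℂ} {c : Set (ℂ → ℚ)}
    (hc : IsCmp R Φ σ c) : ∃ (γ : ℂ ≃+* ℂ) (σ' : E →+* ℂ),
      σ = cp γ σ' ∧ c = mv γ '' tch R Φ σ' (ev Φ e) := by
  obtain ⟨F, hF, rfl⟩ := hc
  obtain ⟨π, hπ⟩ := hF.rt
  obtain ⟨-, y, hy, hvy⟩ := mem_Ls.1 hπ.mem
  obtain ⟨L, hL⟩ := exists_functional R Φ σ (rs R Φ σ F)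
  have hLy : L y ≠ 0 := by
    rw [hL y _ hvy]
    intro h0
    have h1 : (rs R Φ σ F ⬝ᵥ rs R Φ σ F : ℚ) = 0 := by exact_mod_cast h0
    exact hπ.ne (dotProduct_self_eq_zero.1 h1)
  obtain ⟨z, hz, hLz⟩ : ∃ z ∈ orbit Φ g e, L z ≠ 0 := by
    by_contra hcon
    push Not at hcon
    have h1 : tor Φ ≤ LinearMap.ker L := hspan.trans (Submodule.span_le.2 fun z hz => hcon z hz)
    exact hLy (h1 hy)
  obtain ⟨e', he', ⟨u, hu, hue⟩, γ, rfl⟩ := hz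
  have hee' : e' * e' = e' := conj_idem hee hue
  have hns' : Ns R Φ e' := ns_conj M H hI he hee hns he' hu hue
  have hz1 : e'.map γ ∈ tor Φ := map_mem_tor he' γ H.diag
  have hz2 : e'.map γ * e'.map γ = e'.map γ := by
    have h1 := Matrix.map_mul (L := e') (M := e') (f := (γ : ℂ →+* ℂ))
    rw [hee'] at h1
    exact h1.symm
  have hne : rs R Φ σ (ev Φ (e'.map γ)) ⬝ᵥ rs R Φ σ F ≠ 0 := by
    intro h0
    apply hLz
    rw [hL _ _ (vals_ev hz1 hz2), h0, Rat.cast_zero]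
  have hmem : F ∈ tch R Φ σ (ev Φ (e'.map γ)) := ⟨hF, F, hF, hne, Cns.refl⟩
  have hcmp := tch_isCmp M H hI hz1 hz2 (ns_map hns' γ) σ
  have hσ : σ = cp γ (cp γ.symm σ) := by
    ext a
    simp [cp_apply]
  refine ⟨γ, cp γ.symm σ, hσ, ?_⟩
  rw [cmp_eq_of_mem hcmp hmem, tch_conj M H hI he hee hns he' hns' hu hue (cp γ.symm σ),
    ← tch_mv H.diag, ← hσ]
  congr 1
  exact funext fun μ => ev_map Φ e' γ μ

/-- The action on the pairs. -/
@[reducible] def actP (hΦ : ⨆ μ, Module.End.eigenspace (Matrix.toLin' (ratM Φ)) μ = ⊤) :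
    MulAction (ℂ ≃+* ℂ) (Prs R Φ) where
  smul γ q := ⟨(cp γ q.1.1, mv γ '' q.1.2), isCmp_mv hΦ γ q.2⟩
  one_smul q := Subtype.ext (Prod.ext rfl
    ((Set.image_congr fun F _ => (mv_one : mv 1 F = F)).trans (Set.image_id' _)))
  mul_smul γ γ' q := Subtype.ext (Prod.ext rfl (by
    change mv (γ * γ') '' q.1.2 = mv γ '' (mv γ' '' q.1.2)
    rw [Set.image_image]
    rfl))

/-- The action on the embeddings. -/
@[reducible] def actE : MulAction (ℂ ≃+* ℂ) (E →+* ℂ) where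
  smul γ σ := cp γ σ
  one_smul _ := rfl
  mul_smul _ _ _ := rfl

/-- The eigenvalues are algebraic numbers. -/
theorem eig_alg {μ : ℂ} (hμ : μ ∈ Om R Φ σ) : IsAlgebraic ℚ μ := by
  have h1 := hasEigenvalue_of_mem hμ
  rw [Module.End.hasEigenvalue_iff_isRoot_charpoly, Matrix.charpoly_toLin'] at h1
  refine ⟨Φ.charpoly, Φ.charpoly_monic.ne_zero, ?_⟩
  have h2 : (ratM Φ).charpoly = Φ.charpoly.map (algebraMap ℚ ℂ) := by
    rw [← Matrix.charpoly_map]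
    rfl
  rw [h2] at h1
  rwa [Polynomial.IsRoot.def, Polynomial.eval_map_algebraMap] at h1

/-- Automorphisms which agree on the eigenvalues act in the same way on roots. -/
theorem mv_congr {γ τ : ℂ ≃+* ℂ} (h : ∀ μ ∈ Om R Φ σ, τ μ = γ μ) {F : ℂ → ℚ}
    (hF : Rts R Φ σ F) : mv γ F = mv τ F := by
  funext ν
  change F (γ.symm ν) = F (τ.symm ν)
  by_cases h1 : γ.symm ν ∈ Om R Φ σ
  · have h2 := h _ h1
    rw [RingEquiv.apply_symm_apply] at h2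
    rw [← h2, RingEquiv.symm_apply_apply, h2]
  · by_cases h3 : τ.symm ν ∈ Om R Φ σ
    · have h2 := h _ h3
      rw [RingEquiv.apply_symm_apply] at h2
      exact absurd (by rw [h2, RingEquiv.symm_apply_apply]; exact h3) h1
    · rw [hF.supp _ h1, hF.supp _ h3]

end Pool.Agent.FQU
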