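import Pool.Agent.FQU.PowK
import Pool.Agent.FQ.Index
import Pool.Agent.FQGrp.Fib
import Pool.Agent.FQGrp.Fib2

/-!
# All roots for an embedding are connected (PACKAGE FU5)

This is the generalisation of `all_cn` in `Pool/Agent/FQT/Trans.lean` (the case `K = ℚ`, `E` a field), which should be
adapted. The new features: `E` is a product of fields, the idempotents are stable only under the
automorphisms in `fixG K`, and there is the numerical condition `hnum`.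

Let `B = {σ' : E →+* ℂ // ∀ a, σ' a = 0 ↔ σ a = 0}` and `X = {q : Prs R Φ // ∀ a, q.1.1 a = 0 ↔ σ a = 0}`; the group
`Γ = ℂ ≃+* ℂ` acts on both (`actE`, `actP` restricted: `cp γ σ'` has the same kernel as `σ'`), `π : X → B` the first
component. `X` is finite (`finite_prs`).

Transitivity of `Γ` on `X`: as in `FQT.all_cn` (`comp_orbit`, `coch_tch`, and `hcyc`, which now is assumed for
homomorphisms with the same kernel): every `x ∈ X` is `γ • x₀ σ'` with `x₀ σ' = (σ', tch R Φ σ' (ev Φ e₀))`, where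
`σ' = cp γ⁻¹ σ''` is in `B` too, and `τ₀ ^ k • x₀ σ' = x₀ (cp (τ₀ ^ k) σ')`.

Let `A = fixG K`, a subgroup of index `finrank ℚ K` (`FQ.index_fixG`). `τ₀ ∈ A`. By `hcyc` `A` is transitive on `B`, which
gives `hA` of `fib_transitive`. The fibre of `σ' ∈ B` has `Nat.card {c // IsCmp R Φ σ' c} = k'` elements and
`Fintype.card (Om R Φ σ') = m ^ k'` by `card_pow` (`htr` of `card_pow` for `σ'` follows from the transitivity of `Γ` on
`X`), and `Fintype.card (Om R Φ σ') = Fintype.card (Om R Φ σ)` by `omE` (`σ' = cp γ σ` with `γ = τ₀ ^ k`). So `k'` is prime to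
`finrank ℚ K`: if `k' ≥ 2` by `hnum`, if `k' = 1` clear, and `k' ≠ 0` because the fibre is not empty (`hcop` of
`fib_transitive` is only required for fibres of points of `X`). So `A` is transitive on `X` by `fib_transitive`.

Now apply `jordan_fib` to the group `A` (a subgroup, acting by restriction: `Subgroup` has the instance
`MulAction A X` from `MulAction Γ X`), with the sections from `hHT γ` for `γ ∈ A` as in `FQT.all_cn` (`S` = the eigenvalues of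
`Φ` and the numbers `σ' (b i)` for a basis `b` of `E`; `τ = γ` on `S`; the set is enlarged to all of `E →+* ℂ` as in
`FQT.all_cn`; then restrict to `B`). The conclusion as in `FQT.all_cn`. -/

set_option autoImplicit false
set_option linter.unusedSectionVars false

namespace Pool.Agent.FQU

open Module
open Pool.Agent.CoprimeSig (ratM)
open Pool.Agent.FQA (TD Cn)
open Pool.Agent.PrimePow.CC (Rf Rt Lat)
open Pool.Agent.FQ (expG fixG)

variable {ι : Type} [Fintype ι] [DecidableEq ι] {E : Type} [CommRing E]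
  {R : E →+* Matrix ι ι ℚ} {Φ : Matrix ι ι ℚ} {c : E → E}

/-- Homomorphisms with the same kernel as `σ`. -/
private def BB (σ : E →+* ℂ) : Type := {σ' : E →+* ℂ // ∀ a, σ' a = 0 ↔ σ a = 0}

/-- Pairs whose first component has the same kernel as `σ`. -/
private def XX (R : E →+* Matrix ι ι ℚ) (Φ : Matrix ι ι ℚ) (σ : E →+* ℂ) : Type :=
  {q : Prs R Φ // ∀ a, q.1.1 a = 0 ↔ σ a = 0}

private theorem ker_cp {σ σ' : E →+* ℂ} (h : ∀ a, σ' a = 0 ↔ σ a = 0) (γ : ℂ ≃+* ℂ) :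
    ∀ a, cp γ σ' a = 0 ↔ σ a = 0 := fun a => by
  rw [cp_apply, map_eq_zero_iff γ γ.injective]
  exact h a

@[reducible] private def actX (hΦ : ⨆ μ, Module.End.eigenspace (Matrix.toLin' (ratM Φ)) μ = ⊤)
    (σ : E →+* ℂ) : MulAction (ℂ ≃+* ℂ) (XX R Φ σ) where
  smul γ q := ⟨⟨(cp γ q.1.1.1, mv γ '' q.1.1.2), isCmp_mv hΦ γ q.1.2⟩, ker_cp q.2 γ⟩
  one_smul q := Subtype.ext (Subtype.ext (Prod.ext rfl
    ((Set.image_congr fun F _ => (mv_one : mv 1 F = F)).trans (Set.image_id' _))))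
  mul_smul γ γ' q := Subtype.ext (Subtype.ext (Prod.ext rfl (by
    change mv (γ * γ') '' q.1.1.2 = mv γ '' (mv γ' '' q.1.1.2)
    rw [Set.image_image]
    rfl)))

@[reducible] private def actB (σ : E →+* ℂ) : MulAction (ℂ ≃+* ℂ) (BB σ) where
  smul γ b := ⟨cp γ b.1, ker_cp b.2 γ⟩
  one_smul _ := rfl
  mul_smul _ _ _ := rfl

private theorem iter_pow (τ₀ : ℂ ≃+* ℂ) : ∀ (k : ℕ) (z : ℂ), (τ₀ ^ k) z = (τ₀ ^[k]) z := by
  intro k
  induction k with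
  | zero =>
    intro z
    rfl
  | succ k ih =>
    intro z
    rw [pow_succ, Function.iterate_succ_apply, ← ih]
    rfl

/-- **All roots for an embedding are connected.** -/
theorem all_cn [Algebra ℚ E] [Module.Finite ℚ E] [IsReduced E] (H : IsFrob R Φ) (hI : Idem Φ)
    (K : Subfield ℂ) [FiniteDimensional ℚ K]
    (hHT : ∀ γ ∈ fixG K, ∀ S : Finset ℂ, (∀ x ∈ S, IsAlgebraic ℚ x) →
      ∃ τ : ℂ ≃+* ℂ, (∀ x ∈ S, τ x = γ x) ∧ ∃ (g : Submodule ℂ (Matrix ι ι ℂ))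
        (ψ e : Matrix ι ι ℂ), Mono R c Φ g ψ ∧ Coch Φ g ψ τ e)
    {τ₀ : ℂ ≃+* ℂ} (hτ₀ : τ₀ ∈ fixG K) {g₀ : Submodule ℂ (Matrix ι ι ℂ)} {ψ₀ e₀ : Matrix ι ι ℂ}
    (M₀ : Mono R c Φ g₀ ψ₀) (C₀ : Coch Φ g₀ ψ₀ τ₀ e₀)
    (hspan : tor Φ ≤ Submodule.span ℂ (orbit Φ g₀ e₀))
    (hns : ∀ (g : Submodule ℂ (Matrix ι ι ℂ)) (ψ e : Matrix ι ι ℂ), Mono R c Φ g ψ → e ∈ tor Φ →
      e * e = e → e.transpose * ψ + ψ * e = ψ → Ns R Φ e)
    (σ : E →+* ℂ) (hcyc : Cyc τ₀ σ) (hnum : ∀ m k : ℕ, 2 ≤ k → Fintype.card (Om R Φ σ) = m ^ k →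
      Nat.Coprime (finrank ℚ K) k)
    (h h' : Om R Φ σ → ℚ) (hh : Rt (Ls R Φ σ) h) (hh' : Rt (Ls R Φ σ) h') :
    Cn (Ls R Φ σ) h h' := by
  classical
  have hns₀ : Ns R Φ e₀ := hns g₀ ψ₀ e₀ M₀ C₀.mem C₀.idem C₀.mult
  -- the actions
  let iX : MulAction (ℂ ≃+* ℂ) (XX R Φ σ) := actX H.diag σ
  let iB : MulAction (ℂ ≃+* ℂ) (BB σ) := actB σ
  have : Finite (Prs R Φ) := finite_prs R Φ
  have : Finite (XX R Φ σ) := Subtype.finite
  -- the base points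
  let x₀ : BB σ → XX R Φ σ := fun b =>
    ⟨⟨(b.1, tch R Φ b.1 (ev Φ e₀)), tch_isCmp M₀ H hI C₀.mem C₀.idem hns₀ b.1⟩, b.2⟩
  have hx₀ : ∀ b, τ₀ • x₀ b = x₀ (τ₀ • b) := fun b =>
    Subtype.ext (Subtype.ext (Prod.ext rfl (coch_tch M₀ H hI C₀ hns₀ b.1)))
  have hpow : ∀ (k : ℕ) (b : BB σ), (τ₀ ^ k) • x₀ b = x₀ ((τ₀ ^ k) • b) := by
    intro k
    induction k with
    | zero =>
      intro b
      rw [pow_zero, one_smul, one_smul]
    | succ k ih =>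
      intro b
      rw [pow_succ, mul_smul, hx₀, ih, mul_smul]
  have hcycB : ∀ b b' : BB σ, ∃ k : ℕ, (τ₀ ^ k) • b = b' := by
    intro b b'
    obtain ⟨k, hk⟩ := hcyc b.1 b'.1 b.2 b'.2
    refine ⟨k, Subtype.ext ?_⟩
    ext a
    rw [hk a, ← iter_pow]
    rfl
  have hA : ∀ x : XX R Φ σ, ∃ (γ : ℂ ≃+* ℂ) (b : BB σ), x = γ • x₀ b := by
    rintro ⟨⟨⟨σ₁, c₁⟩, hc₁⟩, hσ₁⟩
    obtain ⟨γ, σ', h1, h2⟩ := comp_orbit M₀ H hI C₀.mem C₀.idem hns₀ hspan hc₁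
    have h3 : ∀ a, σ' a = 0 ↔ σ a = 0 := by
      intro a
      rw [← hσ₁ a]
      change σ' a = 0 ↔ (σ₁, c₁).1 a = 0
      rw [h1, cp_apply, map_eq_zero_iff γ γ.injective]
    exact ⟨γ, ⟨σ', h3⟩, Subtype.ext (Subtype.ext (Prod.ext h1 h2))⟩
  have htr : ∀ x y : XX R Φ σ, ∃ γ : ℂ ≃+* ℂ, γ • x = y := by
    intro x y
    obtain ⟨γ, b₁, rfl⟩ := hA x
    obtain ⟨γ', b₂, rfl⟩ := hA y
    obtain ⟨k, hk⟩ := hcycB b₁ b₂
    refine ⟨γ' * τ₀ ^ k * γ⁻¹, ?_⟩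
    rw [mul_smul, mul_smul, inv_smul_smul, hpow, hk]
  -- the projection
  let π : XX R Φ σ → BB σ := fun x => ⟨x.1.1.1, x.2⟩
  have hπ : ∀ (γ : ℂ ≃+* ℂ) (x : XX R Φ σ), π (γ • x) = γ • π x := fun _ _ => rfl
  -- the cardinality of the fibres
  have hcop : ∀ x : XX R Φ σ, (fixG K).index.Coprime (Nat.card {y : XX R Φ σ // π y = π x}) := by
    intro x
    rw [Pool.Agent.FQ.index_fixG]
    obtain ⟨b, hb⟩ : ∃ b, b = π x := ⟨_, rfl⟩
    have e1 : Nat.card {y : XX R Φ σ // π y = π x} =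
        Nat.card {c : Set (ℂ → ℚ) // IsCmp R Φ b.1 c} := by
      rw [← hb]
      refine Nat.card_congr
        { toFun := fun y => ⟨y.1.1.1.2, ?_⟩
          invFun := fun c => ⟨⟨⟨(b.1, c.1), c.2⟩, b.2⟩, rfl⟩
          left_inv := ?_
          right_inv := fun c => rfl }
      · have h1 : y.1.1.1.1 = b.1 := congrArg Subtype.val y.2
        have h2 := y.1.1.2
        rwa [h1] at h2
      · rintro ⟨⟨⟨⟨σ', c'⟩, h1⟩, h2⟩, h3⟩
        have h4 : σ' = b.1 := congrArg Subtype.val h3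
        exact Subtype.ext (Subtype.ext (Subtype.ext (Prod.ext h4.symm rfl)))
    have hfin : Finite {y : XX R Φ σ // π y = π x} := Subtype.finite
    have hne : Nat.card {y : XX R Φ σ // π y = π x} ≠ 0 := by
      have : Nonempty {y : XX R Φ σ // π y = π x} := ⟨⟨x, rfl⟩⟩
      exact Nat.card_pos.ne'
    rw [e1] at hne ⊢
    have htr' : ∀ c c' : Set (ℂ → ℚ), IsCmp R Φ b.1 c → IsCmp R Φ b.1 c' →
        ∃ γ : ℂ ≃+* ℂ, cp γ b.1 = b.1 ∧ mv γ '' c = c' := by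
      intro c₁ c₂ h1 h2
      obtain ⟨γ, hγ⟩ := htr ⟨⟨(b.1, c₁), h1⟩, b.2⟩ ⟨⟨(b.1, c₂), h2⟩, b.2⟩
      have h3 : ((cp γ b.1, mv γ '' c₁) : (E →+* ℂ) × Set (ℂ → ℚ)) = (b.1, c₂) :=
        congrArg (fun y : XX R Φ σ => y.1.1) hγ
      exact ⟨γ, congrArg Prod.fst h3, congrArg Prod.snd h3⟩
    obtain ⟨m, hm⟩ := card_pow M₀ H hI b.1 htr'
    obtain ⟨k, hk⟩ := hcycB ⟨σ, fun _ => Iff.rfl⟩ b
    have h4 : cp (τ₀ ^ k) σ = b.1 := congrArg Subtype.val hk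
    have h5 : Fintype.card (Om R Φ σ) = Fintype.card (Om R Φ b.1) := by
      rw [← h4]
      exact Fintype.card_congr (omE R Φ (τ₀ ^ k) σ)
    rcases Nat.lt_or_ge (Nat.card {c : Set (ℂ → ℚ) // IsCmp R Φ b.1 c}) 2 with h6 | h6
    · have h7 : Nat.card {c : Set (ℂ → ℚ) // IsCmp R Φ b.1 c} = 1 := by omega
      rw [h7]
      exact Nat.coprime_one_right _
    · exact hnum m _ h6 (h5.trans hm)
  have hfr : (fixG K).index ≠ 0 := by
    rw [Pool.Agent.FQ.index_fixG]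
    exact Module.finrank_pos.ne'
  have hAtr := Pool.Agent.FQGrp.fib_transitive (Γ := ℂ ≃+* ℂ) (X := XX R Φ σ) (B := BB σ)
    π hπ htr (fixG K) hfr (fun x y => by
      obtain ⟨k, hk⟩ := hcycB (π x) (π y)
      exact ⟨τ₀ ^ k, pow_mem hτ₀ k, hk⟩) hcop
  -- the sections
  have hsec : ∀ γ : fixG K, ∃ s : BB σ → XX R Φ σ, (∀ b, π (s b) = b) ∧
      ∀ b, γ • s b = s (γ • b) := by
    rintro ⟨γ, hγ⟩
    let b := Module.finBasis ℚ E
    have hfin : (⋃ σ : E →+* ℂ, (Om R Φ σ ∪ Set.range fun i => σ (b i))).Finite :=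
      Set.finite_iUnion fun σ => (finite_Om R Φ σ).union (Set.finite_range _)
    obtain ⟨τ, hτ, g, ψ, e, M, C⟩ := hHT γ hγ hfin.toFinset (by
      intro x hx
      rw [Set.Finite.mem_toFinset, Set.mem_iUnion] at hx
      obtain ⟨σ, hx | ⟨i, rfl⟩⟩ := hx
      · exact eig_alg hx
      · have h1 : IsAlgebraic ℚ (b i) := Algebra.IsAlgebraic.isAlgebraic _
        exact h1.algHom σ.toRatAlgHom)
    have hS1 : ∀ (σ : E →+* ℂ), ∀ μ ∈ Om R Φ σ, τ μ = γ μ := fun σ μ hμ =>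
      hτ μ (by
        rw [Set.Finite.mem_toFinset, Set.mem_iUnion]
        exact ⟨σ, Or.inl hμ⟩)
    have hS2 : ∀ σ : E →+* ℂ, cp γ σ = cp τ σ := by
      intro σ
      have h1 : (cp γ σ).toRatAlgHom.toLinearMap = (cp τ σ).toRatAlgHom.toLinearMap := by
        refine b.ext fun i => ?_
        change γ (σ (b i)) = τ (σ (b i))
        refine (hτ _ ?_).symm
        rw [Set.Finite.mem_toFinset, Set.mem_iUnion]
        exact ⟨σ, Or.inr ⟨i, rfl⟩⟩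
      ext a
      exact LinearMap.congr_fun h1 a
    have hnse : Ns R Φ e := hns g ψ e M C.mem C.idem C.mult
    refine ⟨fun b => ⟨⟨(b.1, tch R Φ b.1 (ev Φ e)), tch_isCmp M H hI C.mem C.idem hnse b.1⟩,
      b.2⟩, fun _ => rfl, fun b => Subtype.ext (Subtype.ext (Prod.ext rfl ?_))⟩
    change mv γ '' tch R Φ b.1 (ev Φ e) = tch R Φ (cp γ b.1) (ev Φ e)
    rw [hS2 b.1, ← coch_tch M H hI C hnse b.1]
    exact Set.image_congr fun F hF => mv_congr (hS1 b.1) hF.1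
  have hinj := Pool.Agent.FQGrp.jordan_fib (Γ := fixG K) (X := XX R Φ σ) (B := BB σ)
    π (fun _ _ => rfl) (fun x y => by
      obtain ⟨a, ha, h1⟩ := hAtr x y
      exact ⟨⟨a, ha⟩, h1⟩) hsec
  -- the conclusion
  obtain ⟨F, hF, rfl⟩ := exists_rts hh
  obtain ⟨F', hF', rfl⟩ := exists_rts hh'
  have h1 : (⟨⟨(σ, cmp R Φ σ F), F, hF, rfl⟩, fun _ => Iff.rfl⟩ : XX R Φ σ) =
      ⟨⟨(σ, cmp R Φ σ F'), F', hF', rfl⟩, fun _ => Iff.rfl⟩ := hinj rfl
  have h2 : cmp R Φ σ F = cmp R Φ σ F' := congrArg (fun q : XX R Φ σ => q.1.1.2) h1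
  have h3 : F' ∈ cmp R Φ σ F := by
    rw [h2]
    exact ⟨hF', Cns.refl⟩
  exact h3.2

end Pool.Agent.FQU
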